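import Pool.Agent.H50.RL.Ef

/-!
[H50 RL AA] The explicit formula for the difference `fz u - fz (u - η)`, tested against `k`.

PROOF. `K u = ∫ w in u..(u+η), k w`: `C^5`, `K v = 0` unless `a - η ≤ v ≤ b`, so compactly supported in `(0, ∞)`, `K 0 = 0`. `explicit K`:
`Σ Λ(n) K(log n) = Lp K 1 - Σ mz Lp K ρ`, and `Lp K s = Lf K s = (1 - exp(-s η))/s · Lf k s` for `s ≠ 0` (write `K u = ∫_0^η k(u+w) dw`, Fubini, substitute).
(1) `∫ (ψ(e^u) - ψ(e^{u-η})) k(u) du = Σ Λ(n) K(log n)`: `ψ(e^u) - ψ(e^{u-η}) = Σ_{u-η < log n ≤ u} Λ(n)`, and `u - η < log n ≤ u` iff `log n ≤ u < log n + η`; a finite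
sum (only `n ≤ e^b`). (2) `∫ (e^u - e^{u-η}) k(u) du = (1 - e^{-η}) Lf k 1 = Lp K 1`. So `∫ (fz u - fz(u-η)) k = - Σ_ρ mz (1 - e^{-ρη})/ρ Lf k ρ` over ALL zeros (`ρ ≠ 0`). (3) The zeros with
`Re ρ ≤ 0` are real negative (`zeta_left`), `ρ = -‖ρ‖`, `Re ρ = ρ`: `mz (1 - e^{-ρη})/ρ Lf k ρ = ∫ (mz/ρ)(e^{ρu} - e^{ρ(u-η)}) k(u) du`, and the sum over them is `∫ (Tz u - Tz (u-η)) k(u) du` (dominated: on the
support `u - η ≥ a - η > 0`, `e^{ρ(u-η)} ≤ e^{-‖ρ‖(a-η)}`, times `mz/‖ρ‖` summable by `s_one` since `e^{-x c} ≤ C_c/x`; `hasSum_integral_of_summable_integral_norm`). (4) Summability of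
`mz ‖Lf k ρ‖` over `0 < Re ρ < 1`: two integrations by parts, `‖Lf k ρ‖ ≤ C/‖ρ‖^2`, `s_one 2`.
-/

set_option autoImplicit false

namespace Pool.Agent.H50.RL

open MeasureTheory Filter Topology

private theorem aa_cs {k : ℝ → ℝ} {a b : ℝ} (hs : ∀ u, k u ≠ 0 → a ≤ u ∧ u ≤ b) :
    HasCompactSupport k := by
  refine HasCompactSupport.intro (K := Set.Icc a b) isCompact_Icc fun u hu => ?_
  by_contra h
  exact hu (hs u h)

private theorem aa_int {k : ℝ → ℝ} (hk : Continuous k) (hc : HasCompactSupport k) {f : ℝ → ℂ}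
    (hf : Continuous f) : Integrable fun u => (k u : ℂ) * f u := by
  refine Continuous.integrable_of_hasCompactSupport (by fun_prop) ?_
  exact (hc.comp_left (g := fun x : ℝ => (x : ℂ)) (by simp)).mul_right

private theorem aa_parts {g : ℝ → ℝ} (hg : ContDiff ℝ 1 g) (hc : HasCompactSupport g) (z : ℂ) :
    z * Lf g z = -Lf (deriv g) z := by
  have hd : ∀ x, HasDerivAt (fun x : ℝ => (g x : ℂ)) ((deriv g x : ℝ) : ℂ) x := fun x =>
    ((hg.differentiable one_ne_zero x).hasDerivAt).ofReal_comp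
  have he : ∀ x : ℝ, HasDerivAt (fun x : ℝ => Complex.exp (z * x)) (Complex.exp (z * x) * z) x := by
    intro x
    have h1 : HasDerivAt (fun x : ℝ => z * (x : ℂ)) z x := by
      simpa using (Complex.ofRealCLM.hasDerivAt (x := x)).const_mul z
    exact h1.cexp
  have hce : Continuous fun x : ℝ => Complex.exp (z * x) := by fun_prop
  have hdc : Continuous (deriv g) := hg.continuous_deriv le_rfl
  have h := integral_mul_deriv_eq_deriv_mul_of_integrable (u := fun x : ℝ => (g x : ℂ))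
    (v := fun x : ℝ => Complex.exp (z * x)) (u' := fun x : ℝ => ((deriv g x : ℝ) : ℂ))
    (v' := fun x : ℝ => Complex.exp (z * x) * z) (fun x _ => hd x) (fun x _ => he x)
    (aa_int hg.continuous hc (hce.mul continuous_const)) (aa_int hdc hc.deriv hce)
    (aa_int hg.continuous hc hce)
  unfold Lf
  rw [← h, ← integral_const_mul]
  congr 1
  funext x
  ring

/-- the primitive difference -/
private noncomputable def KK (k : ℝ → ℝ) (η v : ℝ) : ℝ := ∫ w in v..(v + η), k w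

private theorem kk_eq {k : ℝ → ℝ} (hk : Continuous k) (η v : ℝ) :
    KK k η v = (∫ w in (0:ℝ)..(v + η), k w) - ∫ w in (0:ℝ)..v, k w := by
  unfold KK
  rw [intervalIntegral.integral_interval_sub_left (hk.intervalIntegrable _ _)
    (hk.intervalIntegrable _ _)]

private theorem kk_deriv {k : ℝ → ℝ} (hk : Continuous k) (η v : ℝ) :
    HasDerivAt (KK k η) (k (v + η) - k v) v := by
  have h1 : ∀ x : ℝ, HasDerivAt (fun x => ∫ w in (0:ℝ)..x, k w) (k x) x := fun x =>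
    (hk.integral_hasStrictDerivAt 0 x).hasDerivAt
  have h2 : HasDerivAt (fun x : ℝ => ∫ w in (0:ℝ)..(x + η), k w) (k (v + η)) v := by
    simpa using (h1 (v + η)).comp_add_const v η
  have h3 := h2.sub (h1 v)
  refine h3.congr_of_eventuallyEq (Eventually.of_forall fun x => ?_)
  exact kk_eq hk η x

private theorem kk_smooth {k : ℝ → ℝ} (hk : ContDiff ℝ 4 k) (η : ℝ) : ContDiff ℝ 4 (KK k η) := by
  have hd : deriv (KK k η) = fun v => k (v + η) - k v := by
    funext v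
    exact (kk_deriv hk.continuous η v).deriv
  have h3 : ContDiff ℝ 3 (deriv (KK k η)) := by
    rw [hd]
    have h4 : ContDiff ℝ 3 k := hk.of_le (by norm_num)
    exact (h4.comp (contDiff_id.add contDiff_const)).sub h4
  have h5 : ContDiff ℝ (3 + 1) (KK k η) := by
    rw [contDiff_succ_iff_deriv]
    refine ⟨fun v => (kk_deriv hk.continuous η v).differentiableAt, ?_, h3⟩
    intro h
    exact absurd h (by decide)
  have h6 : ((3 : WithTop ℕ∞) + 1) = 4 := by norm_num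
  rwa [h6] at h5

private theorem kk_zero {k : ℝ → ℝ} {a b η : ℝ} (hη : 0 < η)
    (hs : ∀ u, k u ≠ 0 → a ≤ u ∧ u ≤ b) {v : ℝ} (hv : v + η < a ∨ b < v) : KK k η v = 0 := by
  unfold KK
  rw [intervalIntegral.integral_of_le (by linarith)]
  refine setIntegral_eq_zero_of_forall_eq_zero fun w hw => ?_
  by_contra h
  obtain ⟨h1, h2⟩ := hs w h
  rcases hv with h3 | h3
  · linarith [hw.2]
  · linarith [hw.1]

private theorem kk_cs {k : ℝ → ℝ} {a b η : ℝ} (hη : 0 < η)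
    (hs : ∀ u, k u ≠ 0 → a ≤ u ∧ u ≤ b) : HasCompactSupport (KK k η) := by
  refine aa_cs (a := a - η) (b := b) fun v hv => ?_
  by_contra h
  rw [not_and_or, not_le, not_le] at h
  refine hv (kk_zero hη hs ?_)
  rcases h with h | h
  · left; linarith
  · right; exact h

private theorem lf_shift (k : ℝ → ℝ) (η : ℝ) (z : ℂ) :
    Lf (fun v => k (v + η)) z = Complex.exp (-(z * η)) * Lf k z := by
  unfold Lf
  rw [← integral_add_right_eq_self (fun u : ℝ => (k u : ℂ) * Complex.exp (z * u)) η,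
    ← integral_const_mul]
  congr 1
  funext v
  have : Complex.exp (-(z * η)) * Complex.exp (z * ((v + η : ℝ) : ℂ)) = Complex.exp (z * v) := by
    rw [← Complex.exp_add]
    congr 1
    push_cast
    ring
  rw [← this]
  ring

private theorem lf_kk {k : ℝ → ℝ} (hk : ContDiff ℝ 4 k) {a b η : ℝ} (hη : 0 < η)
    (hs : ∀ u, k u ≠ 0 → a ≤ u ∧ u ≤ b) (z : ℂ) :
    z * Lf (KK k η) z = (1 - Complex.exp (-(z * η))) * Lf k z := by
  have hc := aa_cs hs
  rw [aa_parts ((kk_smooth hk η).of_le (by norm_num)) (kk_cs hη hs)]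
  have hd : deriv (KK k η) = fun v => k (v + η) - k v := by
    funext v
    exact (kk_deriv hk.continuous η v).deriv
  have h1 := lf_shift k η z
  rw [hd]
  have hce : Continuous fun x : ℝ => Complex.exp (z * x) := by fun_prop
  have hc2 : HasCompactSupport fun v => k (v + η) := by
    refine aa_cs (a := a - η) (b := b - η) fun v hv => ?_
    obtain ⟨h1, h2⟩ := hs _ hv
    constructor <;> linarith
  have hi2 : Integrable fun v => ((k (v + η) : ℝ) : ℂ) * Complex.exp (z * v) :=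
    aa_int (k := fun v => k (v + η)) (hk.continuous.comp (by fun_prop)) hc2 hce
  have h2 : Lf (fun v => k (v + η) - k v) z = Lf (fun v => k (v + η)) z - Lf k z := by
    unfold Lf
    rw [← integral_sub hi2 (aa_int hk.continuous hc hce)]
    congr 1
    funext v
    push_cast
    ring
  rw [h2, h1]
  ring

private theorem lp_kk {k : ℝ → ℝ} {a b η : ℝ} (hη : 0 < η) (ha : η < a)
    (hs : ∀ u, k u ≠ 0 → a ≤ u ∧ u ≤ b) (z : ℂ) : Lp (KK k η) z = Lf (KK k η) z := by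
  unfold Lp Lf
  refine setIntegral_eq_integral_of_forall_compl_eq_zero fun v hv => ?_
  rw [Set.mem_Ioi, not_lt] at hv
  rw [kk_zero hη hs (Or.inl (by linarith)), Complex.ofReal_zero, zero_mul]

private theorem psi_ind {b x : ℝ} (hx : x ≤ b) : Chebyshev.psi (Real.exp x) =
    ∑ n ∈ Finset.Ioc 0 ⌊Real.exp b⌋₊,
      if Real.log n ≤ x then ArithmeticFunction.vonMangoldt n else 0 := by
  unfold Chebyshev.psi
  rw [← Finset.sum_filter]
  refine Finset.sum_congr ?_ fun n _ => rfl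
  ext n
  have hle : ⌊Real.exp x⌋₊ ≤ ⌊Real.exp b⌋₊ := Nat.floor_mono (Real.exp_le_exp.2 hx)
  rw [Finset.mem_filter, Finset.mem_Ioc, Finset.mem_Ioc]
  constructor
  · rintro ⟨h1, h2⟩
    refine ⟨⟨h1, h2.trans hle⟩, ?_⟩
    rw [Nat.le_floor_iff (Real.exp_pos x).le] at h2
    rwa [Real.log_le_iff_le_exp (by exact_mod_cast h1)]
  · rintro ⟨⟨h1, h2⟩, h3⟩
    refine ⟨h1, ?_⟩
    rw [Nat.le_floor_iff (Real.exp_pos x).le]
    rwa [Real.log_le_iff_le_exp (by exact_mod_cast h1)] at h3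

private theorem aa_psi {k : ℝ → ℝ} (hk : Continuous k) {a b η : ℝ} (hη : 0 < η)
    (hs : ∀ u, k u ≠ 0 → a ≤ u ∧ u ≤ b) :
    (Integrable fun u => (Chebyshev.psi (Real.exp u) - Chebyshev.psi (Real.exp (u - η))) * k u) ∧
    ∫ u, (Chebyshev.psi (Real.exp u) - Chebyshev.psi (Real.exp (u - η))) * k u =
      ∑' n : ℕ, ArithmeticFunction.vonMangoldt n * KK k η (Real.log n) := by
  have hki : Integrable k := hk.integrable_of_hasCompactSupport (aa_cs hs)
  have hgi : ∀ n : ℕ, Integrable ((Set.Ico (Real.log n) (Real.log n + η)).indicator k) := fun n =>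
    hki.indicator measurableSet_Ico
  have hfun : (fun u => (Chebyshev.psi (Real.exp u) - Chebyshev.psi (Real.exp (u - η))) * k u) =
      fun u => ∑ n ∈ Finset.Ioc 0 ⌊Real.exp b⌋₊, ArithmeticFunction.vonMangoldt n *
        (Set.Ico (Real.log n) (Real.log n + η)).indicator k u := by
    funext u
    by_cases hu : k u = 0
    · rw [hu, mul_zero]
      refine (Finset.sum_eq_zero fun n _ => ?_).symm
      rw [Set.indicator_apply, hu]
      simp
    · have hub := (hs u hu).2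
      rw [psi_ind hub, psi_ind (show u - η ≤ b by linarith), ← Finset.sum_sub_distrib,
        Finset.sum_mul]
      refine Finset.sum_congr rfl fun n _ => ?_
      rw [Set.indicator_apply]
      by_cases h1 : Real.log n ≤ u
      · by_cases h2 : Real.log n ≤ u - η
        · rw [if_pos h1, if_pos h2, if_neg (fun h => by have h3 := (Set.mem_Ico.1 h).2; linarith)]
          ring
        · rw [if_pos h1, if_neg h2, if_pos (Set.mem_Ico.2 ⟨h1, by linarith⟩)]
          ring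
      · rw [if_neg h1, if_neg (fun h => h1 (by linarith)), if_neg (fun h => h1 (Set.mem_Ico.1 h).1)]
        ring
  rw [hfun]
  refine ⟨integrable_finset_sum _ fun n _ => (hgi n).const_mul _, ?_⟩
  rw [integral_finset_sum _ fun n _ => (hgi n).const_mul _]
  rw [tsum_eq_sum (s := Finset.Ioc 0 ⌊Real.exp b⌋₊)]
  · refine Finset.sum_congr rfl fun n _ => ?_
    rw [integral_const_mul, integral_indicator measurableSet_Ico]
    unfold KK
    rw [intervalIntegral.integral_of_le (by linarith), integral_Ico_eq_integral_Ioc]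
  · intro n hn
    rcases Nat.eq_zero_or_pos n with rfl | hn0
    · simp
    · rw [kk_zero hη hs (Or.inr ?_), mul_zero]
      rw [Finset.mem_Ioc, not_and, not_le] at hn
      have h1 := hn hn0
      rw [Nat.floor_lt (Real.exp_pos b).le] at h1
      rwa [Real.lt_log_iff_exp_lt (by exact_mod_cast hn0)]

private theorem aa_exp {k : ℝ → ℝ} (hk : Continuous k) (hc : HasCompactSupport k) (η : ℝ) :
    (Integrable fun u => (Real.exp u - Real.exp (u - η)) * k u) ∧
    ((∫ u, (Real.exp u - Real.exp (u - η)) * k u : ℝ) : ℂ) =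
      (1 - Complex.exp (-((1 : ℂ) * η))) * Lf k 1 := by
  constructor
  · refine Continuous.integrable_of_hasCompactSupport (by fun_prop) ?_
    exact hc.mul_left
  · unfold Lf
    rw [← integral_const_mul, ← integral_complex_ofReal]
    congr 1
    funext u
    have h1 : ((Real.exp (u - η) : ℝ) : ℂ) = Complex.exp (-((1 : ℂ) * η)) * Complex.exp (1 * u) := by
      rw [← Complex.exp_add, Complex.ofReal_exp]
      congr 1
      push_cast
      ring
    have h2 : ((Real.exp u : ℝ) : ℂ) = Complex.exp (1 * u) := by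
      rw [Complex.ofReal_exp, one_mul]
    rw [Complex.ofReal_mul, Complex.ofReal_sub, h1, h2]
    ring

private theorem zz_ne (ρ : ZZ) : (ρ : ℂ) ≠ 0 := by
  obtain ⟨c, hc, hc'⟩ := zz_away
  rw [← norm_pos_iff]
  exact lt_of_lt_of_le hc (hc' ρ)

private theorem aa_all {k : ℝ → ℝ} (hk : ContDiff ℝ 4 k) {a b η : ℝ} (hη : 0 < η) (ha : η < a)
    (hs : ∀ u, k u ≠ 0 → a ≤ u ∧ u ≤ b) :
    (Summable fun ρ : ZZ => ‖(mz ρ : ℂ) / (ρ : ℂ) * (1 - Complex.exp (-((ρ : ℂ) * η))) * Lf k ρ‖) ∧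
    (Integrable fun u => (fz u - fz (u - η)) * k u) ∧
    ((∫ u, (fz u - fz (u - η)) * k u : ℝ) : ℂ) =
      -∑' ρ : ZZ, (mz ρ : ℂ) / (ρ : ℂ) * (1 - Complex.exp (-((ρ : ℂ) * η))) * Lf k ρ := by
  obtain ⟨C0, hC⟩ := explicit
  obtain ⟨h1, h2⟩ := hC (KK k η) (kk_smooth hk η) (kk_cs hη hs)
  have h0 : KK k η 0 = 0 := kk_zero hη hs (Or.inl (by linarith))
  have hA : ∀ ρ : ZZ, (mz ρ : ℂ) * (Lp (KK k η) ρ - ((KK k η 0 : ℝ) : ℂ) / (2 - (ρ : ℂ))) =
      (mz ρ : ℂ) / (ρ : ℂ) * (1 - Complex.exp (-((ρ : ℂ) * η))) * Lf k ρ := by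
    intro ρ
    have h3 := lf_kk hk hη hs ρ
    have h4 := zz_ne ρ
    rw [h0, Complex.ofReal_zero, zero_div, sub_zero, lp_kk hη ha hs]
    have h5 : Lf (KK k η) ρ = (1 - Complex.exp (-((ρ : ℂ) * η))) * Lf k ρ / (ρ : ℂ) := by
      rw [← h3]
      field_simp
    rw [h5]
    ring
  obtain ⟨i1, e1⟩ := aa_psi hk.continuous hη hs
  obtain ⟨i2, e2⟩ := aa_exp hk.continuous (aa_cs hs) η
  have hf : (fun u => (fz u - fz (u - η)) * k u) = fun u =>
      (Chebyshev.psi (Real.exp u) - Chebyshev.psi (Real.exp (u - η))) * k u -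
        (Real.exp u - Real.exp (u - η)) * k u := by
    funext u
    unfold fz
    ring
  refine ⟨?_, ?_, ?_⟩
  · refine h1.congr fun ρ => ?_
    rw [← hA ρ, norm_mul, Complex.norm_real, Real.norm_of_nonneg (by linarith [mz_one_le ρ])]
  · rw [hf]
    exact i1.sub i2
  · rw [hf, integral_sub i1 i2, Complex.ofReal_sub, e1, e2, h2, h0]
    have h6 := lf_kk hk hη hs 1
    rw [one_mul] at h6
    rw [← h6, lp_kk hη ha hs 1, Complex.ofReal_zero, mul_zero, zero_add]
    have h7 : ∑' ρ : ZZ, (mz ρ : ℂ) * (Lp (KK k η) ρ - (0 : ℂ) / (2 - (ρ : ℂ))) =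
        ∑' ρ : ZZ, (mz ρ : ℂ) / (ρ : ℂ) * (1 - Complex.exp (-((ρ : ℂ) * η))) * Lf k ρ := by
      refine tsum_congr fun ρ => ?_
      rw [← hA ρ, h0, Complex.ofReal_zero]
    rw [h7]
    ring

/-- the zeros with real part `≤ 0` are real -/
private theorem left_real (ρ : ZZ) (h : (ρ : ℂ).re ≤ 0) :
    (ρ : ℂ) = ((-‖(ρ : ℂ)‖ : ℝ) : ℂ) ∧ (ρ : ℂ).re = -‖(ρ : ℂ)‖ := by
  obtain ⟨n, hn⟩ := zeta_left ρ ρ.2 h
  have h1 : (ρ : ℂ) = ((-(2 * ((n : ℝ) + 1)) : ℝ) : ℂ) := by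
    rw [hn]
    push_cast
    ring
  have h2 : ‖(ρ : ℂ)‖ = 2 * ((n : ℝ) + 1) := by
    rw [h1, Complex.norm_real, Real.norm_eq_abs, abs_neg, abs_of_pos (by positivity)]
  constructor
  · rw [h2]
    exact h1
  · rw [h2, h1, Complex.ofReal_re]

/-- the terms of `Tz` -/
private noncomputable def tt (ρ : ZZ) (u : ℝ) : ℝ :=
  if (ρ : ℂ).re ≤ 0 then mz ρ / ‖(ρ : ℂ)‖ * Real.exp ((ρ : ℂ).re * u) else 0

private theorem tt_nonneg (ρ : ZZ) (u : ℝ) : 0 ≤ tt ρ u := by
  unfold tt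
  have := mz_one_le ρ
  split_ifs
  · positivity
  · exact le_rfl

private theorem tt_le (ρ : ZZ) {u c : ℝ} (hc : 0 < c) (hu : c ≤ u) :
    tt ρ u ≤ (mz ρ / ‖(ρ : ℂ)‖ ^ (2 : ℝ)) * (1 / c) := by
  have hm := mz_one_le ρ
  have hρ : 0 < ‖(ρ : ℂ)‖ := norm_pos_iff.2 (zz_ne ρ)
  unfold tt
  split_ifs with h
  · rw [(left_real ρ h).2, Real.rpow_ofNat]
    have h1 : Real.exp (-‖(ρ : ℂ)‖ * u) ≤ 1 / (‖(ρ : ℂ)‖ * c) := by
      rw [neg_mul, Real.exp_neg, one_div]
      refine inv_anti₀ (by positivity) ?_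
      have h2 := Real.add_one_le_exp (‖(ρ : ℂ)‖ * u)
      have h3 : ‖(ρ : ℂ)‖ * c ≤ ‖(ρ : ℂ)‖ * u := mul_le_mul_of_nonneg_left hu hρ.le
      linarith
    calc mz ρ / ‖(ρ : ℂ)‖ * Real.exp (-‖(ρ : ℂ)‖ * u) ≤
        mz ρ / ‖(ρ : ℂ)‖ * (1 / (‖(ρ : ℂ)‖ * c)) := mul_le_mul_of_nonneg_left h1 (by positivity)
      _ = mz ρ / ‖(ρ : ℂ)‖ ^ 2 * (1 / c) := by field_simp
  · positivity

private theorem tt_summ {u : ℝ} (hu : 0 < u) : Summable fun ρ : ZZ => tt ρ u :=
  Summable.of_nonneg_of_le (fun ρ => tt_nonneg ρ u) (fun ρ => tt_le ρ hu le_rfl)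
    ((s_one 2 (by norm_num)).mul_right _)

private theorem tt_cont (ρ : ZZ) : Continuous (tt ρ) := by
  unfold tt
  split_ifs
  · fun_prop
  · exact continuous_const

private theorem zz_countable' : Countable ZZ := by
  have h1 := (s_one 2 (by norm_num)).countable_support
  have h2 : (Function.support fun ρ : ZZ => mz ρ / ‖(ρ : ℂ)‖ ^ (2 : ℝ)) = Set.univ := by
    refine Set.eq_univ_of_forall fun ρ => ?_
    have hm := mz_one_le ρ
    have hρ : 0 < ‖(ρ : ℂ)‖ := norm_pos_iff.2 (zz_ne ρ)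
    rw [Function.mem_support]
    have : 0 < mz ρ / ‖(ρ : ℂ)‖ ^ (2 : ℝ) := by positivity
    exact this.ne'
  rw [h2] at h1
  exact Set.countable_univ_iff.1 h1

private theorem aa_left {k : ℝ → ℝ} (hk : Continuous k) {a b η : ℝ} (hη : 0 < η) (ha : η < a)
    (hs : ∀ u, k u ≠ 0 → a ≤ u ∧ u ≤ b) :
    (Integrable fun u => (Tz u - Tz (u - η)) * k u) ∧
    ((∫ u, (Tz u - Tz (u - η)) * k u : ℝ) : ℂ) =
      ∑' ρ : ZZ, if (ρ : ℂ).re ≤ 0 then
        (mz ρ : ℂ) / (ρ : ℂ) * (1 - Complex.exp (-((ρ : ℂ) * η))) * Lf k ρ else 0 := by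
  haveI := zz_countable'
  have hc := aa_cs hs
  have hki : Integrable k := hk.integrable_of_hasCompactSupport hc
  obtain ⟨M, hM⟩ := hk.bounded_above_of_compact_support hc
  have hM0 : 0 ≤ M := (norm_nonneg _).trans (hM 0)
  have hc0 : 0 < a - η := by linarith
  -- the terms
  have hB : ∀ (ρ : ZZ) (u : ℝ), ‖(tt ρ (u - η) - tt ρ u) * k u‖ ≤
      (mz ρ / ‖(ρ : ℂ)‖ ^ (2 : ℝ)) * (1 / (a - η)) * ‖k u‖ := by
    intro ρ u
    by_cases hu : k u = 0
    · rw [hu, mul_zero, norm_zero, mul_zero]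
    · obtain ⟨h1, h2⟩ := hs u hu
      rw [norm_mul]
      refine mul_le_mul_of_nonneg_right ?_ (norm_nonneg _)
      have h3 := tt_le ρ hc0 (show a - η ≤ u - η by linarith)
      have h4 := tt_le ρ hc0 (show a - η ≤ u by linarith)
      have h5 := tt_nonneg ρ u
      have h6 := tt_nonneg ρ (u - η)
      rw [Real.norm_eq_abs, abs_le]
      constructor <;> linarith
  have hBc : ∀ ρ : ZZ, Continuous fun u => (tt ρ (u - η) - tt ρ u) * k u := fun ρ =>
    (((tt_cont ρ).comp (by fun_prop)).sub (tt_cont ρ)).mul hk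
  have hs2 := s_one 2 (by norm_num)
  have hsum : ∀ u : ℝ, (Tz u - Tz (u - η)) * k u = ∑' ρ : ZZ, (tt ρ (u - η) - tt ρ u) * k u := by
    intro u
    by_cases hu : k u = 0
    · rw [hu, mul_zero]
      simp
    · obtain ⟨h1, h2⟩ := hs u hu
      rw [tsum_mul_right, (tt_summ (show 0 < u - η by linarith)).tsum_sub
        (tt_summ (show 0 < u by linarith))]
      have h3 : ∀ x, Tz x = -∑' ρ : ZZ, tt ρ x := fun x => rfl
      rw [h3, h3]
      ring
  have hcont : Continuous fun u => (Tz u - Tz (u - η)) * k u := by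
    have h1 : (fun u => (Tz u - Tz (u - η)) * k u) =
        fun u => ∑' ρ : ZZ, (tt ρ (u - η) - tt ρ u) * k u := funext hsum
    rw [h1]
    refine continuous_tsum hBc ((hs2.mul_right (1 / (a - η))).mul_right M) fun ρ u => ?_
    refine (hB ρ u).trans ?_
    have hm := mz_one_le ρ
    exact mul_le_mul_of_nonneg_left (hM u) (by positivity)
  refine ⟨hcont.integrable_of_hasCompactSupport hc.mul_left, ?_⟩
  have hBi : ∀ ρ : ZZ, Integrable fun u => (tt ρ (u - η) - tt ρ u) * k u := fun ρ =>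
    (hBc ρ).integrable_of_hasCompactSupport hc.mul_left
  have hBs : Summable fun ρ : ZZ => ∫ u, ‖(tt ρ (u - η) - tt ρ u) * k u‖ := by
    refine Summable.of_nonneg_of_le (fun ρ => integral_nonneg fun u => norm_nonneg _) (fun ρ => ?_)
      ((hs2.mul_right (1 / (a - η))).mul_right (∫ u, ‖k u‖))
    rw [← integral_const_mul]
    exact integral_mono (hBi ρ).norm (hki.norm.const_mul _) (hB ρ)
  have h1 := integral_tsum_of_summable_integral_norm hBi hBs
  have h2 : ∫ u, (Tz u - Tz (u - η)) * k u = ∑' ρ : ZZ, ∫ u, (tt ρ (u - η) - tt ρ u) * k u := by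
    rw [h1]
    congr 1
    funext u
    exact hsum u
  rw [h2, Complex.ofReal_tsum]
  refine tsum_congr fun ρ => ?_
  by_cases hre : (ρ : ℂ).re ≤ 0
  · rw [if_pos hre]
    obtain ⟨e1, e2⟩ := left_real ρ hre
    have hρ : 0 < ‖(ρ : ℂ)‖ := norm_pos_iff.2 (zz_ne ρ)
    have hce : Continuous fun x : ℝ => Complex.exp ((ρ : ℂ) * x) := by fun_prop
    unfold Lf
    rw [← integral_const_mul, ← integral_complex_ofReal]
    congr 1
    funext u
    unfold tt
    rw [if_pos hre, if_pos hre, e2]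
    have h3 : ∀ x : ℝ, ((Real.exp (-‖(ρ : ℂ)‖ * x) : ℝ) : ℂ) = Complex.exp ((ρ : ℂ) * x) := by
      intro x
      rw [Complex.ofReal_exp, Complex.ofReal_mul, ← e1]
    have h4 : Complex.exp ((ρ : ℂ) * ((u - η : ℝ) : ℂ)) =
        Complex.exp (-((ρ : ℂ) * η)) * Complex.exp ((ρ : ℂ) * u) := by
      rw [← Complex.exp_add]
      congr 1
      push_cast
      ring
    have h5 : ((‖(ρ : ℂ)‖ : ℝ) : ℂ) = -(ρ : ℂ) := by
      conv_rhs => rw [e1]
      push_cast
      ring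
    have hne := zz_ne ρ
    rw [Complex.ofReal_mul, Complex.ofReal_sub, Complex.ofReal_mul, Complex.ofReal_mul,
      Complex.ofReal_div, h3, h3, h4, h5]
    field_simp
    ring
  · rw [if_neg hre]
    have : ∀ u, (tt ρ (u - η) - tt ρ u) * k u = 0 := by
      intro u
      unfold tt
      rw [if_neg hre, if_neg hre]
      ring
    simp [this]

private theorem lf_bound {k : ℝ → ℝ} (hk : ContDiff ℝ 4 k) {a b : ℝ} (ha : 0 < a)
    (hs : ∀ u, k u ≠ 0 → a ≤ u ∧ u ≤ b) :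
    ∃ C : ℝ, ∀ ρ : ZZ, 0 < (ρ : ℂ).re → ‖Lf k ρ‖ ≤ C / ‖(ρ : ℂ)‖ ^ (2 : ℝ) := by
  have hc := aa_cs hs
  have hk1 : ContDiff ℝ 1 (deriv k) := by
    have h1 : ContDiff ℝ (1 + 1) k := hk.of_le (by norm_num)
    rw [contDiff_succ_iff_deriv] at h1
    exact h1.2.2
  have hk2 : Continuous (deriv (deriv k)) := hk1.continuous_deriv le_rfl
  have hc2 : HasCompactSupport (deriv (deriv k)) := hc.deriv.deriv
  have hi : Integrable fun u => ‖deriv (deriv k) u‖ * Real.exp |u| := by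
    refine Continuous.integrable_of_hasCompactSupport (by fun_prop) ?_
    exact hc2.norm.mul_right
  refine ⟨∫ u, ‖deriv (deriv k) u‖ * Real.exp |u|, fun ρ hρ => ?_⟩
  have h1 := aa_parts (hk.of_le (by norm_num)) hc ρ
  have h2 := aa_parts hk1 hc.deriv ρ
  have h3 : (ρ : ℂ) ^ 2 * Lf k ρ = Lf (deriv (deriv k)) ρ := by
    linear_combination (ρ : ℂ) * h1 - h2
  have hn : 0 < ‖(ρ : ℂ)‖ := norm_pos_iff.2 (zz_ne ρ)
  rw [Real.rpow_ofNat, le_div_iff₀ (by positivity), mul_comm, ← norm_pow, ← norm_mul, h3]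
  unfold Lf
  refine (norm_integral_le_integral_norm _).trans (integral_mono_of_nonneg
    (ae_of_all _ fun u => norm_nonneg _) hi (ae_of_all _ fun u => ?_))
  show ‖((deriv (deriv k) u : ℝ) : ℂ) * Complex.exp ((ρ : ℂ) * u)‖ ≤ _
  rw [norm_mul, Complex.norm_real, Complex.norm_exp]
  refine mul_le_mul_of_nonneg_left (Real.exp_le_exp.2 ?_) (norm_nonneg _)
  have h4 : ((ρ : ℂ) * (u : ℂ)).re = (ρ : ℂ).re * u := by simp
  rw [h4]
  have h5 := zz_re_lt ρ
  calc (ρ : ℂ).re * u ≤ (ρ : ℂ).re * |u| := mul_le_mul_of_nonneg_left (le_abs_self u) hρ.le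
    _ ≤ 1 * |u| := mul_le_mul_of_nonneg_right h5.le (abs_nonneg u)
    _ = |u| := one_mul _

theorem efd (k : ℝ → ℝ) (hk : ContDiff ℝ 4 k) (a b η : ℝ) (hη : 0 < η) (ha : η < a)
    (hs : ∀ u, k u ≠ 0 → a ≤ u ∧ u ≤ b) :
    (Summable fun ρ : ZZ => if 0 < (ρ : ℂ).re then mz ρ * ‖Lf k ρ‖ else 0) ∧
    (((∫ u, ez η u * k u : ℝ)) : ℂ) =
      -∑' ρ : ZZ, if 0 < (ρ : ℂ).re then
        (mz ρ : ℂ) / (ρ : ℂ) * (1 - Complex.exp (-((ρ : ℂ) * η))) * Lf k ρ else 0 := by
  constructor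
  · obtain ⟨C, hC⟩ := lf_bound hk (by linarith) hs
    have hC' : Summable fun ρ : ZZ => |C| * (mz ρ / ‖(ρ : ℂ)‖ ^ (2 : ℝ)) :=
      (s_one 2 (by norm_num)).mul_left _
    refine Summable.of_nonneg_of_le (fun ρ => ?_) (fun ρ => ?_) hC'
    · have := mz_one_le ρ
      split_ifs
      · positivity
      · exact le_rfl
    · have hm := mz_one_le ρ
      split_ifs with h
      · calc mz ρ * ‖Lf k ρ‖ ≤ mz ρ * (C / ‖(ρ : ℂ)‖ ^ (2 : ℝ)) :=
              mul_le_mul_of_nonneg_left (hC ρ h) (by linarith)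
          _ ≤ mz ρ * (|C| / ‖(ρ : ℂ)‖ ^ (2 : ℝ)) := by
              refine mul_le_mul_of_nonneg_left ?_ (by linarith)
              exact div_le_div_of_nonneg_right (le_abs_self C) (by positivity)
          _ = |C| * (mz ρ / ‖(ρ : ℂ)‖ ^ (2 : ℝ)) := by ring
      · positivity
  · obtain ⟨s1, i1, e1⟩ := aa_all hk hη ha hs
    obtain ⟨i2, e2⟩ := aa_left hk.continuous hη ha hs
    have hf : (fun u => ez η u * k u) = fun u => (fz u - fz (u - η)) * k u +
        (Tz u - Tz (u - η)) * k u := by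
      funext u
      unfold ez
      ring
    obtain ⟨A, hA⟩ : ∃ A : ZZ → ℂ, A = fun ρ =>
      (mz ρ : ℂ) / (ρ : ℂ) * (1 - Complex.exp (-((ρ : ℂ) * η))) * Lf k ρ := ⟨_, rfl⟩
    have hAs : Summable A := by
      rw [hA]
      exact Summable.of_norm s1
    have g1 : Summable fun ρ : ZZ => if 0 < (ρ : ℂ).re then A ρ else 0 := by
      have := hAs.indicator {ρ : ZZ | 0 < (ρ : ℂ).re}
      refine this.congr fun ρ => ?_
      rw [Set.indicator_apply]
      rfl
    have g2 : Summable fun ρ : ZZ => if (ρ : ℂ).re ≤ 0 then A ρ else 0 := by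
      have := hAs.indicator {ρ : ZZ | (ρ : ℂ).re ≤ 0}
      refine this.congr fun ρ => ?_
      rw [Set.indicator_apply]
      rfl
    have g3 : ∑' ρ, A ρ = (∑' ρ : ZZ, if 0 < (ρ : ℂ).re then A ρ else 0) +
        ∑' ρ : ZZ, if (ρ : ℂ).re ≤ 0 then A ρ else 0 := by
      rw [← g1.tsum_add g2]
      refine tsum_congr fun ρ => ?_
      by_cases h : 0 < (ρ : ℂ).re
      · rw [if_pos h, if_neg (not_le.2 h), add_zero]
      · rw [if_neg h, if_pos (not_lt.1 h), zero_add]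
    have e3 : ((∫ u, (fz u - fz (u - η)) * k u : ℝ) : ℂ) = -∑' ρ, A ρ := by
      rw [e1, hA]
    have e4 : ((∫ u, (Tz u - Tz (u - η)) * k u : ℝ) : ℂ) =
        ∑' ρ : ZZ, if (ρ : ℂ).re ≤ 0 then A ρ else 0 := by
      rw [e2, hA]
    have e5 : -∑' ρ : ZZ, (if 0 < (ρ : ℂ).re then
        (mz ρ : ℂ) / (ρ : ℂ) * (1 - Complex.exp (-((ρ : ℂ) * η))) * Lf k ρ else 0) =
        -∑' ρ : ZZ, if 0 < (ρ : ℂ).re then A ρ else 0 := by
      rw [hA]
    rw [hf, integral_add i1 i2, Complex.ofReal_add, e3, e4, g3, e5]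
    ring

end Pool.Agent.H50.RL
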