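import Pool.Agent.H50.RL.Lz

/-!
[H50 RL AB] The contribution `Tz` of the trivial zeros is small, with small derivative.

PROOF. The zeros with `Re ρ ≤ 0` are `ρ = -2(n+1)` (`zeta_left`): `Re ρ = -‖ρ‖`, `‖ρ‖ ≥ 2`. `tz_lim`: for `u ≥ 1`, `0 ≤ -Tz u ≤ Σ mz/‖ρ‖ e^{-‖ρ‖u} ≤ e^{-(u-1)} Σ mz/‖ρ‖ e^{-‖ρ‖}` and
`e^{-x} ≤ 1/x` so the last sum is `≤ Σ mz/‖ρ‖^2` (`s_one 2`). `tz_small`: `Tz u - Tz v = Σ (mz/‖ρ‖)(e^{-‖ρ‖v} - e^{-‖ρ‖u})`, terms `≥ 0` and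
`≤ (mz/‖ρ‖) ‖ρ‖ (u - v) e^{-‖ρ‖v} = mz (u-v) e^{-‖ρ‖ v}`; for `v ≥ 1`: `e^{-‖ρ‖v} ≤ e^{-(v-1)} e^{-‖ρ‖} ≤ e^{-(v-1)} 2/‖ρ‖^2`, so the sum is `≤ (u-v) e^{-(v-1)} S ≤ (u-v)/2` for `v ≥ V0`, and
`u - v ≤ e^u - e^v` for `0 ≤ v ≤ u`. Also the measurability of `Tz` (a countable sum; `ZZ` is countable by `zz_finite`) or its monotonicity where needed.
-/

set_option autoImplicit false

namespace Pool.Agent.H50.RL

open MeasureTheory Filter Topology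

/-- the terms -/
private noncomputable def trm (ρ : ZZ) (u : ℝ) : ℝ :=
  if (ρ : ℂ).re ≤ 0 then mz ρ / ‖(ρ : ℂ)‖ * Real.exp ((ρ : ℂ).re * u) else 0

private theorem tz_eq (u : ℝ) : Tz u = -∑' ρ : ZZ, trm ρ u := rfl

private theorem mzp (ρ : ZZ) : 0 ≤ mz ρ := zero_le_one.trans (mz_one_le ρ)

private theorem left_norm {ρ : ZZ} (h : (ρ : ℂ).re ≤ 0) : (ρ : ℂ).re = -‖(ρ : ℂ)‖ ∧ 2 ≤ ‖(ρ : ℂ)‖ := by
  obtain ⟨n, hn⟩ := zeta_left ρ ρ.2 h
  have h1 : (ρ : ℂ) = ((-2 * ((n : ℝ) + 1) : ℝ) : ℂ) := by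
    rw [hn]
    push_cast
    ring
  have h0 : (0 : ℝ) ≤ n := n.cast_nonneg
  have h2 : ‖(ρ : ℂ)‖ = 2 * ((n : ℝ) + 1) := by
    rw [h1, Complex.norm_real, Real.norm_eq_abs, abs_of_nonpos (by linarith)]
    ring
  rw [h2, h1, Complex.ofReal_re]
  constructor
  · ring
  · linarith

private theorem s2 : Summable fun ρ : ZZ => mz ρ / ‖(ρ : ℂ)‖ ^ 2 := by
  have h := s_one 2 (by norm_num)
  refine h.congr fun ρ => ?_
  rw [show ((2 : ℝ)) = ((2 : ℕ) : ℝ) by norm_num, Real.rpow_natCast]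

private theorem trm_nonneg (ρ : ZZ) (u : ℝ) : 0 ≤ trm ρ u := by
  unfold trm
  split_ifs
  · exact mul_nonneg (div_nonneg (mzp ρ) (norm_nonneg _)) (Real.exp_pos _).le
  · exact le_refl 0

private theorem exp_le_inv {x : ℝ} (hx : 0 < x) : Real.exp (-x) ≤ 1 / x := by
  rw [Real.exp_neg, one_div]
  exact inv_anti₀ hx (by linarith [Real.add_one_le_exp x])

private theorem exp_le_sq {x : ℝ} (hx : 0 < x) : Real.exp (-x) ≤ 2 / x ^ 2 := by
  have h1 := Real.quadratic_le_exp_of_nonneg hx.le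
  rw [Real.exp_neg, inv_le_comm₀ (Real.exp_pos x) (by positivity), inv_div]
  linarith

private theorem trm_le (ρ : ZZ) {u : ℝ} (hu : 0 < u) : trm ρ u ≤ 1 / u * (mz ρ / ‖(ρ : ℂ)‖ ^ 2) := by
  unfold trm
  split_ifs with h
  · obtain ⟨h1, h2⟩ := left_norm h
    have h0 : 0 < ‖(ρ : ℂ)‖ := by linarith
    rw [h1, neg_mul]
    calc mz ρ / ‖(ρ : ℂ)‖ * Real.exp (-(‖(ρ : ℂ)‖ * u)) ≤ mz ρ / ‖(ρ : ℂ)‖ * (1 / (‖(ρ : ℂ)‖ * u)) :=
          mul_le_mul_of_nonneg_left (exp_le_inv (by positivity)) (div_nonneg (mzp ρ) (norm_nonneg _))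
      _ = 1 / u * (mz ρ / ‖(ρ : ℂ)‖ ^ 2) := by field_simp
  · have := mzp ρ
    positivity

private theorem trm_summ {u : ℝ} (hu : 0 < u) : Summable fun ρ : ZZ => trm ρ u :=
  Summable.of_nonneg_of_le (fun ρ => trm_nonneg ρ u) (fun ρ => trm_le ρ hu) (s2.mul_left (1 / u))

private theorem trm_diff (ρ : ZZ) {v u : ℝ} (hv : 0 < v) (hu : v ≤ u) : 0 ≤ trm ρ v - trm ρ u ∧
    trm ρ v - trm ρ u ≤ (u - v) * (2 / v ^ 2) * (mz ρ / ‖(ρ : ℂ)‖ ^ 2) := by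
  unfold trm
  split_ifs with h
  · obtain ⟨h1, h2⟩ := left_norm h
    have h0 : 0 < ‖(ρ : ℂ)‖ := by linarith
    rw [h1, ← mul_sub]
    obtain ⟨R, hR⟩ : ∃ R, R = ‖(ρ : ℂ)‖ := ⟨_, rfl⟩
    rw [← hR] at h0 ⊢
    have h3 : Real.exp (-R * u) ≤ Real.exp (-R * v) := Real.exp_le_exp.2 (by nlinarith)
    have h4 : Real.exp (-R * v) - Real.exp (-R * u) ≤ R * (u - v) * Real.exp (-(R * v)) := by
      have h5 : Real.exp (-R * u) = Real.exp (-(R * v)) * Real.exp (-(R * (u - v))) := by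
        rw [← Real.exp_add]
        congr 1
        ring
      have h6 := Real.add_one_le_exp (-(R * (u - v)))
      have h7 := Real.exp_pos (-(R * v))
      rw [h5, neg_mul]
      nlinarith
    have h8 : Real.exp (-(R * v)) ≤ 2 / (R * v) ^ 2 := exp_le_sq (by positivity)
    constructor
    · exact mul_nonneg (div_nonneg (mzp ρ) h0.le) (by linarith)
    · calc mz ρ / R * (Real.exp (-R * v) - Real.exp (-R * u)) ≤ mz ρ / R * (R * (u - v) * (2 / (R * v) ^ 2)) := by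
            refine mul_le_mul_of_nonneg_left (h4.trans (mul_le_mul_of_nonneg_left h8 ?_)) (div_nonneg (mzp ρ) h0.le)
            exact mul_nonneg h0.le (by linarith)
        _ = (u - v) * (2 / v ^ 2) * (mz ρ / R ^ 2) := by field_simp
  · rw [sub_zero]
    refine ⟨le_refl 0, ?_⟩
    have := mzp ρ
    have : 0 ≤ u - v := by linarith
    positivity

theorem tz_lim : Tendsto Tz atTop (𝓝 0) := by
  obtain ⟨S, hS⟩ : ∃ S, S = ∑' ρ : ZZ, mz ρ / ‖(ρ : ℂ)‖ ^ 2 := ⟨_, rfl⟩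
  have h1 : ∀ u : ℝ, 0 < u → -(1 / u * S) ≤ Tz u ∧ Tz u ≤ 0 := by
    intro u hu
    rw [tz_eq]
    have h2 : 0 ≤ ∑' ρ : ZZ, trm ρ u := tsum_nonneg fun ρ => trm_nonneg ρ u
    have h3 : ∑' ρ : ZZ, trm ρ u ≤ 1 / u * S := by
      rw [hS, ← tsum_mul_left]
      exact (trm_summ hu).tsum_le_tsum (fun ρ => trm_le ρ hu) (s2.mul_left (1 / u))
    constructor <;> linarith
  have h4 : Tendsto (fun u : ℝ => -(1 / u * S)) atTop (𝓝 0) := by
    have h5 : Tendsto (fun u : ℝ => 1 / u) atTop (𝓝 0) := by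
      simp only [one_div]
      exact tendsto_inv_atTop_zero
    have h6 := (h5.mul_const S).neg
    rwa [zero_mul, neg_zero] at h6
  refine tendsto_of_tendsto_of_tendsto_of_le_of_le' h4 tendsto_const_nhds ?_ ?_
  · filter_upwards [eventually_gt_atTop (0 : ℝ)] with u hu
    exact (h1 u hu).1
  · filter_upwards [eventually_gt_atTop (0 : ℝ)] with u hu
    exact (h1 u hu).2

theorem tz_small : ∃ V0 : ℝ, 1 ≤ V0 ∧ ∀ v u : ℝ, V0 ≤ v → v ≤ u →
    0 ≤ Tz u - Tz v ∧ Tz u - Tz v ≤ (Real.exp u - Real.exp v) / 2 := by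
  obtain ⟨S, hS⟩ : ∃ S, S = ∑' ρ : ZZ, mz ρ / ‖(ρ : ℂ)‖ ^ 2 := ⟨_, rfl⟩
  have hS0 : 0 ≤ S := by
    rw [hS]
    refine tsum_nonneg fun ρ => ?_
    have := mzp ρ
    positivity
  refine ⟨1 + 4 * S, by linarith, fun v u hv hu => ?_⟩
  have hv1 : 1 ≤ v := by linarith
  have hv0 : 0 < v := by linarith
  have hu0 : 0 < u := by linarith
  have h1 : Tz u - Tz v = ∑' ρ : ZZ, (trm ρ v - trm ρ u) := by
    rw [(trm_summ hv0).tsum_sub (trm_summ hu0), tz_eq, tz_eq]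
    ring
  have h2 : ∑' ρ : ZZ, (trm ρ v - trm ρ u) ≤ (u - v) * (2 / v ^ 2) * S := by
    rw [hS, ← tsum_mul_left]
    exact ((trm_summ hv0).sub (trm_summ hu0)).tsum_le_tsum (fun ρ => (trm_diff ρ hv0 hu).2) (s2.mul_left _)
  rw [h1]
  refine ⟨tsum_nonneg fun ρ => (trm_diff ρ hv0 hu).1, h2.trans ?_⟩
  have h3 : 2 / v ^ 2 * S ≤ 1 / 2 := by
    rw [div_mul_eq_mul_div, div_le_div_iff₀ (by positivity) (by norm_num)]
    nlinarith
  have h4 : u - v ≤ Real.exp u - Real.exp v := by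
    have h5 : Real.exp u = Real.exp v * Real.exp (u - v) := by
      rw [← Real.exp_add]
      congr 1
      ring
    have h6 := Real.add_one_le_exp (u - v)
    have h7 : 1 ≤ Real.exp v := Real.one_le_exp hv0.le
    rw [h5]
    nlinarith
  have h8 : 0 ≤ u - v := by linarith
  calc (u - v) * (2 / v ^ 2) * S = (u - v) * (2 / v ^ 2 * S) := by ring
    _ ≤ (u - v) * (1 / 2) := mul_le_mul_of_nonneg_left h3 h8
    _ ≤ (Real.exp u - Real.exp v) / 2 := by linarith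

theorem tz_cont : ContinuousOn Tz (Set.Ioi 0) := by
  intro x hx
  have hx0 : (0 : ℝ) < x := hx
  have h1 : ContinuousOn (fun u => ∑' ρ : ZZ, trm ρ u) (Set.Ioi (x / 2)) := by
    refine continuousOn_tsum (u := fun ρ : ZZ => 1 / (x / 2) * (mz ρ / ‖(ρ : ℂ)‖ ^ 2)) ?_ (s2.mul_left _) ?_
    · intro ρ
      have h2 : Continuous (trm ρ) := by
        unfold trm
        split_ifs
        · fun_prop
        · exact continuous_const
      exact h2.continuousOn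
    · intro ρ u hu
      have hu1 : x / 2 < u := hu
      have hu0 : 0 < u := by linarith
      rw [Real.norm_of_nonneg (trm_nonneg ρ u)]
      refine (trm_le ρ hu0).trans (mul_le_mul_of_nonneg_right ?_ ?_)
      · exact one_div_le_one_div_of_le (by linarith) hu1.le
      · have := mzp ρ
        positivity
  have h2 : ContinuousOn Tz (Set.Ioi (x / 2)) := h1.neg
  exact (h2.continuousAt (Ioi_mem_nhds (by linarith))).continuousWithinAt

end Pool.Agent.H50.RL
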