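import Pool.Agent.H50.RL.Ab

/-!
[H50 RL AC] Local signs of the corrected difference near a prime.

PROOF. `V0 = V + 1`, `V` from `tz_small`. `ez η u = (ψ(e^u) - ψ(e^{u-η})) - (e^u - e^{u-η}) + (Tz u - Tz(u-η))`; `u - η ≥ V` in both cases, so the last bracket is in
`[0, (e^u - e^{u-η})/2]`.
(1) `log p ≤ u < log p + η`: `e^{u-η} < p ≤ e^u`, so `ψ(e^u) - ψ(e^{u-η}) ≥ Λ(p) = log p ≥ 1` (the difference of the two sums over `n ≤ ⌊·⌋` contains `p` and terms `≥ 0`;
`Chebyshev.psi`); `e^u - e^{u-η} = e^u (1 - e^{-η}) ≤ η e^u ≤ η p e^η ≤ e/8 < 1`.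
(2) `log p + η ≤ u < log(p+1)`: `p ≤ e^{u-η} ≤ e^u < p + 1`, so both floors are `p` and `ψ(e^u) = ψ(e^{u-η})`; `ez ≤ -(e^u - e^{u-η})/2 < 0`.
-/

set_option autoImplicit false

namespace Pool.Agent.H50.RL

open MeasureTheory Filter Topology

theorem signs : ∃ V0 : ℝ, 1 ≤ V0 ∧ ∀ p : ℕ, p.Prime → V0 ≤ Real.log p → ∀ η : ℝ, 0 < η → η ≤ 1 / (8 * p) →
    (∀ u, Real.log p ≤ u → u < Real.log p + η → 0 < ez η u) ∧
    (∀ u, Real.log p + η ≤ u → u < Real.log (p + 1) → ez η u < 0) := by
  obtain ⟨V, hV1, hV⟩ := tz_small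
  refine ⟨V + 1, by linarith, fun p hp hVp η hη hηp => ?_⟩
  have hp2 : (2 : ℝ) ≤ p := by exact_mod_cast hp.two_le
  have hp0 : (0 : ℝ) < p := by linarith
  have hη16 : η ≤ 1 / 16 := by
    refine hηp.trans ?_
    rw [div_le_div_iff₀ (by positivity) (by norm_num)]
    linarith
  have hpη : p * η ≤ 1 / 8 := by
    have h1 : p * η ≤ p * (1 / (8 * p)) := mul_le_mul_of_nonneg_left hηp hp0.le
    have h2 : (p : ℝ) * (1 / (8 * p)) = 1 / 8 := by
      field_simp
    linarith
  have hexplog : Real.exp (Real.log p) = p := Real.exp_log hp0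
  constructor
  · intro u hu1 hu2
    obtain ⟨h1, -⟩ := hV (u - η) u (by linarith) (by linarith)
    have hpu : (p : ℝ) ≤ Real.exp u := by
      rw [← hexplog]
      exact Real.exp_le_exp.2 hu1
    have hpu2 : Real.exp (u - η) < p := by
      rw [← hexplog]
      exact Real.exp_lt_exp.2 (by linarith)
    have hf1 : p ≤ ⌊Real.exp u⌋₊ := Nat.le_floor hpu
    have hf2 : ⌊Real.exp (u - η)⌋₊ < p := (Nat.floor_lt (Real.exp_pos _).le).2 hpu2
    have hpsi : Real.log p ≤ Chebyshev.psi (Real.exp u) - Chebyshev.psi (Real.exp (u - η)) := by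
      unfold Chebyshev.psi
      have hsub : insert p (Finset.Ioc 0 ⌊Real.exp (u - η)⌋₊) ⊆ Finset.Ioc 0 ⌊Real.exp u⌋₊ := by
        intro n hn
        rw [Finset.mem_insert, Finset.mem_Ioc] at hn
        rw [Finset.mem_Ioc]
        rcases hn with h | h
        · rw [h]
          exact ⟨hp.pos, hf1⟩
        · exact ⟨h.1, by omega⟩
      have hle := Finset.sum_le_sum_of_subset_of_nonneg hsub
        (f := fun n => ArithmeticFunction.vonMangoldt n)
        (fun n _ _ => ArithmeticFunction.vonMangoldt_nonneg)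
      rw [Finset.sum_insert (by rw [Finset.mem_Ioc]; omega),
        ArithmeticFunction.vonMangoldt_apply_prime hp] at hle
      linarith
    have hexp : Real.exp u - Real.exp (u - η) ≤ 1 / 4 := by
      have e1 : Real.exp (u - η) = Real.exp u * Real.exp (-η) := by
        rw [← Real.exp_add]
        congr 1
      have e2 : 1 - η ≤ Real.exp (-η) := by
        have := Real.add_one_le_exp (-η)
        linarith
      have e3 : Real.exp u ≤ p * Real.exp η := by
        rw [← hexplog, ← Real.exp_add]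
        exact Real.exp_le_exp.2 hu2.le
      have e4 : Real.exp η ≤ 2 := by
        have h5 : Real.exp (-η) * Real.exp η = 1 := by
          rw [← Real.exp_add, neg_add_cancel, Real.exp_zero]
        have h6 : (1 / 2 : ℝ) ≤ Real.exp (-η) := by linarith
        nlinarith [Real.exp_pos η]
      have e5 : Real.exp u ≤ 2 * p := by nlinarith
      rw [e1]
      have e6 : Real.exp u - Real.exp u * Real.exp (-η) = Real.exp u * (1 - Real.exp (-η)) := by ring
      rw [e6]
      have e7 : 1 - Real.exp (-η) ≤ η := by linarith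
      calc Real.exp u * (1 - Real.exp (-η)) ≤ Real.exp u * η :=
            mul_le_mul_of_nonneg_left e7 (Real.exp_pos _).le
        _ ≤ (2 * p) * η := mul_le_mul_of_nonneg_right e5 hη.le
        _ ≤ 1 / 4 := by linarith
    unfold ez fz
    linarith
  · intro u hu1 hu2
    obtain ⟨-, h1⟩ := hV (u - η) u (by linarith) (by linarith)
    have hpu : (p : ℝ) ≤ Real.exp (u - η) := by
      rw [← hexplog]
      exact Real.exp_le_exp.2 (by linarith)
    have hmono : Real.exp (u - η) < Real.exp u := Real.exp_lt_exp.2 (by linarith)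
    have hpu2 : Real.exp u < p + 1 := by
      have h2 : Real.exp (Real.log ((p : ℝ) + 1)) = p + 1 := Real.exp_log (by linarith)
      rw [← h2]
      exact Real.exp_lt_exp.2 hu2
    have hf1 : ⌊Real.exp u⌋₊ = p := by
      rw [Nat.floor_eq_iff (Real.exp_pos _).le]
      exact ⟨by linarith, hpu2⟩
    have hf2 : ⌊Real.exp (u - η)⌋₊ = p := by
      rw [Nat.floor_eq_iff (Real.exp_pos _).le]
      exact ⟨hpu, by linarith⟩
    have hpsi : Chebyshev.psi (Real.exp u) = Chebyshev.psi (Real.exp (u - η)) := by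
      unfold Chebyshev.psi
      rw [hf1, hf2]
    unfold ez fz
    linarith

end Pool.Agent.H50.RL
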