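import Mathlib

/-!
[H50 RL AD] Windows with many primes.

PROOF. Suppose not: for every `U ≥ V` fewer than `M + 1` primes satisfy `U ≤ log p ≤ U + 1/2` (a finite set of naturals with at least `M + 1` elements has an increasing enumeration,
`Finset.orderEmbOfFin`; the set is finite since `p ≤ exp(U + 1/2)`). W.l.o.g. `V ≥ 0`. Every prime `p` with `log p ≥ V` lies in a window `U_j = V + j/2`, `j = ⌊2(log p - V)⌋`, and contributes
`1/p ≤ e^{-V - j/2}`; so `Σ_{p ≥ e^V} 1/p ≤ Σ_j M e^{-V-j/2} < ∞`, contradicting `Nat.Primes.not_summable_one_div` (or `not_summable_one_div_on_primes`).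
-/

set_option autoImplicit false

namespace Pool.Agent.H50.RL

open MeasureTheory Filter Topology

open Classical in
private lemma window_card (M : ℕ) (U : ℝ) (h : ∀ p : Fin (M + 1) → ℕ, StrictMono p →
    ¬ ∀ i, (p i).Prime ∧ U ≤ Real.log (p i) ∧ Real.log (p i) ≤ U + 1 / 2) (s : Finset ℕ)
    (hs : ∀ n ∈ s, n.Prime ∧ U ≤ Real.log n ∧ Real.log n ≤ U + 1 / 2) : s.card ≤ M := by
  by_contra hc
  have h1 : M + 1 ≤ s.card := by omega
  refine h (s.orderEmbOfCardLe h1) (s.orderEmbOfCardLe h1).strictMono fun i => ?_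
  exact hs _ (s.orderEmbOfCardLe_mem h1 i)

theorem prime_window (M : ℕ) (V : ℝ) : ∃ U : ℝ, V ≤ U ∧ ∃ p : Fin (M + 1) → ℕ, StrictMono p ∧
    ∀ i, (p i).Prime ∧ U ≤ Real.log (p i) ∧ Real.log (p i) ≤ U + 1 / 2 := by
  classical
  by_contra hcon
  obtain ⟨W, hW, hVW⟩ : ∃ W : ℝ, 0 ≤ W ∧ V ≤ W := ⟨max V 0, le_max_right _ _, le_max_left _ _⟩
  have h : ∀ U : ℝ, W ≤ U → ∀ p : Fin (M + 1) → ℕ, StrictMono p →
      ¬ ∀ i, (p i).Prime ∧ U ≤ Real.log (p i) ∧ Real.log (p i) ≤ U + 1 / 2 :=
    fun U hU p hp hi => hcon ⟨U, hVW.trans hU, p, hp, hi⟩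
  set r : ℝ := Real.exp (-(1 / 2)) with hr
  have hr0 : 0 ≤ r := (Real.exp_pos _).le
  have hr1 : r < 1 := by
    rw [hr, Real.exp_lt_one_iff]
    norm_num
  have hsum := summable_geometric_of_lt_one hr0 hr1
  obtain ⟨L, hL⟩ : ∃ L : ℕ, Real.exp W < L := exists_nat_gt _
  apply not_summable_one_div_on_primes
  refine summable_of_sum_range_le (c := ∑ n ∈ Finset.range L, (1 : ℝ) / n + M * ∑' j : ℕ, r ^ j)
    (fun n => Set.indicator_nonneg (fun k _ => by positivity) n) fun N => ?_
  have e1 : ∑ n ∈ Finset.range N, Set.indicator {p : ℕ | p.Prime} (fun n : ℕ => (1 : ℝ) / n) n =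
      ∑ n ∈ (Finset.range N).filter (fun n => n.Prime), (1 : ℝ) / n := by
    rw [Finset.sum_filter]
    refine Finset.sum_congr rfl fun n _ => ?_
    rw [Set.indicator_apply]
    rfl
  rw [e1, ← Finset.sum_filter_add_sum_filter_not _ (fun n : ℕ => Real.log n < W)]
  refine add_le_add ?_ ?_
  · refine Finset.sum_le_sum_of_subset_of_nonneg ?_ fun n _ _ => by positivity
    intro n hn
    rw [Finset.mem_filter, Finset.mem_filter] at hn
    obtain ⟨⟨-, hp⟩, hl⟩ := hn
    rw [Finset.mem_range]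
    have h0 : (0 : ℝ) < n := by exact_mod_cast hp.pos
    have h1 : (n : ℝ) < Real.exp W := (Real.log_lt_iff_lt_exp h0).1 hl
    exact_mod_cast h1.trans hL
  · obtain ⟨s, hs⟩ : ∃ s : Finset ℕ, s = ((Finset.range N).filter (fun n => n.Prime)).filter
      (fun n : ℕ => ¬ Real.log n < W) := ⟨_, rfl⟩
    rw [← hs]
    have hs1 : ∀ n ∈ s, n.Prime ∧ W ≤ Real.log n := by
      intro n hn
      rw [hs, Finset.mem_filter, Finset.mem_filter] at hn
      exact ⟨hn.1.2, not_lt.1 hn.2⟩
    let g : ℕ → ℕ := fun n => ⌊2 * (Real.log n - W)⌋₊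
    obtain ⟨J, hJ⟩ : ∃ J : ℕ, ∀ n ∈ s, g n < J := by
      refine ⟨(s.sup g) + 1, fun n hn => ?_⟩
      have := Finset.le_sup (f := g) hn
      omega
    rw [← Finset.sum_fiberwise_of_maps_to (s := s) (t := Finset.range J) (g := g)
      (fun n hn => Finset.mem_range.2 (hJ n hn))]
    have h2 : ∀ j ∈ Finset.range J, ∑ n ∈ s with g n = j, (1 : ℝ) / n ≤ M * r ^ j := by
      intro j _
      have h3 : ∀ n ∈ s.filter (fun n => g n = j), n.Prime ∧ W + j / 2 ≤ Real.log n ∧
          Real.log n ≤ W + j / 2 + 1 / 2 := by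
        intro n hn
        rw [Finset.mem_filter] at hn
        obtain ⟨hn, hg⟩ := hn
        obtain ⟨hp, hl⟩ := hs1 n hn
        have h4 : (0 : ℝ) ≤ 2 * (Real.log n - W) := by linarith
        have h5 := Nat.floor_le h4
        have h6 := Nat.lt_floor_add_one (2 * (Real.log n - W))
        have h7 : ⌊2 * (Real.log n - W)⌋₊ = j := hg
        rw [h7] at h5 h6
        exact ⟨hp, by linarith, by linarith⟩
      have h4 := window_card M (W + j / 2) (h _ (by
        have : (0 : ℝ) ≤ j := Nat.cast_nonneg j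
        linarith)) _ h3
      have h5 : ∀ n ∈ s.filter (fun n => g n = j), (1 : ℝ) / n ≤ r ^ j := by
        intro n hn
        obtain ⟨hp, hl, -⟩ := h3 n hn
        have h0 : (0 : ℝ) < n := by exact_mod_cast hp.pos
        have h6 : Real.exp (j / 2) ≤ n := by
          rw [← Real.exp_log h0]
          apply Real.exp_le_exp.2
          linarith
        have h7 : r ^ j = (Real.exp (j / 2))⁻¹ := by
          rw [hr, ← Real.exp_nat_mul, ← Real.exp_neg]
          congr 1
          ring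
        rw [h7, one_div]
        exact inv_anti₀ (Real.exp_pos _) h6
      calc ∑ n ∈ s with g n = j, (1 : ℝ) / n ≤ ∑ n ∈ s with g n = j, r ^ j :=
            Finset.sum_le_sum h5
        _ = (s.filter (fun n => g n = j)).card * r ^ j := by
            rw [Finset.sum_const, nsmul_eq_mul]
        _ ≤ M * r ^ j := by
            refine mul_le_mul_of_nonneg_right ?_ (pow_nonneg hr0 _)
            exact_mod_cast h4
    calc ∑ j ∈ Finset.range J, ∑ n ∈ s with g n = j, (1 : ℝ) / n
        ≤ ∑ j ∈ Finset.range J, M * r ^ j := Finset.sum_le_sum h2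
      _ = M * ∑ j ∈ Finset.range J, r ^ j := by rw [Finset.mul_sum]
      _ ≤ M * ∑' j : ℕ, r ^ j := by
          refine mul_le_mul_of_nonneg_left ?_ (Nat.cast_nonneg _)
          exact hsum.sum_le_tsum _ fun j _ => pow_nonneg hr0 _

end Pool.Agent.H50.RL
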