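import Pool.Agent.H50.RL.Rec

/-!
[H50 RL AE] Simultaneous recurrence of finitely many almost periodic sums with the same frequencies.

PROOF. `C i = Σ_j ‖c j i‖ ≥ 0`, summable; `S = Σ' C i`. `recur` for the coefficients `(C i : ℂ)` with `ε' = ε^2/(2(S+1))` and `u = 0`: there is `t ≥ T` with
`‖Σ' C i (exp(iγ_i t) - 1)‖ ≤ ε'`. Its real part is `-Σ' C i (1 - cos(γ_i t)) = -(1/2) Σ' C i ‖exp(iγ_i t) - 1‖^2`, so `Σ' C i ‖exp(iγ_i t) - 1‖^2 ≤ 2ε'`. For each `j`:
`‖Σ' c j i (exp(iγ_i t) - 1)‖ ≤ Σ' C i ‖exp(iγ_i t) - 1‖ ≤ (Σ' C i)^{1/2} (Σ' C i ‖..‖^2)^{1/2} ≤ (S · 2ε')^{1/2} ≤ ε` (Cauchy-Schwarz; or `x ≤ x^2/(2λ) + λ/2` with `λ = ε/(S+1)`: `Σ' C i x_i ≤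
2ε'/(2λ) + λ S/2 ≤ ε/2 + ε/2`, which avoids the square roots).
-/

set_option autoImplicit false

namespace Pool.Agent.H50.RL

open MeasureTheory Filter Topology

theorem recur_multi {ι : Type*} (J : ℕ) (c : Fin J → ι → ℂ) (γ : ι → ℝ)
    (hc : ∀ j, Summable fun i => ‖c j i‖) (ε : ℝ) (hε : 0 < ε) (T : ℝ) :
    ∃ t : ℝ, T ≤ t ∧ ∀ j, ‖(∑' i, c j i * Complex.exp (((γ i * t : ℝ) : ℂ) * Complex.I)) -
      ∑' i, c j i‖ ≤ ε := by
  obtain ⟨C, hC⟩ : ∃ C : ι → ℝ, C = fun i => ∑ j, ‖c j i‖ := ⟨_, rfl⟩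
  have hC0 : ∀ i, 0 ≤ C i := by
    intro i
    rw [hC]
    exact Finset.sum_nonneg fun j _ => norm_nonneg _
  have hcC : ∀ j i, ‖c j i‖ ≤ C i := by
    intro j i
    rw [hC]
    exact Finset.single_le_sum (f := fun j => ‖c j i‖) (fun j _ => norm_nonneg _) (Finset.mem_univ j)
  have hCs : Summable C := by
    rw [hC]
    exact summable_sum fun j _ => hc j
  obtain ⟨S, hS⟩ : ∃ S, HasSum C S := id hCs
  have hS0 : 0 ≤ S := hS.nonneg hC0
  obtain ⟨l, hl⟩ : ∃ l, l = ε / (S + 1) := ⟨_, rfl⟩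
  have hl0 : 0 < l := by rw [hl]; positivity
  have hn : ∀ i, ‖(C i : ℂ)‖ = C i := fun i => by rw [Complex.norm_real, Real.norm_of_nonneg (hC0 i)]
  obtain ⟨t, ht, hu⟩ := recur (fun i => (C i : ℂ)) γ (by simpa only [hn] using hCs) (ε * l / 2) (by positivity) T
  refine ⟨t, ht, fun j => ?_⟩
  have h0 := hu 0
  have hexp : ∀ (i : ι) (x : ℝ), ‖Complex.exp (((γ i * x : ℝ) : ℂ) * Complex.I)‖ = 1 := fun i x =>
    Complex.norm_exp_ofReal_mul_I _
  have hsx : ∀ x : ℝ, Summable fun i => (C i : ℂ) * Complex.exp (((γ i * x : ℝ) : ℂ) * Complex.I) := fun x =>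
    Summable.of_norm (by simpa only [norm_mul, hexp, mul_one, hn] using hCs)
  have hre : ∀ x : ℝ, HasSum (fun i => C i * Real.cos (γ i * x))
      (∑' i, (C i : ℂ) * Complex.exp (((γ i * x : ℝ) : ℂ) * Complex.I)).re := by
    intro x
    have h1 := Complex.hasSum_re (hsx x).hasSum
    have h2 : (fun i => C i * Real.cos (γ i * x)) =
        fun i => ((C i : ℂ) * Complex.exp (((γ i * x : ℝ) : ℂ) * Complex.I)).re := by
      funext i
      rw [Complex.re_ofReal_mul, Complex.exp_ofReal_mul_I_re]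
    rw [h2]
    exact h1
  have hA := hre (0 + t)
  have hB := hre 0
  obtain ⟨A, hAe⟩ : ∃ A, A = ∑' i, (C i : ℂ) * Complex.exp (((γ i * (0 + t) : ℝ) : ℂ) * Complex.I) := ⟨_, rfl⟩
  obtain ⟨B, hBe⟩ : ∃ B, B = ∑' i, (C i : ℂ) * Complex.exp (((γ i * 0 : ℝ) : ℂ) * Complex.I) := ⟨_, rfl⟩
  rw [← hAe] at h0 hA
  rw [← hBe] at h0 hB
  have hBS : B.re = S := by
    refine hB.unique ?_
    simpa only [mul_zero, Real.cos_zero, mul_one] using hS
  have hAB : S - A.re ≤ ε * l / 2 := by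
    have h1 := (abs_le.1 ((Complex.abs_re_le_norm (A - B)).trans h0)).1
    rw [Complex.sub_re, hBS] at h1
    linarith
  rw [zero_add] at hA
  have hQ : HasSum (fun i => 1 / l * (C i * (1 - Real.cos (γ i * t))) + l / 2 * C i)
      (1 / l * (S - A.re) + l / 2 * S) := by
    have h1 : HasSum (fun i => C i * (1 - Real.cos (γ i * t))) (S - A.re) := by
      have h2 := hS.sub hA
      have h3 : (fun i => C i * (1 - Real.cos (γ i * t))) = fun i => C i - C i * Real.cos (γ i * t) := by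
        funext i
        ring
      rw [h3]
      exact h2
    exact (h1.mul_left _).add (hS.mul_left _)
  have hcj : Summable fun i => c j i * Complex.exp (((γ i * t : ℝ) : ℂ) * Complex.I) :=
    Summable.of_norm (by simpa only [norm_mul, hexp, mul_one] using hc j)
  rw [← hcj.tsum_sub (Summable.of_norm (hc j))]
  have hle : ∀ i, ‖c j i * Complex.exp (((γ i * t : ℝ) : ℂ) * Complex.I) - c j i‖ ≤
      1 / l * (C i * (1 - Real.cos (γ i * t))) + l / 2 * C i := by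
    intro i
    have h1 : c j i * Complex.exp (((γ i * t : ℝ) : ℂ) * Complex.I) - c j i =
        c j i * (Complex.exp (((γ i * t : ℝ) : ℂ) * Complex.I) - 1) := by ring
    obtain ⟨x, hx⟩ : ∃ x, x = ‖Complex.exp (((γ i * t : ℝ) : ℂ) * Complex.I) - 1‖ := ⟨_, rfl⟩
    have hx0 : 0 ≤ x := by rw [hx]; exact norm_nonneg _
    have hx2 : x ^ 2 = 2 * (1 - Real.cos (γ i * t)) := by
      rw [hx, ← Complex.normSq_eq_norm_sq, Complex.normSq_apply, Complex.sub_re, Complex.sub_im,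
        Complex.exp_ofReal_mul_I_re, Complex.exp_ofReal_mul_I_im, Complex.one_re, Complex.one_im]
      nlinarith [Real.sin_sq_add_cos_sq (γ i * t)]
    have h2 : x ≤ 1 / l * (1 - Real.cos (γ i * t)) + l / 2 := by
      have h3 : 1 - Real.cos (γ i * t) = x ^ 2 / 2 := by linarith
      rw [h3]
      have h4 : 1 / l * (x ^ 2 / 2) + l / 2 - x = (x - l) ^ 2 / (2 * l) := by
        field_simp
        ring
      have h5 : 0 ≤ (x - l) ^ 2 / (2 * l) := by positivity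
      linarith
    rw [h1, norm_mul, ← hx]
    calc ‖c j i‖ * x ≤ C i * x := mul_le_mul_of_nonneg_right (hcC j i) hx0
      _ ≤ C i * (1 / l * (1 - Real.cos (γ i * t)) + l / 2) := mul_le_mul_of_nonneg_left h2 (hC0 i)
      _ = _ := by ring
  refine (tsum_of_norm_bounded hQ hle).trans ?_
  have h1 : 1 / l * (S - A.re) ≤ 1 / l * (ε * l / 2) := mul_le_mul_of_nonneg_left hAB (by positivity)
  have h2 : 1 / l * (ε * l / 2) = ε / 2 := by field_simp
  have h3 : l / 2 * S ≤ ε / 2 := by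
    have h4 : l * (S + 1) = ε := by
      rw [hl]
      field_simp
    nlinarith
  linarith

end Pool.Agent.H50.RL
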