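import Pool.Agent.H50.RL.Aa
import Pool.Agent.H50.RL.Ac
import Pool.Agent.H50.RL.Ad
import Pool.Agent.H50.RL.Ae

/-!
[H50 RL AF] Part A: if no zero has real part `> 1/2`, small `η` give many sign changes.

PROOF. By `zeta_sym` every zero with `Re ρ > 0` has `Re ρ = 1/2` (`Re (1-ρ) ≤ 1/2`). `V0` from `signs`; `prime_window M (V0 + 1)`: `U`, primes `p_0 < ... < p_M` with `U ≤ log p_i ≤ U + 1/2`. `η0 = 1/(8 (p_M + 1))`
(`≤ 1/(8 p_i)` for all `i`). Let `0 < η < η0`. Open intervals `I_i = (log p_i, log p_i + η)` for `i` even, `(log p_i + η, log(p_i + 1))` for `i` odd: nonempty (`log(1 + 1/p) ≥ 1/(p+1) > η`), ordered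
(`p_i + 1 ≤ p_{i+1}`), contained in `[U, U+1]` (`log(p+1) ≤ log p + 1/p ≤ U + 1`, `p ≥ 2`). On `I_i` the sign of `ez η` is `(-1)^i` (`signs`). `k_i ≥ 0` a smooth bump, positive somewhere, support in `I_i` (`ContDiffBump` with closed support ball inside `I_i`). For `t ≥ 0` put
`k_{i,t}(u) = e^{-u/2} k_i(u - t)`, supported in `[U + t, U + 1 + t]`, `U > η`. `efd`: `D_i(t) := ∫ ez η u · k_{i,t}(u) du = Σ' c_i(ρ) e^{iγt}` with
`c_i(ρ) = -(mz/ρ)(1 - e^{-ρη}) ∫ k_i(w) e^{iγw} dw` on `Re ρ > 0` (`= 1/2`), else `0`: since `Lf k_{i,t} ρ = ∫ k_i(u-t) e^{iγu} du = e^{iγt} ∫ k_i(w) e^{iγw} dw`; `Σ ‖c_i‖ < ∞` from `efd` at `t = 0`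
(`‖(1-e^{-ρη})/ρ‖ ≤ 2/‖ρ‖ ≤ C`, `zz_away`). `D_i(0)` is the integral of a function of sign `(-1)^i`, not a.e. zero: `(-1)^i D_i(0) > 0` (`ez η` is measurable and bounded on the support; strict positivity:
`integral_pos_iff_support_of_nonneg_ae` on the open set where `k_i > 0`). Let `3ε = min_i |D_i(0)|`. `recur_multi`: for arbitrarily large `t`, `|D_i(t) - D_i(0)| ≤ ε` for all `i`. Moreover
`|∫ (Tz u - Tz(u-η)) k_{i,t}(u) du| ≤ 2 sup_{u ≥ t} |Tz u| ∫ k_i ≤ ε` for `t` large (`tz_lim`). So `(-1)^i ∫ (fz u - fz(u-η)) k_{i,t}(u) du > 0`, hence there is `u_i ∈ t + I_i` with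
`(-1)^i (fz u_i - fz(u_i - η)) > 0`. Take `y = t + U ≥ Y0`, points `u_0 < ... < u_M`.
-/

set_option autoImplicit false

namespace Pool.Agent.H50.RL

open MeasureTheory Filter Topology

private theorem exb (α β : ℝ) (h : α < β) : ∃ g : ℝ → ℝ, ContDiff ℝ 4 g ∧ (∀ u, 0 ≤ g u) ∧
    ∃ a b, α < a ∧ a < b ∧ b < β ∧ ∀ u, g u ≠ 0 ↔ a < u ∧ u < b := by
  let f : ContDiffBump ((α + β) / 2) := ⟨(β - α) / 8, (β - α) / 4, by linarith, by linarith⟩
  refine ⟨f, f.contDiff, fun u => f.nonneg, (α + β) / 2 - (β - α) / 4, (α + β) / 2 + (β - α) / 4,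
    by linarith, by linarith, by linarith, fun u => ?_⟩
  have h1 : u ∈ Function.support f ↔ u ∈ Metric.ball ((α + β) / 2) ((β - α) / 4) := by
    rw [f.support_eq]
  rw [Function.mem_support, Real.ball_eq_Ioo, Set.mem_Ioo] at h1
  exact h1

private theorem int_ez {k : ℝ → ℝ} (hk : Continuous k) {a b η : ℝ} (hη : 0 < η) (ha : η < a)
    (hs : ∀ u, k u ≠ 0 → a ≤ u ∧ u ≤ b) : Integrable fun u => ez η u * k u := by
  have hf : ∀ c : ℝ, IntegrableOn (fun u => fz (u - c)) (Set.Icc a b) := by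
    intro c
    have h1 : IntegrableOn (fun u => Chebyshev.psi (Real.exp (u - c))) (Set.Icc a b) := by
      refine MonotoneOn.integrableOn_isCompact isCompact_Icc fun x _ y _ hxy => ?_
      exact Chebyshev.psi_mono (Real.exp_le_exp.2 (by linarith))
    have h2 : IntegrableOn (fun u => Real.exp (u - c)) (Set.Icc a b) :=
      ContinuousOn.integrableOn_Icc (Continuous.continuousOn (by fun_prop))
    exact h1.sub h2
  have hT : ∀ c : ℝ, c < a → IntegrableOn (fun u => Tz (u - c)) (Set.Icc a b) := by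
    intro c hc
    refine ContinuousOn.integrableOn_Icc ?_
    refine tz_cont.comp (Continuous.continuousOn (by fun_prop)) ?_
    intro u hu
    show 0 < u - c
    linarith [hu.1]
  have h1 : IntegrableOn (ez η) (Set.Icc a b) := by
    have h2 := ((hf 0).sub (hf η)).add ((hT 0 (by linarith)).sub (hT η ha))
    simp only [sub_zero] at h2
    exact h2
  have h2 : IntegrableOn (fun u => ez η u * k u) (Set.Icc a b) :=
    h1.mul_continuousOn hk.continuousOn isCompact_Icc
  refine (integrableOn_iff_integrable_of_support_subset ?_).1 h2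
  intro u hu
  have h3 : k u ≠ 0 := fun h0 => hu (by
    show ez η u * k u = 0
    rw [h0, mul_zero])
  exact hs u h3

/-- the coefficients -/
private noncomputable def cc (g : ℝ → ℝ) (η : ℝ) (ρ : ZZ) : ℂ :=
  if 0 < (ρ : ℂ).re then (mz ρ : ℂ) / (ρ : ℂ) * (1 - Complex.exp (-((ρ : ℂ) * η))) * Lf g ρ else 0

private theorem cc_summ {g : ℝ → ℝ} (hg : ContDiff ℝ 4 g) {a b η : ℝ} (hη : 0 < η) (ha : η < a)
    (hs : ∀ u, g u ≠ 0 → a ≤ u ∧ u ≤ b) : Summable fun ρ => ‖cc g η ρ‖ := by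
  obtain ⟨c, hc, hcρ⟩ := zz_away
  have h1 := (efd g hg a b η hη ha hs).1
  refine Summable.of_nonneg_of_le (fun ρ => norm_nonneg _) ?_ (h1.mul_left (2 / c))
  intro ρ
  unfold cc
  split_ifs with h
  · have hm : 0 ≤ mz ρ := zero_le_one.trans (mz_one_le ρ)
    have h2 : ‖1 - Complex.exp (-((ρ : ℂ) * η))‖ ≤ 2 := by
      refine (norm_sub_le _ _).trans ?_
      rw [norm_one, Complex.norm_exp]
      have h3 : (-((ρ : ℂ) * (η : ℂ))).re = -((ρ : ℂ).re * η) := by
        rw [Complex.neg_re, Complex.mul_re, Complex.ofReal_re, Complex.ofReal_im]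
        ring
      have h4 : Real.exp (-((ρ : ℂ).re * η)) ≤ 1 := by
        rw [Real.exp_le_one_iff]
        have := mul_pos h hη
        linarith
      rw [h3]
      linarith
    rw [norm_mul, norm_mul, norm_div, Complex.norm_real, Real.norm_of_nonneg hm]
    have h5 : mz ρ / ‖(ρ : ℂ)‖ ≤ mz ρ / c := div_le_div_of_nonneg_left hm hc (hcρ ρ)
    calc mz ρ / ‖(ρ : ℂ)‖ * ‖1 - Complex.exp (-((ρ : ℂ) * η))‖ * ‖Lf g ρ‖
        ≤ mz ρ / c * 2 * ‖Lf g ρ‖ := by
          refine mul_le_mul_of_nonneg_right ?_ (norm_nonneg _)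
          exact mul_le_mul h5 h2 (norm_nonneg _) (div_nonneg hm hc.le)
      _ = 2 / c * (mz ρ * ‖Lf g ρ‖) := by ring
  · rw [norm_zero, mul_zero]

private theorem Lf_shift (g : ℝ → ℝ) (t : ℝ) (z : ℂ) (hz : z.re = 1 / 2) :
    Lf (fun u => Real.exp (-(t / 2)) * g (u - t)) z =
      Complex.exp (((z.im * t : ℝ) : ℂ) * Complex.I) * Lf g z := by
  unfold Lf
  have h1 := integral_sub_right_eq_self (μ := volume) (fun u : ℝ =>
    Complex.exp (((z.im * t : ℝ) : ℂ) * Complex.I) * ((g u : ℂ) * Complex.exp (z * u))) t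
  rw [← integral_const_mul, ← h1]
  refine integral_congr_ae (Eventually.of_forall fun u => ?_)
  show ((Real.exp (-(t / 2)) * g (u - t) : ℝ) : ℂ) * Complex.exp (z * u) =
    Complex.exp (((z.im * t : ℝ) : ℂ) * Complex.I) * ((g (u - t) : ℂ) * Complex.exp (z * ((u - t : ℝ) : ℂ)))
  have h3 : z = 1 / 2 + (z.im : ℂ) * Complex.I := by
    apply Complex.ext <;> simp [hz]
  have h2 : Complex.exp (z * u) = Complex.exp (((z.im * t : ℝ) : ℂ) * Complex.I) *
      Complex.exp (z * ((u - t : ℝ) : ℂ)) * Complex.exp ((t / 2 : ℝ) : ℂ) := by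
    rw [← Complex.exp_add, ← Complex.exp_add]
    congr 1
    push_cast
    linear_combination (t : ℂ) * h3
  have h4 : ((Real.exp (-(t / 2)) : ℝ) : ℂ) * Complex.exp ((t / 2 : ℝ) : ℂ) = 1 := by
    rw [← Complex.ofReal_exp, ← Complex.ofReal_mul, ← Real.exp_add, neg_add_cancel, Real.exp_zero,
      Complex.ofReal_one]
  rw [h2, Complex.ofReal_mul]
  linear_combination ((g (u - t) : ℂ) * Complex.exp (((z.im * t : ℝ) : ℂ) * Complex.I) *
      Complex.exp (z * ((u - t : ℝ) : ℂ))) * h4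

private theorem D_t (hRH : ∀ ρ : ZZ, (ρ : ℂ).re ≤ 1 / 2) {g : ℝ → ℝ} (hg : ContDiff ℝ 4 g) {a b η t : ℝ}
    (hη : 0 < η) (ha : η < a) (ht : 0 ≤ t) (hs : ∀ u, g u ≠ 0 → a ≤ u ∧ u ≤ b) :
    ((∫ u, ez η u * (Real.exp (-(t / 2)) * g (u - t)) : ℝ) : ℂ) =
      -∑' ρ : ZZ, cc g η ρ * Complex.exp ((((ρ : ℂ).im * t : ℝ) : ℂ) * Complex.I) := by
  have hc : ContDiff ℝ 4 fun u => Real.exp (-(t / 2)) * g (u - t) :=
    contDiff_const.mul (hg.comp (contDiff_id.sub contDiff_const))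
  have h1 := (efd (fun u => Real.exp (-(t / 2)) * g (u - t)) hc (a + t) (b + t) η hη (by linarith) (by
    intro u hu
    have h2 : g (u - t) ≠ 0 := fun h0 => hu (by
      show Real.exp (-(t / 2)) * g (u - t) = 0
      rw [h0, mul_zero])
    have h3 := hs _ h2
    exact ⟨by linarith [h3.1], by linarith [h3.2]⟩)).2
  rw [h1]
  congr 1
  refine tsum_congr fun ρ => ?_
  unfold cc
  split_ifs with h
  · have hre : (ρ : ℂ).re = 1 / 2 := by
      have h2 := hRH ⟨1 - (ρ : ℂ), zeta_sym ρ ρ.2 h⟩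
      have h3 : (1 - (ρ : ℂ)).re ≤ 1 / 2 := h2
      rw [Complex.sub_re, Complex.one_re] at h3
      have h4 := hRH ρ
      linarith
    rw [Lf_shift g t _ hre]
    ring
  · rw [zero_mul]

/-- a point with the right sign -/
private theorem pt {g : ℝ → ℝ} (hg : Continuous g) (hg0 : ∀ u, 0 ≤ g u) {a b η t σ δ : ℝ}
    (hη : 0 < η) (ha : η < a) (ht : 0 ≤ t) (hs : ∀ u, g u ≠ 0 → a ≤ u ∧ u ≤ b) (hσ : |σ| = 1) (hδ0 : 0 ≤ δ)
    (hδ : ∀ u, a + t ≤ u → |Tz u - Tz (u - η)| ≤ δ)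
    (hD : δ * (∫ u, g u) < σ * ∫ u, ez η u * (Real.exp (-(t / 2)) * g (u - t))) :
    ∃ u, a + t ≤ u ∧ u ≤ b + t ∧ 0 < σ * (fz u - fz (u - η)) := by
  by_contra hcon
  push Not at hcon
  have hkc : Continuous fun u => Real.exp (-(t / 2)) * g (u - t) :=
    continuous_const.mul (hg.comp (continuous_id.sub continuous_const))
  have hks : ∀ u, Real.exp (-(t / 2)) * g (u - t) ≠ 0 → a + t ≤ u ∧ u ≤ b + t := by
    intro u hu
    have h2 : g (u - t) ≠ 0 := fun h0 => hu (by rw [h0, mul_zero])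
    have h3 := hs _ h2
    exact ⟨by linarith [h3.1], by linarith [h3.2]⟩
  have hcs : HasCompactSupport g := by
    refine HasCompactSupport.intro (K := Set.Icc a b) isCompact_Icc fun u hu => ?_
    by_contra h0
    exact hu (hs u h0)
  have hgi : Integrable g := hg.integrable_of_hasCompactSupport hcs
  have hki : Integrable fun u => Real.exp (-(t / 2)) * g (u - t) :=
    (hgi.comp_sub_right t).const_mul _
  have hei := int_ez hkc hη (by linarith : η < a + t) hks
  have h1 : ∫ u, σ * (ez η u * (Real.exp (-(t / 2)) * g (u - t))) ≤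
      ∫ u, δ * (Real.exp (-(t / 2)) * g (u - t)) := by
    refine integral_mono (hei.const_mul σ) (hki.const_mul δ) fun u => ?_
    show σ * (ez η u * (Real.exp (-(t / 2)) * g (u - t))) ≤ δ * (Real.exp (-(t / 2)) * g (u - t))
    have hk0 : 0 ≤ Real.exp (-(t / 2)) * g (u - t) := mul_nonneg (Real.exp_pos _).le (hg0 _)
    rcases eq_or_ne (Real.exp (-(t / 2)) * g (u - t)) 0 with h0 | h0
    · rw [h0, mul_zero, mul_zero, mul_zero]
    · obtain ⟨h2, h3⟩ := hks u h0
      rw [← mul_assoc]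
      refine mul_le_mul_of_nonneg_right ?_ hk0
      have h4 := hcon u h2 h3
      have h5 : σ * (Tz u - Tz (u - η)) ≤ δ := by
        refine (le_abs_self _).trans ?_
        rw [abs_mul, hσ, one_mul]
        exact hδ u h2
      unfold ez
      linarith
  rw [integral_const_mul, integral_const_mul, integral_const_mul,
    integral_sub_right_eq_self (μ := volume) g t] at h1
  have h2 : Real.exp (-(t / 2)) ≤ 1 := by
    rw [Real.exp_le_one_iff]
    linarith
  have h3 : 0 ≤ ∫ u, g u := integral_nonneg hg0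
  have h4 : Real.exp (-(t / 2)) * (∫ u, g u) ≤ 1 * ∫ u, g u := mul_le_mul_of_nonneg_right h2 h3
  have h5 : δ * (Real.exp (-(t / 2)) * ∫ u, g u) ≤ δ * (1 * ∫ u, g u) := mul_le_mul_of_nonneg_left h4 hδ0
  rw [one_mul] at h5
  linarith

private theorem log_gap {p : ℝ} (hp : 2 ≤ p) : 1 / (p + 1) ≤ Real.log (p + 1) - Real.log p ∧
    Real.log (p + 1) - Real.log p ≤ 1 / p := by
  have h0 : 0 < p := by linarith
  rw [← Real.log_div (by linarith) (by linarith)]
  have hx : 0 < (p + 1) / p := by positivity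
  constructor
  · have h1 := Real.one_sub_inv_le_log_of_pos hx
    have h2 : 1 - ((p + 1) / p)⁻¹ = 1 / (p + 1) := by
      have : p + 1 ≠ 0 := by linarith
      field_simp
      ring
    rwa [h2] at h1
  · have h1 := Real.log_le_sub_one_of_pos hx
    have h2 : (p + 1) / p - 1 = 1 / p := by
      field_simp
      ring
    rwa [h2] at h1

/-- the intervals -/
private theorem ivs (M : ℕ) : ∃ η0 U : ℝ, 0 < η0 ∧ η0 < 1 ∧ 1 ≤ U ∧ ∀ η : ℝ, 0 < η → η < η0 →
    ∃ α β : Fin (M + 1) → ℝ, (∀ i, α i < β i) ∧ (∀ i j, i < j → β i ≤ α j) ∧ (∀ i, U ≤ α i) ∧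
      (∀ i, β i ≤ U + 1) ∧ ∀ i u, α i ≤ u → u < β i → 0 < (-1 : ℝ) ^ (i : ℕ) * ez η u := by
  obtain ⟨V0, hV1, hV⟩ := signs
  obtain ⟨U, hU, p, hp, hpp⟩ := prime_window M (V0 + 1)
  have hp2 : ∀ i, (2 : ℝ) ≤ p i := fun i => by exact_mod_cast (hpp i).1.two_le
  have hlast : ∀ i, (p i : ℝ) ≤ p (Fin.last M) := fun i => by exact_mod_cast hp.monotone (Fin.le_last i)
  have hl2 := hp2 (Fin.last M)
  refine ⟨1 / (8 * ((p (Fin.last M) : ℝ) + 1)), U, by positivity, ?_, by linarith, fun η hη hη1 => ?_⟩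
  · rw [div_lt_one (by positivity)]
    linarith
  have hgap : ∀ i, η < 1 / ((p i : ℝ) + 1) ∧ η ≤ 1 / (8 * (p i : ℝ)) := by
    intro i
    have h1 := hp2 i
    have h2 := hlast i
    constructor
    · refine hη1.trans_le ?_
      exact one_div_le_one_div_of_le (by linarith) (by linarith)
    · refine hη1.le.trans ?_
      exact one_div_le_one_div_of_le (by linarith) (by linarith)
  have hg : ∀ i, Real.log (p i) + η < Real.log ((p i : ℝ) + 1) := fun i => by
    have h1 := (log_gap (hp2 i)).1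
    have h2 := (hgap i).1
    linarith
  have hstep : ∀ i j, i < j → Real.log ((p i : ℝ) + 1) ≤ Real.log (p j) := by
    intro i j hij
    have h1 : p i + 1 ≤ p j := hp hij
    have h2 : (p i : ℝ) + 1 ≤ p j := by exact_mod_cast h1
    exact Real.log_le_log (by linarith [hp2 i]) h2
  have htop : ∀ i, Real.log ((p i : ℝ) + 1) ≤ U + 1 := by
    intro i
    have h1 := (log_gap (hp2 i)).2
    have h2 := (hpp i).2.2
    have h3 : 1 / (p i : ℝ) ≤ 1 / 2 := one_div_le_one_div_of_le (by norm_num) (hp2 i)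
    linarith
  have hs : ∀ i, (∀ u, Real.log (p i) ≤ u → u < Real.log (p i) + η → 0 < ez η u) ∧
      (∀ u, Real.log (p i) + η ≤ u → u < Real.log ((p i : ℝ) + 1) → ez η u < 0) := fun i =>
    hV (p i) (hpp i).1 (by linarith [(hpp i).2.1]) η hη (hgap i).2
  classical
  refine ⟨fun i => if Even (i : ℕ) then Real.log (p i) else Real.log (p i) + η,
    fun i => if Even (i : ℕ) then Real.log (p i) + η else Real.log ((p i : ℝ) + 1), ?_, ?_, ?_, ?_, ?_⟩
  · intro i
    show (if Even (i : ℕ) then Real.log (p i) else Real.log (p i) + η) <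
      if Even (i : ℕ) then Real.log (p i) + η else Real.log ((p i : ℝ) + 1)
    by_cases he : Even (i : ℕ)
    · rw [if_pos he, if_pos he]
      linarith
    · rw [if_neg he, if_neg he]
      exact hg i
  · intro i j hij
    show (if Even (i : ℕ) then Real.log (p i) + η else Real.log ((p i : ℝ) + 1)) ≤
      if Even (j : ℕ) then Real.log (p j) else Real.log (p j) + η
    have h1 : (if Even (i : ℕ) then Real.log (p i) + η else Real.log ((p i : ℝ) + 1)) ≤
        Real.log ((p i : ℝ) + 1) := by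
      split_ifs
      · exact (hg i).le
      · exact le_rfl
    have h2 : Real.log (p j) ≤ if Even (j : ℕ) then Real.log (p j) else Real.log (p j) + η := by
      split_ifs
      · exact le_rfl
      · linarith
    exact h1.trans ((hstep i j hij).trans h2)
  · intro i
    show U ≤ if Even (i : ℕ) then Real.log (p i) else Real.log (p i) + η
    have h1 := (hpp i).2.1
    split_ifs
    · exact h1
    · linarith
  · intro i
    show (if Even (i : ℕ) then Real.log (p i) + η else Real.log ((p i : ℝ) + 1)) ≤ U + 1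
    split_ifs
    · exact (hg i).le.trans (htop i)
    · exact htop i
  · intro i u h1 h2
    change (if Even (i : ℕ) then Real.log (p i) else Real.log (p i) + η) ≤ u at h1
    change u < (if Even (i : ℕ) then Real.log (p i) + η else Real.log ((p i : ℝ) + 1)) at h2
    by_cases he : Even (i : ℕ)
    · rw [if_pos he] at h1 h2
      rw [he.neg_one_pow, one_mul]
      exact (hs i).1 u h1 h2
    · rw [if_neg he] at h1 h2
      rw [(Nat.not_even_iff_odd.1 he).neg_one_pow]
      have := (hs i).2 u h1 h2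
      linarith

theorem part_a (hRH : ∀ ρ : ZZ, (ρ : ℂ).re ≤ 1 / 2) (M : ℕ) :
    ∃ η0 : ℝ, 0 < η0 ∧ ∀ η : ℝ, 0 < η → η < η0 → ∀ Y0 : ℝ, ∃ y : ℝ, Y0 ≤ y ∧
      SC (fun v => fz v - fz (v - η)) y (y + 1) M := by
  obtain ⟨η0, U, h0, h01, hU1, hiv⟩ := ivs M
  refine ⟨η0, h0, fun η hη hη1 Y0 => ?_⟩
  obtain ⟨α, β, hαβ, hord, hUα, hβU, hsg⟩ := hiv η hη hη1
  choose g hgc hg0 a b haα hab hbβ hsupp using fun i => exb (α i) (β i) (hαβ i)
  have hηa : ∀ i, η < a i := fun i => by linarith [hUα i, haα i]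
  have hs : ∀ i u, g i u ≠ 0 → a i ≤ u ∧ u ≤ b i := fun i u hu =>
    ⟨((hsupp i u).1 hu).1.le, ((hsupp i u).1 hu).2.le⟩
  have hσ : ∀ i : Fin (M + 1), |(-1 : ℝ) ^ (i : ℕ)| = 1 := fun i => by
    rw [abs_pow, abs_neg, abs_one, one_pow]
  -- positivity at `t = 0`
  have hpos : ∀ i : Fin (M + 1), 0 < (-1 : ℝ) ^ (i : ℕ) * ∫ u, ez η u * g i u := by
    intro i
    have hint := int_ez (hgc i).continuous hη (hηa i) (hs i)
    rw [← integral_const_mul]
    rw [integral_pos_iff_support_of_nonneg ?_ (hint.const_mul _)]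
    · refine lt_of_lt_of_le ?_ (measure_mono (s := Set.Ioo (a i) (b i)) ?_)
      · rw [Real.volume_Ioo, ENNReal.ofReal_pos]
        linarith [hab i]
      · intro u hu
        have h1 : g i u ≠ 0 := (hsupp i u).2 hu
        have h2 := hsg i u (by linarith [haα i, hu.1]) (by linarith [hbβ i, hu.2])
        show (-1 : ℝ) ^ (i : ℕ) * (ez η u * g i u) ≠ 0
        rw [← mul_assoc]
        exact mul_ne_zero h2.ne' h1
    · intro u
      show 0 ≤ (-1 : ℝ) ^ (i : ℕ) * (ez η u * g i u)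
      rcases eq_or_ne (g i u) 0 with h1 | h1
      · rw [h1, mul_zero, mul_zero]
      · have h3 := (hsupp i u).1 h1
        have h2 := hsg i u (by linarith [haα i, h3.1]) (by linarith [hbβ i, h3.2])
        rw [← mul_assoc]
        exact mul_nonneg h2.le (hg0 i u)
  obtain ⟨ε, hε, hεle⟩ : ∃ ε : ℝ, 0 < ε ∧ ∀ i : Fin (M + 1), 3 * ε ≤ (-1 : ℝ) ^ (i : ℕ) * ∫ u, ez η u * g i u := by
    obtain ⟨i, -, hi⟩ := Finset.exists_min_image (Finset.univ : Finset (Fin (M + 1)))
      (fun i : Fin (M + 1) => (-1 : ℝ) ^ (i : ℕ) * ∫ u, ez η u * g i u) ⟨0, Finset.mem_univ _⟩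
    refine ⟨((-1 : ℝ) ^ (i : ℕ) * ∫ u, ez η u * g i u) / 3, by
      have := hpos i
      linarith, fun j => ?_⟩
    have := hi j (Finset.mem_univ _)
    linarith
  obtain ⟨K, hK0, hK⟩ : ∃ K : ℝ, 0 ≤ K ∧ ∀ i, ∫ u, g i u ≤ K := by
    refine ⟨∑ i, ∫ u, g i u, Finset.sum_nonneg fun i _ => integral_nonneg (hg0 i), fun i => ?_⟩
    exact Finset.single_le_sum (f := fun i => ∫ u, g i u) (fun i _ => integral_nonneg (hg0 i)) (Finset.mem_univ i)
  obtain ⟨δ, hδ⟩ : ∃ δ : ℝ, δ = ε / (K + 1) := ⟨_, rfl⟩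
  have hδ0 : 0 < δ := by rw [hδ]; positivity
  have hδK : δ * K ≤ ε := by
    have h1 : δ * (K + 1) = ε := by
      rw [hδ]
      field_simp
    nlinarith
  obtain ⟨T0, hT0⟩ : ∃ T0 : ℝ, ∀ v, T0 ≤ v → |Tz v| ≤ δ / 2 := by
    have h1 := (Metric.tendsto_nhds.1 tz_lim) (δ / 2) (by positivity)
    obtain ⟨T0, hT0⟩ := Filter.eventually_atTop.1 h1
    refine ⟨T0, fun v hv => ?_⟩
    have h2 := hT0 v hv
    rw [Real.dist_eq, sub_zero] at h2
    exact h2.le
  obtain ⟨t, ht, hrec⟩ := recur_multi (M + 1) (fun i => cc (g i) η) (fun ρ : ZZ => (ρ : ℂ).im)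
    (fun i => cc_summ (hgc i) hη (hηa i) (hs i)) ε hε (max 0 (max (Y0 - U) (T0 + η)))
  have ht0 : 0 ≤ t := (le_max_left _ _).trans ht
  have ht1 : Y0 - U ≤ t := (le_max_left _ _).trans ((le_max_right _ _).trans ht)
  have ht2 : T0 + η ≤ t := (le_max_right _ _).trans ((le_max_right _ _).trans ht)
  have hpts : ∀ i : Fin (M + 1), ∃ u, a i + t ≤ u ∧ u ≤ b i + t ∧ 0 < (-1 : ℝ) ^ (i : ℕ) * (fz u - fz (u - η)) := by
    intro i
    refine pt (hgc i).continuous (hg0 i) hη (hηa i) ht0 (hs i) (hσ i) hδ0.le ?_ ?_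
    · intro u hu
      have h1 := hηa i
      have h2 := hT0 u (by linarith)
      have h3 := hT0 (u - η) (by linarith)
      exact (abs_sub _ _).trans (by linarith)
    · have h1 := D_t hRH (hgc i) hη (hηa i) ht0 (hs i)
      have h2 := D_t hRH (hgc i) hη (hηa i) (le_refl 0) (hs i)
      have h3 : ∀ ρ : ZZ, cc (g i) η ρ * Complex.exp ((((ρ : ℂ).im * 0 : ℝ) : ℂ) * Complex.I) = cc (g i) η ρ := by
        intro ρ
        rw [mul_zero, Complex.ofReal_zero, zero_mul, Complex.exp_zero, mul_one]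
      simp_rw [h3] at h2
      have h4 : ∀ u : ℝ, ez η u * (Real.exp (-(0 / 2)) * g i (u - 0)) = ez η u * g i u := by
        intro u
        rw [zero_div, neg_zero, Real.exp_zero, one_mul, sub_zero]
      simp_rw [h4] at h2
      have h5 := hrec i
      have h6 : (((∫ u, ez η u * (Real.exp (-(t / 2)) * g i (u - t))) - ∫ u, ez η u * g i u : ℝ) : ℂ) =
          -((∑' ρ : ZZ, cc (g i) η ρ * Complex.exp ((((ρ : ℂ).im * t : ℝ) : ℂ) * Complex.I)) -
            ∑' ρ : ZZ, cc (g i) η ρ) := by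
        rw [Complex.ofReal_sub, h1, h2]
        ring
      have h7 : |(∫ u, ez η u * (Real.exp (-(t / 2)) * g i (u - t))) - ∫ u, ez η u * g i u| ≤ ε := by
        rw [← Real.norm_eq_abs, ← Complex.norm_real, h6, norm_neg]
        exact h5
      have h8 : |(-1 : ℝ) ^ (i : ℕ) * ((∫ u, ez η u * (Real.exp (-(t / 2)) * g i (u - t))) -
          ∫ u, ez η u * g i u)| ≤ ε := by
        rw [abs_mul, hσ i, one_mul]
        exact h7
      have h9 := (abs_le.1 h8).1
      have h10 := hεle i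
      have h11 : δ * (∫ u, g i u) ≤ δ * K := mul_le_mul_of_nonneg_left (hK i) hδ0.le
      rw [mul_sub] at h9
      linarith
  choose x hx1 hx2 hx3 using hpts
  refine ⟨U + t, by linarith, x, ?_, ?_, ?_⟩
  · intro i j hij
    have h1 := hord i j hij
    have h2 := hx2 i
    have h3 := hx1 j
    have h4 := hbβ i
    have h5 := haα j
    linarith
  · intro i
    have h1 := hx1 i
    have h2 := hx2 i
    have h3 := hUα i
    have h4 := haα i
    have h5 := hbβ i
    have h6 := hβU i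
    exact ⟨by linarith, by linarith⟩
  · intro i
    have h1 := hx3 i.castSucc
    have h2 := hx3 i.succ
    show (fz (x i.castSucc) - fz (x i.castSucc - η)) * (fz (x i.succ) - fz (x i.succ - η)) < 0
    have h3 := mul_pos h1 h2
    rw [Fin.val_castSucc, Fin.val_succ] at h3
    have h4 : (-1 : ℝ) ^ (i : ℕ) * (fz (x i.castSucc) - fz (x i.castSucc - η)) *
        ((-1 : ℝ) ^ ((i : ℕ) + 1) * (fz (x i.succ) - fz (x i.succ - η))) =
        -((fz (x i.castSucc) - fz (x i.castSucc - η)) * (fz (x i.succ) - fz (x i.succ - η))) := by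
      have h5 : ((-1 : ℝ) ^ (i : ℕ)) * ((-1 : ℝ) ^ (i : ℕ)) = 1 := by
        rw [← mul_pow]
        norm_num
      rw [pow_succ]
      linear_combination (-((fz (x i.castSucc) - fz (x i.castSucc - η)) * (fz (x i.succ) - fz (x i.succ - η)))) * h5
    rw [h4] at h3
    linarith

end Pool.Agent.H50.RL
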