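import Pool.Agent.H50.RL.Defs

/-!
[H50 RL APF] Basic facts on the almost periodic function `r` of `LineData`.

`ρ i = Θ + i γ i`, `‖ρ i‖ > 0` since `Θ > 0`. The series of `r` converges absolutely, `‖(m/ρ) exp(iγu)‖ = m/‖ρ‖`
(`Complex.norm_exp_ofReal_mul_I`).
`r_abs_le`: norm of a tsum at most the tsum of the norms. `r_cont`: `continuous_tsum` with this majorant for the complex
function, then the real part. `S_nonneg`: `tsum_nonneg`.
`loc_fin`: if `|γ i| ≤ T` then `m i/‖ρ i‖ ≥ 1/(Θ + T)`, and a summable family has only finitely many members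
`≥ 1/(Θ+T) > 0` (`Summable.tendsto_cofinite_zero`), for `T ≥ 0`; for `T < 0` the set is empty.
`d_cont`, `d_abs_le`: `|d| ≤ 2 S` for `η ≥ 0` because `exp(-Θη) ≤ 1`.
`d_series`: `exp(-Θη) exp(iγ(u-η)) = exp(iγu) exp(-ρη)`; subtract the two series termwise (`Summable.tsum_sub`).
`summ_d`: `‖1 - exp(-ρη)‖ ≤ 2` for `η ≥ 0`.
-/

set_option autoImplicit false

namespace Pool.Agent.H50.RL

open MeasureTheory Filter Topology

/-- the zeros -/
noncomputable def LineData.ρ (D : LineData) (i : D.ι) : ℂ := (D.Θ : ℂ) + (D.γ i : ℂ) * Complex.I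

theorem ρ_ne (D : LineData) (i : D.ι) : D.ρ i ≠ 0 := by
  intro h
  have h1 := congrArg Complex.re h
  simp [LineData.ρ] at h1
  have := D.Θpos
  linarith

private theorem ρ_re (D : LineData) (i : D.ι) : (D.ρ i).re = D.Θ := by simp [LineData.ρ]

private theorem ρ_im (D : LineData) (i : D.ι) : (D.ρ i).im = D.γ i := by simp [LineData.ρ]

private theorem m_pos (D : LineData) (i : D.ι) : 0 < D.m i := by linarith [D.one_le i]

private theorem nrm_c (D : LineData) (i : D.ι) : ‖(D.m i : ℂ) / D.ρ i‖ = D.m i / ‖(D.Θ : ℂ) + (D.γ i : ℂ) * Complex.I‖ := by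
  rw [norm_div, Complex.norm_real, Real.norm_of_nonneg (m_pos D i).le]
  rfl

private theorem nrm_t (D : LineData) (i : D.ι) (u : ℝ) :
    ‖((D.m i : ℂ) / D.ρ i) * Complex.exp (((D.γ i * u : ℝ) : ℂ) * Complex.I)‖ =
      D.m i / ‖(D.Θ : ℂ) + (D.γ i : ℂ) * Complex.I‖ := by
  rw [norm_mul, nrm_c, Complex.norm_exp_ofReal_mul_I, mul_one]

private theorem t_nn (D : LineData) (i : D.ι) : 0 ≤ D.m i / ‖(D.Θ : ℂ) + (D.γ i : ℂ) * Complex.I‖ :=
  div_nonneg (m_pos D i).le (norm_nonneg _)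

theorem S_nonneg (D : LineData) : 0 ≤ D.S := tsum_nonneg (t_nn D)

private theorem summ_t (D : LineData) (u : ℝ) :
    Summable fun i => ((D.m i : ℂ) / D.ρ i) * Complex.exp (((D.γ i * u : ℝ) : ℂ) * Complex.I) := by
  refine Summable.of_norm ?_
  simp_rw [nrm_t]
  exact D.summ

private theorem hr' (D : LineData) (u : ℝ) : ((D.r u : ℝ) : ℂ) =
    -∑' i, ((D.m i : ℂ) / D.ρ i) * Complex.exp (((D.γ i * u : ℝ) : ℂ) * Complex.I) := D.hr u

theorem r_abs_le (D : LineData) (u : ℝ) : |D.r u| ≤ D.S := by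
  have h1 : |D.r u| = ‖((D.r u : ℝ) : ℂ)‖ := by rw [Complex.norm_real, Real.norm_eq_abs]
  rw [h1, hr', norm_neg]
  refine (norm_tsum_le_tsum_norm ?_).trans ?_
  · simp_rw [nrm_t]
    exact D.summ
  · simp_rw [nrm_t]
    exact le_refl _

theorem r_cont (D : LineData) : Continuous D.r := by
  have h1 : Continuous fun u : ℝ => ∑' i, ((D.m i : ℂ) / D.ρ i) * Complex.exp (((D.γ i * u : ℝ) : ℂ) * Complex.I) := by
    refine continuous_tsum (fun i => by fun_prop) D.summ ?_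
    intro i u
    rw [nrm_t]
  have h2 : D.r = fun u : ℝ => (-∑' i, ((D.m i : ℂ) / D.ρ i) * Complex.exp (((D.γ i * u : ℝ) : ℂ) * Complex.I)).re := by
    funext u
    rw [← hr', Complex.ofReal_re]
  rw [h2]
  exact Complex.continuous_re.comp h1.neg

theorem loc_fin (D : LineData) (T : ℝ) : {i : D.ι | |D.γ i| ≤ T}.Finite := by
  rcases lt_or_ge T 0 with hT | hT
  · convert Set.finite_empty
    ext i
    simp only [Set.mem_setOf_eq, Set.mem_empty_iff_false, iff_false, not_le]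
    exact hT.trans_le (abs_nonneg _)
  have hΘ := D.Θpos
  have hp : 0 < 1 / (D.Θ + T) := by positivity
  have h1 := D.summ.tendsto_cofinite_zero
  have h2 : ∀ᶠ i in cofinite, D.m i / ‖(D.Θ : ℂ) + (D.γ i : ℂ) * Complex.I‖ < 1 / (D.Θ + T) :=
    h1.eventually (gt_mem_nhds hp)
  rw [Filter.eventually_cofinite] at h2
  refine h2.subset ?_
  intro i hi
  simp only [Set.mem_setOf_eq, not_lt] at hi ⊢
  have h3 : ‖(D.Θ : ℂ) + (D.γ i : ℂ) * Complex.I‖ ≤ D.Θ + T := by
    refine (norm_add_le _ _).trans ?_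
    rw [norm_mul, Complex.norm_I, mul_one, Complex.norm_real, Complex.norm_real, Real.norm_of_nonneg hΘ.le,
      Real.norm_eq_abs]
    linarith
  have h4 : 0 < ‖(D.Θ : ℂ) + (D.γ i : ℂ) * Complex.I‖ := norm_pos_iff.mpr (ρ_ne D i)
  exact div_le_div₀ (m_pos D i).le (D.one_le i) h4 h3

theorem d_cont (D : LineData) (η : ℝ) : Continuous (D.d η) := by
  have h := r_cont D
  unfold LineData.d
  exact h.sub (continuous_const.mul (h.comp (continuous_id.sub continuous_const)))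

theorem d_abs_le (D : LineData) (η u : ℝ) (hη : 0 ≤ η) : |D.d η u| ≤ 2 * D.S := by
  have h1 := r_abs_le D u
  have h2 := r_abs_le D (u - η)
  have h3 : Real.exp (-(D.Θ * η)) ≤ 1 := by
    rw [Real.exp_le_one_iff]
    have := mul_nonneg D.Θpos.le hη
    linarith
  have h4 := (Real.exp_pos (-(D.Θ * η))).le
  have h5 : |Real.exp (-(D.Θ * η)) * D.r (u - η)| ≤ D.S := by
    rw [abs_mul, abs_of_nonneg h4]
    calc _ ≤ 1 * |D.r (u - η)| := mul_le_mul_of_nonneg_right h3 (abs_nonneg _)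
      _ ≤ _ := by rw [one_mul]; exact h2
  unfold LineData.d
  refine (abs_sub _ _).trans ?_
  linarith

private theorem nrm_e (D : LineData) (η : ℝ) (hη : 0 ≤ η) (i : D.ι) : ‖Complex.exp (-(D.ρ i * η))‖ ≤ 1 := by
  rw [Complex.norm_exp]
  have h1 : (-(D.ρ i * (η : ℂ))).re = -(D.Θ * η) := by
    rw [Complex.neg_re, Complex.mul_re, Complex.ofReal_re, Complex.ofReal_im, ρ_re]
    ring
  rw [h1, Real.exp_le_one_iff]
  have := mul_nonneg D.Θpos.le hη
  linarith

theorem summ_d (D : LineData) (η : ℝ) (hη : 0 ≤ η) :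
    Summable fun i => ‖((D.m i : ℂ) / D.ρ i) * (1 - Complex.exp (-(D.ρ i * η)))‖ := by
  refine Summable.of_nonneg_of_le (fun i => norm_nonneg _) ?_ (D.summ.mul_left 2)
  intro i
  rw [norm_mul, nrm_c, mul_comm]
  refine mul_le_mul_of_nonneg_right ?_ (t_nn D i)
  refine (norm_sub_le _ _).trans ?_
  rw [norm_one]
  have := nrm_e D η hη i
  linarith

theorem d_series (D : LineData) (η u : ℝ) (hη : 0 ≤ η) : ((D.d η u : ℝ) : ℂ) =
    -∑' i, ((D.m i : ℂ) / D.ρ i) * (1 - Complex.exp (-(D.ρ i * η))) *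
      Complex.exp (((D.γ i * u : ℝ) : ℂ) * Complex.I) := by
  unfold LineData.d
  rw [Complex.ofReal_sub, Complex.ofReal_mul, hr', hr', mul_neg, sub_neg_eq_add, ← tsum_mul_left]
  have h1 := summ_t D u
  have h2 := (summ_t D (u - η)).mul_left ((Real.exp (-(D.Θ * η)) : ℝ) : ℂ)
  have h3 : ∀ i, ((Real.exp (-(D.Θ * η)) : ℝ) : ℂ) *
      (((D.m i : ℂ) / D.ρ i) * Complex.exp (((D.γ i * (u - η) : ℝ) : ℂ) * Complex.I)) =
      ((D.m i : ℂ) / D.ρ i) * Complex.exp (((D.γ i * u : ℝ) : ℂ) * Complex.I) * Complex.exp (-(D.ρ i * η)) := by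
    intro i
    have h4 : ((Real.exp (-(D.Θ * η)) : ℝ) : ℂ) * Complex.exp (((D.γ i * (u - η) : ℝ) : ℂ) * Complex.I) =
        Complex.exp (((D.γ i * u : ℝ) : ℂ) * Complex.I) * Complex.exp (-(D.ρ i * η)) := by
      rw [Complex.ofReal_exp, ← Complex.exp_add, ← Complex.exp_add]
      congr 1
      unfold LineData.ρ
      push_cast
      ring
    calc _ = ((D.m i : ℂ) / D.ρ i) * (((Real.exp (-(D.Θ * η)) : ℝ) : ℂ) *
          Complex.exp (((D.γ i * (u - η) : ℝ) : ℂ) * Complex.I)) := by ring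
      _ = _ := by rw [h4]; ring
  have h5 : ∀ i, ((D.m i : ℂ) / D.ρ i) * (1 - Complex.exp (-(D.ρ i * η))) *
      Complex.exp (((D.γ i * u : ℝ) : ℂ) * Complex.I) =
      ((D.m i : ℂ) / D.ρ i) * Complex.exp (((D.γ i * u : ℝ) : ℂ) * Complex.I) -
        ((Real.exp (-(D.Θ * η)) : ℝ) : ℂ) *
          (((D.m i : ℂ) / D.ρ i) * Complex.exp (((D.γ i * (u - η) : ℝ) : ℂ) * Complex.I)) := by
    intro i
    rw [h3]
    ring
  simp_rw [h5]
  rw [h1.tsum_sub h2]
  ring

end Pool.Agent.H50.RL
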