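import Pool.Agent.H50.RL.Defs

/-!
[H50 RL BA] Iterated integrals do not have more sign changes; from local to global counts; Cauchy's formula.

PROOF of `vd`. Induction on `m`; step: `G x = ∫ v in Y..x, g v` with `g = It f Y m` (`g` is `f` or continuous, interval integrable everywhere), `SC G Y X n` implies `SC g Y X n`. `n = 0`: the same
point. `n ≥ 1`: points `x_0 < ... < x_n` in `[Y, X]`, `G(x_i) G(x_{i+1}) < 0`; `G Y = 0 ≠ G(x_0)`, so `Y < x_0`. There is `y_0 ∈ (Y, x_0)` with `g(y_0) G(x_0) > 0` (otherwise `g G(x_0) ≤ 0` on the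
interval and `G(x_0)^2 = G(x_0) ∫_Y^{x_0} g ≤ 0`), and `y_{i+1} ∈ (x_i, x_{i+1})` with `g(y_{i+1}) (G(x_{i+1}) - G(x_i)) > 0`, i.e. `g(y_{i+1})` has the sign of `G(x_{i+1})` (opposite signs of `G`).
So `y_0 < ... < y_n` alternate.
PROOF of `count`. `SC F Y (Y+L) n`: `n + 1` alternating points in `[Y, Y+L]`. `L = 0`: strictly increasing points in a one-point interval: `n = 0`. `L ≥ 1`: each point lies in some
`[Y+j, Y+j+1]`, `j < L`; if `n + 1 > (M+2) L` pigeonhole gives `j` with at least `M + 3 ≥ M + 2` points in it; the points in an interval are consecutive members of the sequence, so they alternate, which gives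
`SC F (Y+j) (Y+j+1) (M+1)`, a contradiction. (Induction on `L` also works: split at `Y + L - 1`.) The bound `(M+2) L` is not sharp and need not be.
PROOF of `it_formula`: induction on `m` (Fubini or integration by parts: `d/dx ∫_Y^x (x-v)^m/m! f = ∫_Y^x (x-v)^{m-1}/(m-1)! f`; easier: show by induction on `m` that for all continuous-or-integrable `f`
`It f Y (m+1) x = ∫_Y^x (x-v)^m/m! f(v) dv` using `It f Y (m+1) = It (It f Y 1) Y m`, and integration by parts/Fubini once on the triangle).
-/

set_option autoImplicit false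

namespace Pool.Agent.H50.RL

open MeasureTheory Filter Topology

/-- iterated integral from `Y` -/
noncomputable def It (f : ℝ → ℝ) (Y : ℝ) : ℕ → ℝ → ℝ
  | 0 => f
  | m + 1 => fun x => ∫ v in Y..x, It f Y m v

private theorem it_int (f : ℝ → ℝ) (hf : ∀ a b : ℝ, IntervalIntegrable f volume a b) (Y : ℝ) (m : ℕ) :
    ∀ a b : ℝ, IntervalIntegrable (It f Y m) volume a b := by
  induction m with
  | zero => exact hf
  | succ m ih =>
    intro a b
    exact (intervalIntegral.continuous_primitive ih Y).intervalIntegrable a b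

private theorem pt {g : ℝ → ℝ} (hg : ∀ a b : ℝ, IntervalIntegrable g volume a b) {a b s : ℝ} (hab : a ≤ b)
    (h : 0 < (∫ v in a..b, g v) * s) : ∃ y, a < y ∧ y < b ∧ 0 < g y * s := by
  by_contra hcon
  push Not at hcon
  have h1 : ∫ v in a..b, g v * s ≤ ∫ v in a..b, (0 : ℝ) :=
    intervalIntegral.integral_mono_on_of_le_Ioo hab ((hg a b).mul_const s) intervalIntegrable_const
      fun y hy => hcon y hy.1 hy.2
  rw [intervalIntegral.integral_mul_const, intervalIntegral.integral_zero] at h1
  linarith

private theorem vd1 {g : ℝ → ℝ} (hg : ∀ a b : ℝ, IntervalIntegrable g volume a b) {Y X : ℝ} {n : ℕ}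
    (h : SC (fun x => ∫ v in Y..x, g v) Y X n) : SC g Y X n := by
  obtain ⟨x, hx1, hx2, hx3⟩ := h
  rcases n with _ | n
  · exact ⟨x, hx1, hx2, fun i => i.elim0⟩
  · obtain ⟨G, hG⟩ : ∃ G : ℝ → ℝ, ∀ x, G x = ∫ v in Y..x, g v := ⟨_, fun _ => rfl⟩
    have hx3' : ∀ i : Fin (n + 1), G (x i.castSucc) * G (x i.succ) < 0 := by
      intro i
      rw [hG, hG]
      exact hx3 i
    have hsub : ∀ a b, ∫ v in a..b, g v = G b - G a := by
      intro a b
      rw [hG, hG, intervalIntegral.integral_interval_sub_left (hg _ _) (hg _ _)]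
    have h0 : G (x 0) ≠ 0 := by
      intro h0
      have h1 := hx3' 0
      rw [Fin.castSucc_zero, h0, zero_mul] at h1
      exact lt_irrefl _ h1
    have hY0 : 0 < (∫ v in Y..x 0, g v) * G (x 0) := by
      rw [← hG]
      exact mul_self_pos.2 h0
    obtain ⟨y0, hy1, hy2, hy3⟩ := pt hg (hx2 0).1 hY0
    have hy : ∀ i : Fin (n + 1), ∃ y, x i.castSucc < y ∧ y < x i.succ ∧ 0 < g y * G (x i.succ) := by
      intro i
      refine pt hg (hx1 (Fin.castSucc_lt_succ)).le ?_
      rw [hsub, sub_mul]
      have h1 := hx3' i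
      have h2 := mul_self_nonneg (G (x i.succ))
      linarith
    choose y' ha hb hc using hy
    obtain ⟨y, hyd⟩ : ∃ y : Fin (n + 1 + 1) → ℝ, y = Fin.cons y0 y' := ⟨_, rfl⟩
    have e0 : y 0 = y0 := by rw [hyd]; rfl
    have e1 : ∀ i : Fin (n + 1), y i.succ = y' i := fun i => by rw [hyd]; rfl
    have hlt : ∀ i, y i < x i := by
      intro i
      refine Fin.cases ?_ (fun j => ?_) i
      · rw [e0]
        exact hy2
      · rw [e1]
        exact hb j
    have hgt : ∀ i : Fin (n + 1), x i.castSucc < y i.succ := by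
      intro i
      rw [e1]
      exact ha i
    have hs : ∀ i, 0 < g (y i) * G (x i) := by
      intro i
      refine Fin.cases ?_ (fun j => ?_) i
      · rw [e0]
        exact hy3
      · rw [e1]
        exact hc j
    refine ⟨y, ?_, ?_, ?_⟩
    · rw [Fin.strictMono_iff_lt_succ]
      intro i
      exact (hlt _).trans (hgt i)
    · intro i
      refine ⟨?_, (hlt i).le.trans (hx2 i).2⟩
      refine Fin.cases ?_ (fun j => ?_) i
      · rw [e0]
        exact hy1.le
      · exact (hx2 _).1.trans (hgt j).le
    · intro i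
      have h1 := hs i.castSucc
      have h2 := hs i.succ
      have h3 := hx3' i
      have h4 : 0 < (g (y i.castSucc) * g (y i.succ)) * (G (x i.castSucc) * G (x i.succ)) := by
        have := mul_pos h1 h2
        linarith
      by_contra h5
      rw [not_lt] at h5
      have := mul_nonpos_of_nonneg_of_nonpos h5 h3.le
      linarith

theorem vd (f : ℝ → ℝ) (hf : ∀ a b : ℝ, IntervalIntegrable f volume a b) (Y X : ℝ) (m n : ℕ)
    (h : SC (It f Y m) Y X n) : SC f Y X n := by
  induction m with
  | zero => exact h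
  | succ m ih => exact ih (vd1 (it_int f hf Y m) h)

private theorem sc_iff {F : ℝ → ℝ} {a b : ℝ} {k : ℕ} : SC F a b k ↔ ∃ x : ℕ → ℝ, (∀ i < k, x i < x (i + 1)) ∧
    (∀ i ≤ k, a ≤ x i ∧ x i ≤ b) ∧ ∀ i < k, F (x i) * F (x (i + 1)) < 0 := by
  constructor
  · rintro ⟨x, h1, h2, h3⟩
    refine ⟨fun i => if h : i < k + 1 then x ⟨i, h⟩ else 0, ?_, ?_, ?_⟩
    · intro i hi
      beta_reduce
      rw [dif_pos (by omega), dif_pos (by omega)]
      exact h1 (Fin.mk_lt_mk.2 (Nat.lt_succ_self i))
    · intro i hi
      beta_reduce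
      rw [dif_pos (by omega)]
      exact h2 _
    · intro i hi
      beta_reduce
      rw [dif_pos (by omega), dif_pos (by omega)]
      exact h3 ⟨i, hi⟩
  · rintro ⟨x, h1, h2, h3⟩
    refine ⟨fun i => x i, ?_, fun i => h2 i (by omega), fun i => ?_⟩
    · rw [Fin.strictMono_iff_lt_succ]
      intro i
      exact h1 i i.2
    · exact h3 i i.2

private theorem mono_le {x : ℕ → ℝ} {n : ℕ} (h : ∀ i < n, x i < x (i + 1)) {i j : ℕ} (hij : i ≤ j) (hj : j ≤ n) :
    x i ≤ x j := by
  induction j with
  | zero =>
    have : i = 0 := by omega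
    rw [this]
  | succ j ih =>
    rcases Nat.lt_or_ge i (j + 1) with h1 | h1
    · exact (ih (by omega) (by omega)).trans (h j (by omega)).le
    · have : i = j + 1 := by omega
      rw [this]

theorem count (F : ℝ → ℝ) (Y : ℝ) (M : ℕ) (h : ∀ y, Y ≤ y → ¬ SC F y (y + 1) (M + 1)) (L n : ℕ)
    (hsc : SC F Y (Y + L) n) : n ≤ (M + 2) * L := by
  classical
  induction L generalizing n with
  | zero =>
    rw [sc_iff] at hsc
    obtain ⟨x, h1, h2, -⟩ := hsc
    by_contra hn
    rw [mul_zero, not_le] at hn
    have a1 := h1 0 hn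
    have a2 := h2 0 (Nat.zero_le _)
    have a3 := h2 1 hn
    rw [Nat.cast_zero, add_zero] at a2 a3
    rw [zero_add] at a1
    linarith [a2.1, a3.2]
  | succ L ih =>
    have hsc' := hsc
    rw [sc_iff] at hsc'
    obtain ⟨x, h1, h2, h3⟩ := hsc'
    by_cases hex : ∃ i, i ≤ n ∧ Y + L < x i
    · obtain ⟨hj1, hj2⟩ := Nat.find_spec hex
      have hj3 : ∀ i < Nat.find hex, x i ≤ Y + L := by
        intro i hi
        have h4 := Nat.find_min hex hi
        by_contra h5
        exact h4 ⟨by omega, not_le.1 h5⟩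
      generalize Nat.find hex = j at hj1 hj2 hj3
      have hYL : Y ≤ Y + L := by
        have : (0 : ℝ) ≤ L := Nat.cast_nonneg L
        linarith
      have htail : n - j ≤ M := by
        by_contra hcon
        rw [not_le] at hcon
        apply h (Y + L) hYL
        rw [sc_iff]
        refine ⟨fun i => x (j + i), fun i hi => h1 (j + i) (by omega), fun i hi => ⟨?_, ?_⟩,
          fun i hi => h3 (j + i) (by omega)⟩
        · exact hj2.le.trans (mono_le h1 (by omega) (by omega))
        · have := (h2 (j + i) (by omega)).2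
          push_cast at this
          linarith
      rcases j with _ | j
      · have : n ≤ M := by omega
        nlinarith [Nat.zero_le L, Nat.zero_le M, Nat.zero_le (M * L)]
      · have hhead : j ≤ (M + 2) * L := by
          apply ih j
          rw [sc_iff]
          exact ⟨x, fun i hi => h1 i (by omega), fun i hi => ⟨(h2 i (by omega)).1, hj3 i (by omega)⟩,
            fun i hi => h3 i (by omega)⟩
        have e1 : (M + 2) * (L + 1) = (M + 2) * L + (M + 2) := by ring
        omega
    · push Not at hex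
      have hall : n ≤ (M + 2) * L := by
        apply ih n
        rw [sc_iff]
        exact ⟨x, h1, fun i hi => ⟨(h2 i hi).1, hex i hi⟩, h3⟩
      have e1 : (M + 2) * (L + 1) = (M + 2) * L + (M + 2) := by ring
      omega

private theorem it_comp (f : ℝ → ℝ) (Y : ℝ) (m : ℕ) : It f Y (m + 1) = It (It f Y 1) Y m := by
  induction m with
  | zero => rfl
  | succ m ih =>
    funext x
    show ∫ v in Y..x, It f Y (m + 1) v = ∫ v in Y..x, It (It f Y 1) Y m v
    rw [ih]

theorem it_formula (f : ℝ → ℝ) (hf : ∀ a b : ℝ, IntervalIntegrable f volume a b) (Y x : ℝ) (m : ℕ) :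
    It f Y (m + 1) x = ∫ v in Y..x, (x - v) ^ m / (m.factorial : ℝ) * f v := by
  induction m generalizing f with
  | zero =>
    show ∫ v in Y..x, f v = _
    refine intervalIntegral.integral_congr fun v _ => ?_
    show f v = (x - v) ^ 0 / ((0 : ℕ).factorial : ℝ) * f v
    rw [pow_zero, Nat.factorial_zero, Nat.cast_one, div_one, one_mul]
  | succ m ih =>
    rw [it_comp, ih (It f Y 1) (it_int f hf Y 1)]
    obtain ⟨G, hG⟩ : ∃ G : ℝ → ℝ, G = fun v => ∫ w in Y..v, f w := ⟨_, rfl⟩
    have hG1 : It f Y 1 = G := by rw [hG]; rfl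
    obtain ⟨u, hu⟩ : ∃ u : ℝ → ℝ, u = fun v => -((x - v) ^ (m + 1) / ((m + 1).factorial : ℝ)) := ⟨_, rfl⟩
    have hfac : ((m + 1).factorial : ℝ) = (m + 1 : ℝ) * (m.factorial : ℝ) := by
      rw [Nat.factorial_succ]
      push_cast
      ring
    have hm0 : (m.factorial : ℝ) ≠ 0 := by exact_mod_cast m.factorial_ne_zero
    have hm1 : (m + 1 : ℝ) ≠ 0 := by positivity
    have hder : ∀ v, HasDerivAt u ((x - v) ^ m / (m.factorial : ℝ)) v := by
      intro v
      have h1 : HasDerivAt (fun v : ℝ => x - v) (-1) v := by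
        simpa using (hasDerivAt_id v).const_sub x
      have h2 := (h1.pow (m + 1)).div_const ((m + 1).factorial : ℝ)
      have h3 := h2.neg
      rw [hu]
      refine h3.congr_deriv ?_
      rw [hfac]
      push_cast
      field_simp
    have hdu : deriv u = fun v => (x - v) ^ m / (m.factorial : ℝ) := funext fun v => (hder v).deriv
    have hGac : AbsolutelyContinuousOnInterval G Y x := by
      rw [hG]
      exact (hf Y x).absolutelyContinuousOnInterval_intervalIntegral Set.left_mem_uIcc
    have huac : AbsolutelyContinuousOnInterval u Y x := by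
      apply ContDiffOn.absolutelyContinuousOnInterval
      apply ContDiff.contDiffOn
      rw [hu]
      exact ((contDiff_const.sub contDiff_id).pow (m + 1) |>.div_const _).neg
    have hibp := hGac.integral_mul_deriv_eq_deriv_mul huac
    have hux : u x = 0 := by
      rw [hu]
      simp
    have hGY : G Y = 0 := by
      rw [hG]
      simp
    rw [hux, hGY, mul_zero, zero_mul, sub_zero, zero_sub, hdu] at hibp
    have e1 : ∫ v in Y..x, (x - v) ^ m / (m.factorial : ℝ) * It f Y 1 v =
        ∫ v in Y..x, G v * ((x - v) ^ m / (m.factorial : ℝ)) := by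
      rw [hG1]
      refine intervalIntegral.integral_congr fun v _ => ?_
      exact mul_comm _ _
    rw [e1, hibp, ← intervalIntegral.integral_neg]
    refine intervalIntegral.integral_congr_ae ?_
    filter_upwards [(hf Y x).ae_hasDerivAt_integral] with v hv hv2
    have h1 := hv (Set.uIoc_subset_uIcc hv2) Y Set.left_mem_uIcc
    rw [← hG] at h1
    rw [h1.deriv, hu]
    ring

end Pool.Agent.H50.RL
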