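import Pool.Agent.H50.RL.Ba
import Pool.Agent.H50.RL.Bb

/-!
[H50 RL BC] The iterated integral of `fz v - fz (v - η)` from `Y`.

PROOF. `D v = fz v - fz (v - η)`; `it_formula` with `m - 1`: `It D Y m x = ∫_Y^x (x-v)^{m-1}/(m-1)! D v dv` (`m ≥ 5`). Write `A x = ∫_0^x (x-v)^{m-1}/(m-1)! fz v dv`. For `x ≥ Y ≥ η`:
`∫_η^x (x-v)^{m-1}/(m-1)! fz(v-η) dv = A(x-η)` (substitution), so `It D Y m x = A x - A (x-η) - ∫_0^Y (x-v)^{m-1}/(m-1)! fz v dv + ∫_η^Y (x-v)^{m-1}/(m-1)! fz(v-η) dv`; the last two integrals are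
at most `C_Y x^{m-1}/(m-1)! = C_Y (m/x) x^m/m! ≤ C_Y x^m/m!` in absolute value (`x ≥ m`; `fz` is bounded on bounded sets: `0 ≤ ψ(e^v) ≤ ψ(e^Y)`). `am_formula` at `x` and at `x - η` (`x - η ≥ m/2` if `m ≥ 2η`, and
`(x-η)^m ≤ x^m`, `x - η ≥ 0`), `Am m x - Am m (x-η) = Bm η m x` (`exp(ρ(x-η)) = exp(ρx) exp(-ρη)`; both series converge absolutely: `‖exp(ρx)/ρ^{m+1}‖ ≤ e^x c^{-(m-1)}/‖ρ‖^2`, `s_one 2`, `zz_away`).
-/

set_option autoImplicit false

namespace Pool.Agent.H50.RL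

open MeasureTheory Filter Topology

/-- the sum over the nontrivial zeros, for the difference -/
noncomputable def Bm (η : ℝ) (m : ℕ) (x : ℝ) : ℂ :=
  ∑' ρ : ZZ, if 0 < (ρ : ℂ).re then
    (mz ρ : ℂ) * (1 - Complex.exp (-((ρ : ℂ) * η))) * Complex.exp ((ρ : ℂ) * x) / (ρ : ℂ) ^ (m + 1) else 0

private theorem fz_ii (a b : ℝ) : IntervalIntegrable fz volume a b := by
  have h1 : IntervalIntegrable (fun u : ℝ => Chebyshev.psi (Real.exp u)) volume a b :=
    (Chebyshev.psi_mono.comp Real.exp_monotone).intervalIntegrable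
  exact h1.sub (Real.continuous_exp.intervalIntegrable a b)

private theorem fz_sh (η a b : ℝ) : IntervalIntegrable (fun v => fz (v - η)) volume a b := by
  have h0 : Monotone fun u : ℝ => Chebyshev.psi (Real.exp (u - η)) := fun u v huv =>
    Chebyshev.psi_mono (Real.exp_le_exp.2 (by linarith))
  have h2 : Continuous fun u : ℝ => Real.exp (u - η) := by fun_prop
  exact h0.intervalIntegrable.sub (h2.intervalIntegrable a b)

theorem fz_int (η a b : ℝ) : IntervalIntegrable (fun v => fz v - fz (v - η)) volume a b :=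
  (fz_ii a b).sub (fz_sh η a b)

/-- the integral with the kernel -/
private noncomputable def AA (n : ℕ) (z b : ℝ) : ℝ :=
  ∫ v in (0 : ℝ)..b, (z - v) ^ n / (n.factorial : ℝ) * fz v

private theorem ker_cont (n : ℕ) (z : ℝ) : Continuous fun v : ℝ => (z - v) ^ n / (n.factorial : ℝ) := by
  fun_prop

private theorem ker_ii (n : ℕ) (z a b : ℝ) :
    IntervalIntegrable (fun v => (z - v) ^ n / (n.factorial : ℝ) * fz v) volume a b :=
  (fz_ii a b).continuousOn_mul (ker_cont n z).continuousOn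

private theorem it_split (η Y x : ℝ) (n : ℕ) :
    It (fun v => fz v - fz (v - η)) Y (n + 1) x =
      AA n x x - AA n (x - η) (x - η) - AA n x Y + AA n (x - η) (Y - η) := by
  rw [it_formula _ (fz_int η) Y x n]
  have h1 : (fun v => (x - v) ^ n / (n.factorial : ℝ) * (fz v - fz (v - η))) =
      fun v => (x - v) ^ n / (n.factorial : ℝ) * fz v - (x - v) ^ n / (n.factorial : ℝ) * fz (v - η) := by
    funext v
    ring
  have h2 : IntervalIntegrable (fun v => (x - v) ^ n / (n.factorial : ℝ) * fz (v - η)) volume Y x :=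
    (fz_sh η Y x).continuousOn_mul (ker_cont n x).continuousOn
  rw [h1, intervalIntegral.integral_sub (ker_ii n x Y x) h2]
  have h3 : ∫ v in Y..x, (x - v) ^ n / (n.factorial : ℝ) * fz v = AA n x x - AA n x Y :=
    (intervalIntegral.integral_interval_sub_left (ker_ii n x 0 x) (ker_ii n x 0 Y)).symm
  have h4 : ∫ v in Y..x, (x - v) ^ n / (n.factorial : ℝ) * fz (v - η) =
      AA n (x - η) (x - η) - AA n (x - η) (Y - η) := by
    have h5 := intervalIntegral.integral_comp_sub_right (a := Y) (b := x)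
      (fun w => (x - η - w) ^ n / (n.factorial : ℝ) * fz w) η
    have h6 : (fun v => (x - v) ^ n / (n.factorial : ℝ) * fz (v - η)) =
        fun v => (x - η - (v - η)) ^ n / (n.factorial : ℝ) * fz (v - η) := by
      funext v
      congr 3
      ring
    rw [h6, h5]
    exact (intervalIntegral.integral_interval_sub_left (ker_ii n (x - η) 0 (x - η))
      (ker_ii n (x - η) 0 (Y - η))).symm
  rw [h3, h4]
  ring

private theorem AA_bd (n : ℕ) {b z x : ℝ} (hb : 0 ≤ b) (hz : b ≤ z) (hx : z ≤ x) :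
    |AA n z b| ≤ x ^ n / (n.factorial : ℝ) * ∫ v in (0 : ℝ)..b, |fz v| := by
  unfold AA
  refine (intervalIntegral.abs_integral_le_integral_abs hb).trans ?_
  rw [← intervalIntegral.integral_const_mul]
  refine intervalIntegral.integral_mono_on hb (ker_ii n z 0 b).abs ((fz_ii 0 b).abs.const_mul _) ?_
  intro v hv
  rw [abs_mul]
  refine mul_le_mul_of_nonneg_right ?_ (abs_nonneg _)
  have h1 : 0 ≤ z - v := by linarith [hv.2]
  rw [abs_of_nonneg (by positivity)]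
  refine div_le_div_of_nonneg_right ?_ (by positivity)
  exact pow_le_pow_left₀ h1 (by linarith [hv.1]) n

private theorem am_summ (m : ℕ) (hm : 1 ≤ m) (x : ℝ) : Summable fun ρ : ZZ =>
    if 0 < (ρ : ℂ).re then (mz ρ : ℂ) * Complex.exp ((ρ : ℂ) * x) / (ρ : ℂ) ^ (m + 1) else 0 := by
  obtain ⟨c, hc, hc'⟩ := zz_away
  have h1 := (s_one 2 (by norm_num)).mul_left (Real.exp |x| * (c ^ (m - 1))⁻¹)
  refine Summable.of_norm_bounded h1 fun ρ => ?_
  have hmz := mz_one_le ρ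
  have hρ : 0 < ‖(ρ : ℂ)‖ := lt_of_lt_of_le hc (hc' ρ)
  rw [Real.rpow_ofNat]
  have hpos : 0 ≤ Real.exp |x| * (c ^ (m - 1))⁻¹ * (mz ρ / ‖(ρ : ℂ)‖ ^ 2) := by positivity
  split_ifs with hre
  · rw [norm_div, norm_mul, norm_pow, Complex.norm_real, Real.norm_eq_abs,
      abs_of_nonneg (by linarith), Complex.norm_exp]
    have h2 : ((ρ : ℂ) * (x : ℂ)).re ≤ |x| := by
      rw [Complex.re_mul_ofReal]
      have h3 := zz_re_lt ρ
      calc (ρ : ℂ).re * x ≤ |(ρ : ℂ).re * x| := le_abs_self _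
        _ = |(ρ : ℂ).re| * |x| := abs_mul _ _
        _ ≤ 1 * |x| := by
          refine mul_le_mul_of_nonneg_right ?_ (abs_nonneg _)
          rw [abs_of_pos hre]
          exact h3.le
        _ = |x| := one_mul _
    have h4 : c ^ (m - 1) * ‖(ρ : ℂ)‖ ^ 2 ≤ ‖(ρ : ℂ)‖ ^ (m + 1) := by
      have h5 : ‖(ρ : ℂ)‖ ^ (m + 1) = ‖(ρ : ℂ)‖ ^ (m - 1) * ‖(ρ : ℂ)‖ ^ 2 := by
        rw [← pow_add]
        congr 1
        omega
      rw [h5]
      exact mul_le_mul_of_nonneg_right (pow_le_pow_left₀ hc.le (hc' ρ) _) (by positivity)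
    rw [div_le_iff₀ (by positivity)]
    calc mz ρ * Real.exp ((ρ : ℂ) * (x : ℂ)).re ≤ mz ρ * Real.exp |x| :=
          mul_le_mul_of_nonneg_left (Real.exp_le_exp.2 h2) (by linarith)
      _ = Real.exp |x| * (c ^ (m - 1))⁻¹ * (mz ρ / ‖(ρ : ℂ)‖ ^ 2) *
          (c ^ (m - 1) * ‖(ρ : ℂ)‖ ^ 2) := by
          field_simp
      _ ≤ Real.exp |x| * (c ^ (m - 1))⁻¹ * (mz ρ / ‖(ρ : ℂ)‖ ^ 2) * ‖(ρ : ℂ)‖ ^ (m + 1) :=
          mul_le_mul_of_nonneg_left h4 hpos
  · rw [norm_zero]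
    exact hpos

private theorem bm_eq (η : ℝ) (m : ℕ) (hm : 1 ≤ m) (x : ℝ) : Bm η m x = Am m x - Am m (x - η) := by
  unfold Bm Am
  rw [← (am_summ m hm x).tsum_sub (am_summ m hm (x - η))]
  refine tsum_congr fun ρ => ?_
  split_ifs with hre
  · have h1 : Complex.exp ((ρ : ℂ) * ((x - η : ℝ) : ℂ)) =
        Complex.exp ((ρ : ℂ) * x) * Complex.exp (-((ρ : ℂ) * η)) := by
      rw [← Complex.exp_add]
      congr 1
      push_cast
      ring
    rw [h1]
    ring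
  · rw [sub_zero]

theorem iter_formula (η : ℝ) (hη : 0 < η) (Y : ℝ) (hY : η ≤ Y) : ∃ C : ℝ, 1 ≤ C ∧ ∃ m0 : ℕ,
    ∀ m : ℕ, m0 ≤ m → ∀ x : ℝ, (m : ℝ) ≤ x → Y ≤ x →
      ‖((It (fun v => fz v - fz (v - η)) Y m x : ℝ) : ℂ) + Bm η m x‖ ≤
        C ^ m * x ^ m / (m.factorial : ℝ) := by
  obtain ⟨C0, hC0, hA⟩ := am_formula
  obtain ⟨CY, hCY⟩ : ∃ CY : ℝ, CY = ∫ v in (0 : ℝ)..Y, |fz v| := ⟨_, rfl⟩
  have hCY0 : 0 ≤ CY := by
    rw [hCY]
    exact intervalIntegral.integral_nonneg (by linarith) fun v _ => abs_nonneg _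
  have hCY1 : ∫ v in (0 : ℝ)..(Y - η), |fz v| ≤ CY := by
    rw [hCY]
    exact intervalIntegral.integral_mono_interval le_rfl (by linarith) (by linarith)
      (Filter.Eventually.of_forall fun v => abs_nonneg _) (fz_ii 0 Y).abs
  refine ⟨2 * C0 + (2 * CY + 1), by linarith, 5 + ⌈2 * η⌉₊, fun m hm x hmx hYx => ?_⟩
  have hm5 : 5 ≤ m := by omega
  have hmη : 2 * η ≤ m := by
    have h1 : 2 * η ≤ (⌈2 * η⌉₊ : ℝ) := Nat.le_ceil _
    have h2 : ((⌈2 * η⌉₊ : ℕ) : ℝ) ≤ m := by exact_mod_cast (by omega : ⌈2 * η⌉₊ ≤ m)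
    linarith
  obtain ⟨n, rfl⟩ : ∃ n, m = n + 1 := ⟨m - 1, by omega⟩
  have hx0 : 0 < x := by
    have : (0 : ℝ) < ((n + 1 : ℕ) : ℝ) := by positivity
    linarith
  have h1 := hA (n + 1) hm5 x (by
    have : (0 : ℝ) ≤ ((n + 1 : ℕ) : ℝ) := by positivity
    linarith)
  have h2 := hA (n + 1) hm5 (x - η) (by linarith)
  rw [Nat.add_sub_cancel] at h1 h2
  have hfac : (0 : ℝ) < ((n + 1).factorial : ℝ) := by positivity
  -- the bound for the ends
  have hend : x ^ n / (n.factorial : ℝ) ≤ x ^ (n + 1) / ((n + 1).factorial : ℝ) := by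
    rw [div_le_div_iff₀ (by positivity) hfac, Nat.factorial_succ]
    push_cast
    have h3 : x ^ n * (((n : ℝ) + 1) * (n.factorial : ℝ)) ≤ x ^ n * (x * (n.factorial : ℝ)) := by
      refine mul_le_mul_of_nonneg_left ?_ (by positivity)
      refine mul_le_mul_of_nonneg_right ?_ (by positivity)
      push_cast at hmx
      exact hmx
    calc x ^ n * (((n : ℝ) + 1) * (n.factorial : ℝ)) ≤ x ^ n * (x * (n.factorial : ℝ)) := h3
      _ = x ^ (n + 1) * (n.factorial : ℝ) := by ring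
  have e1 : |AA n x Y| ≤ x ^ (n + 1) / ((n + 1).factorial : ℝ) * CY := by
    refine (AA_bd n (by linarith) hYx le_rfl).trans ?_
    rw [← hCY]
    exact mul_le_mul_of_nonneg_right hend hCY0
  have e2 : |AA n (x - η) (Y - η)| ≤ x ^ (n + 1) / ((n + 1).factorial : ℝ) * CY := by
    refine (AA_bd n (x := x) (by linarith) (by linarith) (by linarith)).trans ?_
    exact mul_le_mul hend hCY1
      (intervalIntegral.integral_nonneg (by linarith) fun v _ => abs_nonneg _) (by positivity)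
  have e3 : (x - η) ^ (n + 1) ≤ x ^ (n + 1) := pow_le_pow_left₀ (by linarith) (by linarith) _
  have e4 : ‖((AA n (x - η) (x - η) : ℝ) : ℂ) + Am (n + 1) (x - η)‖ ≤
      C0 ^ (n + 1) * x ^ (n + 1) / ((n + 1).factorial : ℝ) := by
    refine h2.trans ?_
    refine div_le_div_of_nonneg_right ?_ hfac.le
    exact mul_le_mul_of_nonneg_left e3 (by positivity)
  have e5 : ‖((AA n x x : ℝ) : ℂ) + Am (n + 1) x‖ ≤
      C0 ^ (n + 1) * x ^ (n + 1) / ((n + 1).factorial : ℝ) := h1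
  rw [it_split, bm_eq η (n + 1) (by omega) x]
  have e6 : ((AA n x x - AA n (x - η) (x - η) - AA n x Y + AA n (x - η) (Y - η) : ℝ) : ℂ) +
      (Am (n + 1) x - Am (n + 1) (x - η)) =
      (((AA n x x : ℝ) : ℂ) + Am (n + 1) x) - (((AA n (x - η) (x - η) : ℝ) : ℂ) + Am (n + 1) (x - η)) -
        ((AA n x Y : ℝ) : ℂ) + ((AA n (x - η) (Y - η) : ℝ) : ℂ) := by
    push_cast
    ring
  rw [e6]
  have e7 : ‖((AA n x Y : ℝ) : ℂ)‖ ≤ x ^ (n + 1) / ((n + 1).factorial : ℝ) * CY := by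
    rw [Complex.norm_real, Real.norm_eq_abs]
    exact e1
  have e8 : ‖((AA n (x - η) (Y - η) : ℝ) : ℂ)‖ ≤ x ^ (n + 1) / ((n + 1).factorial : ℝ) * CY := by
    rw [Complex.norm_real, Real.norm_eq_abs]
    exact e2
  refine (norm_add_le _ _).trans ?_
  have e9 := norm_sub_le ((((AA n x x : ℝ) : ℂ) + Am (n + 1) x) -
    (((AA n (x - η) (x - η) : ℝ) : ℂ) + Am (n + 1) (x - η))) ((AA n x Y : ℝ) : ℂ)
  have e10 := norm_sub_le (((AA n x x : ℝ) : ℂ) + Am (n + 1) x)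
    (((AA n (x - η) (x - η) : ℝ) : ℂ) + Am (n + 1) (x - η))
  -- the constants
  have k1 : 2 * C0 ^ (n + 1) ≤ (2 * C0) ^ (n + 1) := by
    rw [mul_pow]
    refine mul_le_mul_of_nonneg_right ?_ (by positivity)
    calc (2 : ℝ) = 2 ^ 1 := (pow_one 2).symm
      _ ≤ 2 ^ (n + 1) := pow_le_pow_right₀ (by norm_num) (by omega)
  have k2 : 2 * CY ≤ (2 * CY + 1) ^ (n + 1) := by
    calc 2 * CY ≤ (2 * CY + 1) ^ 1 := by rw [pow_one]; linarith
      _ ≤ (2 * CY + 1) ^ (n + 1) := pow_le_pow_right₀ (by linarith) (by omega)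
  have k3 : (2 * C0) ^ (n + 1) + (2 * CY + 1) ^ (n + 1) ≤ (2 * C0 + (2 * CY + 1)) ^ (n + 1) :=
    pow_add_pow_le (by linarith) (by linarith) (by omega)
  have k4 : (2 * C0 ^ (n + 1) + 2 * CY) * (x ^ (n + 1) / ((n + 1).factorial : ℝ)) ≤
      (2 * C0 + (2 * CY + 1)) ^ (n + 1) * (x ^ (n + 1) / ((n + 1).factorial : ℝ)) :=
    mul_le_mul_of_nonneg_right (by linarith) (by positivity)
  rw [mul_div_assoc] at e4 e5
  rw [mul_div_assoc]
  have k5 : (2 * C0 ^ (n + 1) + 2 * CY) * (x ^ (n + 1) / ((n + 1).factorial : ℝ)) =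
      C0 ^ (n + 1) * (x ^ (n + 1) / ((n + 1).factorial : ℝ)) +
      C0 ^ (n + 1) * (x ^ (n + 1) / ((n + 1).factorial : ℝ)) +
      x ^ (n + 1) / ((n + 1).factorial : ℝ) * CY + x ^ (n + 1) / ((n + 1).factorial : ℝ) * CY := by
    ring
  linarith

end Pool.Agent.H50.RL
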