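import Pool.Agent.H50.RL.Bc

/-!
[H50 RL BD] A pair of zeros dominating for `m/x ∈ [κ1, κ2]`.

NOTATION. `Dom κ ρ0`: for every zero `ρ` with `Re ρ > 0` other than `ρ0` and its conjugate, `Re ρ - κ log‖ρ‖ < Re ρ0 - κ log‖ρ0‖`.
PROOF of `gap`. For `κ ∈ {κ1, κ2}`: `g_κ(ρ) = (Re ρ0 - κ log‖ρ0‖) - (Re ρ - κ log‖ρ‖) > 0` for all `ρ` in question. For `‖ρ‖ ≥ R` (large), `g_κ(ρ) ≥ κ log‖ρ‖ - (1 + κ|log‖ρ0‖|) ≥ (κ/2) log‖ρ‖ ≥ c (1 + log‖ρ‖)`; the zeros with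
`‖ρ‖ < R` are finitely many (`zz_finite`). So `g_κ(ρ) ≥ c (1 + max 0 (log‖ρ‖))` with one `c > 0` for both `κ1` and `κ2`; `g_κ` is affine in `κ`, so this holds for all `κ ∈ [κ1, κ2]`.
PROOF of `dominance`. Let `m ≥ m1` large, `m/κ2 ≤ x ≤ m/κ1`, `κ = m/x ∈ [κ1, κ2]`. The two terms of `Bm` for `ρ0` and its conjugate (`mz_conj`, `ρ0 ≠ conj ρ0` as `Im ρ0 > 0`) are conjugate to each other, their sum has
real part `2 Re(..)`. The rest: `‖1 - exp(-ρη)‖ ≤ 2`, `‖exp(ρx)/ρ^{m+1}‖ = exp(x (Re ρ - κ log‖ρ‖))/‖ρ‖ ≤ (1/‖ρ‖) exp(x(Re ρ0 - κ log‖ρ0‖)) exp(-c x) exp(-c x max 0 (log‖ρ‖))`, and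
`exp(-c x max 0 (log‖ρ‖)) ≤ C/‖ρ‖^2`-type bound: `≤ ‖ρ‖^{-2}` if `‖ρ‖ ≥ 1` and `c x ≥ 2`, and `≤ 1 ≤ ‖ρ‖^{-2}` if `‖ρ‖ ≤ 1`. So the rest is at most
`2 (Σ mz/‖ρ‖^3) exp(-c x) exp(x Re ρ0)/‖ρ0‖^m = 2 (Σ mz/‖ρ‖^3) ‖ρ0‖ e^{-cx} · exp(x Re ρ0)/‖ρ0‖^{m+1} ≤ ε exp(x Re ρ0)/‖ρ0‖^{m+1}` for `x ≥ m/κ2` large (`s_one 3`; rpow versus pow).
-/

set_option autoImplicit false

namespace Pool.Agent.H50.RL

open MeasureTheory Filter Topology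

/-- `ρ0` and its conjugate dominate all other nontrivial zeros at slope `κ` -/
def Dom (κ : ℝ) (ρ0 : ZZ) : Prop :=
  ∀ ρ : ZZ, 0 < (ρ : ℂ).re → (ρ : ℂ) ≠ (ρ0 : ℂ) → (ρ : ℂ) ≠ (starRingEnd ℂ) (ρ0 : ℂ) →
    (ρ : ℂ).re - κ * Real.log ‖(ρ : ℂ)‖ < (ρ0 : ℂ).re - κ * Real.log ‖(ρ0 : ℂ)‖

private theorem gap_one (ρ0 : ZZ) (κ : ℝ) (h1 : 0 < κ) (hd : Dom κ ρ0) :
    ∃ c0 : ℝ, 0 < c0 ∧ ∀ c : ℝ, c ≤ c0 → ∀ ρ : ZZ, 0 < (ρ : ℂ).re → (ρ : ℂ) ≠ (ρ0 : ℂ) →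
      (ρ : ℂ) ≠ (starRingEnd ℂ) (ρ0 : ℂ) →
      (ρ : ℂ).re - κ * Real.log ‖(ρ : ℂ)‖ + c * (1 + max 0 (Real.log ‖(ρ : ℂ)‖)) ≤
        (ρ0 : ℂ).re - κ * Real.log ‖(ρ0 : ℂ)‖ := by
  obtain ⟨a, ha⟩ : ∃ a : ℝ, a = (ρ0 : ℂ).re - κ * Real.log ‖(ρ0 : ℂ)‖ := ⟨_, rfl⟩
  obtain ⟨L0, hL0⟩ : ∃ L0 : ℝ, L0 = 2 * (2 + |a|) / κ := ⟨_, rfl⟩
  have hL0p : 0 < L0 := by rw [hL0]; positivity
  have hfin := zz_finite (Real.exp L0)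
  have hev : ∀ᶠ c in 𝓝[>] (0 : ℝ), ∀ ρ ∈ {ρ : ZZ | ‖(ρ : ℂ)‖ ≤ Real.exp L0},
      (0 < (ρ : ℂ).re → (ρ : ℂ) ≠ (ρ0 : ℂ) → (ρ : ℂ) ≠ (starRingEnd ℂ) (ρ0 : ℂ) →
      (ρ : ℂ).re - κ * Real.log ‖(ρ : ℂ)‖ + c * (1 + max 0 (Real.log ‖(ρ : ℂ)‖)) ≤ a) := by
    rw [eventually_all_finite hfin]
    intro ρ _
    by_cases hh : 0 < (ρ : ℂ).re ∧ (ρ : ℂ) ≠ (ρ0 : ℂ) ∧ (ρ : ℂ) ≠ (starRingEnd ℂ) (ρ0 : ℂ)
    · have h2 := hd ρ hh.1 hh.2.1 hh.2.2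
      rw [← ha] at h2
      have h3 : 0 < 1 + max 0 (Real.log ‖(ρ : ℂ)‖) := by
        have := le_max_left 0 (Real.log ‖(ρ : ℂ)‖)
        linarith
      obtain ⟨d, hd'⟩ : ∃ d : ℝ, d = (a - ((ρ : ℂ).re - κ * Real.log ‖(ρ : ℂ)‖)) /
          (1 + max 0 (Real.log ‖(ρ : ℂ)‖)) := ⟨_, rfl⟩
      have hdp : 0 < d := by
        rw [hd']
        exact div_pos (by linarith) h3
      filter_upwards [Ioo_mem_nhdsGT hdp] with c hc _ _ _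
      have h4 : c * (1 + max 0 (Real.log ‖(ρ : ℂ)‖)) ≤ a - ((ρ : ℂ).re - κ * Real.log ‖(ρ : ℂ)‖) := by
        rw [← le_div_iff₀ h3, ← hd']
        exact hc.2.le
      linarith
    · filter_upwards with c a1 a2 a3
      exact absurd ⟨a1, a2, a3⟩ hh
  have hmin : 0 < min 1 (κ / 2) := lt_min one_pos (by linarith)
  obtain ⟨c0, hc0, hc0'⟩ := (hev.and (Ioo_mem_nhdsGT hmin)).exists
  refine ⟨c0, hc0'.1, fun c hc ρ hr hn1 hn2 => ?_⟩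
  have h3 : 0 < 1 + max 0 (Real.log ‖(ρ : ℂ)‖) := by
    have := le_max_left 0 (Real.log ‖(ρ : ℂ)‖)
    linarith
  have h4 : c * (1 + max 0 (Real.log ‖(ρ : ℂ)‖)) ≤ c0 * (1 + max 0 (Real.log ‖(ρ : ℂ)‖)) :=
    mul_le_mul_of_nonneg_right hc h3.le
  rw [← ha]
  rcases le_or_gt ‖(ρ : ℂ)‖ (Real.exp L0) with h5 | h5
  · have h6 := hc0 ρ h5 hr hn1 hn2
    linarith
  · have h6 : L0 < Real.log ‖(ρ : ℂ)‖ := by
      rw [← Real.log_exp L0]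
      exact Real.log_lt_log (Real.exp_pos _) h5
    have h7 : max 0 (Real.log ‖(ρ : ℂ)‖) = Real.log ‖(ρ : ℂ)‖ := max_eq_right (by linarith)
    rw [h7] at h4 ⊢
    have h8 := zz_re_lt ρ
    have h9 : c0 ≤ 1 := hc0'.2.le.trans (min_le_left _ _)
    have h10 : c0 ≤ κ / 2 := hc0'.2.le.trans (min_le_right _ _)
    have h11 : c0 * Real.log ‖(ρ : ℂ)‖ ≤ κ / 2 * Real.log ‖(ρ : ℂ)‖ :=
      mul_le_mul_of_nonneg_right h10 (by linarith)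
    have h12 : 2 * (2 + |a|) ≤ Real.log ‖(ρ : ℂ)‖ * κ := by
      rw [← div_le_iff₀ h1, ← hL0]
      exact h6.le
    have h13 := neg_abs_le a
    linarith

theorem gap (ρ0 : ZZ) (κ1 κ2 : ℝ) (h1 : 0 < κ1) (h12 : κ1 ≤ κ2) (hd1 : Dom κ1 ρ0) (hd2 : Dom κ2 ρ0) :
    ∃ c : ℝ, 0 < c ∧ ∀ κ : ℝ, κ1 ≤ κ → κ ≤ κ2 → ∀ ρ : ZZ, 0 < (ρ : ℂ).re → (ρ : ℂ) ≠ (ρ0 : ℂ) →
      (ρ : ℂ) ≠ (starRingEnd ℂ) (ρ0 : ℂ) →
      (ρ : ℂ).re - κ * Real.log ‖(ρ : ℂ)‖ + c * (1 + max 0 (Real.log ‖(ρ : ℂ)‖)) ≤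
        (ρ0 : ℂ).re - κ * Real.log ‖(ρ0 : ℂ)‖ := by
  obtain ⟨c1, hc1, H1⟩ := gap_one ρ0 κ1 h1 hd1
  obtain ⟨c2, hc2, H2⟩ := gap_one ρ0 κ2 (by linarith) hd2
  refine ⟨min c1 c2, lt_min hc1 hc2, fun κ hκ1 hκ2 ρ hr hn1 hn2 => ?_⟩
  have a1 := H1 (min c1 c2) (min_le_left _ _) ρ hr hn1 hn2
  have a2 := H2 (min c1 c2) (min_le_right _ _) ρ hr hn1 hn2
  rcases le_total (Real.log ‖(ρ0 : ℂ)‖) (Real.log ‖(ρ : ℂ)‖) with h | h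
  · have h3 : κ1 * (Real.log ‖(ρ : ℂ)‖ - Real.log ‖(ρ0 : ℂ)‖) ≤ κ * (Real.log ‖(ρ : ℂ)‖ - Real.log ‖(ρ0 : ℂ)‖) :=
      mul_le_mul_of_nonneg_right hκ1 (by linarith)
    linarith
  · have h3 : κ * (Real.log ‖(ρ0 : ℂ)‖ - Real.log ‖(ρ : ℂ)‖) ≤ κ2 * (Real.log ‖(ρ0 : ℂ)‖ - Real.log ‖(ρ : ℂ)‖) :=
      mul_le_mul_of_nonneg_right hκ2 (by linarith)
    linarith

/-- a term of `Bm` -/
private noncomputable def tm (η : ℝ) (m : ℕ) (x : ℝ) (ρ : ZZ) : ℂ :=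
  (mz ρ : ℂ) * (1 - Complex.exp (-((ρ : ℂ) * η))) * Complex.exp ((ρ : ℂ) * x) / (ρ : ℂ) ^ (m + 1)

private theorem mz0 (ρ : ZZ) : 0 ≤ mz ρ := zero_le_one.trans (mz_one_le ρ)

private theorem npos (ρ : ZZ) : 0 < ‖(ρ : ℂ)‖ := by
  obtain ⟨c, hc, hcρ⟩ := zz_away
  exact lt_of_lt_of_le hc (hcρ ρ)

private theorem tm_norm (η : ℝ) (hη : 0 < η) (m : ℕ) (x : ℝ) (ρ : ZZ) (hr : 0 < (ρ : ℂ).re) :
    ‖tm η m x ρ‖ ≤ mz ρ * 2 * (Real.exp ((ρ : ℂ).re * x) / ‖(ρ : ℂ)‖ ^ (m + 1)) := by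
  unfold tm
  rw [norm_div, norm_mul, norm_mul, norm_pow, Complex.norm_real, Real.norm_of_nonneg (mz0 ρ), Complex.norm_exp,
    mul_div_assoc]
  have h1 : ((ρ : ℂ) * (x : ℂ)).re = (ρ : ℂ).re * x := by
    rw [Complex.re_mul_ofReal]
  rw [h1]
  have h2 : ‖1 - Complex.exp (-((ρ : ℂ) * η))‖ ≤ 2 := by
    have h3 := norm_sub_le (1 : ℂ) (Complex.exp (-((ρ : ℂ) * η)))
    rw [norm_one, Complex.norm_exp, Complex.neg_re, Complex.re_mul_ofReal] at h3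
    have h4 : Real.exp (-((ρ : ℂ).re * η)) ≤ 1 := by
      rw [Real.exp_le_one_iff]
      have : 0 < (ρ : ℂ).re * η := by positivity
      linarith
    linarith
  have h5 : 0 ≤ Real.exp ((ρ : ℂ).re * x) / ‖(ρ : ℂ)‖ ^ (m + 1) := by
    have := npos ρ
    positivity
  exact mul_le_mul_of_nonneg_right (mul_le_mul_of_nonneg_left h2 (mz0 ρ)) h5

theorem dominance (ρ0 : ZZ) (h0 : 0 < (ρ0 : ℂ).re) (him : 0 < (ρ0 : ℂ).im) (κ1 κ2 : ℝ) (h1 : 0 < κ1)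
    (h12 : κ1 < κ2) (hd1 : Dom κ1 ρ0) (hd2 : Dom κ2 ρ0) (η : ℝ) (hη : 0 < η) (ε : ℝ) (hε : 0 < ε) :
    ∃ m1 : ℕ, ∀ m : ℕ, m1 ≤ m → ∀ x : ℝ, (m : ℝ) / κ2 ≤ x → x ≤ (m : ℝ) / κ1 →
      |(Bm η m x).re - 2 * ((mz ρ0 : ℂ) * (1 - Complex.exp (-((ρ0 : ℂ) * η))) *
        Complex.exp ((ρ0 : ℂ) * x) / (ρ0 : ℂ) ^ (m + 1)).re| ≤
        ε * Real.exp ((ρ0 : ℂ).re * x) / ‖(ρ0 : ℂ)‖ ^ (m + 1) := by
  obtain ⟨c, hc, hgap⟩ := gap ρ0 κ1 κ2 h1 h12.le hd1 hd2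
  have hκ2 : 0 < κ2 := by linarith
  have hs3 : Summable fun ρ : ZZ => mz ρ / ‖(ρ : ℂ)‖ ^ 3 := by
    refine (s_one 3 (by norm_num)).congr fun ρ => ?_
    rw [show ((3 : ℝ)) = ((3 : ℕ) : ℝ) by norm_num, Real.rpow_natCast]
  obtain ⟨S, hS⟩ : ∃ S : ℝ, S = ∑' ρ : ZZ, mz ρ / ‖(ρ : ℂ)‖ ^ 3 := ⟨_, rfl⟩
  have hS0 : 0 ≤ S := by
    rw [hS]
    exact tsum_nonneg fun ρ => by
      have := npos ρ
      have := mz0 ρ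
      positivity
  obtain ⟨K, hK⟩ : ∃ K : ℝ, K = 2 * S * ‖(ρ0 : ℂ)‖ / ε + 1 := ⟨_, rfl⟩
  have hn0 := npos ρ0
  have hKp : 0 < K := by rw [hK]; positivity
  -- the conjugate zero
  obtain ⟨ρb, hρb⟩ : ∃ ρb : ZZ, ρb = ⟨(starRingEnd ℂ) (ρ0 : ℂ), zeta_conj_zero ρ0 ρ0.2⟩ := ⟨_, rfl⟩
  have hbc : (ρb : ℂ) = (starRingEnd ℂ) (ρ0 : ℂ) := by rw [hρb]
  have hne : ρ0 ≠ ρb := by
    intro h
    have h2 := congrArg (fun z : ZZ => (z : ℂ).im) h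
    simp only [hbc, Complex.conj_im] at h2
    linarith
  have hbr : 0 < (ρb : ℂ).re := by
    rw [hbc, Complex.conj_re]
    exact h0
  obtain ⟨m1, hm1⟩ := exists_nat_ge (κ2 * max (2 / c) (Real.log K / c))
  refine ⟨m1 + 1, fun m hm x hx1 hx2 => ?_⟩
  have hmpos : (0 : ℝ) < m := by
    have : 0 < m := by omega
    exact_mod_cast this
  have hmm : (m1 : ℝ) ≤ m := by
    have : m1 ≤ m := by omega
    exact_mod_cast this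
  have hx : 0 < x := lt_of_lt_of_le (by positivity) hx1
  obtain ⟨κ, hκ⟩ : ∃ κ, κ = m / x := ⟨_, rfl⟩
  have hκx : (m : ℝ) = κ * x := by rw [hκ]; field_simp
  have hκ1' : κ1 ≤ κ := by
    rw [hκ, le_div_iff₀ hx]
    rw [le_div_iff₀ h1] at hx2
    linarith
  have hκ2' : κ ≤ κ2 := by
    rw [hκ, div_le_iff₀ hx]
    rw [div_le_iff₀ hκ2] at hx1
    linarith
  have hxM : max (2 / c) (Real.log K / c) ≤ x := by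
    have h3 := hm1.trans hmm
    rw [div_le_iff₀ hκ2] at hx1
    have h4 : κ2 * max (2 / c) (Real.log K / c) ≤ κ2 * x := by linarith
    exact le_of_mul_le_mul_left h4 hκ2
  have hcx2 : 2 ≤ c * x := by
    have h3 := (le_max_left _ _).trans hxM
    rw [div_le_iff₀ hc] at h3
    linarith
  have hcxK : K ≤ Real.exp (c * x) := by
    rw [← Real.log_le_iff_le_exp hKp]
    have h3 := (le_max_right _ _).trans hxM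
    rw [div_le_iff₀ hc] at h3
    linarith
  -- the exponential form
  have hexp : ∀ ρ : ZZ, Real.exp ((ρ : ℂ).re * x) / ‖(ρ : ℂ)‖ ^ (m + 1) =
      Real.exp (x * ((ρ : ℂ).re - κ * Real.log ‖(ρ : ℂ)‖)) / ‖(ρ : ℂ)‖ := by
    intro ρ
    have h3 : Real.exp (x * ((ρ : ℂ).re - κ * Real.log ‖(ρ : ℂ)‖)) =
        Real.exp ((ρ : ℂ).re * x) / ‖(ρ : ℂ)‖ ^ m := by
      have h4 : x * ((ρ : ℂ).re - κ * Real.log ‖(ρ : ℂ)‖) = (ρ : ℂ).re * x - m * Real.log ‖(ρ : ℂ)‖ := by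
        rw [hκx]
        ring
      rw [h4, Real.exp_sub, Real.exp_nat_mul, Real.exp_log (npos ρ)]
    rw [h3, pow_succ, div_div]
  -- the rest
  obtain ⟨f, hf⟩ : ∃ f : ZZ → ℂ, f = fun ρ : ZZ => if 0 < (ρ : ℂ).re then tm η m x ρ else 0 := ⟨_, rfl⟩
  obtain ⟨g, hg⟩ : ∃ g : ZZ → ℂ, g = fun ρ => if ρ = ρ0 ∨ ρ = ρb then 0 else f ρ := ⟨_, rfl⟩
  obtain ⟨h', hh'⟩ : ∃ h' : ZZ → ℂ, h' = fun ρ => if ρ = ρ0 ∨ ρ = ρb then f ρ else 0 := ⟨_, rfl⟩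
  obtain ⟨M, hM⟩ : ∃ M : ℝ, M = 2 * Real.exp (-(c * x)) *
      (Real.exp ((ρ0 : ℂ).re * x) / ‖(ρ0 : ℂ)‖ ^ (m + 1) * ‖(ρ0 : ℂ)‖) := ⟨_, rfl⟩
  have hMe : M = 2 * Real.exp (-(c * x)) * Real.exp (x * ((ρ0 : ℂ).re - κ * Real.log ‖(ρ0 : ℂ)‖)) := by
    rw [hM, hexp ρ0, div_mul_cancel₀ _ hn0.ne']
  have hM0 : 0 ≤ M := by rw [hMe]; positivity
  have hgb : ∀ ρ : ZZ, ‖g ρ‖ ≤ M * (mz ρ / ‖(ρ : ℂ)‖ ^ 3) := by
    intro ρ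
    have hnρ := npos ρ
    have hmρ := mz0 ρ
    have hnn : 0 ≤ M * (mz ρ / ‖(ρ : ℂ)‖ ^ 3) := by positivity
    rw [hg]
    show ‖(if ρ = ρ0 ∨ ρ = ρb then (0 : ℂ) else f ρ)‖ ≤ _
    split_ifs with hc1
    · rw [norm_zero]
      exact hnn
    · rw [hf]
      show ‖(if 0 < (ρ : ℂ).re then tm η m x ρ else 0)‖ ≤ _
      split_ifs with hc2
      · rw [not_or] at hc1
        have hn1 : (ρ : ℂ) ≠ (ρ0 : ℂ) := fun h => hc1.1 (Subtype.ext h)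
        have hn2 : (ρ : ℂ) ≠ (starRingEnd ℂ) (ρ0 : ℂ) := fun h => hc1.2 (Subtype.ext (h.trans hbc.symm))
        have h3 := hgap κ hκ1' hκ2' ρ hc2 hn1 hn2
        refine (tm_norm η hη m x ρ hc2).trans ?_
        rw [hexp ρ, hMe]
        have h4 : Real.exp (x * ((ρ : ℂ).re - κ * Real.log ‖(ρ : ℂ)‖)) ≤
            Real.exp (x * ((ρ0 : ℂ).re - κ * Real.log ‖(ρ0 : ℂ)‖)) * Real.exp (-(c * x)) *
              Real.exp (-(c * x * max 0 (Real.log ‖(ρ : ℂ)‖))) := by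
          rw [← Real.exp_add, ← Real.exp_add, Real.exp_le_exp]
          have h5 := mul_le_mul_of_nonneg_left h3 hx.le
          linarith
        have h6 : Real.exp (-(c * x * max 0 (Real.log ‖(ρ : ℂ)‖))) ≤ 1 / ‖(ρ : ℂ)‖ ^ 2 := by
          have h7 : 1 / ‖(ρ : ℂ)‖ ^ 2 = Real.exp (-(2 * Real.log ‖(ρ : ℂ)‖)) := by
            rw [Real.exp_neg, two_mul, Real.exp_add, Real.exp_log hnρ, one_div, sq]
          rw [h7, Real.exp_le_exp, neg_le_neg_iff]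
          have h8 := le_max_right 0 (Real.log ‖(ρ : ℂ)‖)
          have h9 := le_max_left 0 (Real.log ‖(ρ : ℂ)‖)
          calc 2 * Real.log ‖(ρ : ℂ)‖ ≤ 2 * max 0 (Real.log ‖(ρ : ℂ)‖) := by linarith
            _ ≤ c * x * max 0 (Real.log ‖(ρ : ℂ)‖) := mul_le_mul_of_nonneg_right hcx2 h9
        have h10 : Real.exp (x * ((ρ : ℂ).re - κ * Real.log ‖(ρ : ℂ)‖)) ≤
            Real.exp (x * ((ρ0 : ℂ).re - κ * Real.log ‖(ρ0 : ℂ)‖)) * Real.exp (-(c * x)) *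
              (1 / ‖(ρ : ℂ)‖ ^ 2) :=
          h4.trans (mul_le_mul_of_nonneg_left h6 (by positivity))
        calc mz ρ * 2 * (Real.exp (x * ((ρ : ℂ).re - κ * Real.log ‖(ρ : ℂ)‖)) / ‖(ρ : ℂ)‖)
            ≤ mz ρ * 2 * ((Real.exp (x * ((ρ0 : ℂ).re - κ * Real.log ‖(ρ0 : ℂ)‖)) * Real.exp (-(c * x)) *
              (1 / ‖(ρ : ℂ)‖ ^ 2)) / ‖(ρ : ℂ)‖) := by
              gcongr
          _ = 2 * Real.exp (-(c * x)) * Real.exp (x * ((ρ0 : ℂ).re - κ * Real.log ‖(ρ0 : ℂ)‖)) *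
              (mz ρ / ‖(ρ : ℂ)‖ ^ 3) := by
              field_simp
      · rw [norm_zero]
        exact hnn
  have hgs : Summable g := Summable.of_norm_bounded (hs3.mul_left M) hgb
  have hgn : ‖∑' ρ, g ρ‖ ≤ M * S := by
    rw [hS, ← tsum_mul_left]
    exact tsum_of_norm_bounded (hs3.mul_left M).hasSum hgb
  -- the two terms
  have hh's : HasSum h' (f ρ0 + f ρb) := by
    have h3 : HasSum h' (∑ ρ ∈ ({ρ0, ρb} : Finset ZZ), h' ρ) := by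
      refine hasSum_sum_of_ne_finset_zero fun ρ hρ => ?_
      rw [hh']
      show (if ρ = ρ0 ∨ ρ = ρb then f ρ else 0) = 0
      rw [if_neg]
      intro h4
      apply hρ
      rw [Finset.mem_insert, Finset.mem_singleton]
      exact h4
    rw [Finset.sum_pair hne] at h3
    have h4 : h' ρ0 = f ρ0 := by
      rw [hh']
      show (if ρ0 = ρ0 ∨ ρ0 = ρb then f ρ0 else 0) = _
      rw [if_pos (Or.inl rfl)]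
    have h5 : h' ρb = f ρb := by
      rw [hh']
      show (if ρb = ρ0 ∨ ρb = ρb then f ρb else 0) = _
      rw [if_pos (Or.inr rfl)]
    rw [h4, h5] at h3
    exact h3
  have hfsum : Bm η m x = (∑' ρ, g ρ) + (f ρ0 + f ρb) := by
    have h3 : Bm η m x = ∑' ρ, f ρ := by
      rw [hf]
      rfl
    have h4 : HasSum f ((∑' ρ, g ρ) + (f ρ0 + f ρb)) := by
      have h5 := hgs.hasSum.add hh's
      have h6 : (fun ρ => g ρ + h' ρ) = f := by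
        funext ρ
        rw [hg, hh']
        show (if ρ = ρ0 ∨ ρ = ρb then (0 : ℂ) else f ρ) + (if ρ = ρ0 ∨ ρ = ρb then f ρ else 0) = f ρ
        split_ifs
        · rw [zero_add]
        · rw [add_zero]
      rw [h6] at h5
      exact h5
    rw [h3, h4.tsum_eq]
  have hf0 : f ρ0 = tm η m x ρ0 := by
    rw [hf]
    show (if 0 < (ρ0 : ℂ).re then tm η m x ρ0 else 0) = _
    rw [if_pos h0]
  have hfb : f ρb = (starRingEnd ℂ) (tm η m x ρ0) := by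
    rw [hf]
    show (if 0 < (ρb : ℂ).re then tm η m x ρb else 0) = _
    rw [if_pos hbr]
    unfold tm
    have h3 : mz ρb = mz ρ0 := by
      rw [hρb]
      exact mz_conj ρ0
    rw [h3, hbc]
    simp only [map_div₀, map_mul, map_sub, map_one, map_pow, Complex.conj_ofReal, ← Complex.exp_conj, map_neg]
  rw [hfsum, hf0, hfb, Complex.add_re, Complex.add_re, Complex.conj_re]
  have h20 : (∑' ρ, g ρ).re + ((tm η m x ρ0).re + (tm η m x ρ0).re) - 2 * (tm η m x ρ0).re = (∑' ρ, g ρ).re := by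
    ring
  have h21 : ((mz ρ0 : ℂ) * (1 - Complex.exp (-((ρ0 : ℂ) * η))) *
        Complex.exp ((ρ0 : ℂ) * x) / (ρ0 : ℂ) ^ (m + 1)) = tm η m x ρ0 := rfl
  rw [h21, h20]
  refine (Complex.abs_re_le_norm _).trans (hgn.trans ?_)
  rw [hM]
  have h22 : 2 * S * ‖(ρ0 : ℂ)‖ * Real.exp (-(c * x)) ≤ ε := by
    have h23 : 2 * S * ‖(ρ0 : ℂ)‖ / ε ≤ Real.exp (c * x) := by
      have : 2 * S * ‖(ρ0 : ℂ)‖ / ε ≤ K := by rw [hK]; linarith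
      exact this.trans hcxK
    rw [div_le_iff₀ hε] at h23
    rw [Real.exp_neg, ← div_eq_mul_inv, div_le_iff₀ (Real.exp_pos _)]
    linarith
  calc 2 * Real.exp (-(c * x)) * (Real.exp ((ρ0 : ℂ).re * x) / ‖(ρ0 : ℂ)‖ ^ (m + 1) * ‖(ρ0 : ℂ)‖) * S
      = (2 * S * ‖(ρ0 : ℂ)‖ * Real.exp (-(c * x))) * (Real.exp ((ρ0 : ℂ).re * x) / ‖(ρ0 : ℂ)‖ ^ (m + 1)) := by
        ring
    _ ≤ ε * (Real.exp ((ρ0 : ℂ).re * x) / ‖(ρ0 : ℂ)‖ ^ (m + 1)) :=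
        mul_le_mul_of_nonneg_right h22 (by positivity)
    _ = ε * Real.exp ((ρ0 : ℂ).re * x) / ‖(ρ0 : ℂ)‖ ^ (m + 1) := by ring

end Pool.Agent.H50.RL
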