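import Pool.Agent.H50.RL.Defs

/-!
[H50 RL BE] The polynomial error is small; sign changes of a damped cosine.

PROOF of `poly_small`. `x^m/m! ≤ (e x/m)^m` (`m! ≥ (m/e)^m`; e.g. `x^m/m! ≤ exp`-type: `(m)^m/m! ≤ e^m`). With `κ = m/x ∈ [κ1, κ2]`: `C^m x^m/m! ≤ exp(m (log C + 1 - log κ)) = exp(x κ (log C + 1 - log κ))`. Since
`κ (log C + 1 - log κ) + κ |log R| → 0` as `κ → 0+`, there is `κ0 > 0` with `κ (log C + 1 - log κ) + κ |log R| ≤ β/2` for `0 < κ ≤ κ0`. Then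
`exp(β0 x)/R0^m = exp(x (β0 - κ log R0)) ≥ exp(x (β - κ log R)) ≥ exp(x (κ (log C + 1 - log κ) + β/2)) ≥ e^{x β/2} C^m x^m/m!`, and `e^{xβ/2} ≥ R0/ε` for `x ≥ m/κ2 ≥ m1/κ2` large.
PROOF of `cos_count`. There are at least `n + 1` integers `j` with `γ a + φ ≤ j π ≤ γ b + φ` (length `≥ (n+1) π`): `j_i = ⌈(γ a + φ)/π⌉ + i`, `i ≤ n`. `x_i = (j_i π - φ)/γ ∈ [a, b]`; there
`cos(γ x_i + φ) = (-1)^{j_i}`, so `G x_i` has the sign of `(-1)^{j_i}` (`|G - A e^{βx} cos| ≤ (1/2) A e^{βx}`).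
-/

set_option autoImplicit false

namespace Pool.Agent.H50.RL

open MeasureTheory Filter Topology

theorem poly_small (C : ℝ) (hC : 1 ≤ C) (β R : ℝ) (hβ : 0 < β) (hR : 0 < R) : ∃ κ0 : ℝ, 0 < κ0 ∧
    ∀ κ1 κ2 : ℝ, 0 < κ1 → κ1 < κ2 → κ2 ≤ κ0 → ∀ β0 R0 : ℝ, 0 < R0 →
      (∀ κ, κ1 ≤ κ → κ ≤ κ2 → β - κ * Real.log R ≤ β0 - κ * Real.log R0) →
      ∀ ε : ℝ, 0 < ε → ∃ m1 : ℕ, ∀ m : ℕ, m1 ≤ m → ∀ x : ℝ, (m : ℝ) / κ2 ≤ x → x ≤ (m : ℝ) / κ1 →
        C ^ m * x ^ m / (m.factorial : ℝ) ≤ ε * Real.exp (β0 * x) / R0 ^ (m + 1) := by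
  have hC0 : 0 < C := by linarith
  obtain ⟨L, hL⟩ : ∃ L : ℝ → ℝ, L = fun κ => κ * (Real.log C + 1 + |Real.log R|) - κ * Real.log κ := ⟨_, rfl⟩
  have hLc : Continuous L := by
    rw [hL]
    exact (continuous_id.mul continuous_const).sub Real.continuous_mul_log
  have hL0 : L 0 = 0 := by rw [hL]; simp
  have hnear : ∃ κ0 : ℝ, 0 < κ0 ∧ ∀ κ, 0 < κ → κ ≤ κ0 → L κ ≤ β / 2 := by
    have h1 := Metric.continuousAt_iff.1 (hLc.continuousAt (x := 0)) (β / 2) (by linarith)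
    obtain ⟨δ, hδ, h2⟩ := h1
    refine ⟨δ / 2, by linarith, fun κ hκ hκ2 => ?_⟩
    have h3 := h2 (x := κ) (by rw [Real.dist_eq, sub_zero, abs_of_pos hκ]; linarith)
    rw [Real.dist_eq, hL0, sub_zero] at h3
    exact (le_abs_self _).trans h3.le
  obtain ⟨κ0, hκ0, hnear⟩ := hnear
  refine ⟨κ0, hκ0, fun κ1 κ2 h1 h12 h2 β0 R0 hR0 hcmp ε hε => ?_⟩
  have hκ2 : 0 < κ2 := by linarith
  obtain ⟨m1, hm1⟩ := exists_nat_ge (2 * κ2 * Real.log (R0 / ε) / β)
  refine ⟨m1 + 1, fun m hm x hx1 hx2 => ?_⟩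
  have hmpos : (0 : ℝ) < m := by
    have : 0 < m := by omega
    exact_mod_cast this
  have hmm : (m1 : ℝ) ≤ m := by
    have : m1 ≤ m := by omega
    exact_mod_cast this
  have hx : 0 < x := lt_of_lt_of_le (by positivity) hx1
  obtain ⟨κ, hκ⟩ : ∃ κ, κ = m / x := ⟨_, rfl⟩
  have hκx : (m : ℝ) = κ * x := by rw [hκ]; field_simp
  have hκpos : 0 < κ := by rw [hκ]; positivity
  have hκ1' : κ1 ≤ κ := by
    rw [hκ, le_div_iff₀ hx]
    rw [le_div_iff₀ h1] at hx2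
    linarith
  have hκ2' : κ ≤ κ2 := by
    rw [hκ, div_le_iff₀ hx]
    rw [div_le_iff₀ hκ2] at hx1
    linarith
  -- the left side
  have hleft : C ^ m * x ^ m / (m.factorial : ℝ) ≤ Real.exp (x * (κ * (Real.log C + 1 - Real.log κ))) := by
    have h3 := Real.pow_div_factorial_le_exp (m : ℝ) hmpos.le m
    have h4 : C ^ m * x ^ m / (m.factorial : ℝ) = C ^ m * (1 / κ) ^ m * ((m : ℝ) ^ m / (m.factorial : ℝ)) := by
      have h5 : x ^ m = (1 / κ) ^ m * (m : ℝ) ^ m := by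
        rw [← mul_pow]
        congr 1
        rw [hκ]
        field_simp
      rw [h5]
      ring
    have h5 : C ^ m * (1 / κ) ^ m = Real.exp (m * (Real.log C - Real.log κ)) := by
      rw [← mul_pow, Real.exp_nat_mul, Real.exp_sub, Real.exp_log hC0, Real.exp_log hκpos]
      congr 1
      ring
    rw [h4, h5]
    calc Real.exp (m * (Real.log C - Real.log κ)) * ((m : ℝ) ^ m / (m.factorial : ℝ))
        ≤ Real.exp (m * (Real.log C - Real.log κ)) * Real.exp m :=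
          mul_le_mul_of_nonneg_left h3 (Real.exp_pos _).le
      _ = Real.exp (x * (κ * (Real.log C + 1 - Real.log κ))) := by
          rw [← Real.exp_add]
          congr 1
          have : (m : ℝ) * (Real.log C - Real.log κ) + m = m * (Real.log C + 1 - Real.log κ) := by ring
          rw [this, hκx]
          ring
  -- the right side
  have hright : ε * Real.exp (β0 * x) / R0 ^ (m + 1) = (ε / R0) * Real.exp (x * (β0 - κ * Real.log R0)) := by
    have h3 : Real.exp (x * (β0 - κ * Real.log R0)) = Real.exp (β0 * x) / R0 ^ m := by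
      have h4 : x * (β0 - κ * Real.log R0) = β0 * x - m * Real.log R0 := by
        rw [hκx]
        ring
      rw [h4, Real.exp_sub, Real.exp_nat_mul, Real.exp_log hR0]
    rw [h3, pow_succ]
    field_simp
  rw [hright]
  refine hleft.trans ?_
  have h6 := hnear κ hκpos (hκ2'.trans h2)
  rw [hL] at h6
  have h6' : κ * (Real.log C + 1 + |Real.log R|) - κ * Real.log κ ≤ β / 2 := h6
  have h7 := hcmp κ hκ1' hκ2'
  have h8 : κ * Real.log R ≤ κ * |Real.log R| := mul_le_mul_of_nonneg_left (le_abs_self _) hκpos.le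
  have h9 : x * (κ * (Real.log C + 1 - Real.log κ)) + x * (β / 2) ≤ x * (β0 - κ * Real.log R0) := by
    rw [← mul_add]
    apply mul_le_mul_of_nonneg_left _ hx.le
    nlinarith
  have h10 : R0 / ε ≤ Real.exp (x * (β / 2)) := by
    rw [← Real.log_le_iff_le_exp (by positivity)]
    have h11 : 2 * κ2 * Real.log (R0 / ε) / β ≤ m := hm1.trans hmm
    rw [div_le_iff₀ hβ] at h11
    rw [div_le_iff₀ hκ2] at hx1
    have h12 : 2 * κ2 * Real.log (R0 / ε) ≤ x * κ2 * β := h11.trans (mul_le_mul_of_nonneg_right hx1 hβ.le)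
    have h13 : κ2 * (2 * Real.log (R0 / ε)) ≤ κ2 * (x * β) := by linarith
    have h14 := le_of_mul_le_mul_left h13 hκ2
    linarith
  have h15 : 1 ≤ ε / R0 * Real.exp (x * (β / 2)) := by
    have h16 : ε / R0 * (R0 / ε) = 1 := by field_simp
    rw [← h16]
    exact mul_le_mul_of_nonneg_left h10 (by positivity)
  calc Real.exp (x * (κ * (Real.log C + 1 - Real.log κ)))
      ≤ (ε / R0 * Real.exp (x * (β / 2))) * Real.exp (x * (κ * (Real.log C + 1 - Real.log κ))) :=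
        le_mul_of_one_le_left (Real.exp_pos _).le h15
    _ = ε / R0 * Real.exp (x * (κ * (Real.log C + 1 - Real.log κ)) + x * (β / 2)) := by
        rw [Real.exp_add]
        ring
    _ ≤ ε / R0 * Real.exp (x * (β0 - κ * Real.log R0)) :=
        mul_le_mul_of_nonneg_left (Real.exp_le_exp.2 h9) (by positivity)

theorem cos_count (G : ℝ → ℝ) (γ β A φ a b : ℝ) (hγ : 0 < γ) (hA : 0 < A)
    (h : ∀ x, a ≤ x → x ≤ b → |G x - A * Real.exp (β * x) * Real.cos (γ * x + φ)| ≤ 1 / 2 * (A * Real.exp (β * x)))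
    (n : ℕ) (hn : (n + 1) * Real.pi ≤ γ * (b - a)) : SC G a b n := by
  have hpi := Real.pi_pos
  obtain ⟨j0, hj0⟩ : ∃ j0 : ℤ, j0 = ⌈(γ * a + φ) / Real.pi⌉ := ⟨_, rfl⟩
  have hj1 : γ * a + φ ≤ j0 * Real.pi := by
    rw [← div_le_iff₀ hpi, hj0]
    exact Int.le_ceil _
  have hj2 : (j0 : ℝ) * Real.pi ≤ γ * a + φ + Real.pi := by
    have h1 : (j0 : ℝ) < (γ * a + φ) / Real.pi + 1 := by
      rw [hj0]
      exact Int.ceil_lt_add_one _
    have h2 := mul_le_mul_of_nonneg_right h1.le hpi.le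
    rw [add_mul, div_mul_cancel₀ _ hpi.ne', one_mul] at h2
    exact h2
  obtain ⟨X, hX⟩ : ∃ X : ℕ → ℝ, X = fun i : ℕ => (((j0 + (i : ℤ) : ℤ) : ℝ) * Real.pi - φ) / γ := ⟨_, rfl⟩
  have hXv : ∀ i : ℕ, γ * X i + φ = ((j0 + (i : ℤ) : ℤ) : ℝ) * Real.pi := by
    intro i
    rw [hX]
    show γ * ((((j0 + (i : ℤ) : ℤ) : ℝ) * Real.pi - φ) / γ) + φ = _
    field_simp
    ring
  have hcast : ∀ i : ℕ, ((j0 + (i : ℤ) : ℤ) : ℝ) = (j0 : ℝ) + i := by
    intro i
    push_cast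
    ring
  have hXlt : ∀ i k : ℕ, i < k → X i < X k := by
    intro i k hik
    have h1 := hXv i
    have h2 := hXv k
    rw [hcast] at h1 h2
    have h3 : (i : ℝ) < k := by exact_mod_cast hik
    have h4 : (i : ℝ) * Real.pi < k * Real.pi := mul_lt_mul_of_pos_right h3 hpi
    have h5 : γ * X i < γ * X k := by linarith
    exact lt_of_mul_lt_mul_left h5 hγ.le
  have hXa : ∀ i : ℕ, a ≤ X i := by
    intro i
    have h1 := hXv i
    rw [hcast] at h1
    have h3 : 0 ≤ (i : ℝ) * Real.pi := by positivity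
    have h5 : γ * a ≤ γ * X i := by linarith
    exact le_of_mul_le_mul_left h5 hγ
  have hXb : ∀ i : ℕ, i ≤ n → X i ≤ b := by
    intro i hi
    have h1 := hXv i
    rw [hcast] at h1
    have h3 : (i : ℝ) ≤ n := by exact_mod_cast hi
    have h4 : (i : ℝ) * Real.pi ≤ n * Real.pi := mul_le_mul_of_nonneg_right h3 hpi.le
    have h5 : γ * X i ≤ γ * b := by linarith
    exact le_of_mul_le_mul_left h5 hγ
  have hcos : ∀ i : ℕ, Real.cos (γ * X i + φ) = (-1) ^ (j0 + (i : ℤ)) := by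
    intro i
    rw [hXv i, Real.cos_int_mul_pi]
  have hsq : ∀ i : ℕ, Real.cos (γ * X i + φ) = 1 ∨ Real.cos (γ * X i + φ) = -1 := by
    intro i
    rw [hcos]
    rcases Int.even_or_odd (j0 + (i : ℤ)) with h1 | h1
    · left
      exact h1.neg_one_zpow
    · right
      exact h1.neg_one_zpow
  have hstep : ∀ i : ℕ, Real.cos (γ * X (i + 1) + φ) = -Real.cos (γ * X i + φ) := by
    intro i
    rw [hcos, hcos, Nat.cast_succ, ← add_assoc, zpow_add_one₀ (by norm_num)]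
    ring
  have hpos : ∀ i : ℕ, i ≤ n → 0 < G (X i) * Real.cos (γ * X i + φ) := by
    intro i hi
    have h1 := abs_le.1 (h (X i) (hXa i) (hXb i hi))
    have h2 : 0 < A * Real.exp (β * X i) := by positivity
    rcases hsq i with h3 | h3
    · rw [h3] at h1 ⊢
      linarith [h1.1]
    · rw [h3] at h1 ⊢
      linarith [h1.2]
  refine ⟨fun i => X i, fun i k hik => hXlt _ _ hik, fun i => ⟨hXa _, hXb _ (by omega)⟩, fun i => ?_⟩
  have h1 := hpos (i : ℕ) (by omega)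
  have h2 := hpos ((i : ℕ) + 1) (by omega)
  rw [hstep] at h2
  show G (X ((i.castSucc : Fin (n + 1)) : ℕ)) * G (X ((i.succ : Fin (n + 1)) : ℕ)) < 0
  rw [Fin.val_castSucc, Fin.val_succ]
  rcases hsq (i : ℕ) with h3 | h3
  · rw [h3] at h1 h2
    nlinarith
  · rw [h3] at h1 h2
    nlinarith

end Pool.Agent.H50.RL
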