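import Pool.Agent.H50.RL.Bd
import Pool.Agent.H50.RL.Be

/-!
[H50 RL BF] A dominating pair of zeros cannot dominate for long.

PROOF. `D v = fz v - fz (v - η)`, `G_m = It D Y m`. `iter_formula` gives `C, m0`; `κ0` from `poly_small C β_s R_s` with `β_s = Re ρs`, `R_s = ‖ρs‖`, and also `κ0 ≤ 1`. Let `κ1 < κ2 ≤ κ0`, `ρ0` as in the statement. At both end points
`Re ρs - κ log‖ρs‖ ≤ Re ρ0 - κ log‖ρ0‖` (`Dom`, or equality if `ρs` is `ρ0` or its conjugate), so for all `κ` between (affine). Main term: `-2 Re(a e^{ρ0 x}/ρ0^{m+1})`, `a = mz ρ0 (1 - exp(-ρ0 η)) ≠ 0` (`|exp(-ρ0η)| = e^{-Re ρ0 η} < 1`, `mz ≥ 1`): it is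
`A_m e^{β0 x} cos(γ0 x + φ_m)` with `A_m = 2‖a‖/‖ρ0‖^{m+1} > 0` and some phase (`-a/ρ0^{m+1} = ‖..‖ e^{iφ_m}`). Take `ε = ‖a‖/2` in `dominance` and in `poly_small`: for `m` large and `m/κ2 ≤ x ≤ m/κ1` (so `x ≥ m`, `x ≥ Y`):
`|G_m x - A_m e^{β0x} cos(γ0x + φ_m)| ≤ 2 ε e^{β0x}/‖ρ0‖^{m+1} = (1/2) A_m e^{β0x}`. `cos_count` on `[m/κ2, m/κ1]` with `n = ⌊γ0 (m/κ1 - m/κ2)/π⌋₊ - 1`: `SC G_m (m/κ2) (m/κ1) n`, hence (monotone in the interval) `SC G_m Y (Y + L) n`, `L = ⌈m/κ1 - Y⌉₊`, and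
`vd`, `count`: `n ≤ (M+2) L`. So `γ0 (m/κ1)(1 - κ1/κ2)/π - 2 ≤ (M+2)(m/κ1 + 1)` (`Y ≥ η > 0`); divide by `m/κ1` and let `m → ∞`.
-/

set_option autoImplicit false

namespace Pool.Agent.H50.RL

open MeasureTheory Filter Topology

private theorem bf_sc_mono {F : ℝ → ℝ} {a b a' b' : ℝ} {k : ℕ} (ha : a' ≤ a) (hb : b ≤ b')
    (h : SC F a b k) : SC F a' b' k := by
  obtain ⟨x, hx, h1, h2⟩ := h
  exact ⟨x, hx, fun i => ⟨ha.trans (h1 i).1, (h1 i).2.trans hb⟩, h2⟩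

/-- the main term is a damped cosine -/
private theorem bf_cos (a ρ0 : ℂ) (m : ℕ) : ∃ φ : ℝ, ∀ x : ℝ,
    2 * (a * Complex.exp (ρ0 * x) / ρ0 ^ (m + 1)).re =
      -(2 * ‖a‖ / ‖ρ0‖ ^ (m + 1) * Real.exp (ρ0.re * x) * Real.cos (ρ0.im * x + φ)) := by
  refine ⟨Complex.arg (-(a / ρ0 ^ (m + 1))), fun x => ?_⟩
  have h1 : a * Complex.exp (ρ0 * x) / ρ0 ^ (m + 1) =
      -((-(a / ρ0 ^ (m + 1))) * Complex.exp (ρ0 * x)) := by ring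
  have h2 := Complex.norm_mul_exp_arg_mul_I (-(a / ρ0 ^ (m + 1)))
  have h3 : ‖-(a / ρ0 ^ (m + 1))‖ = ‖a‖ / ‖ρ0‖ ^ (m + 1) := by
    rw [norm_neg, norm_div, norm_pow]
  have h4 : ((-(a / ρ0 ^ (m + 1))) * Complex.exp (ρ0 * x)).re =
      ‖a‖ / ‖ρ0‖ ^ (m + 1) * (Real.exp (ρ0.re * x) *
        Real.cos (ρ0.im * x + Complex.arg (-(a / ρ0 ^ (m + 1))))) := by
    conv_lhs => rw [← h2]
    rw [mul_assoc, ← Complex.exp_add, Complex.re_ofReal_mul, Complex.exp_re, h3]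
    have h5 : ((Complex.arg (-(a / ρ0 ^ (m + 1))) : ℂ) * Complex.I + ρ0 * x).re = ρ0.re * x := by
      simp
    have h6 : ((Complex.arg (-(a / ρ0 ^ (m + 1))) : ℂ) * Complex.I + ρ0 * x).im =
        ρ0.im * x + Complex.arg (-(a / ρ0 ^ (m + 1))) := by
      simp [add_comm]
    rw [h5, h6]
  rw [h1, Complex.neg_re, h4]
  ring

theorem window_bound (η : ℝ) (hη : 0 < η) (M : ℕ) (Y : ℝ) (hY : η ≤ Y)
    (hSC : ∀ y, Y ≤ y → ¬ SC (fun v => fz v - fz (v - η)) y (y + 1) (M + 1)) (ρs : ZZ) (hs : 0 < (ρs : ℂ).re) :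
    ∃ κ0 : ℝ, 0 < κ0 ∧ ∀ κ1 κ2 : ℝ, 0 < κ1 → κ1 < κ2 → κ2 ≤ κ0 → ∀ ρ0 : ZZ, 0 < (ρ0 : ℂ).re →
      0 < (ρ0 : ℂ).im → Dom κ1 ρ0 → Dom κ2 ρ0 →
      (ρ0 : ℂ).im * (1 - κ1 / κ2) ≤ Real.pi * (M + 2) := by
  obtain ⟨C, hC1, m0, hiter⟩ := iter_formula η hη Y hY
  have hnorm : ∀ ρ : ZZ, 0 < (ρ : ℂ).re → 0 < ‖(ρ : ℂ)‖ := by
    intro ρ hρ
    rw [norm_pos_iff]
    intro h0
    rw [h0, Complex.zero_re] at hρ
    exact lt_irrefl _ hρ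
  obtain ⟨κ0, hκ0, hpoly⟩ := poly_small C hC1 (ρs : ℂ).re ‖(ρs : ℂ)‖ hs (hnorm ρs hs)
  refine ⟨min κ0 1, lt_min hκ0 one_pos, ?_⟩
  intro κ1 κ2 h1 h12 h2 ρ0 h0 him hd1 hd2
  have hκ2 : 0 < κ2 := h1.trans h12
  have hκ2' : κ2 ≤ κ0 := h2.trans (min_le_left _ _)
  have hκ21 : κ2 ≤ 1 := h2.trans (min_le_right _ _)
  have hR0 := hnorm ρ0 h0
  -- comparison with `ρs`
  have hend : ∀ κ, Dom κ ρ0 → (ρs : ℂ).re - κ * Real.log ‖(ρs : ℂ)‖ ≤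
      (ρ0 : ℂ).re - κ * Real.log ‖(ρ0 : ℂ)‖ := by
    intro κ hd
    by_cases e1 : (ρs : ℂ) = (ρ0 : ℂ)
    · rw [e1]
    · by_cases e2 : (ρs : ℂ) = (starRingEnd ℂ) (ρ0 : ℂ)
      · rw [e2, Complex.conj_re, Complex.norm_conj]
      · exact (hd ρs hs e1 e2).le
  have hline : ∀ κ, κ1 ≤ κ → κ ≤ κ2 → (ρs : ℂ).re - κ * Real.log ‖(ρs : ℂ)‖ ≤
      (ρ0 : ℂ).re - κ * Real.log ‖(ρ0 : ℂ)‖ := by
    intro κ k1 k2
    have e1 := hend κ1 hd1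
    have e2 := hend κ2 hd2
    rcases le_total (Real.log ‖(ρs : ℂ)‖) (Real.log ‖(ρ0 : ℂ)‖) with h | h
    · nlinarith
    · nlinarith
  -- the main term
  obtain ⟨a, ha⟩ : ∃ a : ℂ, a = (mz ρ0 : ℂ) * (1 - Complex.exp (-((ρ0 : ℂ) * η))) := ⟨_, rfl⟩
  have ha0 : 0 < ‖a‖ := by
    rw [norm_pos_iff, ha]
    refine mul_ne_zero ?_ ?_
    · have := mz_one_le ρ0
      exact Complex.ofReal_ne_zero.2 (by linarith)
    · intro h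
      have h3 : Complex.exp (-((ρ0 : ℂ) * η)) = 1 := (sub_eq_zero.1 h).symm
      have h4 := congrArg (fun z => ‖z‖) h3
      simp only [Complex.norm_exp, norm_one] at h4
      have h5 : (-((ρ0 : ℂ) * η)).re = -((ρ0 : ℂ).re * η) := by simp
      rw [h5, Real.exp_eq_one_iff] at h4
      have h6 : 0 < (ρ0 : ℂ).re * η := mul_pos h0 hη
      linarith
  obtain ⟨m1, hm1⟩ := dominance ρ0 h0 him κ1 κ2 h1 h12 hd1 hd2 η hη (‖a‖ / 2) (by positivity)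
  obtain ⟨m2, hm2⟩ := hpoly κ1 κ2 h1 h12 hκ2' (ρ0 : ℂ).re ‖(ρ0 : ℂ)‖ hR0 hline (‖a‖ / 2) (by positivity)
  by_contra hcon
  rw [not_le] at hcon
  obtain ⟨δ, hδ⟩ : ∃ δ : ℝ, δ = (ρ0 : ℂ).im * (1 - κ1 / κ2) - Real.pi * (M + 2) := ⟨_, rfl⟩
  have hδ0 : 0 < δ := by rw [hδ]; linarith
  have hpi := Real.pi_pos
  -- choice of `m`
  obtain ⟨m3, hm3⟩ := exists_nat_ge (max Y (κ1 * ((M + 4) * Real.pi / δ)))
  obtain ⟨m, hm⟩ : ∃ m : ℕ, m = m0 + m1 + m2 + m3 := ⟨_, rfl⟩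
  have hm3' : (m3 : ℝ) ≤ m := by exact_mod_cast (by omega : m3 ≤ m)
  have hYm : Y ≤ (m : ℝ) := ((le_max_left _ _).trans hm3).trans hm3'
  have hbig : (M + 4) * Real.pi ≤ (m : ℝ) / κ1 * δ := by
    have h3 : κ1 * ((M + 4) * Real.pi / δ) ≤ m := ((le_max_right _ _).trans hm3).trans hm3'
    have h4 : (M + 4) * Real.pi / δ ≤ m / κ1 := by
      rw [le_div_iff₀ h1, mul_comm]
      exact h3
    rwa [div_le_iff₀ hδ0] at h4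
  have hm0' : 0 ≤ (m : ℝ) := Nat.cast_nonneg m
  have hmκ2 : (m : ℝ) ≤ (m : ℝ) / κ2 := by
    rw [le_div_iff₀ hκ2]
    nlinarith
  obtain ⟨φ, hφ⟩ := bf_cos a (ρ0 : ℂ) m
  have happ : ∀ x, (m : ℝ) / κ2 ≤ x → x ≤ (m : ℝ) / κ1 →
      |It (fun v => fz v - fz (v - η)) Y m x - 2 * ‖a‖ / ‖(ρ0 : ℂ)‖ ^ (m + 1) *
        Real.exp ((ρ0 : ℂ).re * x) * Real.cos ((ρ0 : ℂ).im * x + φ)| ≤
      1 / 2 * (2 * ‖a‖ / ‖(ρ0 : ℂ)‖ ^ (m + 1) * Real.exp ((ρ0 : ℂ).re * x)) := by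
    intro x hx1 hx2
    have e1 := hiter m (by omega) x (hmκ2.trans hx1) (hYm.trans (hmκ2.trans hx1))
    have e2 := hm1 m (by omega) x hx1 hx2
    have e3 := hm2 m (by omega) x hx1 hx2
    rw [← ha, hφ x] at e2
    have e4 := (Complex.abs_re_le_norm _).trans e1
    rw [Complex.add_re, Complex.ofReal_re] at e4
    have e5 : ∀ G B c : ℝ, G - c = (G + B) - (B - -c) := fun G B c => by ring
    rw [e5 _ (Bm η m x).re]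
    refine (abs_sub _ _).trans ?_
    have e6 : 1 / 2 * (2 * ‖a‖ / ‖(ρ0 : ℂ)‖ ^ (m + 1) * Real.exp ((ρ0 : ℂ).re * x)) =
        ‖a‖ / 2 * Real.exp ((ρ0 : ℂ).re * x) / ‖(ρ0 : ℂ)‖ ^ (m + 1) +
          ‖a‖ / 2 * Real.exp ((ρ0 : ℂ).re * x) / ‖(ρ0 : ℂ)‖ ^ (m + 1) := by ring
    rw [e6]
    exact add_le_add (e4.trans e3) e2
  -- the number of sign changes
  obtain ⟨L, hL⟩ : ∃ L : ℕ, L = ⌈(m : ℝ) / κ1⌉₊ := ⟨_, rfl⟩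
  have hL1 : (m : ℝ) / κ1 ≤ L := by rw [hL]; exact Nat.le_ceil _
  have hL2 : (L : ℝ) < (m : ℝ) / κ1 + 1 := by
    rw [hL]
    exact Nat.ceil_lt_add_one (by positivity)
  have hcount := cos_count (It (fun v => fz v - fz (v - η)) Y m) (ρ0 : ℂ).im (ρ0 : ℂ).re
    (2 * ‖a‖ / ‖(ρ0 : ℂ)‖ ^ (m + 1)) φ ((m : ℝ) / κ2) ((m : ℝ) / κ1) him (by positivity) happ
    ((M + 2) * L + 1) (by
      have e1 : (ρ0 : ℂ).im * ((m : ℝ) / κ1 - (m : ℝ) / κ2) =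
          (m : ℝ) / κ1 * ((ρ0 : ℂ).im * (1 - κ1 / κ2)) := by
        field_simp
      have e2 : (ρ0 : ℂ).im * (1 - κ1 / κ2) = δ + Real.pi * (M + 2) := by rw [hδ]; ring
      rw [e1, e2]
      push_cast
      have e3 : ((M : ℝ) + 2) * L ≤ (M + 2) * ((m : ℝ) / κ1 + 1) :=
        mul_le_mul_of_nonneg_left hL2.le (by positivity)
      calc ((M + 2) * (L : ℝ) + 1 + 1) * Real.pi
          ≤ ((M + 2) * ((m : ℝ) / κ1 + 1) + 1 + 1) * Real.pi :=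
            mul_le_mul_of_nonneg_right (by linarith) hpi.le
        _ = (M + 4) * Real.pi + (m : ℝ) / κ1 * (Real.pi * (M + 2)) := by ring
        _ ≤ (m : ℝ) / κ1 * δ + (m : ℝ) / κ1 * (Real.pi * (M + 2)) := by linarith
        _ = (m : ℝ) / κ1 * (δ + Real.pi * (M + 2)) := by ring)
  have hY0 : 0 < Y := hη.trans_le hY
  have hsc := bf_sc_mono (hYm.trans hmκ2) (by linarith : (m : ℝ) / κ1 ≤ Y + L) hcount
  have hfin := count _ Y M hSC L _ (vd _ (fz_int η) Y (Y + L) m _ hsc)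
  omega

end Pool.Agent.H50.RL
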