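import Pool.Agent.H48.WN.Gdh

/-!
[H50 RL CL2] Few unit windows contain a zero to the right of `1/2 + d`.

PROOF. `gdh d` (`Pool/Agent/H48/WN/Gdh.lean`): for `T ≥ T0` the function `HH d T` is continuous and `≥ 0` on `[T, 2T]`,
`∫_T^{2T} HH ≤ T^(1 - d^2/16)`, and `‖Gm d T s‖^2 ≤ (4/d^2) HH d T t0` for `1/2 + d ≤ Re s ≤ 2`, `|Im s - t0| ≤ (log T)^2`.
`Gm d T s = ζ(s) Mo d T s - 1`, so `Gm d T ρ = -1` at a zero `ρ`. For `k ∈ K` with its zero `ρ` (`Re ρ < 1 ≤ 2` by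
`riemannZeta_ne_zero_of_one_le_re`) and every `t0 ∈ [k, k+1] ⊆ [T, 2T]`: `|Im ρ - t0| ≤ 1 ≤ (log T)^2`, so `1 ≤ (4/d^2) HH d T t0`. Integrate
over the disjoint intervals `[k, k+1]`, `k ∈ K`: `card K ≤ (4/d^2) ∫_T^{2T} HH ≤ (4/d^2) T^(1 - d^2/16) ≤ T^(1 - c)` with `c = d^2/32`, `T` large.
(Sum of integrals over disjoint intervals `≤` the integral over `[T, 2T]`, integrand `≥ 0`: use
`∫_{T}^{2T} HH ≥ ∫_{⋃ Ico k (k+1)} HH = Σ` (`integral_finset_biUnion` / `setIntegral_mono_set`).)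
-/

set_option autoImplicit false

namespace Pool.Agent.H50.RL

open MeasureTheory Filter Topology Pool.Agent.H48.WN

private theorem unit_windows {f : ℝ → ℝ} {a b m : ℝ} (hab : a ≤ b) (hf : ContinuousOn f (Set.Icc a b))
    (h0 : ∀ t ∈ Set.Icc a b, 0 ≤ f t) (K : Finset ℕ)
    (hK : ∀ k ∈ K, a ≤ (k : ℝ) ∧ (k : ℝ) + 1 ≤ b ∧ ∀ t ∈ Set.Icc (k : ℝ) (k + 1), m ≤ f t) :
    (K.card : ℝ) * m ≤ ∫ t in a..b, f t := by
  have hint : IntegrableOn f (Set.Icc a b) := hf.integrableOn_compact isCompact_Icc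
  have hsub : ∀ k ∈ K, Set.Ioc (k : ℝ) (k + 1) ⊆ Set.Ioc a b := by
    intro k hk
    obtain ⟨h1, h2, -⟩ := hK k hk
    exact Set.Ioc_subset_Ioc h1 h2
  have hU : (⋃ k ∈ K, Set.Ioc (k : ℝ) (k + 1)) ⊆ Set.Ioc a b := Set.iUnion₂_subset hsub
  have hmeas : MeasurableSet (⋃ k ∈ K, Set.Ioc (k : ℝ) (k + 1)) :=
    Finset.measurableSet_biUnion K fun k _ => measurableSet_Ioc
  have h1 : ∫ t in (⋃ k ∈ K, Set.Ioc (k : ℝ) (k + 1)), f t =
      ∑ k ∈ K, ∫ t in Set.Ioc (k : ℝ) (k + 1), f t := by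
    refine integral_biUnion_finset K (fun k _ => measurableSet_Ioc) ?_ ?_
    · intro i hi j hj hij
      rw [Function.onFun, Set.disjoint_left]
      intro t h3 h4
      rw [Set.mem_Ioc] at h3 h4
      have h5 : (i : ℝ) < j + 1 := by linarith [h3.1, h4.2]
      have h6 : (j : ℝ) < i + 1 := by linarith [h4.1, h3.2]
      have h7 : i < j + 1 := by exact_mod_cast h5
      have h8 : j < i + 1 := by exact_mod_cast h6
      exact hij (by omega)
    · intro k hk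
      exact hint.mono_set ((hsub k hk).trans Set.Ioc_subset_Icc_self)
  have h2 : ∀ k ∈ K, m ≤ ∫ t in Set.Ioc (k : ℝ) (k + 1), f t := by
    intro k hk
    obtain ⟨-, -, h3⟩ := hK k hk
    have h4 : ∫ t in Set.Ioc (k : ℝ) (k + 1), m ≤ ∫ t in Set.Ioc (k : ℝ) (k + 1), f t := by
      refine setIntegral_mono_on ?_ ?_ measurableSet_Ioc ?_
      · exact integrableOn_const (by simp)
      · exact hint.mono_set ((hsub k hk).trans Set.Ioc_subset_Icc_self)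
      · intro t ht
        exact h3 t ⟨ht.1.le, ht.2⟩
    have h5 : ∫ t in Set.Ioc (k : ℝ) (k + 1), m = m := by
      rw [setIntegral_const]
      simp
    rwa [h5] at h4
  rw [intervalIntegral.integral_of_le hab]
  calc (K.card : ℝ) * m = ∑ k ∈ K, m := by rw [Finset.sum_const, nsmul_eq_mul]
    _ ≤ ∑ k ∈ K, ∫ t in Set.Ioc (k : ℝ) (k + 1), f t := Finset.sum_le_sum h2
    _ = ∫ t in (⋃ k ∈ K, Set.Ioc (k : ℝ) (k + 1)), f t := h1.symm
    _ ≤ ∫ t in Set.Ioc a b, f t := by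
        refine setIntegral_mono_set (hint.mono_set Set.Ioc_subset_Icc_self) ?_
          (HasSubset.Subset.eventuallyLE hU)
        refine (ae_restrict_iff' measurableSet_Ioc).2 (Eventually.of_forall fun t ht => ?_)
        exact h0 t ⟨ht.1.le, ht.2⟩

theorem bad_heights (d : ℝ) (hd : 0 < d) (hd1 : d ≤ 1 / 8) : ∃ c T0 : ℝ, 0 < c ∧ 10 ≤ T0 ∧ ∀ T : ℝ, T0 ≤ T →
    ∀ K : Finset ℕ, (∀ k ∈ K, T ≤ (k : ℝ) ∧ (k : ℝ) + 1 ≤ 2 * T ∧
      ∃ ρ : ℂ, riemannZeta ρ = 0 ∧ 1 / 2 + d ≤ ρ.re ∧ (k : ℝ) ≤ ρ.im ∧ ρ.im ≤ (k : ℝ) + 1) →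
    (K.card : ℝ) ≤ T ^ (1 - c) := by
  obtain ⟨T1, hT1, hg⟩ := gdh d hd hd1
  have hlim : Tendsto (fun T : ℝ => T ^ (d ^ 2 / 32)) atTop atTop :=
    tendsto_rpow_atTop (by positivity)
  obtain ⟨T2, hT2⟩ := eventually_atTop.1 (hlim.eventually_ge_atTop (4 / d ^ 2))
  refine ⟨d ^ 2 / 32, max T1 T2, by positivity, le_max_of_le_left hT1, fun T hT K hK => ?_⟩
  have hTa : T1 ≤ T := le_trans (le_max_left _ _) hT
  have hTb : T2 ≤ T := le_trans (le_max_right _ _) hT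
  have hT10 : 10 ≤ T := by linarith
  have hT0 : 0 < T := by linarith
  obtain ⟨hc, hi, hh⟩ := hg T hTa
  have hlog : 1 ≤ (Real.log T) ^ 2 := by
    have h1 : 1 ≤ Real.log T := by
      rw [Real.le_log_iff_exp_le hT0]
      linarith [Real.exp_one_lt_d9]
    nlinarith
  have h1 := unit_windows (f := fun t0 => HH d T t0) (a := T) (b := 2 * T) (m := d ^ 2 / 4)
    (by linarith) hc (fun t ht => (hh t ht.1 ht.2).1) K (by
      intro k hk
      obtain ⟨h1, h2, ρ, h3, h4, h5, h6⟩ := hK k hk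
      refine ⟨h1, h2, fun t ht => ?_⟩
      obtain ⟨-, h7⟩ := hh t (by linarith [ht.1]) (by linarith [ht.2])
      have hre : ρ.re ≤ 2 := by
        by_contra hlt
        exact riemannZeta_ne_zero_of_one_le_re (by linarith) h3
      have h8 := h7 ρ h4 hre (by
        have : |ρ.im - t| ≤ 1 := by
          rw [abs_le]
          constructor <;> linarith [ht.1, ht.2]
        linarith)
      have h9 : Gm d T ρ = -1 := by
        unfold Gm
        rw [h3, zero_mul, zero_sub]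
      rw [h9, norm_neg, norm_one, one_pow] at h8
      have h10 : d ^ 2 / 4 * 1 ≤ d ^ 2 / 4 * (4 / d ^ 2 * HH d T t) :=
        mul_le_mul_of_nonneg_left h8 (by positivity)
      have h11 : d ^ 2 / 4 * (4 / d ^ 2 * HH d T t) = HH d T t := by
        field_simp
      rw [h11, mul_one] at h10
      exact h10)
  have h2 : (K.card : ℝ) * (d ^ 2 / 4) ≤ T ^ (1 - d ^ 2 / 16) := h1.trans hi
  have h3 : (K.card : ℝ) ≤ 4 / d ^ 2 * T ^ (1 - d ^ 2 / 16) := by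
    have h4 := mul_le_mul_of_nonneg_left h2 (show (0 : ℝ) ≤ 4 / d ^ 2 by positivity)
    have h5 : 4 / d ^ 2 * ((K.card : ℝ) * (d ^ 2 / 4)) = K.card := by
      field_simp
    rwa [h5] at h4
  calc (K.card : ℝ) ≤ 4 / d ^ 2 * T ^ (1 - d ^ 2 / 16) := h3
    _ ≤ T ^ (d ^ 2 / 32) * T ^ (1 - d ^ 2 / 16) :=
        mul_le_mul_of_nonneg_right (hT2 T hTb) (Real.rpow_nonneg hT0.le _)
    _ = T ^ (1 - d ^ 2 / 32) := by
        rw [← Real.rpow_add hT0]
        congr 1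
        ring

end Pool.Agent.H50.RL
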