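import Pool.Agent.H50.RL.Cl1
import Pool.Agent.H50.RL.Cl2

/-!
[H50 RL S2] The zeros with real part at least `σ > 1/2` have an absolutely convergent sum of inverses.

PROOF. Let `d = min (σ - 1/2) (1/8) > 0`; it suffices to treat `σ = 1/2 + d` (monotone: the summand for `σ` is bounded by that for
`1/2 + d`). Bound all finite partial sums (`summable_of_sum_le`; terms are `≥ 0`). Zeros with `|Im ρ| ≤ T1` (`T1` a constant `≥ T0 + 4` from `bad_heights`): finitely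
many (`zz_finite`; `‖ρ‖ ≤ |Re ρ| + |Im ρ|`, `1/2 ≤ Re ρ < 1`), each contributing a constant. By conjugation (`mz_conj`) it suffices to treat `Im ρ > T1`: for a
finite set `Z` of zeros of norm... split by the dyadic range `T = 2^j T1`, `T ≤ Im ρ < 2T`, and by `k = ⌊Im ρ⌋`: for given `k` the zeros of `Z` with
`k ≤ Im ρ < k+1` have `Σ mz ≤ C log(k+1/2) ≤ C log(2T)` (`local_count` at height `k + 1/2`), and the number of `k` with `T ≤ k`, `k+1 ≤ 2T` that
occur is `≤ T^(1-c)` (`bad_heights`); the at most two other values of `k` (those with `k < T` or `k + 1 > 2T`) are added: so `Σ_{T ≤ Im ρ < 2T} mz/‖ρ‖ ≤ (T^(1-c) + 2) C log(2T)/T`, and the sum over `j` converges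
(`log(2T) ≤ C' T^(c/2)`, geometric series with ratio `2^(-c/2)`).
-/

set_option autoImplicit false

namespace Pool.Agent.H50.RL

open MeasureTheory Filter Topology

/-- conjugation on the zeros -/
private noncomputable def cjE : ZZ ≃ ZZ where
  toFun ρ := ⟨(starRingEnd ℂ) (ρ : ℂ), zeta_conj_zero ρ ρ.2⟩
  invFun ρ := ⟨(starRingEnd ℂ) (ρ : ℂ), zeta_conj_zero ρ ρ.2⟩
  left_inv _ := Subtype.ext (Complex.conj_conj _)
  right_inv _ := Subtype.ext (Complex.conj_conj _)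

/-- a function on `ℕ` whose dyadic sums are eventually bounded by a summable sequence is summable -/
private theorem dya_summ (h : ℕ → ℝ) (h0 : ∀ k, 0 ≤ h k) (u : ℕ → ℝ) (hu : Summable u)
    (hb : ∀ᶠ j in atTop, ∑ k ∈ Finset.Ico (2 ^ j) (2 ^ (j + 1)), h k ≤ u j) : Summable h := by
  have hS : Summable fun j : ℕ => ∑ k ∈ Finset.Ico (2 ^ j) (2 ^ (j + 1)), h k := by
    refine Summable.of_norm_bounded_eventually_nat hu ?_
    filter_upwards [hb] with j hj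
    rwa [Real.norm_eq_abs, abs_of_nonneg (Finset.sum_nonneg fun k _ => h0 k)]
  have hind : ∀ n : ℕ, ∑ k ∈ Finset.range (2 ^ n), h k =
      h 0 + ∑ j ∈ Finset.range n, ∑ k ∈ Finset.Ico (2 ^ j) (2 ^ (j + 1)), h k := by
    intro n
    induction n with
    | zero => simp
    | succ n ih =>
      rw [Finset.sum_range_succ, ← add_assoc, ← ih, Finset.range_eq_Ico, Finset.range_eq_Ico,
        Finset.sum_Ico_consecutive h (Nat.zero_le _) (Nat.pow_le_pow_right (by norm_num) (Nat.le_succ n))]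
  refine summable_of_sum_range_le (c := h 0 + ∑' j : ℕ, ∑ k ∈ Finset.Ico (2 ^ j) (2 ^ (j + 1)), h k) h0 fun n => ?_
  calc ∑ i ∈ Finset.range n, h i ≤ ∑ i ∈ Finset.range (2 ^ n), h i :=
        Finset.sum_le_sum_of_subset_of_nonneg (Finset.range_subset_range.2 Nat.lt_two_pow_self.le) fun i _ _ => h0 i
    _ ≤ _ := by
        rw [hind]
        refine add_le_add le_rfl ?_
        exact hS.sum_le_tsum _ fun j _ => Finset.sum_nonneg fun k _ => h0 k

private theorem s_upper (d : ℝ) (hd : 0 < d) (hd1 : d ≤ 1 / 8) :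
    Summable fun ρ : ZZ => if 1 / 2 + d ≤ (ρ : ℂ).re ∧ 4 ≤ (ρ : ℂ).im then mz ρ / ‖(ρ : ℂ)‖ else 0 := by
  classical
  obtain ⟨C, hC, hloc⟩ := local_count
  obtain ⟨c, T0, hc, hT0, hbad⟩ := bad_heights d hd hd1
  obtain ⟨Bad, hBad⟩ : ∃ Bad : ℕ → Prop, Bad = fun k : ℕ => 4 ≤ k ∧ ∃ ρ : ℂ, riemannZeta ρ = 0 ∧ 1 / 2 + d ≤ ρ.re ∧
    (k : ℝ) ≤ ρ.im ∧ ρ.im ≤ (k : ℝ) + 1 := ⟨_, rfl⟩
  obtain ⟨h, hh⟩ : ∃ h : ℕ → ℝ, h = fun k : ℕ => if Bad k then C * Real.log ((k : ℝ) + 1) / k else 0 := ⟨_, rfl⟩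
  have h0 : ∀ k, 0 ≤ h k := by
    intro k
    rw [hh]
    dsimp only
    split_ifs
    · have : 0 ≤ Real.log ((k : ℝ) + 1) := Real.log_nonneg (by linarith [Nat.cast_nonneg (α := ℝ) k])
      positivity
    · exact le_rfl
  have hr : |((2 : ℝ) ^ (-c))| < 1 := by
    rw [abs_of_pos (by positivity)]
    exact Real.rpow_lt_one_of_one_lt_of_neg (by norm_num) (by linarith)
  have hsh : Summable h := by
    refine dya_summ h h0 (fun j : ℕ => C * Real.log 2 * ((j : ℝ) + 1) * ((2 : ℝ) ^ (-c)) ^ j) ?_ ?_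
    · have h1 := summable_pow_mul_geometric_of_norm_lt_one (R := ℝ) 1 (r := (2 : ℝ) ^ (-c)) (by
        rw [Real.norm_eq_abs]; exact hr)
      have h2 := summable_geometric_of_abs_lt_one hr
      refine ((h1.add h2).mul_left (C * Real.log 2)).congr fun j => ?_
      ring
    · have h1 : ∀ᶠ j : ℕ in atTop, T0 ≤ (2 : ℝ) ^ j :=
        (tendsto_pow_atTop_atTop_of_one_lt (by norm_num : (1 : ℝ) < 2)).eventually_ge_atTop T0
      filter_upwards [h1] with j hj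
      have h2 := hbad ((2 : ℝ) ^ j) hj ((Finset.Ico (2 ^ j) (2 ^ (j + 1))).filter Bad) (by
        intro k hk
        rw [Finset.mem_filter, Finset.mem_Ico, hBad] at hk
        obtain ⟨⟨hk1, hk2⟩, -, hk3⟩ := hk
        refine ⟨by exact_mod_cast hk1, ?_, hk3⟩
        have h3 : k + 1 ≤ 2 * 2 ^ j := by
          rw [pow_succ] at hk2
          omega
        exact_mod_cast h3)
      have h3 : ∑ k ∈ Finset.Ico (2 ^ j) (2 ^ (j + 1)), h k =
          ∑ k ∈ (Finset.Ico (2 ^ j) (2 ^ (j + 1))).filter Bad, C * Real.log ((k : ℝ) + 1) / k := by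
        rw [hh, Finset.sum_filter]
      have hpos : (0 : ℝ) < 2 ^ j := by positivity
      have h4 : ∀ k ∈ (Finset.Ico (2 ^ j) (2 ^ (j + 1))).filter Bad,
          C * Real.log ((k : ℝ) + 1) / k ≤ C * (Real.log 2 * ((j : ℝ) + 1)) / 2 ^ j := by
        intro k hk
        rw [Finset.mem_filter, Finset.mem_Ico] at hk
        obtain ⟨⟨hk1, hk2⟩, -⟩ := hk
        have hk1' : (2 : ℝ) ^ j ≤ k := by exact_mod_cast hk1
        have hk2' : (k : ℝ) + 1 ≤ 2 ^ (j + 1) := by exact_mod_cast hk2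
        have h5 : Real.log ((k : ℝ) + 1) ≤ Real.log 2 * ((j : ℝ) + 1) := by
          have h6 := Real.log_le_log (by positivity) hk2'
          rw [Real.log_pow] at h6
          push_cast at h6
          linarith
        have h7 : 0 ≤ Real.log ((k : ℝ) + 1) := Real.log_nonneg (by linarith [Nat.cast_nonneg (α := ℝ) k])
        have h8 : C * Real.log ((k : ℝ) + 1) ≤ C * (Real.log 2 * ((j : ℝ) + 1)) :=
          mul_le_mul_of_nonneg_left h5 hC.le
        exact div_le_div₀ (le_trans (by positivity) h8) h8 hpos hk1'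
      rw [h3]
      refine (Finset.sum_le_card_nsmul _ _ _ h4).trans ?_
      rw [nsmul_eq_mul]
      have h9 : ((2 : ℝ) ^ j) ^ (1 - c) = 2 ^ j * ((2 : ℝ) ^ (-c)) ^ j := by
        rw [sub_eq_add_neg, Real.rpow_add hpos, Real.rpow_one, ← Real.rpow_natCast, ← Real.rpow_mul (by norm_num),
          ← Real.rpow_natCast ((2 : ℝ) ^ (-c)) j, ← Real.rpow_mul (by norm_num), mul_comm (j : ℝ) (-c)]
      rw [h9] at h2
      have h10 : 0 ≤ C * (Real.log 2 * ((j : ℝ) + 1)) / 2 ^ j := by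
        have := Real.log_nonneg (x := 2) (by norm_num)
        positivity
      refine (mul_le_mul_of_nonneg_right h2 h10).trans_eq ?_
      field_simp
  refine summable_of_sum_le (c := ∑' k, h k) ?_ fun Z => ?_
  · intro ρ
    dsimp only
    split_ifs
    · exact div_nonneg (zero_le_one.trans (mz_one_le ρ)) (norm_nonneg _)
    · exact le_rfl
  · rw [← Finset.sum_filter]
    set Z' := Z.filter (fun ρ : ZZ => 1 / 2 + d ≤ (ρ : ℂ).re ∧ 4 ≤ (ρ : ℂ).im) with hZ'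
    have hmap : ∀ ρ ∈ Z', ⌊(ρ : ℂ).im⌋₊ ∈ Z'.image (fun ρ : ZZ => ⌊(ρ : ℂ).im⌋₊) :=
      fun ρ hρ => Finset.mem_image_of_mem _ hρ
    rw [← Finset.sum_fiberwise_of_maps_to hmap]
    refine le_trans (Finset.sum_le_sum (g := h) fun k hk => ?_) (hsh.sum_le_tsum _ fun k _ => h0 k)
    rw [Finset.mem_image] at hk
    obtain ⟨ρ0, hρ0, hk0⟩ := hk
    have hZmem : ∀ ρ ∈ Z', 1 / 2 + d ≤ (ρ : ℂ).re ∧ 4 ≤ (ρ : ℂ).im := fun ρ hρ => (Finset.mem_filter.1 hρ).2
    have hfl : ∀ ρ ∈ Z', ∀ k : ℕ, ⌊(ρ : ℂ).im⌋₊ = k → (k : ℝ) ≤ (ρ : ℂ).im ∧ (ρ : ℂ).im ≤ (k : ℝ) + 1 := by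
      intro ρ hρ k hk
      have h1 := (hZmem ρ hρ).2
      rw [Nat.floor_eq_iff (by linarith)] at hk
      exact ⟨hk.1, hk.2.le⟩
    have hk4 : 4 ≤ k := by
      rw [← hk0]
      exact Nat.le_floor (by exact_mod_cast (hZmem ρ0 hρ0).2)
    have hBk : Bad k := by
      rw [hBad]
      exact ⟨hk4, ρ0, ρ0.2, (hZmem ρ0 hρ0).1, hfl ρ0 hρ0 k hk0⟩
    have hk4' : (4 : ℝ) ≤ k := by exact_mod_cast hk4
    have h1 := hloc ((k : ℝ) + 1 / 2) (by linarith) (Z'.filter fun ρ : ZZ => ⌊(ρ : ℂ).im⌋₊ = k) (by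
      intro ρ hρ
      rw [Finset.mem_filter] at hρ
      have h2 := hZmem ρ hρ.1
      have h3 := hfl ρ hρ.1 k hρ.2
      refine ⟨by linarith [h2.1], ?_⟩
      rw [abs_le]
      constructor <;> linarith [h3.1, h3.2])
    have h2 : ∑ ρ ∈ Z'.filter (fun ρ : ZZ => ⌊(ρ : ℂ).im⌋₊ = k), mz ρ / ‖(ρ : ℂ)‖ ≤
        ∑ ρ ∈ Z'.filter (fun ρ : ZZ => ⌊(ρ : ℂ).im⌋₊ = k), mz ρ / k := by
      refine Finset.sum_le_sum fun ρ hρ => ?_
      rw [Finset.mem_filter] at hρ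
      have h3 := (hfl ρ hρ.1 k hρ.2).1
      refine div_le_div_of_nonneg_left (zero_le_one.trans (mz_one_le ρ)) (by linarith) ?_
      exact h3.trans ((le_abs_self _).trans (Complex.abs_im_le_norm _))
    refine h2.trans ?_
    rw [← Finset.sum_div, hh]
    dsimp only
    rw [if_pos hBk]
    refine div_le_div_of_nonneg_right (h1.trans ?_) (by linarith)
    refine mul_le_mul_of_nonneg_left (Real.log_le_log (by linarith) (by linarith)) hC.le

theorem s_two (σ : ℝ) (hσ : 1 / 2 < σ) :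
    Summable fun ρ : ZZ => if σ ≤ (ρ : ℂ).re then mz ρ / ‖(ρ : ℂ)‖ else 0 := by
  classical
  obtain ⟨d, hd⟩ : ∃ d, d = min (σ - 1 / 2) (1 / 8) := ⟨_, rfl⟩
  have hd0 : 0 < d := by
    rw [hd]
    exact lt_min (by linarith) (by norm_num)
  have hd1 : d ≤ 1 / 8 := by
    rw [hd]
    exact min_le_right _ _
  have hd2 : d ≤ σ - 1 / 2 := by
    rw [hd]
    exact min_le_left _ _
  have h1 := s_upper d hd0 hd1
  have h2 := (Equiv.summable_iff cjE).2 h1
  have h3 : Summable fun ρ : ZZ => if ‖(ρ : ℂ)‖ ≤ 5 then mz ρ / ‖(ρ : ℂ)‖ else 0 := by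
    refine summable_of_hasFiniteSupport ((zz_finite 5).subset ?_)
    intro ρ hρ
    by_contra hcon
    rw [Function.mem_support] at hρ
    exact hρ (if_neg hcon)
  have hnn : ∀ ρ : ZZ, 0 ≤ mz ρ / ‖(ρ : ℂ)‖ := fun ρ =>
    div_nonneg (zero_le_one.trans (mz_one_le ρ)) (norm_nonneg _)
  refine Summable.of_nonneg_of_le (fun ρ => ?_) (fun ρ => ?_) ((h1.add h2).add h3)
  · split_ifs
    · exact hnn ρ
    · exact le_rfl
  · have e1 : ((fun ρ : ZZ => if 1 / 2 + d ≤ (ρ : ℂ).re ∧ 4 ≤ (ρ : ℂ).im then mz ρ / ‖(ρ : ℂ)‖ else 0) ∘ cjE) ρ =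
        if 1 / 2 + d ≤ (ρ : ℂ).re ∧ 4 ≤ -(ρ : ℂ).im then mz ρ / ‖(ρ : ℂ)‖ else 0 := by
      have e2 : mz (cjE ρ) = mz ρ := mz_conj ρ
      have e3 : ((cjE ρ : ZZ) : ℂ) = (starRingEnd ℂ) (ρ : ℂ) := rfl
      rw [Function.comp_apply, e2, e3, Complex.norm_conj, Complex.conj_re, Complex.conj_im]
    rw [e1]
    have n1 : 0 ≤ (if 1 / 2 + d ≤ (ρ : ℂ).re ∧ 4 ≤ (ρ : ℂ).im then mz ρ / ‖(ρ : ℂ)‖ else 0) := by
      split_ifs
      · exact hnn ρ
      · exact le_rfl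
    have n2 : 0 ≤ (if 1 / 2 + d ≤ (ρ : ℂ).re ∧ 4 ≤ -(ρ : ℂ).im then mz ρ / ‖(ρ : ℂ)‖ else 0) := by
      split_ifs
      · exact hnn ρ
      · exact le_rfl
    have n3 : 0 ≤ (if ‖(ρ : ℂ)‖ ≤ 5 then mz ρ / ‖(ρ : ℂ)‖ else 0) := by
      split_ifs
      · exact hnn ρ
      · exact le_rfl
    by_cases hσρ : σ ≤ (ρ : ℂ).re
    · rw [if_pos hσρ]
      have hre : 1 / 2 + d ≤ (ρ : ℂ).re := by linarith
      rcases le_total 4 (ρ : ℂ).im with h4 | h4
      · rw [if_pos ⟨hre, h4⟩]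
        linarith
      · rcases le_total 4 (-(ρ : ℂ).im) with h5 | h5
        · have e5 : (if 1 / 2 + d ≤ (ρ : ℂ).re ∧ 4 ≤ -(ρ : ℂ).im then mz ρ / ‖(ρ : ℂ)‖ else 0) =
              mz ρ / ‖(ρ : ℂ)‖ := if_pos ⟨hre, h5⟩
          rw [e5]
          linarith
        · have h6 : ‖(ρ : ℂ)‖ ≤ 5 := by
            refine (Complex.norm_le_abs_re_add_abs_im _).trans ?_
            have h7 := zz_re_lt ρ
            have h8 : |(ρ : ℂ).re| ≤ 1 := abs_le.2 ⟨by linarith, h7.le⟩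
            have h9 : |(ρ : ℂ).im| ≤ 4 := abs_le.2 ⟨by linarith, h4⟩
            linarith
          rw [if_pos h6]
          linarith
    · rw [if_neg hσρ]
      linarith

end Pool.Agent.H50.RL
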