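import Pool.Agent.H50.RL.Bd
import Pool.Agent.H50.RL.S2

/-!
[H50 RL BG] The dominance intervals would be too short.

PROOF. Put `v κ ρ = Re ρ - κ log‖ρ‖` for zeros with `Re ρ > 0` (call them nontrivial). For `κ > 0` a maximiser of `v κ` exists (`v κ ρ → -∞` as `‖ρ‖ → ∞`, `zz_finite`; the set is nonempty by `hne`). Let `ρa` be a zero with `Re ρa > 1/2`, `σ = (1/2 + Re ρa)/2`.
(1) There is `κ' ≤ κ0` such that for `0 < κ ≤ κ'` every maximiser `ρ` has `Re ρ ≥ σ`: `Re ρ ≥ Re ρa - κ log‖ρa‖ + κ log‖ρ‖ ≥ Re ρa - κ (log‖ρa‖ - log c)` (`zz_away`). (2) Given `R`, for `κ` small every maximiser has `‖ρ‖ > R`: the finitely many nontrivial zeros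
with `‖ρ‖ ≤ R` have real parts `< Re ρ'` for a suitable zero `ρ'` (`hna` applied to one with maximal real part), and for `κ` small `v κ ρ' > v κ ρ` for all of them. Choose `R = 2B + 2` and `κ' ` accordingly: then maximisers have `|Im ρ| ≥ ‖ρ‖ - 1 ≥ 2B + 1 > 0`.
(3) For `ρ0` with `Im ρ0 > 0` let `J(ρ0) = {t : ℝ | exp(-t) ≤ κ' and ρ0 maximises v (exp(-t))}`. Let `s < t` be INTERIOR points of the order-convex set `J(ρ0)` (i.e. there are smaller and larger elements): then `Dom (exp(-s)) ρ0` and `Dom (exp(-t)) ρ0`: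
`v κ ρ ≤ v κ ρ0` for `κ` on both sides of `exp(-s)`, with equality at `exp(-s)`, affine in `κ`, forces `v κ ρ = v κ ρ0` for all `κ`, so `‖ρ‖ = ‖ρ0‖`, `Re ρ = Re ρ0`, and `ρ` is `ρ0` or its conjugate. So `hB`: `Im ρ0 (1 - exp(-(t-s))) ≤ B`,
`1 - exp(-(t-s)) ≤ B/Im ρ0 ≤ 1/2`, so `t - s ≤ 2B/Im ρ0` (`1 - e^{-x} ≥ x/2` for `x ≤ log 2 · ...`: if `1 - e^{-x} ≤ 1/2` then `x ≤ log 2` and `1 - e^{-x} ≥ x/2`). Hence `diam J(ρ0) ≤ 2B/Im ρ0` and `volume (J ρ0) ≤ 2B/Im ρ0 ≤ 4B/‖ρ0‖`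
(a set of reals with all differences `≤ d` is contained in an interval of length `d`; `Real.volume_le_diam`).
(4) `[-log κ', ∞) ⊆ ⋃ J(ρ0)` over `ρ0` with `Re ρ0 ≥ σ`, `Im ρ0 > 0` (replace a maximiser by its conjugate if `Im < 0`), a countable union (`zz_finite`), so `∞ ≤ Σ 4B/‖ρ0‖ ≤ 4B Σ_{Re ≥ σ} mz/‖ρ‖ < ∞` by `s_two σ` (`mz_one_le`). (`measure_iUnion_le`, `ENNReal.ofReal_tsum_of_nonneg`.)
-/

set_option autoImplicit false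

namespace Pool.Agent.H50.RL

open MeasureTheory Filter Topology

/-- the value of a zero at slope `κ` -/
private noncomputable def vv (κ : ℝ) (ρ : ZZ) : ℝ := (ρ : ℂ).re - κ * Real.log ‖(ρ : ℂ)‖

/-- the maximisers -/
private def Mx (κ : ℝ) (ρ0 : ZZ) : Prop := 0 < (ρ0 : ℂ).re ∧ ∀ ρ : ZZ, 0 < (ρ : ℂ).re → vv κ ρ ≤ vv κ ρ0

private theorem zcount : Countable ZZ := by
  rw [← Set.countable_univ_iff]
  have h : (Set.univ : Set ZZ) ⊆ ⋃ n : ℕ, {ρ : ZZ | ‖(ρ : ℂ)‖ ≤ (n : ℝ)} := by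
    intro ρ _
    obtain ⟨n, hn⟩ := exists_nat_ge ‖(ρ : ℂ)‖
    exact Set.mem_iUnion.2 ⟨n, hn⟩
  exact (Set.countable_iUnion fun n : ℕ => (zz_finite (n : ℝ)).countable).mono h

private theorem zpos (ρ : ZZ) : 0 < ‖(ρ : ℂ)‖ := by
  obtain ⟨c, hc, h⟩ := zz_away
  exact lt_of_lt_of_le hc (h ρ)

private theorem mx_exists (ρa : ZZ) (ha : 0 < (ρa : ℂ).re) {κ : ℝ} (hκ : 0 < κ) : ∃ ρ0, Mx κ ρ0 := by
  have hfin : {ρ : ZZ | 0 < (ρ : ℂ).re ∧ vv κ ρa ≤ vv κ ρ}.Finite := by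
    refine (zz_finite (Real.exp ((1 - vv κ ρa) / κ))).subset fun ρ hρ => ?_
    obtain ⟨h1, h2⟩ := hρ
    have h3 := zz_re_lt ρ
    have h4 : Real.log ‖(ρ : ℂ)‖ ≤ (1 - vv κ ρa) / κ := by
      rw [le_div_iff₀ hκ]
      have h5 : vv κ ρ = (ρ : ℂ).re - κ * Real.log ‖(ρ : ℂ)‖ := rfl
      nlinarith
    exact (Real.log_le_iff_le_exp (zpos ρ)).1 h4
  obtain ⟨ρ0, h1, h2⟩ := Set.exists_max_image _ (vv κ) hfin ⟨ρa, ha, le_rfl⟩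
  refine ⟨ρ0, h1.1, fun ρ hρ => ?_⟩
  rcases le_total (vv κ ρa) (vv κ ρ) with h | h
  · exact h2 ρ ⟨hρ, h⟩
  · exact h.trans h1.2

private theorem mx_re (ρa : ZZ) (ha : 0 < (ρa : ℂ).re) (a : ℝ) (hlt : a < (ρa : ℂ).re) :
    ∃ κ1 : ℝ, 0 < κ1 ∧ ∀ κ : ℝ, 0 < κ → κ ≤ κ1 → ∀ ρ, Mx κ ρ → a < (ρ : ℂ).re := by
  obtain ⟨c, hc, hca⟩ := zz_away
  obtain ⟨D, hD⟩ : ∃ D : ℝ, D = |Real.log ‖(ρa : ℂ)‖ - Real.log c| + 1 := ⟨_, rfl⟩
  have hD0 : 0 < D := by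
    rw [hD]
    positivity
  refine ⟨((ρa : ℂ).re - a) / D, div_pos (by linarith) hD0, fun κ hκ hκ1 ρ hρ => ?_⟩
  have h1 := hρ.2 ρa ha
  unfold vv at h1
  have h2 : Real.log c ≤ Real.log ‖(ρ : ℂ)‖ := Real.log_le_log hc (hca ρ)
  have h3 : κ * D ≤ (ρa : ℂ).re - a := (le_div_iff₀ hD0).1 hκ1
  have h4 : Real.log ‖(ρa : ℂ)‖ - Real.log c ≤ D - 1 := by
    rw [hD]
    linarith [le_abs_self (Real.log ‖(ρa : ℂ)‖ - Real.log c)]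
  have h5 : κ * (Real.log ‖(ρa : ℂ)‖ - Real.log ‖(ρ : ℂ)‖) ≤ κ * (D - 1) :=
    mul_le_mul_of_nonneg_left (by linarith) hκ.le
  nlinarith

private theorem mx_dom {κ1 κ κ2 : ℝ} (h1 : κ1 < κ) (h2 : κ < κ2) {ρ0 : ZZ} (hm1 : Mx κ1 ρ0)
    (hm2 : Mx κ2 ρ0) : Dom κ ρ0 := by
  intro ρ hρ hne hnc
  by_contra hcon
  have e1 := hm1.2 ρ hρ
  have e2 := hm2.2 ρ hρ
  unfold vv at e1 e2
  have e3 := not_lt.1 hcon
  obtain ⟨A, hA⟩ : ∃ A : ℝ, A = (ρ : ℂ).re - (ρ0 : ℂ).re := ⟨_, rfl⟩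
  obtain ⟨L, hL⟩ : ∃ L : ℝ, L = Real.log ‖(ρ : ℂ)‖ - Real.log ‖(ρ0 : ℂ)‖ := ⟨_, rfl⟩
  have f1 : A - κ1 * L ≤ 0 := by
    rw [hA, hL]
    linarith
  have f2 : A - κ2 * L ≤ 0 := by
    rw [hA, hL]
    linarith
  have f3 : 0 ≤ A - κ * L := by
    rw [hA, hL]
    linarith
  have hL0 : L = 0 := by
    apply le_antisymm
    · by_contra h
      have h' := not_le.1 h
      nlinarith
    · by_contra h
      have h' := not_le.1 h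
      nlinarith
  have hA0 : A = 0 := by
    rw [hL0] at f1 f3
    linarith
  have hn : ‖(ρ : ℂ)‖ = ‖(ρ0 : ℂ)‖ :=
    Real.log_injOn_pos (Set.mem_Ioi.2 (zpos ρ)) (Set.mem_Ioi.2 (zpos ρ0)) (by linarith)
  have hr : (ρ : ℂ).re = (ρ0 : ℂ).re := by linarith
  have hs : Complex.normSq (ρ : ℂ) = Complex.normSq (ρ0 : ℂ) := by
    rw [Complex.normSq_eq_norm_sq, Complex.normSq_eq_norm_sq, hn]
  rw [Complex.normSq_apply, Complex.normSq_apply, hr] at hs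
  have hi : (ρ : ℂ).im = (ρ0 : ℂ).im ∨ (ρ : ℂ).im = -(ρ0 : ℂ).im :=
    mul_self_eq_mul_self_iff.1 (by linarith)
  rcases hi with hi | hi
  · exact hne (Complex.ext hr hi)
  · refine hnc (Complex.ext ?_ ?_)
    · rw [Complex.conj_re, hr]
    · rw [Complex.conj_im, hi]

private theorem exp_le_lin {x a : ℝ} (hx : 0 ≤ x) (ha : a ≤ 1 / 2) (h : 1 - Real.exp (-x) ≤ a) :
    x ≤ 2 * a := by
  have h1 : 1 - a ≤ Real.exp (-x) := by linarith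
  have h2 : 0 < 1 - a := by linarith
  have h3 : Real.exp (-x) * Real.exp x = 1 := by rw [← Real.exp_add, neg_add_cancel, Real.exp_zero]
  have h4 : x + 1 ≤ Real.exp x := Real.add_one_le_exp x
  have h5 : (1 - a) * (x + 1) ≤ Real.exp (-x) * Real.exp x :=
    mul_le_mul h1 h4 (by linarith) (Real.exp_pos _).le
  rw [h3] at h5
  nlinarith

theorem too_short (hne : ∃ ρ : ZZ, 1 / 2 < (ρ : ℂ).re) (hna : ∀ ρ : ZZ, ∃ ρ' : ZZ, (ρ : ℂ).re < (ρ' : ℂ).re)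
    (κ0 B : ℝ) (hκ : 0 < κ0) (hB0 : 0 < B)
    (hB : ∀ κ1 κ2 : ℝ, 0 < κ1 → κ1 < κ2 → κ2 ≤ κ0 → ∀ ρ0 : ZZ, 0 < (ρ0 : ℂ).re → 0 < (ρ0 : ℂ).im →
      Dom κ1 ρ0 → Dom κ2 ρ0 → (ρ0 : ℂ).im * (1 - κ1 / κ2) ≤ B) : False := by
  have hcount := zcount
  obtain ⟨ρa, hρa⟩ := hne
  obtain ⟨σ, hσ⟩ : ∃ σ : ℝ, σ = (1 / 2 + (ρa : ℂ).re) / 2 := ⟨_, rfl⟩
  have hσ1 : 1 / 2 < σ := by rw [hσ]; linarith
  have hσ2 : σ < (ρa : ℂ).re := by rw [hσ]; linarith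
  -- a zero further to the right than all small zeros
  obtain ⟨ρm, -, hm2⟩ := Set.exists_max_image ({ρ : ZZ | ‖(ρ : ℂ)‖ ≤ 2 * B + 2} ∪ {ρa})
    (fun ρ : ZZ => (ρ : ℂ).re) ((zz_finite (2 * B + 2)).union (Set.finite_singleton ρa))
    ⟨ρa, Or.inr rfl⟩
  obtain ⟨ρ', hρ'⟩ := hna ρm
  have hma : (ρa : ℂ).re ≤ (ρm : ℂ).re := hm2 ρa (Or.inr rfl)
  obtain ⟨κ1, hκ1, hk1⟩ := mx_re ρ' (by linarith) (ρm : ℂ).re hρ'
  obtain ⟨κ', hκ', hκ'1, hκ'0⟩ : ∃ κ' : ℝ, 0 < κ' ∧ κ' ≤ κ1 ∧ κ' ≤ κ0 :=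
    ⟨min κ1 κ0, lt_min hκ1 hκ, min_le_left _ _, min_le_right _ _⟩
  have hgood : ∀ κ : ℝ, 0 < κ → κ ≤ κ' → ∀ ρ, Mx κ ρ → σ ≤ (ρ : ℂ).re ∧ 2 * B + 1 < |(ρ : ℂ).im| := by
    intro κ h0 h1 ρ hρ
    have h2 := hk1 κ h0 (h1.trans hκ'1) ρ hρ
    refine ⟨by linarith, ?_⟩
    by_contra h
    have h3 : ‖(ρ : ℂ)‖ ≤ 2 * B + 2 := by
      refine (Complex.norm_le_abs_re_add_abs_im _).trans ?_
      have h4 : |(ρ : ℂ).re| ≤ 1 := by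
        rw [abs_of_pos hρ.1]
        exact (zz_re_lt ρ).le
      linarith [not_lt.1 h]
    have h5 := hm2 ρ (Or.inl h3)
    linarith
  obtain ⟨J, hJ⟩ : ∃ J : ZZ → Set ℝ, ∀ ρ t, t ∈ J ρ ↔
      (Real.exp (-t) ≤ κ' ∧ Mx (Real.exp (-t)) ρ ∧ σ ≤ (ρ : ℂ).re ∧ 2 * B + 1 < (ρ : ℂ).im) :=
    ⟨fun ρ => {t | Real.exp (-t) ≤ κ' ∧ Mx (Real.exp (-t)) ρ ∧ σ ≤ (ρ : ℂ).re ∧
      2 * B + 1 < (ρ : ℂ).im}, fun _ _ => Iff.rfl⟩
  -- the length of the sets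
  have hlen : ∀ ρ s t, s ∈ J ρ → t ∈ J ρ → t - s ≤ 4 * B / ‖(ρ : ℂ)‖ := by
    intro ρ s t hs ht
    obtain ⟨s1, s2, s3, s4⟩ := (hJ ρ s).1 hs
    obtain ⟨t1, t2, -, -⟩ := (hJ ρ t).1 ht
    have him : 0 < (ρ : ℂ).im := by linarith
    have hd : 2 * (B / (ρ : ℂ).im) ≤ 4 * B / ‖(ρ : ℂ)‖ := by
      rw [le_div_iff₀ (zpos ρ)]
      have h1 : ‖(ρ : ℂ)‖ ≤ 2 * (ρ : ℂ).im := by
        refine (Complex.norm_le_abs_re_add_abs_im _).trans ?_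
        rw [abs_of_pos s2.1, abs_of_pos him]
        linarith [zz_re_lt ρ]
      have h2 : 0 ≤ 2 * (B / (ρ : ℂ).im) := by positivity
      calc 2 * (B / (ρ : ℂ).im) * ‖(ρ : ℂ)‖ ≤ 2 * (B / (ρ : ℂ).im) * (2 * (ρ : ℂ).im) :=
            mul_le_mul_of_nonneg_left h1 h2
        _ = 4 * B := by
            field_simp
            ring
    refine le_trans ?_ hd
    by_contra hcon
    have hcon := not_le.1 hcon
    obtain ⟨d, hdd⟩ : ∃ d : ℝ, d = 2 * (B / (ρ : ℂ).im) := ⟨_, rfl⟩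
    have hd0 : 0 < d := by rw [hdd]; positivity
    rw [← hdd] at hcon
    obtain ⟨u, hu⟩ : ∃ u : ℝ, u = s + (t - s - d) / 4 := ⟨_, rfl⟩
    obtain ⟨w, hw⟩ : ∃ w : ℝ, w = t - (t - s - d) / 4 := ⟨_, rfl⟩
    have hsu : s < u := by rw [hu]; linarith
    have huw : u < w := by rw [hu, hw]; linarith
    have hwt : w < t := by rw [hw]; linarith
    have hwu : d < w - u := by rw [hu, hw]; linarith
    have hdu : Dom (Real.exp (-u)) ρ :=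
      mx_dom (Real.exp_lt_exp.2 (by linarith)) (Real.exp_lt_exp.2 (by linarith)) t2 s2
    have hdw : Dom (Real.exp (-w)) ρ :=
      mx_dom (Real.exp_lt_exp.2 (by linarith)) (Real.exp_lt_exp.2 (by linarith)) t2 s2
    have h1 := hB (Real.exp (-w)) (Real.exp (-u)) (Real.exp_pos _)
      (Real.exp_lt_exp.2 (by linarith))
      ((Real.exp_le_exp.2 (by linarith)).trans (s1.trans hκ'0)) ρ s2.1 him hdw hdu
    have h2 : Real.exp (-w) / Real.exp (-u) = Real.exp (-(w - u)) := by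
      rw [← Real.exp_sub]
      congr 1
      ring
    rw [h2] at h1
    have h3 : 1 - Real.exp (-(w - u)) ≤ B / (ρ : ℂ).im := by
      rw [le_div_iff₀ him, mul_comm]
      exact h1
    have h4 : B / (ρ : ℂ).im ≤ 1 / 2 := by
      rw [div_le_iff₀ him]
      linarith
    have h5 := exp_le_lin (by linarith) h4 h3
    rw [← hdd] at h5
    linarith
  have hvol : ∀ ρ, volume (J ρ) ≤
      ENNReal.ofReal (4 * B * (if σ ≤ (ρ : ℂ).re then mz ρ / ‖(ρ : ℂ)‖ else 0)) := by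
    intro ρ
    by_cases hσρ : σ ≤ (ρ : ℂ).re
    · rw [if_pos hσρ]
      have h0 : 4 * B / ‖(ρ : ℂ)‖ ≤ 4 * B * (mz ρ / ‖(ρ : ℂ)‖) := by
        rw [mul_div_assoc']
        refine div_le_div_of_nonneg_right ?_ (zpos ρ).le
        nlinarith [mz_one_le ρ]
      refine le_trans ?_ (ENNReal.ofReal_le_ofReal h0)
      refine (Real.volume_le_diam _).trans (Metric.ediam_le fun s hs t ht => ?_)
      rw [edist_dist, Real.dist_eq]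
      refine ENNReal.ofReal_le_ofReal (abs_le.2 ⟨?_, hlen ρ t s ht hs⟩)
      linarith [hlen ρ s t hs ht]
    · have h0 : J ρ = ∅ := by
        rw [Set.eq_empty_iff_forall_notMem]
        intro t ht
        exact hσρ ((hJ ρ t).1 ht).2.2.1
      rw [h0, measure_empty]
      exact zero_le
  have hcov : Set.Ici (-Real.log κ') ⊆ ⋃ ρ, J ρ := by
    intro t ht
    have ht1 : Real.exp (-t) ≤ κ' := by
      have h1 : -Real.log κ' ≤ t := ht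
      rw [← Real.le_log_iff_exp_le hκ']
      linarith
    obtain ⟨ρ, hρ⟩ := mx_exists ρa (by linarith) (Real.exp_pos (-t))
    obtain ⟨h1, h2⟩ := hgood _ (Real.exp_pos (-t)) ht1 ρ hρ
    rw [Set.mem_iUnion]
    rcases le_total 0 (ρ : ℂ).im with h3 | h3
    · rw [abs_of_nonneg h3] at h2
      exact ⟨ρ, (hJ ρ t).2 ⟨ht1, hρ, h1, h2⟩⟩
    · rw [abs_of_nonpos h3] at h2
      refine ⟨⟨(starRingEnd ℂ) (ρ : ℂ), zeta_conj_zero ρ ρ.2⟩, (hJ _ t).2 ⟨ht1, ⟨?_, ?_⟩, ?_, ?_⟩⟩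
      · change 0 < ((starRingEnd ℂ) (ρ : ℂ)).re
        rw [Complex.conj_re]
        exact hρ.1
      · intro ρ1 hρ1
        refine (hρ.2 ρ1 hρ1).trans (le_of_eq ?_)
        change (ρ : ℂ).re - Real.exp (-t) * Real.log ‖(ρ : ℂ)‖ =
          ((starRingEnd ℂ) (ρ : ℂ)).re - Real.exp (-t) * Real.log ‖(starRingEnd ℂ) (ρ : ℂ)‖
        rw [Complex.conj_re, RCLike.norm_conj]
      · change σ ≤ ((starRingEnd ℂ) (ρ : ℂ)).re
        rw [Complex.conj_re]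
        exact h1
      · change 2 * B + 1 < ((starRingEnd ℂ) (ρ : ℂ)).im
        rw [Complex.conj_im]
        exact h2
  have hsum : Summable fun ρ : ZZ => 4 * B * (if σ ≤ (ρ : ℂ).re then mz ρ / ‖(ρ : ℂ)‖ else 0) :=
    (s_two σ hσ1).mul_left (4 * B)
  have hnn : ∀ ρ : ZZ, 0 ≤ 4 * B * (if σ ≤ (ρ : ℂ).re then mz ρ / ‖(ρ : ℂ)‖ else 0) := by
    intro ρ
    have h1 := mz_one_le ρ
    split_ifs <;> positivity
  have hfin : volume (Set.Ici (-Real.log κ')) < ⊤ := by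
    refine lt_of_le_of_lt (measure_mono hcov) (lt_of_le_of_lt (measure_iUnion_le J) ?_)
    refine lt_of_le_of_lt (ENNReal.tsum_le_tsum hvol) ?_
    rw [← ENNReal.ofReal_tsum_of_nonneg hnn hsum]
    exact ENNReal.ofReal_lt_top
  rw [Real.volume_Ici] at hfin
  exact lt_irrefl _ hfin

end Pool.Agent.H50.RL
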