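import Pool.Agent.H50.RL.Bf
import Pool.Agent.H50.RL.Bg

/-!
[H50 RL BH] Part B: the supremum of the real parts is not attained.

PROOF. Otherwise `¬ SC .. y (y+1) M` for all `y ≥ Y0`, hence `¬ SC .. y (y+1) (M+1)` (drop the last point of `M + 1` sign changes) for all `y ≥ Y := max Y0 η`. `window_bound` with `ρs` a zero with `Re ρs > 1/2` gives `κ0`;
`too_short` with `B = π (M + 2)`.
-/

set_option autoImplicit false

namespace Pool.Agent.H50.RL

open MeasureTheory Filter Topology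

private theorem sc_drop {F : ℝ → ℝ} {a b : ℝ} {k : ℕ} (h : SC F a b (k + 1)) : SC F a b k := by
  obtain ⟨x, hx, hab, hs⟩ := h
  refine ⟨fun i => x i.castSucc, hx.comp (Fin.strictMono_castSucc), fun i => hab _, fun i => ?_⟩
  have h1 := hs i.castSucc
  rw [Fin.succ_castSucc] at h1
  exact h1

theorem part_b (hne : ∃ ρ : ZZ, 1 / 2 < (ρ : ℂ).re) (hna : ∀ ρ : ZZ, ∃ ρ' : ZZ, (ρ : ℂ).re < (ρ' : ℂ).re)
    (M : ℕ) (η : ℝ) (hη : 0 < η) (Y0 : ℝ) :
    ∃ y : ℝ, Y0 ≤ y ∧ SC (fun v => fz v - fz (v - η)) y (y + 1) M := by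
  by_contra hcon
  push Not at hcon
  obtain ⟨ρs, hρs⟩ := hne
  obtain ⟨κ0, hκ0, hwin⟩ := window_bound η hη M (max Y0 η) (le_max_right _ _)
    (fun y hy h => hcon y ((le_max_left _ _).trans hy) (sc_drop h)) ρs (by linarith)
  have hB0 : 0 < Real.pi * ((M : ℝ) + 2) := by
    have := Real.pi_pos
    positivity
  exact too_short ⟨ρs, hρs⟩ hna κ0 (Real.pi * ((M : ℝ) + 2)) hκ0 hB0 hwin

end Pool.Agent.H50.RL
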