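import Mathlib

/-!
[H50 RL WK] Weak limits along ultrafilters in a Hilbert space.

PROOF. For `f ∈ H` the sequence `⟪W j, f⟫` is bounded by `C ‖f‖`, so it converges along the ultrafilter to a point
`ℓ f` of the closed ball of radius `C ‖f‖` of `ℂ` (compact: `IsCompact.ultrafilter_le_nhds`, after mapping the
ultrafilter). `ℓ` is linear in `f` (limits of sums and multiples are unique) and `‖ℓ f‖ ≤ C ‖f‖`, so it is a
continuous linear functional (`LinearMap.mkContinuous`) and by the Riesz theorem (`InnerProductSpace.toDual`) there is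
`h` with `⟪h, f⟫ = ℓ f` for all `f`.
-/

set_option autoImplicit false

namespace Pool.Agent.H50.RL

open Filter Topology

theorem wk {H : Type*} [NormedAddCommGroup H] [InnerProductSpace ℂ H] [CompleteSpace H] (W : ℕ → H) (C : ℝ)
    (hW : ∀ j, ‖W j‖ ≤ C) (U : Ultrafilter ℕ) :
    ∃ h : H, ∀ f : H, Tendsto (fun j => inner ℂ (W j) f) U (𝓝 (inner ℂ h f)) := by
  have key : ∀ f : H, ∃ a : ℂ, ‖a‖ ≤ C * ‖f‖ ∧ Tendsto (fun j => inner ℂ (W j) f) U (𝓝 a) := by
    intro f
    have h1 : ∀ j, inner ℂ (W j) f ∈ Metric.closedBall (0 : ℂ) (C * ‖f‖) := by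
      intro j
      rw [mem_closedBall_zero_iff]
      exact (norm_inner_le_norm _ _).trans (mul_le_mul_of_nonneg_right (hW j) (norm_nonneg _))
    have h2 : ((U.map fun j => inner ℂ (W j) f : Ultrafilter ℂ) : Filter ℂ) ≤
        𝓟 (Metric.closedBall (0 : ℂ) (C * ‖f‖)) := by
      rw [Filter.le_principal_iff, Ultrafilter.mem_coe, Ultrafilter.mem_map]
      exact Filter.Eventually.of_forall h1
    obtain ⟨a, ha, hle⟩ := (isCompact_closedBall (0 : ℂ) (C * ‖f‖)).ultrafilter_le_nhds _ h2
    exact ⟨a, mem_closedBall_zero_iff.1 ha, hle⟩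
  choose ℓ hn hl using key
  let L : H →ₗ[ℂ] ℂ :=
    { toFun := ℓ
      map_add' := fun f g => tendsto_nhds_unique (hl (f + g)) (by
        have h1 := (hl f).add (hl g)
        refine h1.congr fun j => ?_
        rw [inner_add_right])
      map_smul' := fun a f => tendsto_nhds_unique (hl (a • f)) (by
        have h1 := (hl f).const_mul a
        refine h1.congr fun j => ?_
        rw [inner_smul_right]) }
  have hb : ∀ f, ‖L f‖ ≤ C * ‖f‖ := hn
  refine ⟨(InnerProductSpace.toDual ℂ H).symm (L.mkContinuous C hb), fun f => ?_⟩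
  rw [InnerProductSpace.toDual_symm_apply]
  exact hl f

end Pool.Agent.H50.RL
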