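import Pool.Agent.H50.RL.Sing
import Pool.Agent.H50.RL.Wk

/-!
[H50 RL CIR] CIRCLE LEMMA: no signed finite measure `μ₁ - μ₂` on the circle has Fourier coefficients with
`cf (n j - l) = 0` for `3 ≤ l ≤ j`, `‖cf (n j)‖ ≥ c > 0`, `|n j| → ∞`.

PROOF. Let `σ = μ₁ + μ₂`, finite, and `w = (dμ₁/dσ).toReal - (dμ₂/dσ).toReal` (`Measure.rnDeriv`; `μ_i ≤ σ`, so
`μ_i ≪ σ` and the densities are `≤ 1` almost everywhere), a real measurable function with `|w| ≤ 1` `σ`-a.e. and
`cf μ₁ μ₂ k = ∫ fourier (-k) w dσ` (`integral_rnDeriv_smul` or `withDensity_rnDeriv_eq`).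
In `H = Lp ℂ 2 σ` let `W j` be the class of `fourier (-(n j)) · w`, `‖W j‖ ≤ C = √σ(univ)` (up to the exact constant).
Let `U` be `hyperfilter ℕ` and `h` the weak limit of `wk`.
(a) For `l ≥ 3` and `j ≥ l`: `⟪W j, fourier (-l)⟫ = ∫ fourier (n j) w fourier (-l) dσ = ∫ fourier (n j - l) w dσ`,
the conjugate of `∫ fourier (-(n j - l)) w dσ = cf (n j - l) = 0` (`w` real). So in the limit
`⟪h, fourier (-l)⟫ = 0`, i.e. `∫ fourier l h dσ = 0` (conjugate) for all `l ≥ 3`.
(d) `⟪W j, 1⟫` is the conjugate of `cf (n j)`, of norm `≥ c`; so `‖⟪h, 1⟫‖ ≥ c`.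
(b) Let `S` be a measurable set with `haar S = 0` and `σ.restrict Sᶜ ≪ haar` (from the Lebesgue decomposition
`σ = σ.singularPart haar + haar.withDensity (σ.rnDeriv haar)`: `S` with `haar S = 0`, `σ.singularPart haar Sᶜ = 0`).
For `f ∈ H` with support in `Sᶜ` (replace `f` by its indicator): `⟪W j, f⟫ = ∫_{Sᶜ} fourier (n j) w f dσ =
∫ fourier (n j) (w f ρ 1_{Sᶜ}) dhaar`, `ρ = (σ.rnDeriv haar).toReal`, the function in brackets is in `L¹(haar)`
(`w f ∈ L¹(σ)`), so it tends to `0` by `rl` because `|n j| → ∞`. So `⟪h, f⟫ = 0` for all such `f`; with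
`f = 1_{Sᶜ} h`: `h = 0` `σ`-a.e. on `Sᶜ`.
(c) Let `σ' = σ.restrict S`, singular to haar. By (a) and (b) `∫ fourier l h dσ' = ∫ fourier l h dσ = 0` for `l ≥ 3`, so
`sing` gives `h = 0` `σ'`-a.e. So `h = 0` in `H`, against (d).
-/

set_option autoImplicit false

namespace Pool.Agent.H50.RL

open MeasureTheory Filter Topology

/-- inner products of classes of functions -/
private theorem inn (σ : Measure Ci) {F G : Ci → ℂ} (hF : MemLp F 2 σ) (hG : MemLp G 2 σ) :
    inner ℂ (hF.toLp F) (hG.toLp G) = ∫ x, (starRingEnd ℂ) (F x) * G x ∂σ := by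
  rw [L2.inner_def]
  refine integral_congr_ae ?_
  filter_upwards [hF.coeFn_toLp, hG.coeFn_toLp] with x h1 h2
  rw [h1, h2, RCLike.inner_apply]
  ring

private theorem four_mem (σ : Measure Ci) [IsFiniteMeasure σ] (k : ℤ) : MemLp (fun x => (fourier k x : ℂ)) 2 σ :=
  MemLp.of_bound (fourier k).continuous.aestronglyMeasurable 1
    (Filter.Eventually.of_forall fun _ => (Circle.norm_coe _).le)

/-- the density of `μ₁ - μ₂` -/
private theorem dens (μ₁ μ₂ : Measure Ci) [IsFiniteMeasure μ₁] [IsFiniteMeasure μ₂] :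
    ∃ w : Ci → ℝ, Measurable w ∧ (∀ᵐ x ∂(μ₁ + μ₂), |w x| ≤ 1) ∧
      ∀ k : ℤ, cf μ₁ μ₂ k = ∫ x, (w x : ℂ) * (fourier (-k) x : ℂ) ∂(μ₁ + μ₂) := by
  obtain ⟨σ, hσ⟩ : ∃ σ, σ = μ₁ + μ₂ := ⟨_, rfl⟩
  have hfin : IsFiniteMeasure σ := by rw [hσ]; infer_instance
  have h1 : μ₁ ≤ σ := by rw [hσ]; exact Measure.le_add_right le_rfl
  have h2 : μ₂ ≤ σ := by rw [hσ]; exact Measure.le_add_left le_rfl
  rw [← hσ]
  have a1 : μ₁ ≪ σ := h1.absolutelyContinuous
  have a2 : μ₂ ≪ σ := h2.absolutelyContinuous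
  have L1 : μ₁.HaveLebesgueDecomposition σ := Measure.haveLebesgueDecomposition_of_sigmaFinite μ₁ σ
  have L2 : μ₂.HaveLebesgueDecomposition σ := Measure.haveLebesgueDecomposition_of_sigmaFinite μ₂ σ
  refine ⟨fun x => (μ₁.rnDeriv σ x).toReal - (μ₂.rnDeriv σ x).toReal,
    (Measure.measurable_rnDeriv _ _).ennreal_toReal.sub (Measure.measurable_rnDeriv _ _).ennreal_toReal, ?_, fun k => ?_⟩
  · filter_upwards [Measure.rnDeriv_le_one_of_le h1, Measure.rnDeriv_le_one_of_le h2] with x b1 b2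
    have c1 : (μ₁.rnDeriv σ x).toReal ≤ 1 := ENNReal.toReal_le_of_le_ofReal zero_le_one (by simpa using b1)
    have c2 : (μ₂.rnDeriv σ x).toReal ≤ 1 := ENNReal.toReal_le_of_le_ofReal zero_le_one (by simpa using b2)
    have d1 : 0 ≤ (μ₁.rnDeriv σ x).toReal := ENNReal.toReal_nonneg
    have d2 : 0 ≤ (μ₂.rnDeriv σ x).toReal := ENNReal.toReal_nonneg
    rw [abs_le]
    constructor <;> linarith
  · unfold cf
    have i1 : Integrable (fun x => (fourier (-k) x : ℂ)) μ₁ :=
      (BoundedContinuousFunction.mkOfCompact (fourier (-k))).integrable μ₁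
    have i2 : Integrable (fun x => (fourier (-k) x : ℂ)) μ₂ :=
      (BoundedContinuousFunction.mkOfCompact (fourier (-k))).integrable μ₂
    rw [← integral_rnDeriv_smul a1, ← integral_rnDeriv_smul a2,
      ← integral_sub ((integrable_rnDeriv_smul_iff a1).2 i1) ((integrable_rnDeriv_smul_iff a2).2 i2)]
    refine integral_congr_ae (Filter.Eventually.of_forall fun x => ?_)
    simp only [Complex.real_smul, Complex.ofReal_sub]
    ring

/-- the singular part lives on a null set -/
private theorem null_set (σ : Measure Ci) [IsFiniteMeasure σ] :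
    ∃ S : Set Ci, MeasurableSet S ∧ (AddCircle.haarAddCircle : Measure Ci) S = 0 ∧
      σ.restrict Sᶜ ≪ (AddCircle.haarAddCircle : Measure Ci) := by
  obtain ⟨s, hs, h1, h2⟩ := Measure.mutuallySingular_singularPart σ (AddCircle.haarAddCircle : Measure Ci)
  refine ⟨sᶜ, hs.compl, h2, ?_⟩
  rw [compl_compl]
  refine Measure.AbsolutelyContinuous.mk fun t ht ht0 => ?_
  rw [Measure.restrict_apply ht]
  rw [σ.haveLebesgueDecomposition_add (AddCircle.haarAddCircle : Measure Ci), Measure.add_apply]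
  have h3 : (σ.singularPart (AddCircle.haarAddCircle : Measure Ci)) (t ∩ s) = 0 :=
    measure_mono_null Set.inter_subset_right h1
  have h4 : ((AddCircle.haarAddCircle : Measure Ci).withDensity
      (σ.rnDeriv (AddCircle.haarAddCircle : Measure Ci))) (t ∩ s) = 0 :=
    withDensity_absolutelyContinuous _ _ (measure_mono_null Set.inter_subset_left ht0)
  rw [h3, h4, add_zero]

theorem no_gap (μ₁ μ₂ : Measure Ci) [IsFiniteMeasure μ₁] [IsFiniteMeasure μ₂] (n : ℕ → ℤ)
    (hn : Tendsto (fun j => |n j|) atTop atTop)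
    (hgap : ∀ j l : ℕ, 3 ≤ l → l ≤ j → cf μ₁ μ₂ (n j - l) = 0) (c : ℝ) (hc : 0 < c)
    (hbig : ∀ j, c ≤ ‖cf μ₁ μ₂ (n j)‖) : False := by
  obtain ⟨w, hwm, hw1, hcf⟩ := dens μ₁ μ₂
  obtain ⟨σ, hσ⟩ : ∃ σ, σ = μ₁ + μ₂ := ⟨_, rfl⟩
  have hfin : IsFiniteMeasure σ := by rw [hσ]; infer_instance
  rw [← hσ] at hw1 hcf
  have hwc : Measurable fun x => (w x : ℂ) := Complex.measurable_ofReal.comp hwm
  -- the sequence of functions
  have hF : ∀ j, MemLp (fun x => (fourier (-(n j)) x : ℂ) * (w x : ℂ)) 2 σ := fun j =>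
    MemLp.of_bound ((fourier (-(n j))).continuous.aestronglyMeasurable.mul hwc.aestronglyMeasurable) 1 (by
      filter_upwards [hw1] with x hx
      rw [norm_mul, Complex.norm_real, Real.norm_eq_abs]
      have : ‖(fourier (-(n j)) x : ℂ)‖ = 1 := Circle.norm_coe _
      rw [this, one_mul]
      exact hx)
  obtain ⟨C, hC⟩ : ∃ C, ∀ j, ‖(hF j).toLp _‖ ≤ C := by
    refine ⟨_, fun j => Lp.norm_le_of_ae_bound zero_le_one ?_⟩
    filter_upwards [(hF j).coeFn_toLp, hw1] with x hx hx1
    rw [hx, norm_mul, Complex.norm_real, Real.norm_eq_abs]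
    have : ‖(fourier (-(n j)) x : ℂ)‖ = 1 := Circle.norm_coe _
    rw [this, one_mul]
    exact hx1
  obtain ⟨h, hh⟩ := wk (fun j => (hF j).toLp _) C hC (hyperfilter ℕ)
  have hle : ((hyperfilter ℕ : Ultrafilter ℕ) : Filter ℕ) ≤ atTop := Nat.hyperfilter_le_atTop
  -- inner products with the exponentials
  have hin : ∀ (j : ℕ) (l : ℤ), inner ℂ ((hF j).toLp _) ((four_mem σ (-l)).toLp _) =
      (starRingEnd ℂ) (cf μ₁ μ₂ (n j - l)) := by
    intro j l
    rw [inn, hcf, ← integral_conj]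
    refine integral_congr_ae (Filter.Eventually.of_forall fun x => ?_)
    simp only [map_mul, Complex.conj_ofReal]
    have e1 : (starRingEnd ℂ) (fourier (-(n j)) x : ℂ) = fourier (n j) x := by
      rw [fourier_neg, Complex.conj_conj]
    have e2 : (starRingEnd ℂ) (fourier (-(n j - l)) x : ℂ) = fourier (n j) x * fourier (-l) x := by
      rw [← fourier_add, fourier_neg, Complex.conj_conj, sub_eq_add_neg]
    rw [e1, e2]
    ring
  -- (a)
  have ha : ∀ l : ℤ, 3 ≤ l → inner ℂ h ((four_mem σ (-l)).toLp _) = 0 := by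
    intro l hl
    refine tendsto_nhds_unique (hh ((four_mem σ (-l)).toLp _)) ?_
    refine tendsto_const_nhds.congr' ?_
    refine hle ?_
    filter_upwards [Filter.eventually_ge_atTop l.toNat] with j hj
    rw [hin]
    have h1 := hgap j l.toNat (by omega) hj
    rw [Int.toNat_of_nonneg (by omega)] at h1
    rw [h1, map_zero]
  -- (d)
  have hd : c ≤ ‖inner ℂ h ((four_mem σ (-0)).toLp _)‖ := by
    refine ge_of_tendsto ((hh ((four_mem σ (-0)).toLp _)).norm) (Filter.Eventually.of_forall fun j => ?_)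
    rw [hin, sub_zero, RCLike.norm_conj]
    exact hbig j
  -- (b)
  obtain ⟨S, hS, hS0, hSa⟩ := null_set σ
  have hnc : Tendsto n (hyperfilter ℕ : Ultrafilter ℕ) cofinite := by
    have h1 : Tendsto n atTop cofinite := by
      rw [Int.cofinite_eq, ← comap_abs_atTop]
      exact tendsto_comap_iff.2 hn
    exact h1.mono_left hle
  have hb : ∀ (f : Ci → ℂ) (hf : MemLp f 2 σ) (hf' : MemLp (Sᶜ.indicator f) 2 σ),
      inner ℂ h (hf'.toLp _) = 0 := by
    intro f hf hf'
    refine tendsto_nhds_unique (hh (hf'.toLp _)) ?_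
    have hwf : Integrable (fun x => (w x : ℂ) * f x) (σ.restrict Sᶜ) := by
      have h1 : Integrable f σ := hf.integrable one_le_two
      refine Integrable.restrict ?_
      refine h1.norm.mono' (hwc.aestronglyMeasurable.mul h1.1) ?_
      filter_upwards [hw1] with x hx
      rw [norm_mul, Complex.norm_real, Real.norm_eq_abs]
      exact mul_le_of_le_one_left (norm_nonneg _) hx
    have h1 := (rl _ ((integrable_rnDeriv_smul_iff hSa).2 hwf)).comp hnc
    refine h1.congr fun j => ?_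
    rw [inn]
    simp only [Function.comp_apply]
    have e1 : ∫ x, (fourier (n j) x : ℂ) * (((σ.restrict Sᶜ).rnDeriv AddCircle.haarAddCircle x).toReal • ((w x : ℂ) * f x))
        ∂AddCircle.haarAddCircle = ∫ x, (fourier (n j) x : ℂ) * ((w x : ℂ) * f x) ∂(σ.restrict Sᶜ) := by
      rw [← integral_rnDeriv_smul hSa]
      refine integral_congr_ae (Filter.Eventually.of_forall fun x => ?_)
      simp only [Complex.real_smul]
      ring
    rw [e1, ← integral_indicator hS.compl]
    refine integral_congr_ae (Filter.Eventually.of_forall fun x => ?_)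
    simp only [map_mul, Complex.conj_ofReal]
    have e2 : (starRingEnd ℂ) (fourier (-(n j)) x : ℂ) = fourier (n j) x := by
      rw [fourier_neg, Complex.conj_conj]
    rw [e2]
    by_cases hx : x ∈ Sᶜ
    · rw [Set.indicator_of_mem hx, Set.indicator_of_mem hx]
      ring
    · rw [Set.indicator_of_notMem hx, Set.indicator_of_notMem hx, mul_zero]
  have hhm : MemLp h 2 σ := Lp.memLp h
  have hhL : hhm.toLp _ = h := Lp.toLp_coeFn h hhm
  -- `h = 0` outside of `S`
  have hz1 : ∀ᵐ x ∂(σ.restrict Sᶜ), h x = 0 := by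
    have h1 := hb h hhm (hhm.indicator hS.compl)
    nth_rewrite 1 [← hhL] at h1
    rw [inn] at h1
    have e1 : ∫ x, (starRingEnd ℂ) (h x) * Sᶜ.indicator h x ∂σ = ((∫ x in Sᶜ, ‖h x‖ ^ 2 ∂σ : ℝ) : ℂ) := by
      rw [← integral_complex_ofReal, ← integral_indicator hS.compl]
      refine integral_congr_ae (Filter.Eventually.of_forall fun x => ?_)
      by_cases hx : x ∈ Sᶜ
      · simp only [Set.indicator_of_mem hx]
        rw [mul_comm, Complex.mul_conj, Complex.normSq_eq_norm_sq]
      · simp only [Set.indicator_of_notMem hx, mul_zero]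
    rw [e1] at h1
    have h2 : ∫ x in Sᶜ, ‖h x‖ ^ 2 ∂σ = 0 := by exact_mod_cast h1
    rw [integral_eq_zero_iff_of_nonneg (fun x => by positivity)
      ((memLp_two_iff_integrable_sq_norm hhm.1).1 hhm).integrableOn] at h2
    filter_upwards [h2] with x hx
    simpa using hx
  -- `h = 0` on `S`
  have hz2 : ∀ᵐ x ∂(σ.restrict S), h x = 0 := by
    have hsg : (σ.restrict S).MutuallySingular (AddCircle.haarAddCircle : Measure Ci) :=
      ⟨Sᶜ, hS.compl, by rw [Measure.restrict_apply hS.compl, Set.compl_inter_self, measure_empty],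
        by rwa [compl_compl]⟩
    refine sing (σ.restrict S) hsg h (hhm.restrict S) 3 fun k hk => ?_
    have h1 := ha k hk
    rw [← hhL, inn] at h1
    have h2 : ∫ x, (fourier k x : ℂ) * h x ∂σ = 0 := by
      have h3 := congrArg (starRingEnd ℂ) h1
      rw [map_zero, ← integral_conj] at h3
      rw [← h3]
      refine integral_congr_ae (Filter.Eventually.of_forall fun x => ?_)
      simp only [map_mul, Complex.conj_conj]
      have e2 : (starRingEnd ℂ) (fourier (-k) x : ℂ) = fourier k x := by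
        rw [fourier_neg, Complex.conj_conj]
      rw [e2]
      ring
    have hi : Integrable (fun x => (fourier k x : ℂ) * h x) σ := by
      have h1 : Integrable h σ := hhm.integrable one_le_two
      refine h1.norm.mono' ((fourier k).continuous.aestronglyMeasurable.mul h1.1)
        (Filter.Eventually.of_forall fun x => ?_)
      rw [norm_mul]
      have : ‖(fourier k x : ℂ)‖ = 1 := Circle.norm_coe _
      rw [this, one_mul]
    have h3 := integral_add_compl hS hi
    have h4 : ∫ x in Sᶜ, (fourier k x : ℂ) * h x ∂σ = 0 := by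
      refine integral_eq_zero_of_ae ?_
      filter_upwards [hz1] with x hx
      rw [hx, mul_zero]
      rfl
    rw [h4, add_zero, h2] at h3
    exact h3
  -- the end
  have hz : h = 0 := by
    refine Lp.ext ?_
    have h1 : ∀ᵐ x ∂σ, h x = 0 := by
      have h2 : ∀ᵐ x ∂(σ.restrict S + σ.restrict Sᶜ), h x = 0 := ae_add_measure_iff.2 ⟨hz2, hz1⟩
      have h3 := Measure.restrict_add_restrict_compl (μ := σ) hS
      have h4 : σ ≪ σ.restrict S + σ.restrict Sᶜ := by
        rw [h3]
      exact h4.ae_le h2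
    filter_upwards [h1, Lp.coeFn_zero ℂ 2 σ] with x hx hx0
    rw [hx, hx0]
    rfl
  rw [hz, inner_zero_left, norm_zero] at hd
  exact absurd hd (not_le.2 hc)

end Pool.Agent.H50.RL
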