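import Mathlib

/-!
[H50 RL PF1] Dividing out the zeros in a disc.

PROOF. `f 0 ≠ 0` and `f` is entire, so it is not identically zero and every zero is isolated, of finite order
(`AnalyticOnNhd.eqOn_zero_of_preconnected_of_frequently_eq_zero`, `analyticOrderAt_ne_top`...); the zeros in the compact
ball are finitely many. `Z` is the set of them (`Z = ∅` if `R < 0`); none is `0`. Induction over a finite set of zeros:
if `g` is entire and `g ρ = 0` with `analyticOrderNatAt g ρ = n` then `g z = (1 - z/ρ)^n g₁ z` with `g₁` entire and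
`g₁ ρ ≠ 0` (iterate `dslope g ρ`, which is entire by `Complex.differentiableOn_dslope`, `n` times; or use
`AnalyticAt.analyticOrderAt_eq_natCast` / the order and removable singularities), and
`analyticOrderAt g₁ w = analyticOrderAt g w` for `w ≠ ρ` (`analyticOrderAt_mul`, the factor is nonzero near `w`).
(Alternatively: Mathlib `MeromorphicOn.extract_zeros_poles`, `Mathlib/Analysis/Complex/CanonicalDecomposition.lean`.)
Compare `Pool/Agent/H2/Gap/Divide.lean` (`exists_divide`, simple zeros).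
-/

set_option autoImplicit false

namespace Pool.Agent.H50.RL

open MeasureTheory Filter Topology

private theorem pf_order_ne_top {f : ℂ → ℂ} (hf : Differentiable ℂ f) (h0 : ∃ w, f w ≠ 0) (ρ : ℂ) :
    analyticOrderAt f ρ ≠ ⊤ := by
  intro h
  rw [analyticOrderAt_eq_top] at h
  have h1 : AnalyticOnNhd ℂ f Set.univ := fun z _ => hf.analyticAt z
  have h2 := h1.eqOn_zero_of_preconnected_of_frequently_eq_zero isPreconnected_univ (Set.mem_univ ρ)
    (h.filter_mono nhdsWithin_le_nhds).frequently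
  obtain ⟨w, hw⟩ := h0
  exact hw (h2 (Set.mem_univ w))

private theorem pf_one {f : ℂ → ℂ} (hf : Differentiable ℂ f) (h0 : ∃ w, f w ≠ 0) {ρ : ℂ} (hρ : ρ ≠ 0) :
    ∃ g : ℂ → ℂ, Differentiable ℂ g ∧ g ρ ≠ 0 ∧
      (∀ z, f z = (1 - z / ρ) ^ analyticOrderNatAt f ρ * g z) ∧
      ∀ w, w ≠ ρ → analyticOrderNatAt g w = analyticOrderNatAt f w := by
  obtain ⟨g', hg', hg0, hgf⟩ := (hf.analyticAt ρ).analyticOrderAt_ne_top.1 (pf_order_ne_top hf h0 ρ)
  set n := analyticOrderNatAt f ρ with hn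
  have hfac : ∀ z : ℂ, z ≠ ρ → 1 - z / ρ ≠ 0 := by
    intro z hz h
    apply hz
    have h1 : z / ρ = 1 := (sub_eq_zero.1 h).symm
    rwa [div_eq_one_iff_eq hρ] at h1
  have hzρ : ∀ z : ℂ, (z - ρ) ^ n = (1 - z / ρ) ^ n * (-ρ) ^ n := by
    intro z
    rw [← mul_pow]
    congr 1
    field_simp
    ring
  set g : ℂ → ℂ := fun z => if z = ρ then (-ρ) ^ n * g' ρ else f z / (1 - z / ρ) ^ n with hg
  have hev : g =ᶠ[𝓝 ρ] fun z => (-ρ) ^ n * g' z := by
    filter_upwards [hgf] with z hz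
    by_cases hzr : z = ρ
    · simp only [hg]
      rw [if_pos hzr, hzr]
    · simp only [hg]
      rw [if_neg hzr, hz, smul_eq_mul, hzρ z]
      have := pow_ne_zero n (hfac z hzr)
      field_simp
  have hgd : Differentiable ℂ g := by
    intro z
    by_cases hzr : z = ρ
    · rw [hzr]
      exact ((differentiableAt_const _).mul hg'.differentiableAt).congr_of_eventuallyEq hev
    · have h1 : g =ᶠ[𝓝 z] fun z => f z / (1 - z / ρ) ^ n := by
        filter_upwards [isOpen_ne.mem_nhds hzr] with w hw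
        simp only [hg]
        rw [if_neg hw]
      refine DifferentiableAt.congr_of_eventuallyEq ?_ h1
      exact (hf z).div (((differentiableAt_const _).sub (differentiableAt_id.div_const _)).pow n)
        (pow_ne_zero n (hfac z hzr))
  have hgρ : g ρ ≠ 0 := by
    simp only [hg, if_true]
    exact mul_ne_zero (pow_ne_zero _ (neg_ne_zero.2 hρ)) hg0
  have hmul : ∀ z, f z = (1 - z / ρ) ^ n * g z := by
    intro z
    by_cases hzr : z = ρ
    · have h1 := hgf.eq_of_nhds
      rw [hzr, h1, smul_eq_mul, hzρ ρ]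
      simp only [hg, if_true]
      ring
    · simp only [hg]
      rw [if_neg hzr]
      have := pow_ne_zero n (hfac z hzr)
      field_simp
  refine ⟨g, hgd, hgρ, hmul, fun w hw => ?_⟩
  have hpd : Differentiable ℂ (fun z : ℂ => (1 - z / ρ) ^ n) :=
    ((differentiable_const _).sub (differentiable_id.div_const _)).pow n
  have h1 : f = (fun z : ℂ => (1 - z / ρ) ^ n) * g := funext hmul
  have h2 : analyticOrderAt f w = analyticOrderAt g w := by
    conv_lhs => rw [h1]
    rw [analyticOrderAt_mul (hpd.analyticAt w) (hgd.analyticAt w),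
      (hpd.analyticAt w).analyticOrderAt_eq_zero.2 (pow_ne_zero n (hfac w hw)), zero_add]
  unfold analyticOrderNatAt
  rw [h2]

private theorem pf_fin {f : ℂ → ℂ} (hf : Differentiable ℂ f) (h0 : ∃ w, f w ≠ 0) (Z : Finset ℂ) :
    (∀ ρ ∈ Z, ρ ≠ 0) → ∃ h : ℂ → ℂ, Differentiable ℂ h ∧ (∀ ρ ∈ Z, h ρ ≠ 0) ∧
      (∀ z, f z = (∏ ρ ∈ Z, (1 - z / ρ) ^ analyticOrderNatAt f ρ) * h z) ∧
      ∀ w, w ∉ Z → analyticOrderNatAt h w = analyticOrderNatAt f w := by
  classical
  induction Z using Finset.induction_on with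
  | empty => exact fun _ => ⟨f, hf, by simp, by simp, fun w _ => rfl⟩
  | insert a Z ha ih =>
    intro hZ
    obtain ⟨h, hd, hne, hm, ho⟩ := ih (fun ρ hρ => hZ ρ (Finset.mem_insert_of_mem hρ))
    have h0' : ∃ w, h w ≠ 0 := by
      obtain ⟨w, hw⟩ := h0
      refine ⟨w, fun h1 => hw ?_⟩
      rw [hm w, h1, mul_zero]
    obtain ⟨g, hgd, hgne, hgm, hgo⟩ := pf_one hd h0' (hZ a (Finset.mem_insert_self _ _))
    refine ⟨g, hgd, ?_, ?_, ?_⟩
    · intro ρ hρ
      rcases Finset.mem_insert.1 hρ with rfl | hρ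
      · exact hgne
      · intro h1
        apply hne ρ hρ
        rw [hgm ρ, h1, mul_zero]
    · intro z
      rw [Finset.prod_insert ha, ← ho a ha, mul_assoc, mul_left_comm, ← hgm z]
      exact hm z
    · intro w hw
      rw [Finset.mem_insert, not_or] at hw
      rw [hgo w hw.1, ho w hw.2]

theorem pf_factor (f : ℂ → ℂ) (hf : Differentiable ℂ f) (h0 : f 0 ≠ 0) (R : ℝ) :
    ∃ (Z : Finset ℂ) (h : ℂ → ℂ), (∀ z, z ∈ Z ↔ f z = 0 ∧ ‖z‖ ≤ R) ∧ Differentiable ℂ h ∧
      (∀ z, ‖z‖ ≤ R → h z ≠ 0) ∧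
      ∀ z, f z = (∏ ρ ∈ Z, (1 - z / ρ) ^ analyticOrderNatAt f ρ) * h z := by
  have hfin : {z : ℂ | f z = 0 ∧ ‖z‖ ≤ R}.Finite := by
    by_contra hinf
    have hinf : {z : ℂ | f z = 0 ∧ ‖z‖ ≤ R}.Infinite := hinf
    obtain ⟨x, -, hx⟩ := hinf.exists_accPt_of_subset_isCompact (isCompact_closedBall (0 : ℂ) R)
      (fun z hz => by simpa using hz.2)
    have h1 : AnalyticOnNhd ℂ f Set.univ := fun z _ => hf.analyticAt z
    have h2 : ∃ᶠ z in 𝓝[≠] x, f z = 0 := by
      rw [accPt_iff_frequently_nhdsNE] at hx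
      exact hx.mono fun z hz => hz.1
    exact h0 (h1.eqOn_zero_of_preconnected_of_frequently_eq_zero isPreconnected_univ
      (Set.mem_univ x) h2 (Set.mem_univ 0))
  obtain ⟨h, hd, hne, hm, -⟩ := pf_fin hf ⟨0, h0⟩ hfin.toFinset (by
    intro ρ hρ h1
    rw [Set.Finite.mem_toFinset] at hρ
    rw [h1] at hρ
    exact h0 hρ.1)
  refine ⟨hfin.toFinset, h, fun z => by rw [Set.Finite.mem_toFinset]; rfl, hd, ?_, hm⟩
  intro z hz h1
  have h2 : f z = 0 := by rw [hm z, h1, mul_zero]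
  exact hne z ((Set.Finite.mem_toFinset _).2 ⟨h2, hz⟩) h1

end Pool.Agent.H50.RL
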