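import Pool.Agent.H50.RL.Zf
import Pool.Agent.H50.RL.Pf1
import Pool.Agent.H2.Gap.ZUp

/-!
[H50 RL CL1] Zeros in a window of height 2: at most `C log T` with multiplicity.

PROOF. Put `c = 2 + iT`, `T ≥ 4`. On the closed ball of radius `19/10` about `c`: `1/10 ≤ Re s ≤ 39/10`, `Im s ≥ 21/10`, so
`zeta_upper` (`Pool/Agent/H2/Gap/ZUp.lean`): `‖ζ(s)‖ ≤ C1 Im s ≤ C1 (T + 2)`; and `‖ζ(c)‖ ≥ 1 - Σ_{n≥2} n^(-2) ≥ 1/4`
(`ζ(2) < 7/4`, e.g. `Real.pi_lt_d2` and `riemannZeta_two`; or `‖ζ(c)‖ ≥ c0` by the Euler product; `1/ζ(c) = Σ μ(n) n^(-c)` has norm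
at most `ζ(2)`). The zeros in question are at distance at most `√(3/2)^2 + 1^2 ≤ 1.81 < 19/10` from `c` (`Re ρ < 1`, `zz_re_lt`; `1/2 ≤ Re ρ`).
Jensen: for `f` analytic on a neighbourhood of the closed ball of radius `R = 19/10` with `f c ≠ 0`:
`Σ_ρ m_ρ log(R/‖ρ-c‖) ≤ log max|f| - log|f c|` (sum over finitely many zeros in the ball, with multiplicity `m_ρ`). Either from Mathlib's
`JensenFormula` (`MeromorphicOn.circleAverage_log_norm`), or directly: divide out the zeros in question (`Z`, finite)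
by Blaschke factors: `f s = ∏ (R (s-ρ)/(R^2 - conj(ρ-c)(s-c)))^{m_ρ} g s` with `g` analytic on the ball (divide as in
`Pool/Agent/H50/RL/Pf1.lean`, locally); on the circle the factors have norm `1`, so `‖g c‖ ≤ max|f|` by the maximum
principle, and `‖f c‖ = ∏ (‖ρ-c‖/R)^{m_ρ} ‖g c‖`. Since `log(R/‖ρ-c‖) ≥ log(1.9/1.81) ≥ 1/30`: `Σ m_ρ ≤ 30 (log(C1 (T+2)) + log 4) ≤ C log T`.
-/

set_option autoImplicit false

namespace Pool.Agent.H50.RL

open MeasureTheory Filter Topology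

/-- Jensen's inequality in the form of a product. -/
private theorem jen_prod {f : ℂ → ℂ} (hf : Differentiable ℂ f) (h0 : f 0 ≠ 0) {R R1 M : ℝ} (hR1 : 0 < R1)
    (hRR : R1 < R) (hM : ∀ z : ℂ, ‖z‖ = R → ‖f z‖ ≤ M) (S : Finset ℂ)
    (hS : ∀ ρ ∈ S, f ρ = 0 ∧ ‖ρ‖ ≤ R1) :
    (R / R1) ^ (∑ ρ ∈ S, analyticOrderNatAt f ρ) * ‖f 0‖ ≤ M := by
  classical
  have hR : 0 < R := hR1.trans hRR
  obtain ⟨Z, h, hZ, hd, -, hfac⟩ := pf_factor f hf h0 R
  have hne : ∀ ρ ∈ Z, ρ ≠ 0 := by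
    intro ρ hρ h1
    rw [h1] at hρ
    exact h0 ((hZ 0).1 hρ).1
  have hf0 : f 0 = h 0 := by
    rw [hfac 0]
    have h1 : ∏ ρ ∈ Z, (1 - (0 : ℂ) / ρ) ^ analyticOrderNatAt f ρ = 1 := by
      refine Finset.prod_eq_one fun ρ _ => ?_
      rw [zero_div, sub_zero, one_pow]
    rw [h1, one_mul]
  obtain ⟨G, hG⟩ : ∃ G : ℂ → ℂ, G = fun z =>
      (∏ ρ ∈ Z, (((R : ℂ) ^ 2 - (starRingEnd ℂ) ρ * z) / (R * ρ)) ^ analyticOrderNatAt f ρ) * h z := ⟨_, rfl⟩
  have hGd : Differentiable ℂ G := by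
    rw [hG]
    refine Differentiable.mul ?_ hd
    refine Differentiable.fun_finsetProd fun ρ _ => ?_
    exact (((differentiable_const _).sub ((differentiable_const _).mul differentiable_id)).div_const _).pow _
  have hcirc : ∀ z : ℂ, ‖z‖ = R → ‖G z‖ = ‖f z‖ := by
    intro z hz
    rw [hG, hfac z]
    simp only []
    rw [norm_mul, norm_mul, norm_prod, norm_prod]
    congr 1
    refine Finset.prod_congr rfl fun ρ hρ => ?_
    rw [norm_pow, norm_pow]
    congr 1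
    have hρ0 : ρ ≠ 0 := hne ρ hρ
    have hzz : (R : ℂ) ^ 2 = (starRingEnd ℂ) z * z := by
      rw [Complex.conj_mul', hz]
    have h1 : (R : ℂ) ^ 2 - (starRingEnd ℂ) ρ * z = (starRingEnd ℂ) (z - ρ) * z := by
      rw [hzz, map_sub]
      ring
    have h2 : 1 - z / ρ = -((z - ρ) / ρ) := by
      field_simp
      ring
    have hρn : ‖ρ‖ ≠ 0 := norm_ne_zero_iff.2 hρ0
    rw [h1, h2, norm_neg, norm_div, norm_div, norm_mul, norm_mul, Complex.norm_conj, hz, Complex.norm_real,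
      Real.norm_eq_abs, abs_of_pos hR]
    field_simp
  have hmax : ‖G 0‖ ≤ M := by
    have h1 : DiffContOnCl ℂ G (Metric.ball 0 R) := hGd.diffContOnCl
    refine Complex.norm_le_of_forall_mem_frontier_norm_le Metric.isBounded_ball h1 ?_
      (subset_closure (Metric.mem_ball_self hR))
    intro z hz
    rw [frontier_ball (0 : ℂ) hR.ne', mem_sphere_zero_iff_norm] at hz
    rw [hcirc z hz]
    exact hM z hz
  have hG0 : ‖G 0‖ = (∏ ρ ∈ Z, (R / ‖ρ‖) ^ analyticOrderNatAt f ρ) * ‖f 0‖ := by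
    rw [hG, hf0]
    simp only []
    rw [norm_mul, norm_prod]
    congr 1
    refine Finset.prod_congr rfl fun ρ hρ => ?_
    rw [norm_pow]
    congr 1
    have hρn : ‖ρ‖ ≠ 0 := norm_ne_zero_iff.2 (hne ρ hρ)
    rw [mul_zero, sub_zero, norm_div, norm_mul, norm_pow, Complex.norm_real, Real.norm_eq_abs, abs_of_pos hR]
    field_simp
  rw [hG0] at hmax
  refine le_trans ?_ hmax
  refine mul_le_mul_of_nonneg_right ?_ (norm_nonneg _)
  rw [← Finset.prod_pow_eq_pow_sum]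
  have hSZ : Z ∩ S = S := by
    refine Finset.inter_eq_right.2 fun ρ hρ => ?_
    exact (hZ ρ).2 ⟨(hS ρ hρ).1, (hS ρ hρ).2.trans hRR.le⟩
  have h1 : ∏ ρ ∈ S, (R / R1) ^ analyticOrderNatAt f ρ =
      ∏ ρ ∈ Z, (if ρ ∈ S then (R / R1) ^ analyticOrderNatAt f ρ else 1) := by
    rw [Finset.prod_ite_mem, hSZ]
  rw [h1]
  refine Finset.prod_le_prod ?_ ?_
  · intro ρ _
    split_ifs
    · positivity
    · exact zero_le_one
  · intro ρ hρ
    have hρn : 0 < ‖ρ‖ := norm_pos_iff.2 (hne ρ hρ)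
    split_ifs with hρS
    · refine pow_le_pow_left₀ (by positivity) ?_ _
      exact div_le_div_of_nonneg_left hR.le hρn (hS ρ hρS).2
    · refine one_le_pow₀ ?_
      rw [one_le_div hρn]
      exact ((hZ ρ).1 hρ).2

open Complex in
private theorem cl_two (t : ℝ) : 1 / 4 ≤ ‖riemannZeta (2 + I * t)‖ := by
  have hre : (2 + I * (t : ℂ)).re = 2 := by simp
  have h1 : 1 < (2 + I * (t : ℂ)).re := by
    rw [hre]
    norm_num
  rw [zeta_eq_tsum_one_div_nat_add_one_cpow h1]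
  have hnorm : ∀ n : ℕ, ‖1 / ((n : ℂ) + 1) ^ (2 + I * (t : ℂ))‖ = 1 / ((n : ℝ) + 1) ^ 2 := by
    intro n
    have h2 : ((n : ℂ) + 1) = (((n : ℝ) + 1 : ℝ) : ℂ) := by push_cast; rfl
    rw [norm_div, norm_one, h2, norm_cpow_eq_rpow_re_of_pos (by positivity), hre]
    norm_num
  have hs2 : Summable (fun n : ℕ => 1 / ((n : ℝ) + 1) ^ 2) := by
    have h3 := (summable_nat_add_iff 1).mpr hasSum_zeta_two.summable
    simpa using h3
  have hs : Summable (fun n : ℕ => 1 / ((n : ℂ) + 1) ^ (2 + I * (t : ℂ))) := by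
    refine Summable.of_norm ?_
    simp only [hnorm]
    exact hs2
  rw [hs.tsum_eq_zero_add]
  have h0 : 1 / (((0 : ℕ) : ℂ) + 1) ^ (2 + I * (t : ℂ)) = 1 := by simp
  rw [h0]
  have htail : ‖∑' n : ℕ, 1 / (((n + 1 : ℕ) : ℂ) + 1) ^ (2 + I * (t : ℂ))‖ ≤ 3 / 4 := by
    have hs3 : Summable (fun n : ℕ => ‖1 / (((n + 1 : ℕ) : ℂ) + 1) ^ (2 + I * (t : ℂ))‖) := by
      simp only [hnorm]
      exact (summable_nat_add_iff 1).mpr hs2
    refine (norm_tsum_le_tsum_norm hs3).trans ?_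
    simp only [hnorm]
    have h4 : ∑' n : ℕ, 1 / ((n : ℝ) + 1) ^ 2 = Real.pi ^ 2 / 6 := by
      have h5 := hasSum_zeta_two.summable.tsum_eq_zero_add
      rw [hasSum_zeta_two.tsum_eq] at h5
      rw [h5]
      simp
    have h6 := hs2.tsum_eq_zero_add
    rw [h4] at h6
    have h7 : (1 : ℝ) / (((0 : ℕ) : ℝ) + 1) ^ 2 = 1 := by norm_num
    rw [h7] at h6
    have h8 : Real.pi ^ 2 ≤ 9.9225 := by
      have := Real.pi_lt_d2
      have := Real.pi_pos
      nlinarith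
    linarith
  have h9 : ‖(1 : ℂ)‖ - ‖∑' n : ℕ, 1 / (((n + 1 : ℕ) : ℂ) + 1) ^ (2 + I * (t : ℂ))‖ ≤
      ‖1 + ∑' n : ℕ, 1 / (((n + 1 : ℕ) : ℂ) + 1) ^ (2 + I * (t : ℂ))‖ := norm_sub_le_norm_add _ _
  rw [norm_one] at h9
  linarith

private theorem ff_eq {s : ℂ} (hs : s ≠ 1) : FF s = (s - 1) * riemannZeta s := by
  unfold FF
  rw [Function.update_of_ne hs]

private theorem ff_ord (c : ℂ) (ρ : ZZ) :
    analyticOrderNatAt (fun z => FF (c + z)) ((ρ : ℂ) - c) = analyticOrderNatAt riemannZeta (ρ : ℂ) := by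
  rw [← FF_order ρ ρ.2]
  unfold analyticOrderNatAt
  have hg : AnalyticAt ℂ (fun z : ℂ => c + z) ((ρ : ℂ) - c) := by fun_prop
  have hd : deriv (fun z : ℂ => c + z) ((ρ : ℂ) - c) ≠ 0 := by
    have h1 : HasDerivAt (fun z : ℂ => c + z) 1 ((ρ : ℂ) - c) := (hasDerivAt_id _).const_add c
    rw [h1.deriv]
    exact one_ne_zero
  have h1 := analyticOrderAt_comp_of_deriv_ne_zero (f := FF) hg hd
  rw [add_sub_cancel] at h1
  rw [← h1]
  rfl

theorem local_count : ∃ C : ℝ, 0 < C ∧ ∀ T : ℝ, 4 ≤ T → ∀ Z : Finset ZZ,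
    (∀ ρ ∈ Z, 1 / 2 ≤ (ρ : ℂ).re ∧ |(ρ : ℂ).im - T| ≤ 1) → ∑ ρ ∈ Z, mz ρ ≤ C * Real.log T := by
  classical
  obtain ⟨C1, hC1, hup⟩ := H2.Gap.zeta_upper
  have hq : 0 < Real.log ((19 / 10) / (181 / 100)) := Real.log_pos (by norm_num)
  refine ⟨(|Real.log (9 * C1)| + 2) / Real.log ((19 / 10) / (181 / 100)), by positivity, ?_⟩
  intro T hT Z hZ
  obtain ⟨c, hc⟩ : ∃ c : ℂ, c = 2 + Complex.I * T := ⟨_, rfl⟩
  have hcre : c.re = 2 := by rw [hc]; simp
  have hcim : c.im = T := by rw [hc]; simp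
  have hF : Differentiable ℂ (fun z => FF (c + z)) := FF_diff.comp ((differentiable_const _).add differentiable_id)
  have hc1 : c ≠ 1 := by
    intro h
    rw [h] at hcre
    norm_num at hcre
  have hlow : 1 ≤ ‖FF (c + 0)‖ := by
    rw [add_zero, ff_eq hc1, norm_mul]
    have h1 : 4 ≤ ‖c - 1‖ := by
      have h2 := Complex.abs_im_le_norm (c - 1)
      rw [Complex.sub_im, Complex.one_im, sub_zero, hcim, abs_of_pos (by linarith)] at h2
      linarith
    have h3 : 1 / 4 ≤ ‖riemannZeta c‖ := by rw [hc]; exact cl_two T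
    nlinarith [norm_nonneg (c - 1), norm_nonneg (riemannZeta c)]
  have hM : ∀ z : ℂ, ‖z‖ = 19 / 10 → ‖FF (c + z)‖ ≤ 9 * C1 * T ^ 2 := by
    intro z hz
    have hre := Complex.abs_re_le_norm z
    have him := Complex.abs_im_le_norm z
    rw [hz, abs_le] at hre him
    have hsre : (c + z).re = 2 + z.re := by rw [Complex.add_re, hcre]
    have hsim : (c + z).im = T + z.im := by rw [Complex.add_im, hcim]
    have hs1 : c + z ≠ 1 := by
      intro h
      rw [h, Complex.one_im] at hsim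
      linarith [him.1]
    rw [ff_eq hs1, norm_mul]
    have h1 := hup (c + z) (by rw [hsre]; linarith [hre.1]) (by rw [hsre]; linarith [hre.2])
      (by rw [hsim]; linarith [him.1])
    have h2 : ‖c + z - 1‖ ≤ 3 * T := by
      have h3 : ‖c + z - 1‖ ≤ |(c + z - 1).re| + |(c + z - 1).im| := Complex.norm_le_abs_re_add_abs_im _
      rw [Complex.sub_re, Complex.sub_im, Complex.one_re, Complex.one_im, hsre, hsim, sub_zero] at h3
      have h4 : |2 + z.re - 1| ≤ 3 := by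
        rw [abs_le]
        constructor <;> linarith [hre.1, hre.2]
      have h5 : |T + z.im| ≤ T + 2 := by
        rw [abs_le]
        constructor <;> linarith [him.1, him.2]
      linarith
    have h6 : C1 * (c + z).im ≤ C1 * (3 * T) := by
      refine mul_le_mul_of_nonneg_left ?_ hC1.le
      rw [hsim]
      linarith [him.2]
    calc ‖c + z - 1‖ * ‖riemannZeta (c + z)‖ ≤ (3 * T) * (C1 * (3 * T)) :=
          mul_le_mul h2 (h1.trans h6) (norm_nonneg _) (by linarith)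
      _ = 9 * C1 * T ^ 2 := by ring
  obtain ⟨S, hS⟩ : ∃ S : Finset ℂ, S = Z.image (fun ρ : ZZ => (ρ : ℂ) - c) := ⟨_, rfl⟩
  have hinj : Set.InjOn (fun ρ : ZZ => (ρ : ℂ) - c) Z := by
    intro a _ b _ hab
    exact Subtype.ext (sub_left_injective hab)
  have hS1 : ∀ w ∈ S, FF (c + w) = 0 ∧ ‖w‖ ≤ 181 / 100 := by
    intro w hw
    rw [hS, Finset.mem_image] at hw
    obtain ⟨ρ, hρ, rfl⟩ := hw
    refine ⟨?_, ?_⟩
    · rw [add_sub_cancel, FF_zero_iff]
      exact ρ.2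
    · obtain ⟨h1, h2⟩ := hZ ρ hρ
      have h3 := zz_re_lt ρ
      rw [abs_le] at h2
      have h4 : ‖(ρ : ℂ) - c‖ ^ 2 ≤ (181 / 100) ^ 2 := by
        rw [← Complex.normSq_eq_norm_sq, Complex.normSq_apply, Complex.sub_re, Complex.sub_im, hcre, hcim]
        have h5 : ((ρ : ℂ).re - 2) * ((ρ : ℂ).re - 2) ≤ 9 / 4 := by nlinarith
        have h6 : ((ρ : ℂ).im - T) * ((ρ : ℂ).im - T) ≤ 1 := by nlinarith
        linarith
      exact (pow_le_pow_iff_left₀ (norm_nonneg _) (by norm_num) two_ne_zero).1 h4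
  have hJ := jen_prod hF (by
    intro h
    rw [h, norm_zero] at hlow
    linarith) (R := 19 / 10) (R1 := 181 / 100) (by norm_num) (by norm_num) hM S hS1
  have hsum : ∑ ρ ∈ Z, mz ρ = ((∑ w ∈ S, analyticOrderNatAt (fun z => FF (c + z)) w : ℕ) : ℝ) := by
    rw [hS, Finset.sum_image hinj, Nat.cast_sum]
    refine Finset.sum_congr rfl fun ρ _ => ?_
    rw [ff_ord]
    rfl
  rw [hsum]
  obtain ⟨N, hN⟩ : ∃ N, N = ∑ w ∈ S, analyticOrderNatAt (fun z => FF (c + z)) w := ⟨_, rfl⟩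
  rw [← hN] at hJ ⊢
  have hJ2 : ((19 / 10) / (181 / 100) : ℝ) ^ N ≤ 9 * C1 * T ^ 2 := by
    refine le_trans ?_ hJ
    exact le_mul_of_one_le_right (by positivity) hlow
  have hJ3 := Real.log_le_log (by positivity) hJ2
  rw [Real.log_pow, Real.log_mul (by positivity) (by positivity), Real.log_pow] at hJ3
  have hlT : 1 ≤ Real.log T := by
    rw [Real.le_log_iff_exp_le (by linarith)]
    linarith [Real.exp_one_lt_d9]
  rw [div_mul_eq_mul_div, le_div_iff₀ hq]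
  refine hJ3.trans ?_
  have h7 : Real.log (9 * C1) ≤ |Real.log (9 * C1)| * Real.log T :=
    (le_abs_self _).trans (le_mul_of_one_le_right (abs_nonneg _) hlT)
  push_cast
  linarith

end Pool.Agent.H50.RL
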