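import Mathlib

/-!
# RIGHTMOST LINE (MP_1650a8_nt), part D: definitions

`SC F a b k`: the function `F` has (at least) `k` sign changes on `[a,b]`.
`LineData`: almost periodic data on the line `Re s = Θ`: ordinates `γ i`, multiplicities `m i ≥ 1`, and the real
function `r u = - Σ m_i/ρ_i exp(i γ_i u)`, `ρ_i = Θ + i γ_i`, the sum being absolutely convergent.
`D.d η u = r u - exp(-Θ η) r (u - η)`: the limit of `exp(-Θ y) (f y - f (y - η))`, `f y = psi(exp y) - exp y`.
`phi u = sinc(u/2)^2`, whose Fourier transform is supported in `[-1,1]`.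
-/

set_option autoImplicit false

namespace Pool.Agent.H50.RL

open MeasureTheory Filter Topology

/-- `F` has `k` sign changes on `[a,b]` -/
def SC (F : ℝ → ℝ) (a b : ℝ) (k : ℕ) : Prop :=
  ∃ x : Fin (k + 1) → ℝ, StrictMono x ∧ (∀ i, a ≤ x i ∧ x i ≤ b) ∧
    ∀ i : Fin k, F (x i.castSucc) * F (x i.succ) < 0

/-- almost periodic data on the line `Re s = Θ` -/
structure LineData where
  /-- index type of the zeros on the line -/
  ι : Type
  /-- the real part -/
  Θ : ℝ
  /-- the ordinates -/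
  γ : ι → ℝ
  /-- the multiplicities -/
  m : ι → ℝ
  Θpos : 0 < Θ
  one_le : ∀ i, 1 ≤ m i
  inj : Function.Injective γ
  /-- the almost periodic function -/
  r : ℝ → ℝ
  summ : Summable fun i => m i / ‖(Θ : ℂ) + (γ i : ℂ) * Complex.I‖
  hr : ∀ u : ℝ, ((r u : ℝ) : ℂ) =
    -∑' i, ((m i : ℂ) / ((Θ : ℂ) + (γ i : ℂ) * Complex.I)) * Complex.exp (((γ i * u : ℝ) : ℂ) * Complex.I)

/-- the limit of `exp(-Θ y) (f y - f (y - η))` -/
noncomputable def LineData.d (D : LineData) (η u : ℝ) : ℝ :=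
  D.r u - Real.exp (-(D.Θ * η)) * D.r (u - η)

/-- the sum of the absolute values of the coefficients of `r` -/
noncomputable def LineData.S (D : LineData) : ℝ :=
  ∑' i, D.m i / ‖(D.Θ : ℂ) + (D.γ i : ℂ) * Complex.I‖

/-- the weight, `sinc(u/2)^2` -/
noncomputable def phi (u : ℝ) : ℝ := (Real.sinc (u / 2)) ^ 2

/-- the Fourier transform of the weight: `2 π (1 - |ξ|)_+` -/
noncomputable def phihat (ξ : ℝ) : ℝ := 2 * Real.pi * max 0 (1 - |ξ|)

/-- additive circle of length `2 π` -/
abbrev Ci : Type := AddCircle (2 * Real.pi)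

instance : Fact (0 < 2 * Real.pi) := ⟨by positivity⟩

/-- Fourier-Stieltjes coefficients of the signed measure `μ₁ - μ₂` on the circle -/
noncomputable def cf (μ₁ μ₂ : Measure Ci) (k : ℤ) : ℂ :=
  (∫ x, fourier (-k) x ∂μ₁) - ∫ x, fourier (-k) x ∂μ₂

end Pool.Agent.H50.RL
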