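import Pool.Agent.H50.RL.Defs

/-!
[H50 RL TRI] The weight `phi u = sinc(u/2)^2` and its Fourier transform `phihat ξ = 2π (1-|ξ|)_+`.

`phi_nonneg`, `phi_cont` trivial. `phi_le`: `|sinc| ≤ 1`, and for `u ≠ 0` `phi u = 4 sin²(u/2)/u² ≤ 4/u²`; so
`(1 + u²) phi u ≤ 5`. `phi_int`: by `phi_le` and `integrable_inv_one_add_sq`.
`phi_ft`: let `k ξ = max 0 (1-|ξ|)`, continuous with support `[-1,1]`. Direct computation (integrate by parts, or
`∫_0^1 (1-ξ) 2 cos(ξu) dξ = 2 (1 - cos u)/u² = 4 sin²(u/2)/u²`, and `1` for `u = 0`):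
`∫ k ξ exp(iξu) dξ = phi u`. So `phi` is an inverse Fourier transform of the continuous integrable function `k`, and `phi`
is integrable; the Fourier inversion theorem of Mathlib (`Continuous.fourierInv_fourier_eq` /
`MeasureTheory.Integrable.fourierInv_fourier_eq`, scaling by `2π`: Mathlib's transform is
`∫ exp(-2πi v w) f v dv`) gives `∫ phi u exp(-iξu) du = 2π k ξ`.
-/

set_option autoImplicit false

namespace Pool.Agent.H50.RL

open MeasureTheory Filter Topology

theorem phi_nonneg (u : ℝ) : 0 ≤ phi u := sq_nonneg _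

theorem phi_cont : Continuous phi :=
  (Real.continuous_sinc.comp (continuous_id.div_const 2)).pow 2

theorem phi_le (u : ℝ) : phi u ≤ 5 * (1 + u ^ 2)⁻¹ := by
  have h0 : 0 < 1 + u ^ 2 := by positivity
  rw [← div_eq_mul_inv, le_div_iff₀ h0]
  have h1 : phi u ≤ 1 := by
    unfold phi
    rw [← sq_abs]
    exact pow_le_one₀ (abs_nonneg _) (Real.abs_sinc_le_one _)
  have h2 : phi u * u ^ 2 ≤ 4 := by
    rcases eq_or_ne u 0 with rfl | hu
    · norm_num
    · have h3 : phi u * u ^ 2 = 4 * Real.sin (u / 2) ^ 2 := by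
        unfold phi
        rw [Real.sinc_of_ne_zero (by positivity)]
        field_simp
        ring
      rw [h3]
      nlinarith [Real.sin_sq_le_one (u / 2)]
  nlinarith

theorem phi_int : Integrable phi := by
  refine Integrable.mono' (integrable_inv_one_add_sq.const_mul 5) phi_cont.aestronglyMeasurable ?_
  refine Filter.Eventually.of_forall fun u => ?_
  rw [Real.norm_eq_abs, abs_of_nonneg (phi_nonneg u)]
  exact phi_le u

/-- the triangle -/
private noncomputable def tri (ξ : ℝ) : ℝ := max 0 (1 - |ξ|)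

private theorem tri_cont : Continuous tri := by
  unfold tri
  fun_prop

private theorem tri_supp {ξ : ℝ} (h : ξ ∉ Set.Icc (-1 : ℝ) 1) : tri ξ = 0 := by
  unfold tri
  apply max_eq_left
  by_contra h1
  push Not at h1
  apply h
  rw [Set.mem_Icc, ← abs_le]
  linarith

private theorem tri_cs : HasCompactSupport tri :=
  HasCompactSupport.intro isCompact_Icc fun _ h => tri_supp h

private theorem tri_mul_int {g : ℝ → ℝ} (hg : Continuous g) : Integrable (fun ξ => tri ξ * g ξ) :=
  (tri_cont.mul hg).integrable_of_hasCompactSupport tri_cs.mul_right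

private theorem tri_sin (u : ℝ) : ∫ ξ : ℝ, tri ξ * Real.sin (ξ * u) = 0 := by
  have h1 : ∫ ξ : ℝ, tri (-ξ) * Real.sin ((-ξ) * u) = ∫ ξ : ℝ, tri ξ * Real.sin (ξ * u) :=
    integral_neg_eq_self (fun ξ => tri ξ * Real.sin (ξ * u)) volume
  have h2 : ∀ ξ : ℝ, tri (-ξ) * Real.sin ((-ξ) * u) = -(tri ξ * Real.sin (ξ * u)) := by
    intro ξ
    rw [neg_mul, Real.sin_neg]
    unfold tri
    rw [abs_neg]
    ring
  simp_rw [h2] at h1
  rw [integral_neg] at h1
  linarith

private theorem tri_cos (u : ℝ) : ∫ ξ : ℝ, tri ξ * Real.cos (ξ * u) = phi u := by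
  have h1 : ∀ ξ : ℝ, tri ξ * Real.cos (ξ * u) = (fun t : ℝ => max 0 (1 - t) * Real.cos (t * u)) |ξ| := by
    intro ξ
    show _ = max 0 (1 - |ξ|) * Real.cos (|ξ| * u)
    have : Real.cos (|ξ| * u) = Real.cos (ξ * u) := by
      rcases abs_choice ξ with h | h
      · rw [h]
      · rw [h, neg_mul, Real.cos_neg]
    rw [this]
    rfl
  simp_rw [h1]
  rw [integral_comp_abs (f := fun t : ℝ => max 0 (1 - t) * Real.cos (t * u))]
  have h2 : ∫ x in Set.Ioi (0 : ℝ), max 0 (1 - x) * Real.cos (x * u) =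
      ∫ x in Set.Ioc (0 : ℝ) 1, max 0 (1 - x) * Real.cos (x * u) := by
    apply setIntegral_eq_of_subset_of_forall_sdiff_eq_zero measurableSet_Ioi (fun x hx => hx.1)
    intro x hx
    have : 1 < x := by
      by_contra h
      push Not at h
      exact hx.2 ⟨hx.1, h⟩
    rw [max_eq_left (by linarith), zero_mul]
  rw [h2, ← intervalIntegral.integral_of_le zero_le_one]
  have h3 : ∫ x in (0 : ℝ)..1, max 0 (1 - x) * Real.cos (x * u) = ∫ x in (0 : ℝ)..1, (1 - x) * Real.cos (x * u) := by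
    apply intervalIntegral.integral_congr
    intro x hx
    rw [Set.uIcc_of_le zero_le_one] at hx
    show max 0 (1 - x) * Real.cos (x * u) = (1 - x) * Real.cos (x * u)
    rw [max_eq_right (by linarith [hx.2])]
  rw [h3]
  rcases eq_or_ne u 0 with rfl | hu
  · simp only [mul_zero, Real.cos_zero, mul_one]
    rw [intervalIntegral.integral_sub (by simp) (by simp)]
    unfold phi
    simp
    norm_num
  · have h4 : ∀ x ∈ Set.uIcc (0 : ℝ) 1, HasDerivAt (fun x : ℝ => (1 - x) * Real.sin (x * u) / u - Real.cos (x * u) / u ^ 2)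
        ((1 - x) * Real.cos (x * u)) x := by
      intro x _
      have e1 : HasDerivAt (fun x : ℝ => x * u) u x := by simpa using (hasDerivAt_id x).mul_const u
      have e2 : HasDerivAt (fun x : ℝ => Real.sin (x * u)) (Real.cos (x * u) * u) x := e1.sin
      have e3 : HasDerivAt (fun x : ℝ => Real.cos (x * u)) (-Real.sin (x * u) * u) x := e1.cos
      have e4 : HasDerivAt (fun x : ℝ => 1 - x) (-1) x := by simpa using (hasDerivAt_id x).const_sub 1
      have e5 := ((e4.mul e2).div_const u).sub (e3.div_const (u ^ 2))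
      refine e5.congr_deriv ?_
      field_simp
      ring
    rw [intervalIntegral.integral_eq_sub_of_hasDerivAt h4
      ((by fun_prop : Continuous fun x : ℝ => (1 - x) * Real.cos (x * u)).intervalIntegrable _ _)]
    unfold phi
    rw [Real.sinc_of_ne_zero (by positivity)]
    have h5 : Real.cos u = 1 - 2 * Real.sin (u / 2) ^ 2 := by
      have h6 := Real.cos_two_mul (u / 2)
      rw [show 2 * (u / 2) = u by ring] at h6
      rw [h6, Real.cos_sq']
      ring
    simp only [sub_self, zero_mul, zero_div, sub_zero, one_mul, Real.sin_zero, Real.cos_zero, mul_zero]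
    rw [h5]
    field_simp
    ring

private theorem tri_ft (u : ℝ) : ∫ ξ : ℝ, ((tri ξ : ℝ) : ℂ) * Complex.exp (-(((ξ * u : ℝ) : ℂ) * Complex.I)) =
    ((phi u : ℝ) : ℂ) := by
  have h1 : ∀ ξ : ℝ, ((tri ξ : ℝ) : ℂ) * Complex.exp (-(((ξ * u : ℝ) : ℂ) * Complex.I)) =
      ((tri ξ * Real.cos (ξ * u) : ℝ) : ℂ) - ((tri ξ * Real.sin (ξ * u) : ℝ) : ℂ) * Complex.I := by
    intro ξ
    rw [← neg_mul, Complex.exp_mul_I, Complex.cos_neg, Complex.sin_neg]
    push_cast
    ring
  simp_rw [h1]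
  rw [integral_sub, integral_mul_const, integral_complex_ofReal, integral_complex_ofReal, tri_cos, tri_sin]
  · simp
  · exact (tri_mul_int (g := fun ξ => Real.cos (ξ * u)) (by fun_prop)).ofReal
  · exact (tri_mul_int (g := fun ξ => Real.sin (ξ * u)) (by fun_prop)).ofReal.mul_const _

theorem phi_ft (ξ : ℝ) : ∫ u : ℝ, ((phi u : ℝ) : ℂ) * Complex.exp (-(((ξ * u : ℝ) : ℂ) * Complex.I)) =
    ((phihat ξ : ℝ) : ℂ) := by
  have hF : ∀ w : ℝ, FourierTransform.fourier (fun ξ : ℝ => ((tri ξ : ℝ) : ℂ)) w = ((phi (2 * Real.pi * w) : ℝ) : ℂ) := by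
    intro w
    rw [Real.fourier_real_eq_integral_exp_smul, ← tri_ft]
    apply integral_congr_ae
    refine Filter.Eventually.of_forall fun v => ?_
    show Complex.exp _ • ((tri v : ℝ) : ℂ) = ((tri v : ℝ) : ℂ) * Complex.exp _
    rw [smul_eq_mul, mul_comm]
    congr 2
    push_cast
    ring
  have hFf : FourierTransform.fourier (fun ξ : ℝ => ((tri ξ : ℝ) : ℂ)) = fun w : ℝ => ((phi (2 * Real.pi * w) : ℝ) : ℂ) := funext hF
  have hint : Integrable (fun w : ℝ => ((phi (2 * Real.pi * w) : ℝ) : ℂ)) :=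
    (phi_int.comp_mul_left' (by positivity)).ofReal
  have htri : Integrable (fun ξ : ℝ => ((tri ξ : ℝ) : ℂ)) :=
    (tri_cont.integrable_of_hasCompactSupport tri_cs).ofReal
  have hinv := Continuous.fourierInv_fourier_eq (f := fun ξ : ℝ => ((tri ξ : ℝ) : ℂ))
    (Complex.continuous_ofReal.comp tri_cont) htri (by rw [hFf]; exact hint)
  rw [hFf] at hinv
  have h1 := congrFun hinv (-ξ)
  rw [Real.fourierInv_eq'] at h1
  have h2 : ∀ v : ℝ, Complex.exp ((↑(2 * Real.pi * inner ℝ v (-ξ)) * Complex.I)) • ((phi (2 * Real.pi * v) : ℝ) : ℂ) =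
      (fun u : ℝ => ((phi u : ℝ) : ℂ) * Complex.exp (-(((ξ * u : ℝ) : ℂ) * Complex.I))) (2 * Real.pi * v) := by
    intro v
    show _ = ((phi (2 * Real.pi * v) : ℝ) : ℂ) * Complex.exp (-(((ξ * (2 * Real.pi * v) : ℝ) : ℂ) * Complex.I))
    rw [smul_eq_mul, mul_comm]
    congr 2
    rw [real_inner_eq_re_inner]
    simp
    ring
  simp_rw [h2] at h1
  rw [Measure.integral_comp_mul_left (fun u : ℝ => ((phi u : ℝ) : ℂ) * Complex.exp (-(((ξ * u : ℝ) : ℂ) * Complex.I)))] at h1
  have hpi : 0 < 2 * Real.pi := by positivity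
  rw [abs_of_pos (inv_pos.2 hpi)] at h1
  have h3 : ∫ u : ℝ, ((phi u : ℝ) : ℂ) * Complex.exp (-(((ξ * u : ℝ) : ℂ) * Complex.I)) =
      (2 * Real.pi : ℝ) • ((tri (-ξ) : ℝ) : ℂ) := by
    rw [← h1, smul_smul, mul_inv_cancel₀ hpi.ne', one_smul]
  rw [h3]
  unfold phihat tri
  rw [abs_neg]
  simp

end Pool.Agent.H50.RL
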