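import Pool.Agent.H50.RL.Grid
import Pool.Agent.H50.RL.Tri

/-!
[H50 RL DFT] Fourier transform and `L¹` norm of `d η · phi`.

`dphi_int`: `|d| ≤ 2S` (`d_abs_le`), continuous, `phi` integrable.
`dphi_ft`: insert `d_series` and integrate termwise (`integral_tsum` or `hasSum_integral_of_summable_norm`: the norms
are summable by `summ_d`, each times `∫ phi`); each term by `phi_ft` at `ξ - γ i`.
`dphi_l1`: there is `C` (depending on `D`, `M`) with `∫ |d η u| phi u du ≤ C η`: on `[a, a+1]`, `a ∈ ℤ`, `phi u ≤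
5/(1+u²) ≤ 20/(1 + a²)`, say (`1 + a² ≤ 4 (1+u²)` for `u ∈ [a,a+1]`: `|a| ≤ |u| + 1`), so
`∫_a^(a+1) |d| phi ≤ 20/(1+a²) η C0`, `C0 = 4 (M+1) S exp(2Θ)` (`l1_unit`), and sum over `a ∈ ℤ` (for instance with
`MeasureTheory.hasSum_intervalIntegral_of_summable_norm`, or first for `∫_(-N)^N` and `N → ∞`, all partial sums being
`≤ 20 C0 η ∑' 1/(1+a²)`).
`c_lim`: for fixed `k` only finitely many `i` have `phihat (k - γ i) ≠ 0` (those with `|γ i| < |k| + 1`, `loc_fin`), so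
`dphi_ft` is a finite sum over this set (`tsum_eq_sum`), and for every `i` `(1 - exp(-ρ η))/η → ρ` as `η → 0+`
(derivative of `η ↦ -exp(-ρη)` at `0`). So the limit is `-∑ m_i phihat(k - γ_i)`.
-/

set_option autoImplicit false

namespace Pool.Agent.H50.RL

open MeasureTheory Filter Topology

/-- the limit coefficients -/
noncomputable def LineData.c (D : LineData) (k : ℤ) : ℂ := -∑' i, ((D.m i * phihat ((k : ℝ) - D.γ i) : ℝ) : ℂ)

theorem dphi_int (D : LineData) (η : ℝ) (hη : 0 ≤ η) : Integrable fun u => D.d η u * phi u := by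
  refine Integrable.mono' (phi_int.const_mul (2 * D.S)) ((d_cont D η).mul phi_cont).aestronglyMeasurable ?_
  refine Filter.Eventually.of_forall fun u => ?_
  rw [Real.norm_eq_abs, abs_mul, abs_of_nonneg (phi_nonneg u)]
  exact mul_le_mul_of_nonneg_right (d_abs_le D η u hη) (phi_nonneg u)

private theorem ctb (D : LineData) : Countable D.ι := by
  rw [← Set.countable_univ_iff]
  have h : (Set.univ : Set D.ι) ⊆ ⋃ n : ℕ, {i : D.ι | |D.γ i| ≤ n} := by
    intro i _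
    obtain ⟨n, hn⟩ := exists_nat_ge |D.γ i|
    exact Set.mem_iUnion.2 ⟨n, hn⟩
  exact (Set.countable_iUnion fun n : ℕ => (loc_fin D n).countable).mono h

private theorem nrm_one (ξ u : ℝ) : ‖Complex.exp (-(((ξ * u : ℝ) : ℂ) * Complex.I))‖ = 1 := by
  rw [← neg_mul, ← Complex.ofReal_neg, Complex.norm_exp_ofReal_mul_I]

private theorem pe_int (ξ : ℝ) :
    Integrable fun u : ℝ => ((phi u : ℝ) : ℂ) * Complex.exp (-(((ξ * u : ℝ) : ℂ) * Complex.I)) := by
  refine Integrable.mono' phi_int ?_ ?_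
  · have h1 : Continuous fun u : ℝ => ((phi u : ℝ) : ℂ) := Complex.continuous_ofReal.comp phi_cont
    exact (h1.mul (by fun_prop)).aestronglyMeasurable
  · refine Filter.Eventually.of_forall fun u => ?_
    rw [norm_mul, nrm_one, mul_one, Complex.norm_real, Real.norm_of_nonneg (phi_nonneg u)]

theorem dphi_ft (D : LineData) (η : ℝ) (hη : 0 ≤ η) (ξ : ℝ) :
    ∫ u : ℝ, ((D.d η u * phi u : ℝ) : ℂ) * Complex.exp (-(((ξ * u : ℝ) : ℂ) * Complex.I)) =
      -∑' i, ((D.m i : ℂ) / D.ρ i) * (1 - Complex.exp (-(D.ρ i * η))) * ((phihat (ξ - D.γ i) : ℝ) : ℂ) := by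
  have := ctb D
  obtain ⟨c, hc⟩ : ∃ c : D.ι → ℂ, ∀ i, c i = ((D.m i : ℂ) / D.ρ i) * (1 - Complex.exp (-(D.ρ i * η))) :=
    ⟨_, fun _ => rfl⟩
  have hs : Summable fun i => ‖c i‖ := by
    simp_rw [hc]
    exact summ_d D η hη
  have h1 : ∀ u : ℝ, ((D.d η u * phi u : ℝ) : ℂ) * Complex.exp (-(((ξ * u : ℝ) : ℂ) * Complex.I)) =
      -∑' i, c i * (((phi u : ℝ) : ℂ) * Complex.exp (-((((ξ - D.γ i) * u : ℝ) : ℂ) * Complex.I))) := by
    intro u
    rw [Complex.ofReal_mul, d_series D η u hη, neg_mul, neg_mul, mul_assoc, ← tsum_mul_right]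
    congr 1
    refine tsum_congr fun i => ?_
    rw [← hc]
    have h2 : Complex.exp (-((((ξ - D.γ i) * u : ℝ) : ℂ) * Complex.I)) =
        Complex.exp (((D.γ i * u : ℝ) : ℂ) * Complex.I) * Complex.exp (-(((ξ * u : ℝ) : ℂ) * Complex.I)) := by
      rw [← Complex.exp_add]
      congr 1
      push_cast
      ring
    rw [h2]
    ring
  have h3 : ∀ i, Integrable fun u : ℝ =>
      c i * (((phi u : ℝ) : ℂ) * Complex.exp (-((((ξ - D.γ i) * u : ℝ) : ℂ) * Complex.I))) :=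
    fun i => (pe_int (ξ - D.γ i)).const_mul (c i)
  have h4 : Summable fun i => ∫ u : ℝ,
      ‖c i * (((phi u : ℝ) : ℂ) * Complex.exp (-((((ξ - D.γ i) * u : ℝ) : ℂ) * Complex.I)))‖ := by
    have h5 : ∀ i, ∫ u : ℝ, ‖c i * (((phi u : ℝ) : ℂ) *
        Complex.exp (-((((ξ - D.γ i) * u : ℝ) : ℂ) * Complex.I)))‖ = ‖c i‖ * ∫ u, phi u := by
      intro i
      rw [← integral_const_mul]
      refine integral_congr_ae (Filter.Eventually.of_forall fun u => ?_)
      show ‖c i * (((phi u : ℝ) : ℂ) * Complex.exp (-((((ξ - D.γ i) * u : ℝ) : ℂ) * Complex.I)))‖ = ‖c i‖ * phi u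
      rw [norm_mul, norm_mul, nrm_one, mul_one, Complex.norm_real, Real.norm_of_nonneg (phi_nonneg u)]
    simp_rw [h5]
    exact hs.mul_right _
  have h6 := hasSum_integral_of_summable_integral_norm h3 h4
  simp_rw [h1]
  rw [integral_neg, ← h6.tsum_eq]
  congr 1
  refine tsum_congr fun i => ?_
  rw [integral_const_mul, phi_ft, hc]

private theorem summ_z : Summable fun a : ℤ => (1 + (a : ℝ) ^ 2)⁻¹ := by
  have h1 : Summable fun a : ℤ => 1 / (a : ℝ) ^ 2 := Real.summable_one_div_int_pow.2 one_lt_two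
  have h2 : Summable fun a : ℤ => if a = 0 then (1 : ℝ) else 0 := by
    exact (hasSum_ite_eq (0 : ℤ) (1 : ℝ)).summable
  refine Summable.of_nonneg_of_le (fun a => by positivity) ?_ (h1.add h2)
  intro a
  rcases eq_or_ne a 0 with rfl | ha
  · simp
  · rw [if_neg ha, add_zero, ← one_div]
    have h3 : (0 : ℝ) < (a : ℝ) ^ 2 := by
      have : (a : ℝ) ≠ 0 := by exact_mod_cast ha
      positivity
    exact one_div_le_one_div_of_le h3 (by linarith)

private theorem phi_unit (a : ℤ) (u : ℝ) (h1 : (a : ℝ) ≤ u) (h2 : u ≤ a + 1) :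
    phi u ≤ 20 * (1 + (a : ℝ) ^ 2)⁻¹ := by
  refine (phi_le u).trans ?_
  have h3 : (1 + (a : ℝ) ^ 2) ≤ 4 * (1 + u ^ 2) := by
    nlinarith [sq_nonneg (u + (u - a)), mul_nonneg (sub_nonneg.2 h1) (by linarith : (0 : ℝ) ≤ 1 - (u - a)), sq_nonneg u]
  have h4 : (0 : ℝ) < 1 + (a : ℝ) ^ 2 := by positivity
  have h5 : (0 : ℝ) < 1 + u ^ 2 := by positivity
  rw [← div_eq_mul_inv, ← div_eq_mul_inv, div_le_div_iff₀ h5 h4]
  linarith

theorem dphi_l1 (D : LineData) (M : ℕ) : ∃ C : ℝ, ∀ η : ℝ, 0 < η → η ≤ 1 →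
    (∀ y : ℝ, ¬ SC (D.d η) y (y + 1) (M + 1)) → ∫ u : ℝ, |D.d η u * phi u| ≤ C * η := by
  refine ⟨(∑' a : ℤ, (1 + (a : ℝ) ^ 2)⁻¹) * (20 * (4 * (M + 1) * D.S * Real.exp (2 * D.Θ))), ?_⟩
  intro η h0 h1 h
  have hint : Integrable fun u => |D.d η u * phi u| := (dphi_int D η h0.le).abs
  have hU : ⋃ a : ℤ, Set.Ioc (a : ℝ) (a + 1) = Set.univ := iUnion_Ioc_intCast ℝ
  have hS : HasSum (fun a : ℤ => ∫ u in Set.Ioc (a : ℝ) (a + 1), |D.d η u * phi u|) (∫ u : ℝ, |D.d η u * phi u|) := by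
    have h2 := hasSum_integral_iUnion (f := fun u => |D.d η u * phi u|) (μ := volume)
      (s := fun a : ℤ => Set.Ioc (a : ℝ) (a + 1)) (fun a => measurableSet_Ioc)
      (Set.pairwise_disjoint_Ioc_intCast ℝ) (by rw [hU]; exact hint.integrableOn)
    rwa [hU, setIntegral_univ] at h2
  have hb : ∀ a : ℤ, ∫ u in Set.Ioc (a : ℝ) (a + 1), |D.d η u * phi u| ≤
      (1 + (a : ℝ) ^ 2)⁻¹ * (20 * (η * (4 * (M + 1) * D.S * Real.exp (2 * D.Θ)))) := by
    intro a
    have h3 := l1_unit D M η h0 h1 h a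
    rw [← intervalIntegral.integral_of_le (by linarith)]
    have h4 : ∫ u in (a : ℝ)..(a + 1), |D.d η u * phi u| ≤
        ∫ u in (a : ℝ)..(a + 1), 20 * (1 + (a : ℝ) ^ 2)⁻¹ * |D.d η u| := by
      refine intervalIntegral.integral_mono_on (by linarith) hint.intervalIntegrable
        ((continuous_const.mul (d_cont D η).abs).intervalIntegrable _ _) ?_
      intro u hu
      rw [abs_mul, abs_of_nonneg (phi_nonneg u), mul_comm]
      exact mul_le_mul_of_nonneg_right (phi_unit a u hu.1 hu.2) (abs_nonneg _)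
    rw [intervalIntegral.integral_const_mul] at h4
    refine h4.trans ?_
    have h5 : (0 : ℝ) ≤ 20 * (1 + (a : ℝ) ^ 2)⁻¹ := by positivity
    refine (mul_le_mul_of_nonneg_left h3 h5).trans (le_of_eq ?_)
    ring
  have hS2 := summ_z.hasSum.mul_right (20 * (η * (4 * (M + 1) * D.S * Real.exp (2 * D.Θ))))
  refine (hasSum_le hb hS hS2).trans (le_of_eq ?_)
  ring

private theorem exp_lim (ρ : ℂ) (η : ℕ → ℝ) (h0 : ∀ n, 0 < η n) (hη : Tendsto η atTop (𝓝 0)) :
    Tendsto (fun n => (1 - Complex.exp (-(ρ * (η n : ℂ)))) / (η n : ℂ)) atTop (𝓝 ρ) := by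
  have h1 : HasDerivAt (fun z : ℂ => 1 - Complex.exp (-(ρ * z))) ρ 0 := by
    have e1 : HasDerivAt (fun z : ℂ => -(ρ * z)) (-ρ) 0 := by
      have e0 := ((hasDerivAt_id (0 : ℂ)).const_mul ρ).neg
      rw [mul_one] at e0
      exact e0
    have e2 := (e1.cexp).const_sub 1
    refine e2.congr_deriv ?_
    simp
  rw [hasDerivAt_iff_tendsto_slope] at h1
  have h2 : Tendsto (fun n => (η n : ℂ)) atTop (𝓝[≠] (0 : ℂ)) := by
    refine tendsto_nhdsWithin_iff.2 ⟨?_, Filter.Eventually.of_forall fun n => ?_⟩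
    · have h3 := (Complex.continuous_ofReal.tendsto 0).comp hη
      rw [Complex.ofReal_zero] at h3
      exact h3
    · have := (h0 n).ne'
      show (η n : ℂ) ≠ 0
      exact_mod_cast this
  refine (h1.comp h2).congr fun n => ?_
  show slope (fun z : ℂ => 1 - Complex.exp (-(ρ * z))) 0 (η n : ℂ) = _
  rw [slope_def_field]
  simp

theorem c_lim (D : LineData) (η : ℕ → ℝ) (h0 : ∀ n, 0 < η n) (hη : Tendsto η atTop (𝓝 0)) (k : ℤ) :
    Tendsto (fun n => ∫ u : ℝ, ((D.d (η n) u * phi u / η n : ℝ) : ℂ) *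
      Complex.exp (-((((k : ℝ) * u : ℝ) : ℂ) * Complex.I))) atTop (𝓝 (D.c k)) := by
  have hz : ∀ i ∉ (loc_fin D (|(k : ℝ)| + 1)).toFinset, phihat ((k : ℝ) - D.γ i) = 0 := by
    intro i hi
    rw [Set.Finite.mem_toFinset, Set.mem_ofPred_eq, not_le] at hi
    unfold phihat
    rw [max_eq_left, mul_zero]
    have h1 := abs_sub_abs_le_abs_sub (D.γ i) (k : ℝ)
    rw [abs_sub_comm] at h1
    linarith
  obtain ⟨s, hs⟩ : ∃ s : Finset D.ι, ∀ i ∉ s, phihat ((k : ℝ) - D.γ i) = 0 := ⟨_, hz⟩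
  have hc : D.c k = -∑ i ∈ s, ((D.m i : ℂ) / D.ρ i) * D.ρ i * ((phihat ((k : ℝ) - D.γ i) : ℝ) : ℂ) := by
    unfold LineData.c
    rw [tsum_eq_sum (s := s)]
    · congr 1
      refine Finset.sum_congr rfl fun i _ => ?_
      rw [div_mul_cancel₀ _ (ρ_ne D i)]
      push_cast
      ring
    · intro i hi
      rw [hs i hi]
      simp
  have hI : ∀ n, ∫ u : ℝ, ((D.d (η n) u * phi u / η n : ℝ) : ℂ) *
      Complex.exp (-((((k : ℝ) * u : ℝ) : ℂ) * Complex.I)) =
      -∑ i ∈ s, ((D.m i : ℂ) / D.ρ i) * ((1 - Complex.exp (-(D.ρ i * (η n : ℂ)))) / (η n : ℂ)) *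
        ((phihat ((k : ℝ) - D.γ i) : ℝ) : ℂ) := by
    intro n
    have h1 := dphi_ft D (η n) (h0 n).le (k : ℝ)
    rw [tsum_eq_sum (s := s)] at h1
    · have h2 : ∀ u : ℝ, ((D.d (η n) u * phi u / η n : ℝ) : ℂ) *
          Complex.exp (-((((k : ℝ) * u : ℝ) : ℂ) * Complex.I)) =
          (((D.d (η n) u * phi u : ℝ) : ℂ) * Complex.exp (-((((k : ℝ) * u : ℝ) : ℂ) * Complex.I))) *
            (η n : ℂ)⁻¹ := by
        intro u
        rw [Complex.ofReal_div, div_eq_mul_inv]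
        ring
      simp_rw [h2]
      rw [integral_mul_const, h1, neg_mul, Finset.sum_mul]
      congr 1
      refine Finset.sum_congr rfl fun i _ => ?_
      rw [div_eq_mul_inv _ (η n : ℂ)]
      ring
    · intro i hi
      rw [hs i hi]
      simp
  rw [hc]
  simp_rw [hI]
  refine Tendsto.neg (tendsto_finsetSum _ fun i _ => ?_)
  exact ((exp_lim (D.ρ i) η h0 hη).const_mul _).mul_const _

end Pool.Agent.H50.RL
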