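import Pool.Agent.H50.RL.Apf

/-!
[H50 RL GAP] Ordinates after long gaps.

PROOF. W.l.o.g. `R > 0` and `L ≥ 0` (enlarge them). Suppose that for every `i` with `γ i ≥ L` there is `j` with
`γ i - R < γ j < γ i`. CLAIM, by induction on `n`: if `γ i ≥ L + n R` then `n + 1 ≤ ncard {j | |γ j| ≤ γ i}`.
`n = 0`: `i` is in the set (`γ i ≥ 0`), which is finite (`loc_fin`). `n → n+1`: take `j` with `γ i - R < γ j < γ i`,
`γ j ≥ L + n R`; the set of `j` has `≥ n+1` elements, is contained in that of `i`, and does not contain `i`.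
Now let `T0` be given by `hdens` for `ε = 1/(2R)`, and let `i` with `γ i > 2 L + T0 + 1` (exists: otherwise
`{i | 0 < γ i} ⊆ {i | |γ i| ≤ 2L + |T0| + 1}` finite; use `|T0|`), `n = ⌊(γ i - L)/R⌋₊`. Then
`(γ i - L)/R ≤ n + 1 ≤ ncard ≤ γ i/(2R)`, so `γ i ≤ 2 L`, a contradiction.
-/

set_option autoImplicit false

namespace Pool.Agent.H50.RL

private theorem cnt (D : LineData) {R L : ℝ} (hR : 0 < R) (hL : 0 ≤ L)
    (H : ∀ i : D.ι, L ≤ D.γ i → ∃ j : D.ι, D.γ i - R < D.γ j ∧ D.γ j < D.γ i) :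
    ∀ n : ℕ, ∀ i : D.ι, L + n * R ≤ D.γ i → n + 1 ≤ ({j : D.ι | |D.γ j| ≤ D.γ i}).ncard := by
  intro n
  induction n with
  | zero =>
    intro i hi
    have h0 : 0 ≤ D.γ i := by
      push_cast at hi
      linarith
    have h1 : i ∈ {j : D.ι | |D.γ j| ≤ D.γ i} := by
      simp only [Set.mem_setOf_eq]
      rw [abs_of_nonneg h0]
    have h2 := (Set.ncard_pos (loc_fin D (D.γ i))).mpr ⟨i, h1⟩
    omega
  | succ n ih =>
    intro i hi
    push_cast at hi
    have hnR : 0 ≤ (n : ℝ) * R := by positivity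
    obtain ⟨j, hj1, hj2⟩ := H i (by nlinarith)
    have h1 := ih j (by linarith)
    have h0 : 0 ≤ D.γ i := by nlinarith
    have h2 : {l : D.ι | |D.γ l| ≤ D.γ j} ⊂ {l : D.ι | |D.γ l| ≤ D.γ i} := by
      rw [Set.ssubset_iff_of_subset]
      · refine ⟨i, ?_, ?_⟩
        · simp only [Set.mem_setOf_eq]
          rw [abs_of_nonneg h0]
        · simp only [Set.mem_setOf_eq, not_le]
          rw [abs_of_nonneg h0]
          exact hj2
      · intro l hl
        simp only [Set.mem_setOf_eq] at hl ⊢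
        linarith
    have h3 := Set.ncard_lt_ncard h2 (loc_fin D (D.γ i))
    omega

theorem gaps (D : LineData) (hinf : {i : D.ι | 0 < D.γ i}.Infinite)
    (hdens : ∀ ε : ℝ, 0 < ε → ∃ T0 : ℝ, ∀ T : ℝ, T0 ≤ T → ({i : D.ι | |D.γ i| ≤ T}.ncard : ℝ) ≤ ε * T) (R L : ℝ) :
    ∃ i : D.ι, L ≤ D.γ i ∧ ∀ j : D.ι, ¬ (D.γ i - R < D.γ j ∧ D.γ j < D.γ i) := by
  by_contra hcon
  push Not at hcon
  set R' : ℝ := max R 1 with hR'
  set L' : ℝ := max L 0 with hL'
  have hR0 : 0 < R' := lt_of_lt_of_le one_pos (le_max_right _ _)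
  have hL0 : 0 ≤ L' := le_max_right _ _
  have H : ∀ i : D.ι, L' ≤ D.γ i → ∃ j : D.ι, D.γ i - R' < D.γ j ∧ D.γ j < D.γ i := by
    intro i hi
    obtain ⟨j, hj1, hj2⟩ := hcon i (le_trans (le_max_left _ _) hi)
    refine ⟨j, ?_, hj2⟩
    have : R ≤ R' := le_max_left _ _
    linarith
  obtain ⟨T0, hT0⟩ := hdens (1 / (2 * R')) (by positivity)
  obtain ⟨i, hi⟩ : ∃ i : D.ι, 2 * L' + |T0| + 1 < D.γ i := by
    by_contra hno
    push Not at hno
    refine hinf ((loc_fin D (2 * L' + |T0| + 1)).subset ?_)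
    intro i hi
    simp only [Set.mem_setOf_eq] at hi ⊢
    rw [abs_of_pos hi]
    exact hno i
  have hT := abs_nonneg T0
  have hT' := le_abs_self T0
  have h1 := hT0 (D.γ i) (by linarith)
  have hge : 0 ≤ (D.γ i - L') / R' := div_nonneg (by linarith) hR0.le
  set n : ℕ := ⌊(D.γ i - L') / R'⌋₊ with hn
  have h2 : (n : ℝ) ≤ (D.γ i - L') / R' := Nat.floor_le hge
  have h3 : (D.γ i - L') / R' < n + 1 := Nat.lt_floor_add_one _
  have h4 := cnt D hR0 hL0 H n i (by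
    rw [le_div_iff₀ hR0] at h2
    linarith)
  have h5 : ((n : ℝ) + 1) ≤ (({j : D.ι | |D.γ j| ≤ D.γ i}).ncard : ℝ) := by exact_mod_cast h4
  have h6 : (D.γ i - L') / R' < 1 / (2 * R') * D.γ i := by linarith
  rw [div_lt_iff₀ hR0] at h6
  have h7 : 1 / (2 * R') * D.γ i * R' = D.γ i / 2 := by
    field_simp
  rw [h7] at h6
  linarith

end Pool.Agent.H50.RL
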