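import Mathlib

/-!
[H50 RL REC] Almost periodic sums return: for absolutely summable coefficients there are arbitrarily large almost
periods, uniformly in the shift.

PROOF. Let `ε > 0`, `T` real. Choose a finite set `s` with `∑_{i ∉ s} ‖c i‖ ≤ ε/8` and `A = ∑_{i ∈ s} ‖c i‖ + 1`.
The points `p n = (exp(i γ_j n T'))_{j ∈ s}`, `n = 0, 1, 2, ..`, `T' = max T 1`, lie in the compact set of functions
`s → ℂ` of norm `≤ 1`; so two of them, `n < n'`, satisfy `‖exp(iγ_j n' T') - exp(iγ_j n T')‖ ≤ ε/(4A)` for all `j ∈ s`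
(a sequence in a compact metric space has a convergent, hence Cauchy, subsequence). With `t = (n' - n) T' ≥ T`:
`‖exp(iγ_j t) - 1‖ ≤ ε/(4A)` for `j ∈ s`. Then for every `u`
`‖∑ c_i exp(iγ_i(u+t)) - ∑ c_i exp(iγ_i u)‖ = ‖∑ c_i exp(iγ_i u) (exp(iγ_i t) - 1)‖
≤ ∑_{i∈s} ‖c_i‖ ε/(4A) + 2 ∑_{i∉s} ‖c_i‖ ≤ ε/4 + ε/4 ≤ ε`.
-/

set_option autoImplicit false

namespace Pool.Agent.H50.RL

private theorem ex_norm (x : ℝ) : ‖Complex.exp ((x : ℂ) * Complex.I)‖ = 1 := Complex.norm_exp_ofReal_mul_I x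

/-- two far away points of a bounded curve in a finite dimensional torus are close -/
private theorem ret {ι : Type*} (γ : ι → ℝ) (s : Finset ι) (δ : ℝ) (hδ : 0 < δ) (T : ℝ) :
    ∃ t : ℝ, T ≤ t ∧ ∀ i ∈ s, ‖Complex.exp (((γ i * t : ℝ) : ℂ) * Complex.I) - 1‖ ≤ δ := by
  obtain ⟨T', hT'⟩ : ∃ T' : ℝ, T' = max T 1 := ⟨_, rfl⟩
  have hT1 : T ≤ T' := by rw [hT']; exact le_max_left _ _
  have hT0 : 1 ≤ T' := by rw [hT']; exact le_max_right _ _
  obtain ⟨x, hx⟩ : ∃ x : ℕ → (s → ℂ), x = fun (n : ℕ) (j : s) => Complex.exp (((γ j * ((n : ℝ) * T') : ℝ) : ℂ) * Complex.I) :=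
    ⟨_, rfl⟩
  have hb : ∀ n, x n ∈ Metric.closedBall (0 : s → ℂ) 1 := by
    intro n
    rw [mem_closedBall_zero_iff, pi_norm_le_iff_of_nonneg zero_le_one]
    intro j
    rw [hx]
    exact (ex_norm _).le
  obtain ⟨a, -, φ, hφ, hlim⟩ := tendsto_subseq_of_bounded Metric.isBounded_closedBall hb
  have hc : CauchySeq (x ∘ φ) := hlim.cauchySeq
  obtain ⟨N, hN⟩ := Metric.cauchySeq_iff'.1 hc δ hδ
  have h1 := hN (N + 1) (Nat.le_succ N)
  have h2 : φ N < φ (N + 1) := hφ (Nat.lt_succ_self N)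
  refine ⟨((φ (N + 1) - φ N : ℕ) : ℝ) * T', ?_, fun i hi => ?_⟩
  · have h3 : (1 : ℝ) ≤ ((φ (N + 1) - φ N : ℕ) : ℝ) := by
      have : 1 ≤ φ (N + 1) - φ N := by omega
      exact_mod_cast this
    nlinarith
  · have h3 : dist (x (φ (N + 1)) ⟨i, hi⟩) (x (φ N) ⟨i, hi⟩) ≤ δ := (dist_le_pi_dist _ _ _).trans h1.le
    rw [hx] at h3
    simp only at h3
    rw [dist_eq_norm] at h3
    have h4 : Complex.exp (((γ i * (φ (N + 1) * T') : ℝ) : ℂ) * Complex.I) -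
        Complex.exp (((γ i * (φ N * T') : ℝ) : ℂ) * Complex.I) =
        Complex.exp (((γ i * (φ N * T') : ℝ) : ℂ) * Complex.I) *
          (Complex.exp (((γ i * (((φ (N + 1) - φ N : ℕ) : ℝ) * T') : ℝ) : ℂ) * Complex.I) - 1) := by
      rw [mul_sub, mul_one, ← Complex.exp_add]
      congr 2
      rw [Nat.cast_sub h2.le]
      push_cast
      ring
    rw [h4, norm_mul, ex_norm, one_mul] at h3
    exact h3

theorem recur {ι : Type*} (c : ι → ℂ) (γ : ι → ℝ) (hc : Summable fun i => ‖c i‖) (ε : ℝ) (hε : 0 < ε) (T : ℝ) :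
    ∃ t : ℝ, T ≤ t ∧ ∀ u : ℝ,
      ‖(∑' i, c i * Complex.exp (((γ i * (u + t) : ℝ) : ℂ) * Complex.I)) -
        ∑' i, c i * Complex.exp (((γ i * u : ℝ) : ℂ) * Complex.I)‖ ≤ ε := by
  classical
  obtain ⟨S, hS⟩ : ∃ S : ℝ, S = ∑' i, ‖c i‖ := ⟨_, rfl⟩
  have hS0 : 0 ≤ S := by rw [hS]; exact tsum_nonneg fun i => norm_nonneg _
  obtain ⟨s, hs⟩ : ∃ s : Finset ι, S - ∑ i ∈ s, ‖c i‖ ≤ ε / 4 := by
    have h1 := hc.hasSum
    rw [← hS] at h1
    have h2 := (Metric.tendsto_nhds.1 h1) (ε / 4) (by positivity)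
    obtain ⟨s, hs⟩ := h2.exists
    refine ⟨s, ?_⟩
    rw [Real.dist_eq, abs_lt] at hs
    linarith [hs.1]
  have hsS : ∑ i ∈ s, ‖c i‖ ≤ S := by
    rw [hS]
    exact hc.sum_le_tsum s fun i _ => norm_nonneg _
  obtain ⟨t, ht, hti⟩ := ret γ s (ε / (2 * (S + 1))) (by positivity) T
  refine ⟨t, ht, fun u => ?_⟩
  have hexp : ∀ (i : ι) (x : ℝ), ‖c i * Complex.exp (((γ i * x : ℝ) : ℂ) * Complex.I)‖ = ‖c i‖ := by
    intro i x
    rw [norm_mul, ex_norm, mul_one]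
  have hsum : ∀ x : ℝ, Summable fun i => c i * Complex.exp (((γ i * x : ℝ) : ℂ) * Complex.I) := fun x =>
    Summable.of_norm (by simpa only [hexp] using hc)
  rw [← (hsum (u + t)).tsum_sub (hsum u)]
  obtain ⟨δ, hδ⟩ : ∃ δ, δ = ε / (2 * (S + 1)) := ⟨_, rfl⟩
  rw [← hδ] at hti
  have hδ0 : 0 ≤ δ := by rw [hδ]; positivity
  have hle : ∀ i, ‖c i * Complex.exp (((γ i * (u + t) : ℝ) : ℂ) * Complex.I) -
      c i * Complex.exp (((γ i * u : ℝ) : ℂ) * Complex.I)‖ ≤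
      2 * ‖c i‖ + (if i ∈ s then (δ - 2) * ‖c i‖ else 0) := by
    intro i
    have h1 : c i * Complex.exp (((γ i * (u + t) : ℝ) : ℂ) * Complex.I) -
        c i * Complex.exp (((γ i * u : ℝ) : ℂ) * Complex.I) =
        c i * Complex.exp (((γ i * u : ℝ) : ℂ) * Complex.I) *
          (Complex.exp (((γ i * t : ℝ) : ℂ) * Complex.I) - 1) := by
      have h2 : Complex.exp (((γ i * (u + t) : ℝ) : ℂ) * Complex.I) =
          Complex.exp (((γ i * u : ℝ) : ℂ) * Complex.I) * Complex.exp (((γ i * t : ℝ) : ℂ) * Complex.I) := by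
        rw [← Complex.exp_add]
        congr 1
        push_cast
        ring
      rw [h2]
      ring
    rw [h1, norm_mul, hexp]
    by_cases h2 : i ∈ s
    · rw [if_pos h2]
      have h3 := mul_le_mul_of_nonneg_left (hti i h2) (norm_nonneg (c i))
      linarith
    · rw [if_neg h2, add_zero]
      have h3 : ‖Complex.exp (((γ i * t : ℝ) : ℂ) * Complex.I) - 1‖ ≤ 2 := by
        have h4 := norm_sub_le (Complex.exp (((γ i * t : ℝ) : ℂ) * Complex.I)) 1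
        rw [ex_norm, norm_one] at h4
        linarith
      have h4 := mul_le_mul_of_nonneg_left h3 (norm_nonneg (c i))
      linarith
  have hfin : HasSum (fun i => if i ∈ s then (δ - 2) * ‖c i‖ else 0) (∑ i ∈ s, (δ - 2) * ‖c i‖) := by
    have h1 : HasSum (fun i => if i ∈ s then (δ - 2) * ‖c i‖ else 0)
        (∑ i ∈ s, if i ∈ s then (δ - 2) * ‖c i‖ else 0) :=
      hasSum_sum_of_ne_finset_zero fun i hi => if_neg hi
    have h2 : ∑ i ∈ s, (if i ∈ s then (δ - 2) * ‖c i‖ else 0) = ∑ i ∈ s, (δ - 2) * ‖c i‖ :=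
      Finset.sum_congr rfl fun i hi => if_pos hi
    rwa [h2] at h1
  have hg : HasSum (fun i => 2 * ‖c i‖ + (if i ∈ s then (δ - 2) * ‖c i‖ else 0))
      (2 * S + ∑ i ∈ s, (δ - 2) * ‖c i‖) := by
    have h1 := hc.hasSum.mul_left 2
    rw [← hS] at h1
    exact h1.add hfin
  have h1 := tsum_of_norm_bounded hg hle
  refine h1.trans ?_
  rw [← Finset.mul_sum]
  have h2 : δ * ∑ i ∈ s, ‖c i‖ ≤ δ * (S + 1) := mul_le_mul_of_nonneg_left (by linarith) hδ0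
  have h3 : δ * (S + 1) = ε / 2 := by
    rw [hδ]
    field_simp
  nlinarith

end Pool.Agent.H50.RL
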