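import Pool.Agent.H50.RL.Apf
import Pool.Agent.H50.RL.Rec

/-!
[H50 RL LIM] Sign changes of the limit function.

`r_rec`: apply `recur` to `c i = -(m i/ρ i)` (`D.summ`, `D.hr`) and take real parts (`Complex.abs_re_le_norm`, or
`Complex.norm_real` of the difference).

`limit_sc`. Suppose `SC (D.d η) y (y+1) k` with points `x_0 < .. < x_k`. Let `ε > 0` be the minimum of the
`|d η (x_i)|` (all are nonzero if `k ≥ 1`; if `k = 0` then `SC F y (y+1) 0` is true for every function `F`, which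
contradicts the hypothesis `h` at `y = Y0`). For `t` large (`y + t ≥ Y0`, `y + t - η` beyond the point from which
`|exp(-Θ v) f v - r v| ≤ ε/8`) with `|r (v + t) - r v| ≤ ε/8` for all `v` (`r_rec`):
`exp(-Θ(x+t)) (f (x+t) - f (x+t-η)) = exp(-Θ(x+t)) f (x+t) - exp(-Θη) exp(-Θ(x+t-η)) f (x+t-η)` differs from
`r (x+t) - exp(-Θη) r (x+t-η)` by at most `ε/4` and this one from `d η x` by at most `ε/4` (`exp(-Θη) ≤ 1`).
So at `x_i + t` the function `F v = f v - f (v-η)` has the sign of `d η (x_i)`, and `x_i + t ∈ [y+t, y+t+1]`: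
`SC F (y+t) (y+t+1) k`, against `h`.
-/

set_option autoImplicit false

namespace Pool.Agent.H50.RL

open MeasureTheory Filter Topology

theorem r_rec (D : LineData) (ε : ℝ) (hε : 0 < ε) (T : ℝ) :
    ∃ t : ℝ, T ≤ t ∧ ∀ u : ℝ, |D.r (u + t) - D.r u| ≤ ε := by
  obtain ⟨c, hc⟩ : ∃ c : D.ι → ℂ, c = fun i => -((D.m i : ℂ) / ((D.Θ : ℂ) + (D.γ i : ℂ) * Complex.I)) := ⟨_, rfl⟩
  have hcs : Summable fun i => ‖c i‖ := by
    refine D.summ.congr fun i => ?_
    rw [hc]
    show _ = ‖-((D.m i : ℂ) / ((D.Θ : ℂ) + (D.γ i : ℂ) * Complex.I))‖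
    rw [norm_neg, norm_div, Complex.norm_real, Real.norm_of_nonneg (by linarith [D.one_le i])]
  have hr : ∀ u : ℝ, ((D.r u : ℝ) : ℂ) = ∑' i, c i * Complex.exp (((D.γ i * u : ℝ) : ℂ) * Complex.I) := by
    intro u
    rw [D.hr u, ← tsum_neg]
    refine tsum_congr fun i => ?_
    rw [hc]
    ring
  obtain ⟨t, ht, hu⟩ := recur c D.γ hcs ε hε T
  refine ⟨t, ht, fun u => ?_⟩
  have h1 := hu u
  rw [← hr, ← hr, ← Complex.ofReal_sub, Complex.norm_real, Real.norm_eq_abs] at h1
  exact h1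

theorem limit_sc (D : LineData) (f : ℝ → ℝ)
    (hf : Tendsto (fun y => Real.exp (-(D.Θ * y)) * f y - D.r y) atTop (𝓝 0)) (η : ℝ) (hη : 0 ≤ η) (k : ℕ) (Y0 : ℝ)
    (h : ∀ y ≥ Y0, ¬ SC (fun v => f v - f (v - η)) y (y + 1) k) (y : ℝ) : ¬ SC (D.d η) y (y + 1) k := by
  rintro ⟨x, hx1, hx2, hx3⟩
  -- `k ≥ 1`
  have hk : k ≠ 0 := by
    rintro rfl
    refine h Y0 le_rfl ⟨fun _ => Y0, ?_, fun _ => ⟨le_rfl, by linarith⟩, fun i => i.elim0⟩
    intro i j hij
    have h1 := i.isLt
    have h2 := j.isLt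
    have h3 : (i : ℕ) < (j : ℕ) := hij
    omega
  have hne : ∀ i, D.d η (x i) ≠ 0 := by
    intro i h0
    by_cases hi : (i : ℕ) < k
    · have h1 := hx3 ⟨i, hi⟩
      have h2 : (⟨i, hi⟩ : Fin k).castSucc = i := Fin.ext rfl
      rw [h2, h0, zero_mul] at h1
      exact lt_irrefl _ h1
    · have hi2 := i.isLt
      have h1 := hx3 ⟨k - 1, by omega⟩
      have h2 : (⟨k - 1, by omega⟩ : Fin k).succ = i := Fin.ext (by
        show k - 1 + 1 = (i : ℕ)
        omega)
      rw [h2, h0, mul_zero] at h1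
      exact lt_irrefl _ h1
  obtain ⟨ε, hε, hεle⟩ : ∃ ε : ℝ, 0 < ε ∧ ∀ i, ε ≤ |D.d η (x i)| := by
    obtain ⟨i, -, hi⟩ := Finset.exists_min_image (Finset.univ : Finset (Fin (k + 1)))
      (fun i => |D.d η (x i)|) ⟨0, Finset.mem_univ _⟩
    exact ⟨_, abs_pos.2 (hne i), fun j => hi j (Finset.mem_univ _)⟩
  obtain ⟨Y1, hY1⟩ : ∃ Y1 : ℝ, ∀ v ≥ Y1, |Real.exp (-(D.Θ * v)) * f v - D.r v| ≤ ε / 8 := by
    have h1 := (Metric.tendsto_nhds.1 hf) (ε / 8) (by positivity)
    obtain ⟨Y1, hY1⟩ := Filter.eventually_atTop.1 h1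
    refine ⟨Y1, fun v hv => ?_⟩
    have h2 := hY1 v hv
    rw [Real.dist_eq, sub_zero] at h2
    exact h2.le
  obtain ⟨t, ht, hrt⟩ := r_rec D (ε / 8) (by positivity) (max (Y0 - y) (Y1 + η - y))
  have ht1 : Y0 - y ≤ t := (le_max_left _ _).trans ht
  have ht2 : Y1 + η - y ≤ t := (le_max_right _ _).trans ht
  have hexp : Real.exp (-(D.Θ * η)) ≤ 1 := by
    rw [Real.exp_le_one_iff]
    have := mul_nonneg D.Θpos.le hη
    linarith
  have hexp0 := (Real.exp_pos (-(D.Θ * η))).le
  -- the main estimate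
  have hmain : ∀ i, |Real.exp (-(D.Θ * (x i + t))) * (f (x i + t) - f (x i + t - η)) - D.d η (x i)| ≤ ε / 2 := by
    intro i
    have hyx := (hx2 i).1
    have h1 := hY1 (x i + t) (by linarith)
    have h2 := hY1 (x i + t - η) (by linarith)
    have h3 := hrt (x i)
    have h4 := hrt (x i - η)
    have h5 : Real.exp (-(D.Θ * (x i + t))) = Real.exp (-(D.Θ * η)) * Real.exp (-(D.Θ * (x i + t - η))) := by
      rw [← Real.exp_add]
      congr 1
      ring
    have h6 : Real.exp (-(D.Θ * (x i + t))) * (f (x i + t) - f (x i + t - η)) - D.d η (x i) =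
        (Real.exp (-(D.Θ * (x i + t))) * f (x i + t) - D.r (x i + t)) + (D.r (x i + t) - D.r (x i)) -
        Real.exp (-(D.Θ * η)) * ((Real.exp (-(D.Θ * (x i + t - η))) * f (x i + t - η) - D.r (x i + t - η)) +
          (D.r (x i - η + t) - D.r (x i - η))) := by
      have h7 : x i - η + t = x i + t - η := by ring
      rw [h7]
      unfold LineData.d
      rw [h5]
      ring
    have h8 : |(Real.exp (-(D.Θ * (x i + t - η))) * f (x i + t - η) - D.r (x i + t - η)) +
          (D.r (x i - η + t) - D.r (x i - η))| ≤ ε / 4 := by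
      refine (abs_add_le _ _).trans ?_
      linarith
    have h9 : |Real.exp (-(D.Θ * η)) * ((Real.exp (-(D.Θ * (x i + t - η))) * f (x i + t - η) - D.r (x i + t - η)) +
          (D.r (x i - η + t) - D.r (x i - η)))| ≤ ε / 4 := by
      rw [abs_mul, abs_of_nonneg hexp0]
      calc _ ≤ 1 * (ε / 4) := mul_le_mul hexp h8 (abs_nonneg _) zero_le_one
        _ = _ := one_mul _
    have h10 : |(Real.exp (-(D.Θ * (x i + t))) * f (x i + t) - D.r (x i + t)) + (D.r (x i + t) - D.r (x i))| ≤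
        ε / 4 := by
      refine (abs_add_le _ _).trans ?_
      linarith
    rw [h6]
    refine (abs_sub _ _).trans ?_
    linarith
  refine h (y + t) (by linarith) ⟨fun i => x i + t, ?_, ?_, ?_⟩
  · intro i j hij
    have := hx1 hij
    show x i + t < x j + t
    linarith
  · intro i
    have h1 := hx2 i
    exact ⟨by linarith [h1.1], by linarith [h1.2]⟩
  · intro i
    -- signs
    have key : ∀ j, 0 < (Real.exp (-(D.Θ * (x j + t))) * (f (x j + t) - f (x j + t - η))) * D.d η (x j) := by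
      intro j
      have h1 := hmain j
      have h2 := hεle j
      rcases lt_or_gt_of_ne (hne j) with h3 | h3
      · rw [abs_of_neg h3] at h2
        rw [abs_le] at h1
        exact mul_pos_of_neg_of_neg (by linarith) h3
      · rw [abs_of_pos h3] at h2
        rw [abs_le] at h1
        exact mul_pos (by linarith) h3
    have key2 : ∀ j, 0 < (f (x j + t) - f (x j + t - η)) * D.d η (x j) := by
      intro j
      have h1 := key j
      rw [mul_assoc] at h1
      exact (mul_pos_iff_of_pos_left (Real.exp_pos _)).1 h1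
    have h1 := key2 i.castSucc
    have h2 := key2 i.succ
    have h3 := hx3 i
    show (f (x i.castSucc + t) - f (x i.castSucc + t - η)) * (f (x i.succ + t) - f (x i.succ + t - η)) < 0
    by_contra h4
    have h5 := mul_pos h1 h2
    have h6 : (f (x i.castSucc + t) - f (x i.castSucc + t - η)) * D.d η (x i.castSucc) *
        ((f (x i.succ + t) - f (x i.succ + t - η)) * D.d η (x i.succ)) =
        ((f (x i.castSucc + t) - f (x i.castSucc + t - η)) * (f (x i.succ + t) - f (x i.succ + t - η))) *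
          (D.d η (x i.castSucc) * D.d η (x i.succ)) := by ring
    rw [h6] at h5
    have h7 := mul_nonpos_of_nonneg_of_nonpos (not_lt.1 h4) h3.le
    linarith

end Pool.Agent.H50.RL
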