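import Pool.Agent.H50.RL.Defs

/-!
[H50 RL RMK] From bounded `L¹` functions on the line with convergent Fourier coefficients at the integers to a signed
measure on the circle.

PROOF. Let `P n` be real integrable functions with `∫ |P n| ≤ C`. Let `ν n` be the push-forward under the quotient map
`ℝ → Ci` (continuous, measurable) of `volume.withDensity (ENNReal.ofReal (P n))`, and `ν' n` the same for `-P n`
(negative part): finite measures of mass `≤ C`. For continuous `f : Ci → ℝ`, `∫ f dν n = ∫ f(u) (P n u)⁺ du`.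
Let `U = hyperfilter ℕ`. For `f ∈ C(Ci, ℝ)` the sequence `∫ f dν n` is bounded (`≤ C ‖f‖`), so it has a limit `Λ f` along
`U`; `Λ` is linear and positive. By Riesz-Markov-Kakutani (`RealRMK.rieszMeasure`, `RealRMK.integral_rieszMeasure`,
`Ci` is compact so `C_c = C`) there is a measure `μ₁`, finite because `Ci` is compact, with `∫ f dμ₁ = Λ f` for all
real continuous `f`; similarly `μ₂` from `ν'`. For complex `f = fourier (-k)` split into real and imaginary part:
`∫ fourier (-k) dμ₁ = lim_U ∫ fourier (-k) dν n`. So `cf μ₁ μ₂ k = lim_U (∫ fourier(-k) dν n - ∫ fourier(-k) dν' n) =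
lim_U ∫ exp(-iku) P n u du = c k` (`fourier_coe_apply`: `fourier (-k) (u : Ci) = exp(2πi (-k) u/(2π)) = exp(-iku)`; the
sequence converges to `c k` along `atTop`, hence along `U ≤ atTop`: `Nat.hyperfilter_le_atTop`).
-/

set_option autoImplicit false

namespace Pool.Agent.H50.RL

open MeasureTheory Filter Topology

private theorem map_intg {Q : ℝ → ℝ} (hQ : Integrable Q) (f : C(Ci, ℝ)) :
    Integrable fun u : ℝ => f (u : Ci) * Q u := by
  refine hQ.bdd_mul (c := ‖f‖) ?_ ?_
  · exact (f.continuous.comp (AddCircle.continuous_mk' (2 * Real.pi))).aestronglyMeasurable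
  · exact Filter.Eventually.of_forall fun u => f.norm_coe_le_norm _

private theorem map_bnd {Q : ℝ → ℝ} (hQ : Integrable Q) (hpos : ∀ u, 0 ≤ Q u) {C : ℝ}
    (hC : ∫ u, Q u ≤ C) (f : C(Ci, ℝ)) : |∫ u : ℝ, f (u : Ci) * Q u| ≤ ‖f‖ * C := by
  calc |∫ u : ℝ, f (u : Ci) * Q u| ≤ ∫ u : ℝ, |f (u : Ci) * Q u| := abs_integral_le_integral_abs
    _ ≤ ∫ u : ℝ, ‖f‖ * Q u := by
        refine integral_mono (map_intg hQ f).abs (hQ.const_mul _) fun u => ?_
        change |f (u : Ci) * Q u| ≤ ‖f‖ * Q u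
        rw [abs_mul, abs_of_nonneg (hpos u)]
        exact mul_le_mul_of_nonneg_right (f.norm_coe_le_norm _) (hpos u)
    _ = ‖f‖ * ∫ u, Q u := by rw [integral_const_mul]
    _ ≤ ‖f‖ * C := mul_le_mul_of_nonneg_left hC (norm_nonneg f)

private theorem rmk_pos (Q : ℕ → ℝ → ℝ) (C : ℝ) (hint : ∀ n, Integrable (Q n))
    (hpos : ∀ n u, 0 ≤ Q n u) (hC : ∀ n, ∫ u, Q n u ≤ C) :
    ∃ μ : Measure Ci, IsFiniteMeasure μ ∧ ∀ f : C(Ci, ℝ),
      Tendsto (fun n => ∫ u : ℝ, f (u : Ci) * Q n u) (hyperfilter ℕ : Filter ℕ)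
        (𝓝 (∫ x, f x ∂μ)) := by
  have hlim : ∀ f : C(Ci, ℝ), ∃ L : ℝ,
      Tendsto (fun n => ∫ u : ℝ, f (u : Ci) * Q n u) (hyperfilter ℕ : Filter ℕ) (𝓝 L) := by
    intro f
    have hcpt : IsCompact (Set.Icc (-(‖f‖ * C)) (‖f‖ * C)) := isCompact_Icc
    have h1 := hcpt.ultrafilter_le_nhds ((hyperfilter ℕ).map fun n => ∫ u : ℝ, f (u : Ci) * Q n u)
      (by
        rw [Filter.le_principal_iff, Ultrafilter.coe_map, Filter.mem_map]
        refine Filter.univ_mem' fun n => ?_
        exact abs_le.1 (map_bnd (hint n) (hpos n) (hC n) f))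
    obtain ⟨L, -, hL⟩ := h1
    exact ⟨L, hL⟩
  choose L hL using hlim
  have hadd : ∀ f g : C(Ci, ℝ), L (f + g) = L f + L g := by
    intro f g
    refine tendsto_nhds_unique (hL (f + g)) (((hL f).add (hL g)).congr fun n => ?_)
    rw [← integral_add (map_intg (hint n) f) (map_intg (hint n) g)]
    refine integral_congr_ae (Filter.Eventually.of_forall fun u => ?_)
    change f (u : Ci) * Q n u + g (u : Ci) * Q n u = (f (u : Ci) + g (u : Ci)) * Q n u
    ring
  have hsmul : ∀ (c : ℝ) (f : C(Ci, ℝ)), L (c • f) = c * L f := by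
    intro c f
    refine tendsto_nhds_unique (hL (c • f)) (((hL f).const_mul c).congr fun n => ?_)
    rw [← integral_const_mul]
    refine integral_congr_ae (Filter.Eventually.of_forall fun u => ?_)
    change c * (f (u : Ci) * Q n u) = (c * f (u : Ci)) * Q n u
    ring
  have hnn : ∀ f : C(Ci, ℝ), (∀ x, 0 ≤ f x) → 0 ≤ L f := by
    intro f hf
    exact ge_of_tendsto' (hL f) fun n => integral_nonneg fun u => mul_nonneg (hf _) (hpos n u)
  let Λ : CompactlySupportedContinuousMap Ci ℝ →ₚ[ℝ] ℝ := PositiveLinearMap.mk₀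
    { toFun := fun f => L f.toContinuousMap
      map_add' := fun f g => hadd _ _
      map_smul' := fun c f => hsmul _ _ }
    (fun f hf => hnn _ fun x => hf x)
  refine ⟨RealRMK.rieszMeasure Λ, inferInstance, fun f => ?_⟩
  have h := RealRMK.integral_rieszMeasure Λ
    (CompactlySupportedContinuousMap.continuousMapEquiv f)
  have h2 : Λ (CompactlySupportedContinuousMap.continuousMapEquiv f) = L f := rfl
  rw [h2] at h
  have h3 : ∫ x, f x ∂(RealRMK.rieszMeasure Λ) = L f := h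
  rw [h3]
  exact hL f

private theorem rmk_cx {Q : ℕ → ℝ → ℝ} (hint : ∀ n, Integrable (Q n)) {μ : Measure Ci}
    [IsFiniteMeasure μ]
    (h : ∀ f : C(Ci, ℝ), Tendsto (fun n => ∫ u : ℝ, f (u : Ci) * Q n u)
      (hyperfilter ℕ : Filter ℕ) (𝓝 (∫ x, f x ∂μ))) (F : C(Ci, ℂ)) :
    Tendsto (fun n => ∫ u : ℝ, ((Q n u : ℝ) : ℂ) * F (u : Ci)) (hyperfilter ℕ : Filter ℕ)
      (𝓝 (∫ x, F x ∂μ)) := by
  let fr : C(Ci, ℝ) := ⟨fun x => (F x).re, Complex.continuous_re.comp F.continuous⟩
  let fi : C(Ci, ℝ) := ⟨fun x => (F x).im, Complex.continuous_im.comp F.continuous⟩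
  have hr := h fr
  have hi := h fi
  have hint1 : ∀ f : C(Ci, ℝ), Integrable (fun x => f x) μ := fun f =>
    (BoundedContinuousFunction.integrable μ (BoundedContinuousFunction.mkOfCompact f))
  have hFμ : Integrable (fun x => F x) μ :=
    (BoundedContinuousFunction.integrable μ (BoundedContinuousFunction.mkOfCompact F))
  have e1 : ∫ x, F x ∂μ = ((∫ x, fr x ∂μ : ℝ) : ℂ) + ((∫ x, fi x ∂μ : ℝ) : ℂ) * Complex.I := by
    rw [← integral_complex_ofReal, ← integral_complex_ofReal, ← integral_mul_const, ← integral_add]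
    · refine integral_congr_ae (Filter.Eventually.of_forall fun x => ?_)
      exact (Complex.re_add_im (F x)).symm
    · exact (hint1 fr).ofReal
    · exact (hint1 fi).ofReal.mul_const _
  have e2 : ∀ n, ∫ u : ℝ, ((Q n u : ℝ) : ℂ) * F (u : Ci) =
      ((∫ u : ℝ, fr (u : Ci) * Q n u : ℝ) : ℂ) +
        ((∫ u : ℝ, fi (u : Ci) * Q n u : ℝ) : ℂ) * Complex.I := by
    intro n
    rw [← integral_complex_ofReal, ← integral_complex_ofReal, ← integral_mul_const, ← integral_add]
    · refine integral_congr_ae (Filter.Eventually.of_forall fun u => ?_)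
      change ((Q n u : ℝ) : ℂ) * F (u : Ci) = (((F (u : Ci)).re * Q n u : ℝ) : ℂ) +
        (((F (u : Ci)).im * Q n u : ℝ) : ℂ) * Complex.I
      conv_lhs => rw [← Complex.re_add_im (F (u : Ci))]
      push_cast
      ring
    · exact (map_intg (hint n) fr).ofReal
    · exact (map_intg (hint n) fi).ofReal.mul_const _
  rw [e1]
  refine Tendsto.congr (fun n => (e2 n).symm) ?_
  exact ((Complex.continuous_ofReal.tendsto _).comp hr).add
    (((Complex.continuous_ofReal.tendsto _).comp hi).mul_const _)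

theorem rmk (P : ℕ → ℝ → ℝ) (C : ℝ) (hint : ∀ n, Integrable (P n)) (hC : ∀ n, ∫ u, |P n u| ≤ C) (c : ℤ → ℂ)
    (hc : ∀ k : ℤ, Tendsto (fun n => ∫ u : ℝ, ((P n u : ℝ) : ℂ) *
      Complex.exp (-((((k : ℝ) * u : ℝ) : ℂ) * Complex.I))) atTop (𝓝 (c k))) :
    ∃ μ₁ μ₂ : Measure Ci, IsFiniteMeasure μ₁ ∧ IsFiniteMeasure μ₂ ∧ ∀ k : ℤ, cf μ₁ μ₂ k = c k := by
  have hi1 : ∀ n, Integrable fun u => max (P n u) 0 := fun n => (hint n).pos_part
  have hi2 : ∀ n, Integrable fun u => max (-P n u) 0 := fun n => (hint n).neg_part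
  have hb1 : ∀ n, ∫ u, max (P n u) 0 ≤ C := fun n =>
    (integral_mono (hi1 n) (hint n).abs fun u => max_le (le_abs_self _) (abs_nonneg _)).trans (hC n)
  have hb2 : ∀ n, ∫ u, max (-P n u) 0 ≤ C := fun n =>
    (integral_mono (hi2 n) (hint n).abs fun u => max_le (neg_le_abs _) (abs_nonneg _)).trans (hC n)
  obtain ⟨μ₁, hf1, h1⟩ := rmk_pos (fun n u => max (P n u) 0) C hi1 (fun n u => le_max_right _ _) hb1
  obtain ⟨μ₂, hf2, h2⟩ := rmk_pos (fun n u => max (-P n u) 0) C hi2 (fun n u => le_max_right _ _) hb2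
  refine ⟨μ₁, μ₂, hf1, hf2, fun k => ?_⟩
  have t1 := rmk_cx hi1 h1 (fourier (-k))
  have t2 := rmk_cx hi2 h2 (fourier (-k))
  have t3 := (hc k).mono_left Nat.hyperfilter_le_atTop
  unfold cf
  refine tendsto_nhds_unique ((t1.sub t2).congr fun n => ?_) t3
  have g1 : ∀ Q : ℝ → ℝ, Integrable Q →
      Integrable fun u : ℝ => ((Q u : ℝ) : ℂ) * fourier (-k) (u : Ci) := by
    intro Q hQ
    have h3 : Integrable fun u : ℝ => fourier (-k) (u : Ci) * ((Q u : ℝ) : ℂ) := by
      refine hQ.ofReal.bdd_mul (c := ‖(fourier (-k) : C(Ci, ℂ))‖) ?_ ?_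
      · exact ((fourier (-k) : C(Ci, ℂ)).continuous.comp
          (AddCircle.continuous_mk' (2 * Real.pi))).aestronglyMeasurable
      · exact Filter.Eventually.of_forall fun u => (fourier (-k) : C(Ci, ℂ)).norm_coe_le_norm _
    exact h3.congr (Filter.Eventually.of_forall fun u => mul_comm _ _)
  rw [← integral_sub (g1 _ (hi1 n)) (g1 _ (hi2 n))]
  refine integral_congr_ae (Filter.Eventually.of_forall fun u => ?_)
  have e1 : (fourier (-k) (u : Ci) : ℂ) =
      Complex.exp (-((((k : ℝ) * u : ℝ) : ℂ) * Complex.I)) := by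
    rw [fourier_coe_apply]
    congr 1
    have hpi : (Real.pi : ℂ) ≠ 0 := by exact_mod_cast Real.pi_ne_zero
    push_cast
    field_simp
  have e2 : max (P n u) 0 - max (-P n u) 0 = P n u := by
    rcases le_total 0 (P n u) with h | h
    · rw [max_eq_left h, max_eq_right (by linarith)]; ring
    · rw [max_eq_right h, max_eq_left (by linarith)]; ring
  change ((max (P n u) 0 : ℝ) : ℂ) * fourier (-k) (u : Ci) -
    ((max (-P n u) 0 : ℝ) : ℂ) * fourier (-k) (u : Ci) = _
  rw [← sub_mul, ← Complex.ofReal_sub, e2, e1]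

end Pool.Agent.H50.RL
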