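import Pool.Agent.H50.RL.Cir
import Pool.Agent.H50.RL.Rmk
import Pool.Agent.H50.RL.Gap
import Pool.Agent.H50.RL.Lim
import Pool.Agent.H50.RL.Dft

/-!
[H50 RL PARTD] Part D of RIGHTMOST LINE: a line with infinitely many zeros (of density zero) forces unboundedly many
sign changes.

PROOF. W.l.o.g. all `η n ≤ 1` (drop finitely many terms, or use `min`: since `η → 0`, replace `η` by `fun n => η (n+N)`).
`limit_sc`: for every `n` and `y`, `¬ SC (D.d (η n)) y (y+1) (M+1)`. `P n u = D.d (η n) u * phi u / η n` is integrable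
(`dphi_int`), `∫ |P n| ≤ C` (`dphi_l1` divided by `η n`), and its Fourier coefficients tend to `D.c k` (`c_lim`). `rmk`
gives `μ₁, μ₂` with `cf μ₁ μ₂ = D.c`.
For `j : ℕ` choose `i j` by `gaps` with `R = j + 10`, `L = j + 1`, and let `n j = round (γ (i j))`, `|n j - γ| ≤ 1/2`
(`abs_sub_round`), so `|n j| → ∞`. For `3 ≤ l ≤ j`: `D.c (n j - l) = 0`, since every `phihat (n j - l - γ i') = 0`,
that is `|n j - l - γ i'| ≥ 1`: if `γ i' ≥ γ (i j)` then `γ i' - (n j - l) ≥ -1/2 + 3`; otherwise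
`γ i' ≤ γ (i j) - R` by the gap and `n j - l - γ i' ≥ R - 1/2 - l ≥ 9`. And `‖D.c (n j)‖ ≥ 3`: the sum of nonnegative
terms (finitely many nonzero: summable) is at least `m phihat(n j - γ (i j)) ≥ 2π (1 - 1/2) = π`. So `no_gap`
gives a contradiction.
-/

set_option autoImplicit false

namespace Pool.Agent.H50.RL

open MeasureTheory Filter Topology

private theorem pd_phihat_zero {ξ : ℝ} (h : 1 ≤ |ξ|) : phihat ξ = 0 := by
  unfold phihat
  rw [max_eq_left (by linarith), mul_zero]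

private theorem pd_phihat_nonneg (ξ : ℝ) : 0 ≤ phihat ξ := by
  unfold phihat
  have h1 : 0 ≤ max 0 (1 - |ξ|) := le_max_left _ _
  have h2 := Real.pi_pos
  positivity

private theorem pd_phihat_big {ξ : ℝ} (h : |ξ| ≤ 1 / 2) : 3 ≤ phihat ξ := by
  unfold phihat
  have h1 : 1 / 2 ≤ max 0 (1 - |ξ|) := le_max_of_le_right (by linarith)
  have h2 := Real.pi_gt_three
  nlinarith

private theorem pd_c_zero (D : LineData) (k : ℤ) (h : ∀ i, 1 ≤ |(k : ℝ) - D.γ i|) : D.c k = 0 := by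
  unfold LineData.c
  have h1 : ∀ i, ((D.m i * phihat ((k : ℝ) - D.γ i) : ℝ) : ℂ) = 0 := by
    intro i
    rw [pd_phihat_zero (h i), mul_zero, Complex.ofReal_zero]
  simp [h1]

private theorem pd_c_big (D : LineData) (k : ℤ) (i : D.ι) (h : |(k : ℝ) - D.γ i| ≤ 1 / 2) :
    3 ≤ ‖D.c k‖ := by
  unfold LineData.c
  rw [norm_neg, ← Complex.ofReal_tsum, Complex.norm_real, Real.norm_eq_abs]
  have hm : ∀ l, 0 ≤ D.m l := fun l => le_trans zero_le_one (D.one_le l)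
  have hnn : ∀ l, 0 ≤ D.m l * phihat ((k : ℝ) - D.γ l) := fun l =>
    mul_nonneg (hm l) (pd_phihat_nonneg _)
  have hs : Summable fun l => D.m l * phihat ((k : ℝ) - D.γ l) := by
    refine summable_of_finite_support ((loc_fin D (|(k : ℝ)| + 1)).subset ?_)
    intro l hl
    by_contra hcon
    apply hl
    have h1 : |(k : ℝ)| + 1 < |D.γ l| := not_le.1 hcon
    have h2 : |D.γ l| - |(k : ℝ)| ≤ |D.γ l - (k : ℝ)| := abs_sub_abs_le_abs_sub _ _
    have h3 : 1 ≤ |(k : ℝ) - D.γ l| := by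
      rw [abs_sub_comm]
      linarith
    show D.m l * phihat ((k : ℝ) - D.γ l) = 0
    rw [pd_phihat_zero h3, mul_zero]
  have h1 : D.m i * phihat ((k : ℝ) - D.γ i) ≤ ∑' l, D.m l * phihat ((k : ℝ) - D.γ l) :=
    hs.le_tsum i fun l _ => hnn l
  have h2 := pd_phihat_big h
  have h3 := D.one_le i
  have h4 : 3 ≤ D.m i * phihat ((k : ℝ) - D.γ i) := by nlinarith
  exact le_trans (le_trans h4 h1) (le_abs_self _)

theorem part_d (D : LineData) (hinf : {i : D.ι | 0 < D.γ i}.Infinite)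
    (hdens : ∀ ε : ℝ, 0 < ε → ∃ T0 : ℝ, ∀ T : ℝ, T0 ≤ T → ({i : D.ι | |D.γ i| ≤ T}.ncard : ℝ) ≤ ε * T)
    (f : ℝ → ℝ) (hf : Tendsto (fun y => Real.exp (-(D.Θ * y)) * f y - D.r y) atTop (𝓝 0))
    (M : ℕ) (η : ℕ → ℝ) (h0 : ∀ n, 0 < η n) (hη : Tendsto η atTop (𝓝 0))
    (hSC : ∀ n, ∃ Y0 : ℝ, ∀ y ≥ Y0, ¬ SC (fun v => f v - f (v - η n)) y (y + 1) (M + 1)) : False := by
  -- all `η n ≤ 1`
  obtain ⟨N, hN⟩ : ∃ N : ℕ, ∀ n ≥ N, η n ≤ 1 := by
    have h1 : ∀ᶠ n in atTop, η n < 1 := hη.eventually (gt_mem_nhds one_pos)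
    obtain ⟨N, hN⟩ := eventually_atTop.1 h1
    exact ⟨N, fun n hn => (hN n hn).le⟩
  have hη' : Tendsto (fun n => η (n + N)) atTop (𝓝 0) := (tendsto_add_atTop_iff_nat N).2 hη
  have h1' : ∀ n, η (n + N) ≤ 1 := fun n => hN _ (by omega)
  have h0' : ∀ n, 0 < η (n + N) := fun n => h0 _
  -- sign changes of the limit
  have hsc : ∀ n y, ¬ SC (D.d (η (n + N))) y (y + 1) (M + 1) := by
    intro n y
    obtain ⟨Y0, hY⟩ := hSC (n + N)
    exact limit_sc D f hf (η (n + N)) (h0' n).le (M + 1) Y0 hY y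
  obtain ⟨C, hC⟩ := dphi_l1 D M
  obtain ⟨μ₁, μ₂, hμ1, hμ2, hcf⟩ := rmk (fun n u => D.d (η (n + N)) u * phi u / η (n + N)) C
    (fun n => (dphi_int D (η (n + N)) (h0' n).le).div_const _)
    (fun n => by
      have h2 := hC (η (n + N)) (h0' n) (h1' n) (hsc n)
      have h3 : (fun u => |D.d (η (n + N)) u * phi u / η (n + N)|) =
          fun u => |D.d (η (n + N)) u * phi u| / η (n + N) := by
        funext u
        rw [abs_div, abs_of_pos (h0' n)]
      rw [h3, integral_div, div_le_iff₀ (h0' n)]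
      exact h2)
    D.c (fun k => c_lim D (fun n => η (n + N)) h0' hη' k)
  have := hμ1
  have := hμ2
  -- ordinates after long gaps
  have hg : ∀ j : ℕ, ∃ i : D.ι, ((j : ℝ) + 1) ≤ D.γ i ∧
      ∀ l : D.ι, ¬ (D.γ i - ((j : ℝ) + 10) < D.γ l ∧ D.γ l < D.γ i) :=
    fun j => gaps D hinf hdens ((j : ℝ) + 10) ((j : ℝ) + 1)
  choose i hi1 hi2 using hg
  have hr : ∀ j, |D.γ (i j) - (round (D.γ (i j)) : ℝ)| ≤ 1 / 2 := fun j => abs_sub_round _
  refine no_gap μ₁ μ₂ (fun j => round (D.γ (i j))) ?_ ?_ 3 (by norm_num) ?_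
  · refine tendsto_atTop_mono (fun j => ?_) (tendsto_natCast_atTop_atTop (R := ℤ))
    have h2 := abs_le.1 (hr j)
    have h3 := hi1 j
    have h4 : ((j : ℤ) : ℝ) ≤ ((round (D.γ (i j)) : ℤ) : ℝ) := by
      rw [Int.cast_natCast]
      linarith [h2.2]
    exact le_trans (Int.cast_le.1 h4) (le_abs_self _)
  · intro j l hl3 hlj
    rw [hcf]
    refine pd_c_zero D _ fun i' => ?_
    have h2 := abs_le.1 (hr j)
    have h3 : (3 : ℝ) ≤ (l : ℝ) := by exact_mod_cast hl3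
    have h4 : (l : ℝ) ≤ (j : ℝ) := by exact_mod_cast hlj
    push_cast
    rcases le_or_gt (D.γ (i j)) (D.γ i') with h5 | h5
    · refine le_trans ?_ (neg_le_abs _)
      linarith [h2.1, h2.2]
    · have h6 : D.γ i' ≤ D.γ (i j) - ((j : ℝ) + 10) := by
        by_contra hcon
        exact hi2 j i' ⟨not_le.1 hcon, h5⟩
      refine le_trans ?_ (le_abs_self _)
      linarith [h2.1, h2.2]
  · intro j
    rw [hcf]
    refine pd_c_big D _ (i j) ?_
    rw [abs_sub_comm]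
    exact hr j

end Pool.Agent.H50.RL
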