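import Pool.Agent.H50.RL.Ic
import Pool.Agent.H50.RL.PartD

/-!
[H50 RL DZ] Part D for zeta: infinitely many zeros on the rightmost line.

PROOF. See the header of `Ic.lean`: apply `part_d` to `D` from `line_data Θ`. `hinf`: infinitely many zeros on the line, closed under conjugation, at
most one with `γ = 0`; so infinitely many `γ > 0`. `hdens`: for `ε > 0` choose a finite set `F` of indices with `Σ_{i ∉ F} 1/‖ρ_i‖ ≤ ε/4` (`D.summ`, `D.one_le`); then
`N(T) ≤ card F + Σ_{i ∉ F, |γ i| ≤ T} 1 ≤ card F + (T + 1) ε/4`, as `1 ≤ (T+1)/‖ρ_i‖` if `|γ i| ≤ T` (`‖ρ_i‖ ≤ Θ + T`).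
-/

set_option autoImplicit false

namespace Pool.Agent.H50.RL

open MeasureTheory Filter Topology

/-- the density of the ordinates of line data is zero -/
private theorem dz_dens (D : LineData) (ε : ℝ) (hε : 0 < ε) :
    ∃ T0 : ℝ, ∀ T : ℝ, T0 ≤ T → ({i : D.ι | |D.γ i| ≤ T}.ncard : ℝ) ≤ ε * T := by
  classical
  obtain ⟨w, hw⟩ : ∃ w : D.ι → ℝ, w = fun i => D.m i / ‖(D.Θ : ℂ) + (D.γ i : ℂ) * Complex.I‖ := ⟨_, rfl⟩
  have hws : Summable w := by rw [hw]; exact D.summ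
  have hw0 : ∀ i, 0 ≤ w i := by
    intro i
    rw [hw]
    exact div_nonneg (le_trans zero_le_one (D.one_le i)) (norm_nonneg _)
  obtain ⟨F, hF⟩ := (summable_iff_vanishing_norm.1 hws) (ε / 4) (by positivity)
  refine ⟨max (max 1 D.Θ) (4 * (F.card : ℝ) / ε), fun T hT => ?_⟩
  have hT1 : 1 ≤ T := le_trans (le_trans (le_max_left _ _) (le_max_left _ _)) hT
  have hTΘ : D.Θ ≤ T := le_trans (le_trans (le_max_right _ _) (le_max_left _ _)) hT
  have hTF : 4 * (F.card : ℝ) / ε ≤ T := le_trans (le_max_right _ _) hT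
  have hfin : {i : D.ι | |D.γ i| ≤ T}.Finite := loc_fin D T
  obtain ⟨S, hS⟩ : ∃ S : Finset D.ι, S = hfin.toFinset := ⟨_, rfl⟩
  have hSm : ∀ i, i ∈ S ↔ |D.γ i| ≤ T := by
    intro i
    rw [hS, Set.Finite.mem_toFinset]
    rfl
  have hcard : {i : D.ι | |D.γ i| ≤ T}.ncard = S.card := by
    rw [hS]
    exact Set.ncard_eq_toFinset_card _ hfin
  rw [hcard]
  -- the part outside `F`
  have h1 : ‖∑ i ∈ S \ F, w i‖ < ε / 4 := hF (S \ F) Finset.sdiff_disjoint
  have h2 : ∑ i ∈ S \ F, w i < ε / 4 := lt_of_le_of_lt (le_abs_self _) h1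
  have h3 : ∀ i ∈ S \ F, 1 / (2 * T) ≤ w i := by
    intro i hi
    have h4 : |D.γ i| ≤ T := (hSm i).1 (Finset.mem_sdiff.1 hi).1
    have h5 : ‖(D.Θ : ℂ) + (D.γ i : ℂ) * Complex.I‖ ≤ 2 * T := by
      refine le_trans (norm_add_le _ _) ?_
      rw [norm_mul, Complex.norm_I, mul_one, Complex.norm_real, Complex.norm_real, Real.norm_eq_abs,
        Real.norm_eq_abs, abs_of_pos D.Θpos]
      linarith
    have h6 : 0 < ‖(D.Θ : ℂ) + (D.γ i : ℂ) * Complex.I‖ := by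
      rw [norm_pos_iff]
      intro h
      have h7 := congrArg Complex.re h
      simp at h7
      exact D.Θpos.ne' h7
    rw [hw]
    show 1 / (2 * T) ≤ D.m i / ‖(D.Θ : ℂ) + (D.γ i : ℂ) * Complex.I‖
    exact div_le_div₀ (le_trans zero_le_one (D.one_le i)) (D.one_le i) h6 h5
  have h8 : ((S \ F).card : ℝ) * (1 / (2 * T)) ≤ ∑ i ∈ S \ F, w i := by
    have := Finset.card_nsmul_le_sum (S \ F) w (1 / (2 * T)) h3
    rwa [nsmul_eq_mul] at this
  have h9 : ((S \ F).card : ℝ) ≤ ε / 2 * T := by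
    have h10 : ((S \ F).card : ℝ) * (1 / (2 * T)) < ε / 4 := lt_of_le_of_lt h8 h2
    rw [mul_one_div, div_lt_iff₀ (by linarith)] at h10
    linarith
  have h11 : (S.card : ℝ) ≤ ((S \ F).card : ℝ) + (F.card : ℝ) := by
    have := Finset.card_le_card_sdiff_add_card (s := S) (t := F)
    exact_mod_cast this
  have h12 : (F.card : ℝ) ≤ ε / 4 * T := by
    rw [div_le_iff₀ hε] at hTF
    linarith
  have h13 : 0 < ε * T := mul_pos hε (by linarith)
  linarith

theorem part_dz (Θ : ℝ) (hΘ : 1 / 2 < Θ) (hΘ1 : Θ < 1) (hmax : ∀ ρ : ZZ, (ρ : ℂ).re ≤ Θ)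
    (hinf : {ρ : ℂ | riemannZeta ρ = 0 ∧ ρ.re = Θ}.Infinite)
    (M : ℕ) (η : ℕ → ℝ) (h0 : ∀ n, 0 < η n) (hη : Tendsto η atTop (𝓝 0))
    (hSC : ∀ n, ∃ Y0 : ℝ, ∀ y ≥ Y0, ¬ SC (fun v => fz v - fz (v - η n)) y (y + 1) (M + 1)) : False := by
  classical
  obtain ⟨D, hDΘ, hDr, e, he⟩ := line_data Θ hΘ
  refine part_d D ?_ (dz_dens D) fz ?_ M η h0 hη hSC
  · -- infinitely many positive ordinates
    intro hfin
    apply hinf
    -- the images of the positive ordinates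
    have hA : (((fun i : D.ι => ((e i : ZZ) : ℂ))) '' {i : D.ι | 0 < D.γ i}).Finite := hfin.image _
    refine (((hA.union (hA.image (starRingEnd ℂ))).union (Set.finite_singleton ((Θ : ℝ) : ℂ)))).subset ?_
    rintro ρ ⟨hρ, hre⟩
    rcases lt_trichotomy ρ.im 0 with h | h | h
    · left; right
      refine ⟨(starRingEnd ℂ) ρ, ?_, Complex.conj_conj ρ⟩
      refine ⟨e.symm ⟨⟨(starRingEnd ℂ) ρ, zeta_conj_zero ρ hρ⟩, by simpa using hre⟩, ?_, ?_⟩
      · show 0 < D.γ _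
        rw [he, Equiv.apply_symm_apply]
        simpa using h
      · show (((e (e.symm _) : {ρ : ZZ // (ρ : ℂ).re = Θ}) : ZZ) : ℂ) = _
        rw [Equiv.apply_symm_apply]
    · right
      refine Complex.ext ?_ ?_
      · simpa using hre
      · simpa using h
    · left; left
      refine ⟨e.symm ⟨⟨ρ, hρ⟩, hre⟩, ?_, ?_⟩
      · show 0 < D.γ _
        rw [he, Equiv.apply_symm_apply]
        exact h
      · show (((e (e.symm _) : {ρ : ZZ // (ρ : ℂ).re = Θ}) : ZZ) : ℂ) = _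
        rw [Equiv.apply_symm_apply]
  · have h := psi_lim Θ hΘ hΘ1 hmax
    simpa only [hDΘ, hDr] using h

end Pool.Agent.H50.RL
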