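import Pool.Agent.H50.RL.Zdefs

/-!
[H50 RL FI] Fourier inversion on the line `Re s = 2`.

PROOF. `g u = Ψ u exp(2u)` is `C^4` with compact support. `Ft Ψ t = ∫ g(u) exp(itu) du = 𝓕 g (-t/(2π))` (Mathlib's
`Real.fourierIntegral`/`𝓕`: `∫ exp(-2π i u ξ) g(u) du`). `ft_bound`: continuity (`Real.fourierIntegral_continuous...` or dominated convergence);
integrate by parts four times (or `Real.fourier_iteratedDeriv` / `fourierIntegral_iteratedDeriv` with order `4` and `0`):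
`t^4 ‖Ft Ψ t‖ ≤ ∫|g''''|`, `‖Ft Ψ t‖ ≤ ∫|g|`, and `(1+t^2)^2 ≤ 4 max(1, t^4)`. `ft_inv`: `Continuous.fourierInv_fourier_eq`-type theorem
(`g` continuous, integrable, `𝓕 g` integrable by the bound), change of variables `ξ = -t/(2π)`, and
`exp(-(2+it) v) = exp(-2v) exp(-itv)`. `ft_term`: `ft_inv` at `v = log n` (`n ≥ 1`: `(n:ℂ)^(-s) = exp(-s log n)`).
`ft_pole`: `1/(2+it-z) = ∫_0^∞ exp(-(2+it-z) v) dv` (`Re z < 2`), Fubini (`∫∫ ‖Ft‖ exp(-(2-Re z) v)` is finite), then `ft_inv` for every `v > 0`.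
`ft_const`: `ft_inv` at `v = 0`.
-/

set_option autoImplicit false

namespace Pool.Agent.H50.RL

open MeasureTheory Filter Topology

private noncomputable def gg (Ψ : ℝ → ℝ) (u : ℝ) : ℂ := (Ψ u : ℂ) * Complex.exp (2 * (u : ℂ))

private theorem gg_contDiff {Ψ : ℝ → ℝ} (hΨ : ContDiff ℝ 4 Ψ) : ContDiff ℝ 4 (gg Ψ) := by
  unfold gg
  have h1 : ContDiff ℝ 4 fun u : ℝ => (Ψ u : ℂ) := Complex.ofRealCLM.contDiff.comp hΨ
  have h2 : ContDiff ℝ 4 fun u : ℝ => (2 : ℂ) * (u : ℂ) :=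
    contDiff_const.mul Complex.ofRealCLM.contDiff
  exact h1.mul h2.cexp

private theorem gg_supp {Ψ : ℝ → ℝ} (hc : HasCompactSupport Ψ) : HasCompactSupport (gg Ψ) := by
  have h1 : HasCompactSupport fun u : ℝ => (Ψ u : ℂ) := hc.comp_left (g := fun x : ℝ => (x : ℂ))
    Complex.ofReal_zero
  exact h1.mul_right

private theorem iter_supp {g : ℝ → ℂ} (hg : HasCompactSupport g) (n : ℕ) :
    HasCompactSupport (iteratedDeriv n g) := by
  induction n with
  | zero => rwa [iteratedDeriv_zero]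
  | succ n ih =>
    rw [iteratedDeriv_succ]
    exact ih.deriv

private theorem ft_eq (Ψ : ℝ → ℝ) (t : ℝ) :
    Ft Ψ t = FourierTransform.fourier (gg Ψ) (-t / (2 * Real.pi)) := by
  rw [Real.fourier_real_eq_integral_exp_smul]
  unfold Ft gg
  refine integral_congr_ae (Eventually.of_forall fun u => ?_)
  simp only [smul_eq_mul]
  have h1 : ((-2 * Real.pi * u * (-t / (2 * Real.pi)) : ℝ) : ℂ) = (u : ℂ) * (t : ℂ) := by
    have : -2 * Real.pi * u * (-t / (2 * Real.pi)) = u * t := by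
      have := Real.pi_pos
      field_simp
    rw [this]
    push_cast
    ring
  rw [h1, mul_left_comm, ← Complex.exp_add]
  congr 2
  ring

private theorem gg_int {Ψ : ℝ → ℝ} (hΨ : ContDiff ℝ 4 Ψ) (hc : HasCompactSupport Ψ) :
    Integrable (gg Ψ) :=
  (gg_contDiff hΨ).continuous.integrable_of_hasCompactSupport (gg_supp hc)

private theorem fourier_cont {g : ℝ → ℂ} (hg : Integrable g) :
    Continuous (FourierTransform.fourier g : ℝ → ℂ) :=
  VectorFourier.fourierIntegral_continuous Real.continuous_fourierChar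
    (by exact continuous_inner) hg

private theorem fourier_le (g : ℝ → ℂ) (x : ℝ) :
    ‖(FourierTransform.fourier g : ℝ → ℂ) x‖ ≤ ∫ v, ‖g v‖ :=
  VectorFourier.norm_fourierIntegral_le_integral_norm _ _ _ _ _

theorem ft_bound (Ψ : ℝ → ℝ) (hΨ : ContDiff ℝ 4 Ψ) (hc : HasCompactSupport Ψ) :
    Continuous (Ft Ψ) ∧ ∃ C : ℝ, ∀ t : ℝ, ‖Ft Ψ t‖ ≤ C / (1 + t ^ 2) ^ 2 := by
  have hF : Ft Ψ = fun t => FourierTransform.fourier (gg Ψ) (-t / (2 * Real.pi)) :=
    funext fun t => ft_eq Ψ t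
  constructor
  · rw [hF]
    exact (fourier_cont (gg_int hΨ hc)).comp (by fun_prop)
  · have h4 : ∀ n : ℕ, (n : ℕ∞) ≤ 4 → Integrable (iteratedDeriv n (gg Ψ)) := by
      intro n hn
      have h5 : Continuous (iteratedDeriv n (gg Ψ)) :=
        (gg_contDiff hΨ).continuous_iteratedDeriv n (by exact_mod_cast hn)
      exact h5.integrable_of_hasCompactSupport (iter_supp (gg_supp hc) n)
    have h6 := Real.fourier_iteratedDeriv (f := gg Ψ) (N := 4) (n := 4)
      (by exact_mod_cast gg_contDiff hΨ) h4 le_rfl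
    refine ⟨2 * ((∫ v, ‖gg Ψ v‖) + ∫ v, ‖iteratedDeriv 4 (gg Ψ) v‖), fun t => ?_⟩
    rw [le_div_iff₀ (by positivity)]
    have h7 : ‖Ft Ψ t‖ ≤ ∫ v, ‖gg Ψ v‖ := by
      rw [ft_eq]
      exact fourier_le _ _
    have h8 : t ^ 4 * ‖Ft Ψ t‖ ≤ ∫ v, ‖iteratedDeriv 4 (gg Ψ) v‖ := by
      have h9 := fourier_le (iteratedDeriv 4 (gg Ψ)) (-t / (2 * Real.pi))
      rw [h6] at h9
      simp only [norm_smul, norm_pow, norm_mul, Complex.norm_I, Complex.norm_ofNat,
        Complex.norm_real, mul_one] at h9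
      rw [ft_eq]
      have h10 : (2 * ‖Real.pi‖ * ‖-t / (2 * Real.pi)‖) ^ 4 = t ^ 4 := by
        have h11 : 2 * ‖Real.pi‖ * ‖-t / (2 * Real.pi)‖ = |t| := by
          rw [Real.norm_eq_abs, Real.norm_eq_abs, abs_div, abs_neg, abs_mul,
            abs_of_pos Real.pi_pos, abs_of_pos (by norm_num : (0 : ℝ) < 2)]
          have := Real.pi_pos
          field_simp
        rw [h11]
        have : |t| ^ 4 = (|t| ^ 2) ^ 2 := by ring
        rw [this, sq_abs]
        ring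
      rw [h10] at h9
      exact h9
    have h12 : (1 + t ^ 2) ^ 2 ≤ 2 + 2 * t ^ 4 := by nlinarith [sq_nonneg (t ^ 2 - 1)]
    calc ‖Ft Ψ t‖ * (1 + t ^ 2) ^ 2 ≤ ‖Ft Ψ t‖ * (2 + 2 * t ^ 4) :=
          mul_le_mul_of_nonneg_left h12 (norm_nonneg _)
      _ = 2 * (‖Ft Ψ t‖ + t ^ 4 * ‖Ft Ψ t‖) := by ring
      _ ≤ 2 * ((∫ v, ‖gg Ψ v‖) + ∫ v, ‖iteratedDeriv 4 (gg Ψ) v‖) := by linarith

private theorem ft_int {Ψ : ℝ → ℝ} (hΨ : ContDiff ℝ 4 Ψ) (hc : HasCompactSupport Ψ) :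
    Integrable (Ft Ψ) := by
  obtain ⟨hcont, C, hC⟩ := ft_bound Ψ hΨ hc
  have hC0 : 0 ≤ C := by
    have := (norm_nonneg _).trans (hC 0)
    simpa using this
  refine (integrable_inv_one_add_sq.const_mul C).mono' hcont.aestronglyMeasurable
    (Eventually.of_forall fun t => (hC t).trans ?_)
  rw [div_eq_mul_inv]
  refine mul_le_mul_of_nonneg_left ?_ hC0
  apply inv_anti₀ (by positivity)
  nlinarith [sq_nonneg t, sq_nonneg (t ^ 2)]

theorem ft_inv (Ψ : ℝ → ℝ) (hΨ : ContDiff ℝ 4 Ψ) (hc : HasCompactSupport Ψ) (v : ℝ) :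
    (1 / (2 * Real.pi) : ℂ) * ∫ t : ℝ, Ft Ψ t * Complex.exp (-((2 + (t : ℂ) * Complex.I) * v)) = Ψ v := by
  have hpi := Real.pi_pos
  have hF : Integrable (FourierTransform.fourier (gg Ψ) : ℝ → ℂ) := by
    have h1 := (ft_int hΨ hc).comp_mul_left' (R := -(2 * Real.pi)) (by
      have := Real.pi_pos
      intro h
      linarith)
    refine h1.congr (Eventually.of_forall fun t => ?_)
    simp only
    rw [ft_eq]
    field_simp
  have h2 := congrFun ((gg_contDiff hΨ).continuous.fourierInv_fourier_eq (gg_int hΨ hc) hF) v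
  rw [Real.fourierInv_eq'] at h2
  have h3 : ∫ t : ℝ, Ft Ψ t * Complex.exp (-((t : ℂ) * Complex.I * v)) =
      (2 * Real.pi : ℂ) * gg Ψ v := by
    have h4 := MeasureTheory.Measure.integral_comp_div
      (fun w : ℝ => Complex.exp ((2 * Real.pi * inner ℝ w v : ℝ) * Complex.I) •
        (FourierTransform.fourier (gg Ψ) : ℝ → ℂ) w) (-(2 * Real.pi))
    rw [h2] at h4
    have h5 : |(-(2 * Real.pi))| • gg Ψ v = (2 * Real.pi : ℂ) * gg Ψ v := by
      rw [abs_neg, abs_of_pos (by positivity), Complex.real_smul]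
      push_cast
      rfl
    rw [h5] at h4
    rw [← h4]
    refine integral_congr_ae (Eventually.of_forall fun t => ?_)
    simp only [smul_eq_mul]
    rw [ft_eq, mul_comm]
    congr 1
    · congr 1
      have h6 : 2 * Real.pi * inner ℝ (t / -(2 * Real.pi)) v = -(t * v) := by
        simp only [RCLike.inner_apply, conj_trivial]
        field_simp
      rw [h6]
      push_cast
      ring
    · field_simp
  have h7 : ∀ t : ℝ, Ft Ψ t * Complex.exp (-((2 + (t : ℂ) * Complex.I) * v)) =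
      Complex.exp (-(2 * (v : ℂ))) * (Ft Ψ t * Complex.exp (-((t : ℂ) * Complex.I * v))) := by
    intro t
    rw [mul_left_comm, ← Complex.exp_add]
    congr 2
    ring
  simp_rw [h7]
  rw [integral_const_mul, h3]
  unfold gg
  have h8 : Complex.exp (-(2 * (v : ℂ))) * Complex.exp (2 * (v : ℂ)) = 1 := by
    rw [← Complex.exp_add, neg_add_cancel, Complex.exp_zero]
  have h9 : (2 * Real.pi : ℂ) ≠ 0 := by
    exact_mod_cast (by positivity : (2 * Real.pi : ℝ) ≠ 0)
  calc (1 / (2 * Real.pi) : ℂ) * (Complex.exp (-(2 * (v : ℂ))) *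
        ((2 * Real.pi : ℂ) * ((Ψ v : ℂ) * Complex.exp (2 * (v : ℂ)))))
      = ((1 / (2 * Real.pi) : ℂ) * (2 * Real.pi : ℂ)) *
        (Complex.exp (-(2 * (v : ℂ))) * Complex.exp (2 * (v : ℂ))) * Ψ v := by ring
    _ = Ψ v := by rw [h8, one_div, inv_mul_cancel₀ h9, one_mul, one_mul]

theorem ft_const (Ψ : ℝ → ℝ) (hΨ : ContDiff ℝ 4 Ψ) (hc : HasCompactSupport Ψ) :
    (1 / (2 * Real.pi) : ℂ) * ∫ t : ℝ, Ft Ψ t = Ψ 0 := by
  have h := ft_inv Ψ hΨ hc 0
  simpa using h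

theorem ft_term (Ψ : ℝ → ℝ) (hΨ : ContDiff ℝ 4 Ψ) (hc : HasCompactSupport Ψ) (n : ℕ) (hn : 1 ≤ n) :
    (1 / (2 * Real.pi) : ℂ) * ∫ t : ℝ, Ft Ψ t * (n : ℂ) ^ (-(2 + (t : ℂ) * Complex.I)) = Ψ (Real.log n) := by
  rw [← ft_inv Ψ hΨ hc (Real.log n)]
  congr 1
  refine integral_congr_ae (Eventually.of_forall fun t => ?_)
  simp only
  congr 1
  have hn0 : (n : ℂ) ≠ 0 := by
    exact_mod_cast (by omega : n ≠ 0)
  rw [Complex.cpow_def_of_ne_zero hn0, Complex.natCast_log]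
  congr 1
  ring

theorem ft_pole (Ψ : ℝ → ℝ) (hΨ : ContDiff ℝ 4 Ψ) (hc : HasCompactSupport Ψ) (z : ℂ) (hz : z.re < 2) :
    (1 / (2 * Real.pi) : ℂ) * ∫ t : ℝ, Ft Ψ t * (1 / (2 + (t : ℂ) * Complex.I - z)) = Lp Ψ z := by
  have hcont := (ft_bound Ψ hΨ hc).1
  have h1 : ∀ t : ℝ, (1 / (2 + (t : ℂ) * Complex.I - z)) =
      ∫ v in Set.Ioi (0 : ℝ), Complex.exp (-(2 + (t : ℂ) * Complex.I - z) * v) := by
    intro t
    have h2 : (-(2 + (t : ℂ) * Complex.I - z)).re < 0 := by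
      simp
      linarith
    rw [integral_exp_mul_complex_Ioi h2, Complex.ofReal_zero, mul_zero, Complex.exp_zero,
      neg_div_neg_eq]
  have hint : Integrable (Function.uncurry fun (t : ℝ) (v : ℝ) =>
      Ft Ψ t * Complex.exp (-(2 + (t : ℂ) * Complex.I - z) * v))
      (volume.prod (volume.restrict (Set.Ioi (0 : ℝ)))) := by
    have h3 : IntegrableOn (fun v : ℝ => Real.exp ((z.re - 2) * v)) (Set.Ioi 0) :=
      integrableOn_exp_mul_Ioi (by linarith) 0
    have h4 := (ft_int hΨ hc).norm.mul_prod h3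
    refine h4.mono' ?_ (Eventually.of_forall fun p => ?_)
    · apply Continuous.aestronglyMeasurable
      unfold Function.uncurry
      fun_prop
    · simp only [Function.uncurry]
      rw [norm_mul, Complex.norm_exp]
      apply le_of_eq
      congr 2
      simp
  calc (1 / (2 * Real.pi) : ℂ) * ∫ t : ℝ, Ft Ψ t * (1 / (2 + (t : ℂ) * Complex.I - z))
      = (1 / (2 * Real.pi) : ℂ) * ∫ t : ℝ, ∫ v in Set.Ioi (0 : ℝ),
          Ft Ψ t * Complex.exp (-(2 + (t : ℂ) * Complex.I - z) * v) := by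
        congr 1
        refine integral_congr_ae (Eventually.of_forall fun t => ?_)
        simp only
        rw [h1 t, integral_const_mul]
    _ = (1 / (2 * Real.pi) : ℂ) * ∫ v in Set.Ioi (0 : ℝ), ∫ t : ℝ,
          Ft Ψ t * Complex.exp (-(2 + (t : ℂ) * Complex.I - z) * v) := by
        rw [integral_integral_swap hint]
    _ = ∫ v in Set.Ioi (0 : ℝ), (1 / (2 * Real.pi) : ℂ) * ∫ t : ℝ,
          Ft Ψ t * Complex.exp (-(2 + (t : ℂ) * Complex.I - z) * v) := by
        rw [integral_const_mul]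
    _ = Lp Ψ z := by
        unfold Lp
        refine integral_congr_ae (Eventually.of_forall fun v => ?_)
        simp only
        have h5 : ∀ t : ℝ, Ft Ψ t * Complex.exp (-(2 + (t : ℂ) * Complex.I - z) * v) =
            Complex.exp (z * v) * (Ft Ψ t * Complex.exp (-((2 + (t : ℂ) * Complex.I) * v))) := by
          intro t
          rw [mul_left_comm, ← Complex.exp_add]
          congr 2
          ring
        simp_rw [h5]
        rw [integral_const_mul, mul_left_comm, ft_inv Ψ hΨ hc v, mul_comm]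

end Pool.Agent.H50.RL
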