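import Pool.Agent.H50.RL.Lz
import Pool.Agent.H50.RL.Fi

/-!
[H50 RL EF] The explicit formula.

PROOF. Multiply `log_zeta` at `s = 2 + it` by `Ft Ψ t/(2π)` and integrate over `t`. Left side: `-ζ'/ζ(s) = Σ Λ(n) n^(-s)`
(`ArithmeticFunction.LSeries_vonMangoldt_eq_deriv_riemannZeta_div`), exchange (`Σ Λ(n)/n^2 < ∞`, `∫‖Ft‖ < ∞`, `integral_tsum_of_summable_integral_norm` or
`hasSum_integral_of_summable_integral_norm`), `ft_term` (the term `n = 0` is `0`). Right side: `ft_pole` with `z = 1`, `ft_const` for `C0`, and for the sum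
over `ρ`: `‖1/(s-ρ) - 1/(2-ρ)‖ = |t|/(‖s-ρ‖‖2-ρ‖)`, `‖2-ρ‖ ≤ ‖s-ρ‖ + |t| ≤ (1+|t|)‖s-ρ‖` (`‖s-ρ‖ ≥ 2 - Re ρ > 1`), so the term is
`≤ |t|(1+|t|)/‖2-ρ‖^2 ≤ (1+t^2)·2/‖2-ρ‖^2`; times `‖Ft‖ ≤ C/(1+t^2)^2` it is integrable, and `Σ mz/‖2-ρ‖^2` converges (`s_one` with `b = 2`: `‖2-ρ‖ ≥ ‖ρ‖/2` for
`‖ρ‖ ≥ 4`, finitely many others). Exchange; the integral of the `ρ`-term is `Lp Ψ ρ - Ψ 0/(2-ρ)` (`ft_pole`, `Re ρ < 1`; `ft_const`). The same bound gives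
the summability of the norms.
-/

set_option autoImplicit false

namespace Pool.Agent.H50.RL

open MeasureTheory Filter Topology

private theorem ne_one (t : ℝ) : (2 + (t : ℂ) * Complex.I) ≠ 1 := by
  intro h
  have := congrArg Complex.re h
  simp at this

private theorem re_s (t : ℝ) : (2 + (t : ℂ) * Complex.I).re = 2 := by simp

private theorem zeta_cont : Continuous fun t : ℝ =>
    deriv riemannZeta (2 + (t : ℂ) * Complex.I) / riemannZeta (2 + (t : ℂ) * Complex.I) := by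
  have hd : DifferentiableOn ℂ riemannZeta {1}ᶜ := fun z hz =>
    (differentiableAt_riemannZeta hz).differentiableWithinAt
  have ho : IsOpen ({1}ᶜ : Set ℂ) := isOpen_compl_singleton
  have hs : Continuous fun t : ℝ => (2 + (t : ℂ) * Complex.I) := by fun_prop
  have h1 : Continuous fun t : ℝ => riemannZeta (2 + (t : ℂ) * Complex.I) :=
    hd.continuousOn.comp_continuous hs fun t => ne_one t
  have h2 : Continuous fun t : ℝ => deriv riemannZeta (2 + (t : ℂ) * Complex.I) :=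
    (hd.deriv ho).continuousOn.comp_continuous hs fun t => ne_one t
  refine h2.div h1 fun t => ?_
  exact riemannZeta_ne_zero_of_one_le_re (by rw [re_s]; norm_num)

private theorem two_sub (ρ : ZZ) : 1 ≤ ‖2 - (ρ : ℂ)‖ := by
  have h1 := zz_re_lt ρ
  have h2 := Complex.re_le_norm (2 - (ρ : ℂ))
  simp only [Complex.sub_re, Complex.re_ofNat] at h2
  linarith

private theorem s_sub (ρ : ZZ) (t : ℝ) : 1 ≤ ‖2 + (t : ℂ) * Complex.I - (ρ : ℂ)‖ := by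
  have h1 := zz_re_lt ρ
  have h2 := Complex.re_le_norm (2 + (t : ℂ) * Complex.I - (ρ : ℂ))
  rw [Complex.sub_re, re_s] at h2
  linarith

private theorem term_bd (ρ : ZZ) (t : ℝ) :
    ‖1 / (2 + (t : ℂ) * Complex.I - (ρ : ℂ)) - 1 / (2 - (ρ : ℂ))‖ ≤
      (1 + t ^ 2) * (2 / ‖2 - (ρ : ℂ)‖ ^ 2) := by
  have ha := s_sub ρ t
  have hb := two_sub ρ
  have ha0 : (2 + (t : ℂ) * Complex.I - (ρ : ℂ)) ≠ 0 := by
    rw [← norm_pos_iff]; linarith
  have hb0 : (2 - (ρ : ℂ)) ≠ 0 := by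
    rw [← norm_pos_iff]; linarith
  have e1 : 1 / (2 + (t : ℂ) * Complex.I - (ρ : ℂ)) - 1 / (2 - (ρ : ℂ)) =
      -((t : ℂ) * Complex.I) / ((2 + (t : ℂ) * Complex.I - (ρ : ℂ)) * (2 - (ρ : ℂ))) := by
    field_simp
    ring
  have e2 : ‖-((t : ℂ) * Complex.I)‖ = |t| := by
    rw [norm_neg, norm_mul, Complex.norm_I, mul_one, Complex.norm_real, Real.norm_eq_abs]
  have hle : ‖2 - (ρ : ℂ)‖ ≤ (1 + |t|) * ‖2 + (t : ℂ) * Complex.I - (ρ : ℂ)‖ := by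
    have h1 : ‖2 - (ρ : ℂ)‖ ≤ ‖2 + (t : ℂ) * Complex.I - (ρ : ℂ)‖ + ‖-((t : ℂ) * Complex.I)‖ := by
      refine le_trans (le_of_eq ?_) (norm_add_le _ _)
      congr 1
      ring
    rw [e2] at h1
    nlinarith [abs_nonneg t]
  rw [e1, norm_div, norm_mul, e2]
  have hbp : 0 < ‖2 - (ρ : ℂ)‖ := by linarith
  have hap : 0 < ‖2 + (t : ℂ) * Complex.I - (ρ : ℂ)‖ := by linarith
  rw [div_le_iff₀ (by positivity)]
  have h3 : (1 + t ^ 2) * (2 / ‖2 - (ρ : ℂ)‖ ^ 2) *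
      (‖2 + (t : ℂ) * Complex.I - (ρ : ℂ)‖ * ‖2 - (ρ : ℂ)‖) =
      2 * (1 + t ^ 2) * ‖2 + (t : ℂ) * Complex.I - (ρ : ℂ)‖ / ‖2 - (ρ : ℂ)‖ := by
    field_simp
  rw [h3, le_div_iff₀ hbp]
  have h4 : |t| * (1 + |t|) ≤ 2 * (1 + t ^ 2) := by
    have := sq_abs t
    nlinarith [abs_nonneg t, sq_nonneg (|t| - 1)]
  calc |t| * ‖2 - (ρ : ℂ)‖ ≤ |t| * ((1 + |t|) * ‖2 + (t : ℂ) * Complex.I - (ρ : ℂ)‖) :=
        mul_le_mul_of_nonneg_left hle (abs_nonneg t)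
    _ = |t| * (1 + |t|) * ‖2 + (t : ℂ) * Complex.I - (ρ : ℂ)‖ := by ring
    _ ≤ 2 * (1 + t ^ 2) * ‖2 + (t : ℂ) * Complex.I - (ρ : ℂ)‖ :=
        mul_le_mul_of_nonneg_right h4 hap.le

private theorem w_summ : Summable fun ρ : ZZ => mz ρ * (2 / ‖2 - (ρ : ℂ)‖ ^ 2) := by
  obtain ⟨c, hc, hc'⟩ := zz_away
  have h1 := (s_one 2 (by norm_num)).mul_left 32
  refine Summable.of_nonneg_of_le (fun ρ => ?_) (fun ρ => ?_) h1
  · have := mz_one_le ρ
    positivity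
  · have hm := mz_one_le ρ
    have hρ : 0 < ‖(ρ : ℂ)‖ := lt_of_lt_of_le hc (hc' ρ)
    have hb := two_sub ρ
    rw [Real.rpow_ofNat]
    have key : 2 / ‖2 - (ρ : ℂ)‖ ^ 2 ≤ 32 / ‖(ρ : ℂ)‖ ^ 2 := by
      rw [div_le_div_iff₀ (by positivity) (by positivity)]
      have h2 : ‖(ρ : ℂ)‖ ≤ 4 * ‖2 - (ρ : ℂ)‖ := by
        have h3 : ‖(ρ : ℂ)‖ ≤ ‖(2 : ℂ)‖ + ‖2 - (ρ : ℂ)‖ := by
          refine le_trans (le_of_eq ?_) (norm_sub_le _ _)
          congr 1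
          ring
        have h4 : ‖(2 : ℂ)‖ = 2 := by simp
        rw [h4] at h3
        linarith
      have h5 : ‖(ρ : ℂ)‖ ^ 2 ≤ (4 * ‖2 - (ρ : ℂ)‖) ^ 2 := pow_le_pow_left₀ hρ.le h2 2
      nlinarith
    calc mz ρ * (2 / ‖2 - (ρ : ℂ)‖ ^ 2) ≤ mz ρ * (32 / ‖(ρ : ℂ)‖ ^ 2) :=
          mul_le_mul_of_nonneg_left key (by linarith)
      _ = 32 * (mz ρ / ‖(ρ : ℂ)‖ ^ 2) := by ring

private theorem zz_countable : Countable ZZ := by
  have h1 := (s_one 2 (by norm_num)).countable_support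
  have h2 : (Function.support fun ρ : ZZ => mz ρ / ‖(ρ : ℂ)‖ ^ (2 : ℝ)) = Set.univ := by
    obtain ⟨c, hc, hc'⟩ := zz_away
    refine Set.eq_univ_of_forall fun ρ => ?_
    have hm := mz_one_le ρ
    have hρ : 0 < ‖(ρ : ℂ)‖ := lt_of_lt_of_le hc (hc' ρ)
    rw [Function.mem_support]
    have : 0 < mz ρ / ‖(ρ : ℂ)‖ ^ (2 : ℝ) := by positivity
    exact this.ne'
  rw [h2] at h1
  exact Set.countable_univ_iff.1 h1

theorem explicit : ∃ C0 : ℂ, ∀ Ψ : ℝ → ℝ, ContDiff ℝ 4 Ψ → HasCompactSupport Ψ →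
    (Summable fun ρ : ZZ => mz ρ * ‖Lp Ψ ρ - (Ψ 0 : ℂ) / (2 - (ρ : ℂ))‖) ∧
    (((∑' n : ℕ, ArithmeticFunction.vonMangoldt n * Ψ (Real.log n) : ℝ)) : ℂ) =
      C0 * Ψ 0 + Lp Ψ 1 - ∑' ρ : ZZ, (mz ρ : ℂ) * (Lp Ψ ρ - (Ψ 0 : ℂ) / (2 - (ρ : ℂ))) := by
  obtain ⟨C0, hC⟩ := log_zeta
  refine ⟨C0, fun Ψ hΨ hc => ?_⟩
  haveI := zz_countable
  obtain ⟨hcont, C, hCb⟩ := ft_bound Ψ hΨ hc
  have hC0 : 0 ≤ C := by
    have h1 := (norm_nonneg _).trans (hCb 0)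
    simpa using h1
  -- weighted integrability
  have hW : Integrable fun t : ℝ => (1 + t ^ 2) * ‖Ft Ψ t‖ := by
    have h1 : Integrable fun t : ℝ => C * (1 + t ^ 2)⁻¹ := integrable_inv_one_add_sq.const_mul C
    refine h1.mono' (by fun_prop) (ae_of_all _ fun t => ?_)
    rw [Real.norm_eq_abs, abs_of_nonneg (by positivity)]
    have h2 := hCb t
    have hp : 0 < 1 + t ^ 2 := by positivity
    calc (1 + t ^ 2) * ‖Ft Ψ t‖ ≤ (1 + t ^ 2) * (C / (1 + t ^ 2) ^ 2) :=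
          mul_le_mul_of_nonneg_left h2 hp.le
      _ = C * (1 + t ^ 2)⁻¹ := by field_simp
  have hF : Integrable (Ft Ψ) := by
    refine hW.mono' hcont.aestronglyMeasurable (ae_of_all _ fun t => ?_)
    have : 0 ≤ t ^ 2 * ‖Ft Ψ t‖ := by positivity
    linarith
  have hpole : ∀ z : ℂ, z.re < 1 ∨ z = 1 → Integrable fun t : ℝ =>
      Ft Ψ t * (1 / (2 + (t : ℂ) * Complex.I - z)) := by
    intro z hz
    have hre : ∀ t : ℝ, 1 ≤ ‖2 + (t : ℂ) * Complex.I - z‖ := by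
      intro t
      have h2 := Complex.re_le_norm (2 + (t : ℂ) * Complex.I - z)
      rw [Complex.sub_re, re_s] at h2
      rcases hz with h | rfl
      · linarith
      · rw [Complex.one_re] at h2
        linarith
    have hne : ∀ t : ℝ, 2 + (t : ℂ) * Complex.I - z ≠ 0 := by
      intro t
      rw [← norm_pos_iff]
      linarith [hre t]
    have hcz : Continuous fun t : ℝ => 1 / (2 + (t : ℂ) * Complex.I - z) :=
      continuous_const.div (by fun_prop) hne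
    refine hF.norm.mono' (hcont.mul hcz).aestronglyMeasurable (ae_of_all _ fun t => ?_)
    rw [norm_mul, norm_div, norm_one]
    refine mul_le_of_le_one_right (norm_nonneg _) ?_
    rw [div_le_one (by linarith [hre t])]
    exact hre t
  -- the terms of the sum over the zeros
  have hT : ∀ ρ : ZZ, Integrable fun t : ℝ => Ft Ψ t *
      ((mz ρ : ℂ) * (1 / (2 + (t : ℂ) * Complex.I - (ρ : ℂ)) - 1 / (2 - (ρ : ℂ)))) := by
    intro ρ
    have h1 := ((hpole ρ (Or.inl (zz_re_lt ρ))).sub (hF.mul_const (1 / (2 - (ρ : ℂ))))).const_mul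
      (mz ρ : ℂ)
    refine h1.congr (ae_of_all _ fun t => ?_)
    simp only [Pi.sub_apply]
    ring
  have hTn : ∀ ρ : ZZ, ∀ t : ℝ, ‖Ft Ψ t *
      ((mz ρ : ℂ) * (1 / (2 + (t : ℂ) * Complex.I - (ρ : ℂ)) - 1 / (2 - (ρ : ℂ))))‖ ≤
      (mz ρ * (2 / ‖2 - (ρ : ℂ)‖ ^ 2)) * ((1 + t ^ 2) * ‖Ft Ψ t‖) := by
    intro ρ t
    have hm := mz_one_le ρ
    rw [norm_mul, norm_mul, Complex.norm_real, Real.norm_eq_abs, abs_of_nonneg (by linarith)]
    have h1 := term_bd ρ t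
    calc ‖Ft Ψ t‖ * (mz ρ * ‖1 / (2 + (t : ℂ) * Complex.I - (ρ : ℂ)) - 1 / (2 - (ρ : ℂ))‖)
        ≤ ‖Ft Ψ t‖ * (mz ρ * ((1 + t ^ 2) * (2 / ‖2 - (ρ : ℂ)‖ ^ 2))) := by
          refine mul_le_mul_of_nonneg_left (mul_le_mul_of_nonneg_left h1 (by linarith))
            (norm_nonneg _)
      _ = _ := by ring
  have hTi : ∀ ρ : ZZ, ∫ t : ℝ, ‖Ft Ψ t *
      ((mz ρ : ℂ) * (1 / (2 + (t : ℂ) * Complex.I - (ρ : ℂ)) - 1 / (2 - (ρ : ℂ))))‖ ≤
      (mz ρ * (2 / ‖2 - (ρ : ℂ)‖ ^ 2)) * ∫ t : ℝ, (1 + t ^ 2) * ‖Ft Ψ t‖ := by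
    intro ρ
    rw [← integral_const_mul]
    exact integral_mono (hT ρ).norm (hW.const_mul _) (hTn ρ)
  have hTs : Summable fun ρ : ZZ => ∫ t : ℝ, ‖Ft Ψ t *
      ((mz ρ : ℂ) * (1 / (2 + (t : ℂ) * Complex.I - (ρ : ℂ)) - 1 / (2 - (ρ : ℂ))))‖ :=
    Summable.of_nonneg_of_le (fun ρ => integral_nonneg fun t => norm_nonneg _) hTi
      (w_summ.mul_right _)
  have hTe : ∀ ρ : ZZ, (1 / (2 * Real.pi) : ℂ) * ∫ t : ℝ, Ft Ψ t *
      ((mz ρ : ℂ) * (1 / (2 + (t : ℂ) * Complex.I - (ρ : ℂ)) - 1 / (2 - (ρ : ℂ)))) =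
      (mz ρ : ℂ) * (Lp Ψ ρ - (Ψ 0 : ℂ) / (2 - (ρ : ℂ))) := by
    intro ρ
    have hre : (ρ : ℂ).re < 2 := by linarith [zz_re_lt ρ]
    rw [← ft_pole Ψ hΨ hc ρ hre, ← ft_const Ψ hΨ hc]
    have h1 : (fun t : ℝ => Ft Ψ t *
      ((mz ρ : ℂ) * (1 / (2 + (t : ℂ) * Complex.I - (ρ : ℂ)) - 1 / (2 - (ρ : ℂ))))) =
      fun t : ℝ => (mz ρ : ℂ) * (Ft Ψ t * (1 / (2 + (t : ℂ) * Complex.I - (ρ : ℂ))) -
        Ft Ψ t * (1 / (2 - (ρ : ℂ)))) := by
      funext t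
      ring
    rw [h1, integral_const_mul, integral_sub (hpole ρ (Or.inl (zz_re_lt ρ)))
      (hF.mul_const (1 / (2 - (ρ : ℂ)))), integral_mul_const]
    ring
  -- summability
  have hfirst : Summable fun ρ : ZZ => mz ρ * ‖Lp Ψ ρ - (Ψ 0 : ℂ) / (2 - (ρ : ℂ))‖ := by
    refine Summable.of_nonneg_of_le (fun ρ => ?_) (fun ρ => ?_)
      (hTs.mul_left ‖(1 / (2 * Real.pi) : ℂ)‖)
    · have := mz_one_le ρ
      positivity
    · have hm := mz_one_le ρ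
      have h1 : mz ρ * ‖Lp Ψ ρ - (Ψ 0 : ℂ) / (2 - (ρ : ℂ))‖ =
          ‖(mz ρ : ℂ) * (Lp Ψ ρ - (Ψ 0 : ℂ) / (2 - (ρ : ℂ)))‖ := by
        rw [norm_mul, Complex.norm_real, Real.norm_eq_abs, abs_of_nonneg (by linarith)]
      rw [h1, ← hTe ρ, norm_mul]
      exact mul_le_mul_of_nonneg_left (norm_integral_le_integral_norm _) (norm_nonneg _)
  refine ⟨hfirst, ?_⟩
  -- the sum over the zeros, integrated
  have hsum := integral_tsum_of_summable_integral_norm hT hTs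
  have hG : Integrable fun t : ℝ => ∑' ρ : ZZ, Ft Ψ t *
      ((mz ρ : ℂ) * (1 / (2 + (t : ℂ) * Complex.I - (ρ : ℂ)) - 1 / (2 - (ρ : ℂ)))) := by
    have hsplit : ∀ t : ℝ, (∑' ρ : ZZ, Ft Ψ t *
        ((mz ρ : ℂ) * (1 / (2 + (t : ℂ) * Complex.I - (ρ : ℂ)) - 1 / (2 - (ρ : ℂ))))) =
        Ft Ψ t * (1 / (2 + (t : ℂ) * Complex.I - 1) + C0 +
          deriv riemannZeta (2 + (t : ℂ) * Complex.I) / riemannZeta (2 + (t : ℂ) * Complex.I)) := by
      intro t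
      have h1 := (hC (2 + (t : ℂ) * Complex.I) (by rw [re_s]; norm_num)).2
      rw [tsum_mul_left]
      congr 1
      linear_combination h1
    have hcontG : Continuous fun t : ℝ => Ft Ψ t * (1 / (2 + (t : ℂ) * Complex.I - 1) + C0 +
          deriv riemannZeta (2 + (t : ℂ) * Complex.I) / riemannZeta (2 + (t : ℂ) * Complex.I)) := by
      refine hcont.mul ((Continuous.add (continuous_const.div (by fun_prop) fun t => ?_)
        continuous_const).add zeta_cont)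
      exact sub_ne_zero.2 (ne_one t)
    refine (hW.const_mul (∑' ρ : ZZ, mz ρ * (2 / ‖2 - (ρ : ℂ)‖ ^ 2))).mono' ?_
      (ae_of_all _ fun t => ?_)
    · simp_rw [hsplit]
      exact hcontG.aestronglyMeasurable
    · have hs1 : Summable fun ρ : ZZ =>
          (mz ρ * (2 / ‖2 - (ρ : ℂ)‖ ^ 2)) * ((1 + t ^ 2) * ‖Ft Ψ t‖) := w_summ.mul_right _
      have hs2 : Summable fun ρ : ZZ => ‖Ft Ψ t *
        ((mz ρ : ℂ) * (1 / (2 + (t : ℂ) * Complex.I - (ρ : ℂ)) - 1 / (2 - (ρ : ℂ))))‖ :=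
        Summable.of_nonneg_of_le (fun ρ => norm_nonneg _) (fun ρ => hTn ρ t) hs1
      calc ‖∑' ρ : ZZ, Ft Ψ t *
        ((mz ρ : ℂ) * (1 / (2 + (t : ℂ) * Complex.I - (ρ : ℂ)) - 1 / (2 - (ρ : ℂ))))‖
          ≤ ∑' ρ : ZZ, ‖Ft Ψ t *
        ((mz ρ : ℂ) * (1 / (2 + (t : ℂ) * Complex.I - (ρ : ℂ)) - 1 / (2 - (ρ : ℂ))))‖ :=
            norm_tsum_le_tsum_norm hs2
        _ ≤ ∑' ρ : ZZ, (mz ρ * (2 / ‖2 - (ρ : ℂ)‖ ^ 2)) * ((1 + t ^ 2) * ‖Ft Ψ t‖) :=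
            hs2.tsum_le_tsum (fun ρ => hTn ρ t) hs1
        _ = _ := tsum_mul_right
  -- the left side
  have hsΛ : Summable fun n : ℕ => ‖LSeries.term
      (fun n => (ArithmeticFunction.vonMangoldt n : ℂ)) 2 n‖ :=
    (ArithmeticFunction.LSeriesSummable_vonMangoldt (s := 2) (by simp)).norm
  have hnorm : ∀ (t : ℝ) (n : ℕ), ‖LSeries.term
      (fun n => (ArithmeticFunction.vonMangoldt n : ℂ)) (2 + (t : ℂ) * Complex.I) n‖ =
      ‖LSeries.term (fun n => (ArithmeticFunction.vonMangoldt n : ℂ)) 2 n‖ := by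
    intro t n
    rw [LSeries.norm_term_eq, LSeries.norm_term_eq, re_s, Complex.re_ofNat]
  have hLc : ∀ n : ℕ, Continuous fun t : ℝ => LSeries.term
      (fun n => (ArithmeticFunction.vonMangoldt n : ℂ)) (2 + (t : ℂ) * Complex.I) n := by
    intro n
    rcases Nat.eq_zero_or_pos n with rfl | hn
    · simp only [LSeries.term_zero]
      exact continuous_const
    · have hn0 : (n : ℂ) ≠ 0 := by exact_mod_cast hn.ne'
      have h1 : (fun t : ℝ => LSeries.term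
          (fun n => (ArithmeticFunction.vonMangoldt n : ℂ)) (2 + (t : ℂ) * Complex.I) n) =
          fun t : ℝ => (ArithmeticFunction.vonMangoldt n : ℂ) *
            (n : ℂ) ^ (-(2 + (t : ℂ) * Complex.I)) := by
        funext t
        rw [LSeries.term_of_ne_zero hn.ne', Complex.cpow_neg, div_eq_mul_inv]
      rw [h1]
      refine continuous_const.mul (Continuous.const_cpow (by fun_prop) (Or.inl hn0))
  have hLi : ∀ n : ℕ, Integrable fun t : ℝ => Ft Ψ t * LSeries.term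
      (fun n => (ArithmeticFunction.vonMangoldt n : ℂ)) (2 + (t : ℂ) * Complex.I) n := by
    intro n
    refine (hF.norm.mul_const ‖LSeries.term
      (fun n => (ArithmeticFunction.vonMangoldt n : ℂ)) 2 n‖).mono'
      (hcont.mul (hLc n)).aestronglyMeasurable (ae_of_all _ fun t => ?_)
    rw [norm_mul, hnorm]
  have hLs : Summable fun n : ℕ => ∫ t : ℝ, ‖Ft Ψ t * LSeries.term
      (fun n => (ArithmeticFunction.vonMangoldt n : ℂ)) (2 + (t : ℂ) * Complex.I) n‖ := by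
    have h1 : ∀ n : ℕ, ∫ t : ℝ, ‖Ft Ψ t * LSeries.term
      (fun n => (ArithmeticFunction.vonMangoldt n : ℂ)) (2 + (t : ℂ) * Complex.I) n‖ =
      (∫ t : ℝ, ‖Ft Ψ t‖) * ‖LSeries.term
        (fun n => (ArithmeticFunction.vonMangoldt n : ℂ)) 2 n‖ := by
      intro n
      rw [← integral_mul_const]
      refine integral_congr_ae (ae_of_all _ fun t => ?_)
      simp only [norm_mul, hnorm]
    simp_rw [h1]
    exact hsΛ.mul_left _
  have hLsum := integral_tsum_of_summable_integral_norm hLi hLs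
  have hLe : ∀ n : ℕ, (1 / (2 * Real.pi) : ℂ) * ∫ t : ℝ, Ft Ψ t * LSeries.term
      (fun n => (ArithmeticFunction.vonMangoldt n : ℂ)) (2 + (t : ℂ) * Complex.I) n =
      ((ArithmeticFunction.vonMangoldt n * Ψ (Real.log n) : ℝ) : ℂ) := by
    intro n
    rcases Nat.eq_zero_or_pos n with rfl | hn
    · simp
    · rw [Complex.ofReal_mul, ← ft_term Ψ hΨ hc n hn]
      have h1 : (fun t : ℝ => Ft Ψ t * LSeries.term
          (fun n => (ArithmeticFunction.vonMangoldt n : ℂ)) (2 + (t : ℂ) * Complex.I) n) =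
          fun t : ℝ => (ArithmeticFunction.vonMangoldt n : ℂ) * (Ft Ψ t *
            (n : ℂ) ^ (-(2 + (t : ℂ) * Complex.I))) := by
        funext t
        rw [LSeries.term_of_ne_zero hn.ne', Complex.cpow_neg, div_eq_mul_inv]
        ring
      rw [h1, integral_const_mul]
      ring
  have hmain : ∀ t : ℝ, (∑' n : ℕ, Ft Ψ t * LSeries.term
      (fun n => (ArithmeticFunction.vonMangoldt n : ℂ)) (2 + (t : ℂ) * Complex.I) n) =
      (Ft Ψ t * (1 / (2 + (t : ℂ) * Complex.I - 1)) + Ft Ψ t * C0) - ∑' ρ : ZZ, Ft Ψ t *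
      ((mz ρ : ℂ) * (1 / (2 + (t : ℂ) * Complex.I - (ρ : ℂ)) - 1 / (2 - (ρ : ℂ)))) := by
    intro t
    have h1 := (hC (2 + (t : ℂ) * Complex.I) (by rw [re_s]; norm_num)).2
    have h2 : LSeries (fun n => (ArithmeticFunction.vonMangoldt n : ℂ))
        (2 + (t : ℂ) * Complex.I) = -deriv riemannZeta (2 + (t : ℂ) * Complex.I) /
          riemannZeta (2 + (t : ℂ) * Complex.I) :=
      ArithmeticFunction.LSeries_vonMangoldt_eq_deriv_riemannZeta_div (by rw [re_s]; norm_num)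
    rw [tsum_mul_left, tsum_mul_left]
    have h3 : (∑' n : ℕ, LSeries.term
      (fun n => (ArithmeticFunction.vonMangoldt n : ℂ)) (2 + (t : ℂ) * Complex.I) n) =
      -(deriv riemannZeta (2 + (t : ℂ) * Complex.I) /
          riemannZeta (2 + (t : ℂ) * Complex.I)) := by
      rw [← neg_div]
      exact h2
    rw [h3, h1]
    ring
  have hR1 : (1 / (2 * Real.pi) : ℂ) * ∫ t : ℝ, Ft Ψ t * (1 / (2 + (t : ℂ) * Complex.I - 1)) =
      Lp Ψ 1 := ft_pole Ψ hΨ hc 1 (by norm_num)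
  have hR2 : (1 / (2 * Real.pi) : ℂ) * ∫ t : ℝ, Ft Ψ t * C0 = C0 * Ψ 0 := by
    rw [integral_mul_const, ← ft_const Ψ hΨ hc]
    ring
  rw [Complex.ofReal_tsum]
  simp_rw [← hLe, ← hTe]
  rw [tsum_mul_left, tsum_mul_left, hLsum, hsum]
  simp_rw [hmain]
  have hA : Integrable fun t : ℝ => Ft Ψ t * (1 / (2 + (t : ℂ) * Complex.I - 1)) + Ft Ψ t * C0 :=
    (hpole 1 (Or.inr rfl)).add (hF.mul_const C0)
  rw [integral_sub hA hG, integral_add (hpole 1 (Or.inr rfl)) (hF.mul_const C0), ← hR1, ← hR2]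
  ring

end Pool.Agent.H50.RL
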