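import Pool.Agent.H50.RL.Af
import Pool.Agent.H50.RL.Bh
import Pool.Agent.H50.RL.Dz

/-!
[H50 RL FIN] Final assembly of RIGHTMOST LINE.
-/

set_option autoImplicit false

namespace Pool.Agent.H50.RL

open MeasureTheory Filter Topology

/-- `E_δ(x) = ψ(x) - (1-δ) x - ψ(δ x)` -/
noncomputable def EE (δ x : ℝ) : ℝ := Chebyshev.psi x - (1 - δ) * x - Chebyshev.psi (δ * x)

theorem ee_exp (δ v : ℝ) (hδ : 0 < δ) :
    EE δ (Real.exp v) = fz v - fz (v - (-Real.log δ)) := by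
  have h : Real.exp (v - (-Real.log δ)) = δ * Real.exp v := by
    rw [sub_neg_eq_add, Real.exp_add, Real.exp_log hδ, mul_comm]
  unfold EE fz
  rw [h]
  ring

theorem sc_succ (F : ℝ → ℝ) (a b : ℝ) (k : ℕ) (h : SC F a b (k + 1)) : SC F a b k := by
  obtain ⟨x, h1, h2, h3⟩ := h
  refine ⟨fun i => x i.castSucc, fun i j hij => h1 (Fin.castSucc_lt_castSucc_iff.2 hij), fun i => h2 _, fun i => ?_⟩
  have h := h3 i.castSucc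
  rw [← Fin.castSucc_succ] at h
  exact h

theorem sc_exp (δ y : ℝ) (n : ℕ) (hδ : 0 < δ)
    (h : SC (fun v => fz v - fz (v - (-Real.log δ))) y (y + 1) n) :
    SC (EE δ) (Real.exp y) (Real.exp 1 * Real.exp y) n := by
  obtain ⟨x, h1, h2, h3⟩ := h
  refine ⟨fun i => Real.exp (x i), fun i j hij => Real.exp_lt_exp.2 (h1 hij), fun i => ⟨?_, ?_⟩, fun i => ?_⟩
  · exact Real.exp_le_exp.2 (h2 i).1
  · rw [← Real.exp_add]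
    exact Real.exp_le_exp.2 (by linarith [(h2 i).2])
  · have h := h3 i
    simp only at h ⊢
    rw [ee_exp δ _ hδ, ee_exp δ _ hδ]
    exact h

/-- the supremum is not attained: unboundedly many sign changes for EVERY `δ` -/
theorem fin_b (hne : ∃ ρ : ℂ, riemannZeta ρ = 0 ∧ 1 / 2 < ρ.re)
    (hna : ∀ ρ : ℂ, riemannZeta ρ = 0 → ∃ ρ' : ℂ, riemannZeta ρ' = 0 ∧ ρ.re < ρ'.re)
    (δ : ℝ) (h0 : 0 < δ) (h1 : δ < 1) (M : ℕ) (T₀ : ℝ) :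
    ∃ T : ℝ, T₀ ≤ T ∧ SC (EE δ) T (Real.exp 1 * T) M := by
  have hη : 0 < -Real.log δ := by
    have := Real.log_neg h0 h1
    linarith
  obtain ⟨ρ, hρ, hρ'⟩ := hne
  obtain ⟨y, hy, hsc⟩ := part_b ⟨⟨ρ, hρ⟩, hρ'⟩
    (fun ρ => by
      obtain ⟨ρ', h1, h2⟩ := hna ρ ρ.2
      exact ⟨⟨ρ', h1⟩, h2⟩) M (-Real.log δ) hη (Real.log (max T₀ 1))
  refine ⟨Real.exp y, ?_, sc_exp δ y M h0 hsc⟩
  calc T₀ ≤ max T₀ 1 := le_max_left _ _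
    _ = Real.exp (Real.log (max T₀ 1)) := (Real.exp_log (lt_of_lt_of_le one_pos (le_max_right _ _))).symm
    _ ≤ Real.exp y := Real.exp_le_exp.2 hy

/-- no zero to the right of `1/2` -/
theorem fin_a (hRH : ∀ ρ : ℂ, riemannZeta ρ = 0 → ρ.re ≤ 1 / 2) (M : ℕ) :
    ∃ δ₀ : ℝ, δ₀ < 1 ∧ ∀ δ : ℝ, 0 ≤ δ → δ₀ < δ → δ < 1 → ∀ T₀ : ℝ,
      ∃ T : ℝ, T₀ ≤ T ∧ SC (EE δ) T (Real.exp 1 * T) M := by
  obtain ⟨η0, hη0, H⟩ := part_a (fun ρ => hRH ρ ρ.2) M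
  refine ⟨Real.exp (-η0), by rw [Real.exp_lt_one_iff]; linarith, fun δ _ h1 h2 T₀ => ?_⟩
  have hδ : 0 < δ := lt_trans (Real.exp_pos _) h1
  have hη : 0 < -Real.log δ := by
    have := Real.log_neg hδ h2
    linarith
  have hη1 : -Real.log δ < η0 := by
    have := Real.log_lt_log (Real.exp_pos _) h1
    rw [Real.log_exp] at this
    linarith
  obtain ⟨y, hy, hsc⟩ := H (-Real.log δ) hη hη1 (Real.log (max T₀ 1))
  refine ⟨Real.exp y, ?_, sc_exp δ y M hδ hsc⟩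
  calc T₀ ≤ max T₀ 1 := le_max_left _ _
    _ = Real.exp (Real.log (max T₀ 1)) := (Real.exp_log (lt_of_lt_of_le one_pos (le_max_right _ _))).symm
    _ ≤ Real.exp y := Real.exp_le_exp.2 hy

/-- infinitely many zeros on the rightmost line -/
theorem fin_d (Θ : ℝ) (hΘ : 1 / 2 < Θ) (hmax : ∀ ρ : ℂ, riemannZeta ρ = 0 → ρ.re ≤ Θ)
    (hinf : {ρ : ℂ | riemannZeta ρ = 0 ∧ ρ.re = Θ}.Infinite) (M : ℕ) :
    ∃ δ₀ : ℝ, δ₀ < 1 ∧ ∀ δ : ℝ, 0 ≤ δ → δ₀ < δ → δ < 1 → ∀ T₀ : ℝ,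
      ∃ T : ℝ, T₀ ≤ T ∧ SC (EE δ) T (Real.exp 1 * T) M := by
  by_contra hcon
  push Not at hcon
  have hΘ1 : Θ < 1 := by
    obtain ⟨ρ, hρ, hρ'⟩ := hinf.nonempty
    have := zz_re_lt ⟨ρ, hρ⟩
    simp only at this
    linarith
  have hex : ∀ n : ℕ, ∃ δ : ℝ, 0 ≤ δ ∧ 1 - 1 / ((n : ℝ) + 2) < δ ∧ δ < 1 ∧ ∃ T₀ : ℝ, ∀ T : ℝ, T₀ ≤ T →
      ¬ SC (EE δ) T (Real.exp 1 * T) M := by
    intro n
    have hn : (0 : ℝ) < (n : ℝ) + 2 := by positivity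
    obtain ⟨δ, h1, h2, h3, T₀, h4⟩ := hcon (1 - 1 / ((n : ℝ) + 2)) (by
      have : 0 < 1 / ((n : ℝ) + 2) := by positivity
      linarith)
    exact ⟨δ, h1, h2, h3, T₀, h4⟩
  choose δ hδ0 hδ1 hδ2 T₀ hT₀ using hex
  have hpos : ∀ n, 0 < δ n := by
    intro n
    have h : 1 / ((n : ℝ) + 2) ≤ 1 := by
      rw [div_le_one (by positivity)]
      have : (0 : ℝ) ≤ n := Nat.cast_nonneg n
      linarith
    linarith [hδ1 n]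
  have hlim : Tendsto δ atTop (𝓝 1) := by
    have h1 : Tendsto (fun n : ℕ => 1 - 1 / ((n : ℝ) + 2)) atTop (𝓝 (1 - 0)) := by
      apply Tendsto.const_sub
      have := (tendsto_const_div_atTop_nhds_zero_nat (1 : ℝ)).comp (tendsto_add_atTop_nat 2)
      refine this.congr fun n => ?_
      simp
    rw [sub_zero] at h1
    exact tendsto_of_tendsto_of_tendsto_of_le_of_le h1 tendsto_const_nhds (fun n => (hδ1 n).le)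
      (fun n => (hδ2 n).le)
  have hlog : Tendsto (fun n => -Real.log (δ n)) atTop (𝓝 0) := by
    have := ((Real.continuousAt_log one_ne_zero).tendsto.comp hlim).neg
    simpa using this
  refine part_dz Θ hΘ hΘ1 (fun ρ => hmax ρ ρ.2) hinf M (fun n => -Real.log (δ n)) (fun n => ?_) hlog
    (fun n => ⟨Real.log (max (T₀ n) 1), fun y hy hsc => ?_⟩)
  · have := Real.log_neg (hpos n) (hδ2 n)
    linarith
  · refine hT₀ n (Real.exp y) ?_ (sc_exp (δ n) y M (hpos n) (sc_succ _ _ _ _ hsc))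
    calc T₀ n ≤ max (T₀ n) 1 := le_max_left _ _
      _ = Real.exp (Real.log (max (T₀ n) 1)) :=
        (Real.exp_log (lt_of_lt_of_le one_pos (le_max_right _ _))).symm
      _ ≤ Real.exp y := Real.exp_le_exp.2 hy

theorem fin_all (h : ¬ ∃ Θ : ℝ, 1 / 2 < Θ ∧ Θ < 1 ∧ (∀ ρ : ℂ, riemannZeta ρ = 0 → ρ.re ≤ Θ) ∧
      {ρ : ℂ | riemannZeta ρ = 0 ∧ ρ.re = Θ}.Finite ∧ {ρ : ℂ | riemannZeta ρ = 0 ∧ ρ.re = Θ}.Nonempty)
    (M : ℕ) :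
    ∃ δ₀ : ℝ, δ₀ < 1 ∧ ∀ δ : ℝ, 0 ≤ δ → δ₀ < δ → δ < 1 → ∀ T₀ : ℝ,
      ∃ T : ℝ, T₀ ≤ T ∧ SC (EE δ) T (Real.exp 1 * T) M := by
  by_cases hRH : ∀ ρ : ℂ, riemannZeta ρ = 0 → ρ.re ≤ 1 / 2
  · exact fin_a hRH M
  push Not at hRH
  obtain ⟨ρ1, hρ1, hρ1'⟩ := hRH
  by_cases hna : ∀ ρ : ℂ, riemannZeta ρ = 0 → ∃ ρ' : ℂ, riemannZeta ρ' = 0 ∧ ρ.re < ρ'.re
  · refine ⟨0, one_pos, fun δ _ h0 h1 T₀ => fin_b ⟨ρ1, hρ1, hρ1'⟩ hna δ h0 h1 M T₀⟩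
  push Not at hna
  obtain ⟨ρ2, hρ2, hρ2'⟩ := hna
  have hΘ : 1 / 2 < ρ2.re := lt_of_lt_of_le hρ1' (hρ2' ρ1 hρ1)
  have hΘ1 : ρ2.re < 1 := zz_re_lt ⟨ρ2, hρ2⟩
  refine fin_d ρ2.re hΘ hρ2' ?_ M
  by_contra hfin
  rw [Set.not_infinite] at hfin
  exact h ⟨ρ2.re, hΘ, hΘ1, hρ2', hfin, ⟨ρ2, hρ2, rfl⟩⟩

end Pool.Agent.H50.RL
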