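import Mathlib

/-!
[H50 RL SEQ] A bounded sequence whose increments have few sign changes has small total variation.

PROOF (induction on `k`, for all `K`). Put `d j = G (j+1) - G j`, `j < K`. An ALTERNATION of length `L` is a strictly
increasing map `i : Fin L → ℕ` with values `< K` and `d (i a) * d (i (a+1)) < 0` for all `a`.
If all `d j`, `j < K`, are `≥ 0`, or all are `≤ 0`, then the sum of the `|d j|` telescopes to `|G K - G 0| ≤ 2 B`
(`Finset.sum_range_sub`); this includes `K = 0`.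
Otherwise there are `j` with `d j > 0` and `j'` with `d j' < 0`. Let `e` be the largest `j < K` with `d j ≠ 0`; replace
`G` by `-G` if necessary so that `d e > 0`. Let `j1` be the largest `j < K` with `d j < 0`; `j1 < e`. For `j1 < j < K`
all `d j ≥ 0`, so the sum of the `|d j|` over `j1 < j < K` is `G K - G (j1+1) ≤ 2 B`. In particular the whole sequence
has an alternation of length two (`j1 < e`), so `k = 0` is impossible and this proves the case `k = 0`; let now
`k = k' + 1`. CLAIM: the beginning (`K` replaced by `j1 + 1`) has no alternation of length `k' + 2`. Let `i` be one;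
its last value `i_last ≤ j1`. If `d i_last < 0`, append `e` (`e > j1 ≥ i_last`, `d e > 0`). If `d i_last > 0` then
`i_last ≠ j1`, so `i_last < j1`, append `j1`. In both cases we get an alternation of length `k' + 3 = k + 2` of the
whole sequence (use `Fin.snoc`), a contradiction. So by induction the sum over `j ≤ j1` is `≤ 2 B (k' + 1)` and the whole
sum is `≤ 2 B (k' + 1) + 2 B = 2 B (k + 1)`. (`d i_last ≠ 0` because `i` has length `≥ 2`.)
It may be easier to prove the version with lists or with `∃ i : ℕ → ℕ`; the statement below is what is used.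
-/

set_option autoImplicit false

namespace Pool.Agent.H50.RL

/-- an alternation of length `k + 2` of the increments -/
private def Alt (d : ℕ → ℝ) (K k : ℕ) : Prop :=
  ∃ i : Fin (k + 2) → ℕ, StrictMono i ∧ (∀ a, i a < K) ∧ ∀ a : Fin (k + 1), d (i a.castSucc) * d (i a.succ) < 0

private theorem alt_snoc {d : ℕ → ℝ} {K k : ℕ} (i : Fin (k + 2) → ℕ) (h1 : StrictMono i) (h2 : ∀ a, i a < K)
    (h3 : ∀ a : Fin (k + 1), d (i a.castSucc) * d (i a.succ) < 0) {e : ℕ} (he : i (Fin.last _) < e) (heK : e < K)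
    (hd : d (i (Fin.last _)) * d e < 0) : Alt d K (k + 1) := by
  have key : ∀ a : Fin (k + 2), (Fin.snoc (α := fun _ => ℕ) i e a.castSucc : ℕ) = i a := fun a => Fin.snoc_castSucc _ _ _
  have hl : (Fin.snoc (α := fun _ => ℕ) i e (Fin.last _) : ℕ) = e := Fin.snoc_last _ _
  refine ⟨Fin.snoc (α := fun _ => ℕ) i e, ?_, ?_, ?_⟩
  · rw [Fin.strictMono_iff_lt_succ]
    intro a
    rw [key]
    refine Fin.lastCases ?_ (fun b => ?_) a
    · rw [Fin.succ_last, hl]
      exact he
    · rw [Fin.succ_castSucc, key]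
      exact h1 (Fin.castSucc_lt_succ)
  · intro a
    refine Fin.lastCases ?_ (fun b => ?_) a
    · rw [hl]
      exact heK
    · rw [key]
      exact h2 b
  · intro a
    rw [key]
    refine Fin.lastCases ?_ (fun b => ?_) a
    · rw [Fin.succ_last, hl]
      exact hd
    · rw [Fin.succ_castSucc, key]
      exact h3 b

private theorem tele (G : ℕ → ℝ) {m K : ℕ} (hm : m ≤ K) : ∑ j ∈ Finset.Ico m K, (G (j + 1) - G j) = G K - G m := by
  induction K, hm using Nat.le_induction with
  | base => simp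
  | succ K hm ih =>
    rw [Finset.sum_Ico_succ_top hm, ih]
    ring

private theorem up (G : ℕ → ℝ) (B : ℝ) {m K : ℕ} (hm : m ≤ K) (hB : ∀ j ≤ K, |G j| ≤ B)
    (h : ∀ j, m ≤ j → j < K → 0 ≤ G (j + 1) - G j) : ∑ j ∈ Finset.Ico m K, |G (j + 1) - G j| ≤ 2 * B := by
  have h1 : ∑ j ∈ Finset.Ico m K, |G (j + 1) - G j| = ∑ j ∈ Finset.Ico m K, (G (j + 1) - G j) := by
    refine Finset.sum_congr rfl fun j hj => ?_
    rw [Finset.mem_Ico] at hj
    exact abs_of_nonneg (h j hj.1 hj.2)
  rw [h1, tele G hm]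
  have h2 := abs_le.1 (hB K le_rfl)
  have h3 := abs_le.1 (hB m hm)
  linarith [h2.2, h3.1]

private theorem alt_neg {G : ℕ → ℝ} {K k : ℕ} (h : Alt (fun j => (-G) (j + 1) - (-G) j) K k) :
    Alt (fun j => G (j + 1) - G j) K k := by
  obtain ⟨i, h1, h2, h3⟩ := h
  refine ⟨i, h1, h2, fun a => ?_⟩
  have h4 := h3 a
  simp only [Pi.neg_apply] at h4
  show (G (i a.castSucc + 1) - G (i a.castSucc)) * (G (i a.succ + 1) - G (i a.succ)) < 0
  nlinarith

private theorem exists_last {K : ℕ} (p : ℕ → Prop) {j : ℕ} (hj : j < K) (hp : p j) :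
    ∃ m, m < K ∧ p m ∧ ∀ i, m < i → i < K → ¬ p i := by
  classical
  obtain ⟨m, hm, hmax⟩ := ((Finset.range K).filter p).exists_max_image id ⟨j, by simp [hj, hp]⟩
  rw [Finset.mem_filter, Finset.mem_range] at hm
  refine ⟨m, hm.1, hm.2, fun i h1 h2 h3 => ?_⟩
  have := hmax i (by simp [h2, h3])
  simp only [id] at this
  omega

private theorem posc {k K : ℕ} {G : ℕ → ℝ} {B : ℝ} (hB : ∀ j ≤ K, |G j| ≤ B)
    (H : ∀ j1 e, j1 < e → e < K → G (j1 + 1) - G j1 < 0 → 0 < G (e + 1) - G e →
      ∑ j ∈ Finset.range (j1 + 1), |G (j + 1) - G j| ≤ 2 * B * k)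
    {e : ℕ} (heK : e < K) (he : 0 < G (e + 1) - G e) (hmax : ∀ i, e < i → i < K → ¬ G (i + 1) - G i ≠ 0)
    {j' : ℕ} (hj' : j' < K) (hneg : G (j' + 1) - G j' < 0) :
    ∑ j ∈ Finset.range K, |G (j + 1) - G j| ≤ 2 * B * (k + 1) := by
  obtain ⟨j1, h1, h2, h3⟩ := exists_last (fun j => G (j + 1) - G j < 0) hj' hneg
  have h4 : j1 < e := by
    rcases lt_trichotomy j1 e with h4 | h4 | h4
    · exact h4
    · rw [h4] at h2
      linarith
    · exact absurd h2.ne (hmax j1 h4 h1)
  have h5 := H j1 e h4 heK h2 he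
  have h6 := up G B (m := j1 + 1) (K := K) (by omega) hB fun j hj hjK => not_lt.1 (h3 j (by omega) hjK)
  rw [← Finset.sum_range_add_sum_Ico _ (show j1 + 1 ≤ K by omega)]
  linarith

private theorem mainG (k : ℕ) (H : ∀ (K : ℕ) (G : ℕ → ℝ) (B : ℝ), (∀ j ≤ K, |G j| ≤ B) →
      ¬ Alt (fun j => G (j + 1) - G j) K k → ∀ j1 e, j1 < e → e < K → G (j1 + 1) - G j1 < 0 →
      0 < G (e + 1) - G e → ∑ j ∈ Finset.range (j1 + 1), |G (j + 1) - G j| ≤ 2 * B * k) :
    ∀ (K : ℕ) (G : ℕ → ℝ) (B : ℝ), (∀ j ≤ K, |G j| ≤ B) →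
    ¬ Alt (fun j => G (j + 1) - G j) K k → ∑ j ∈ Finset.range K, |G (j + 1) - G j| ≤ 2 * B * (k + 1) := by
  intro K G B hB hs
  have hB0 : 0 ≤ B := (abs_nonneg _).trans (hB 0 (Nat.zero_le _))
  have hk : (0 : ℝ) ≤ k := Nat.cast_nonneg k
  have hfin : 2 * B ≤ 2 * B * (k + 1) := by nlinarith [mul_nonneg hB0 hk]
  have hBn : ∀ j ≤ K, |(-G) j| ≤ B := fun j hj => by
    rw [Pi.neg_apply, abs_neg]
    exact hB j hj
  have habs : ∑ j ∈ Finset.range K, |(-G) (j + 1) - (-G) j| = ∑ j ∈ Finset.range K, |G (j + 1) - G j| := by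
    refine Finset.sum_congr rfl fun j _ => ?_
    rw [Pi.neg_apply, Pi.neg_apply, ← abs_neg]
    congr 1
    ring
  by_cases h1 : ∃ j, j < K ∧ G (j + 1) - G j < 0
  · by_cases h2 : ∃ j, j < K ∧ 0 < G (j + 1) - G j
    · obtain ⟨j', hj', hneg⟩ := h1
      obtain ⟨j'', hj'', hpos⟩ := h2
      obtain ⟨e, heK, he, hmax⟩ := exists_last (fun j => G (j + 1) - G j ≠ 0) hj' hneg.ne
      rcases lt_or_gt_of_ne he with h3 | h3
      · rw [← habs]
        refine posc (k := k) hBn (H K (-G) B hBn fun h => hs (alt_neg h)) heK ?_ (fun i h4 h5 h6 => hmax i h4 h5 ?_)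
          hj'' ?_
        · simp only [Pi.neg_apply]
          linarith
        · simp only [Pi.neg_apply] at h6
          intro h7
          apply h6
          linarith
        · simp only [Pi.neg_apply]
          linarith
      · exact posc hB (H K G B hB hs) heK h3 hmax hj' hneg
    · push Not at h2
      have h3 := up (-G) B (Nat.zero_le K) hBn fun j _ hj => by
        simp only [Pi.neg_apply]
        linarith [h2 j hj]
      rw [← Finset.range_eq_Ico, habs] at h3
      linarith
  · push Not at h1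
    have h3 := up G B (Nat.zero_le K) hB fun j _ hj => h1 j hj
    rw [← Finset.range_eq_Ico] at h3
    linarith

private theorem main (k : ℕ) : ∀ (K : ℕ) (G : ℕ → ℝ) (B : ℝ), (∀ j ≤ K, |G j| ≤ B) →
    ¬ Alt (fun j => G (j + 1) - G j) K k → ∑ j ∈ Finset.range K, |G (j + 1) - G j| ≤ 2 * B * (k + 1) := by
  induction k with
  | zero =>
    refine mainG 0 fun K G B hB hs j1 e h1 h2 h3 h4 => (hs ?_).elim
    refine ⟨![j1, e], ?_, ?_, ?_⟩
    · rw [Fin.strictMono_iff_lt_succ]
      intro a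
      fin_cases a
      simpa using h1
    · intro a
      fin_cases a
      · simp
        omega
      · simpa using h2
    · intro a
      fin_cases a
      simp
      nlinarith
  | succ k ih =>
    refine mainG (k + 1) fun K G B hB hs j1 e h1 h2 h3 h4 => ?_
    have h5 := ih (j1 + 1) G B (fun j hj => hB j (by omega)) ?_
    · push_cast
      exact h5
    · rintro ⟨i, i1, i2, i3⟩
      apply hs
      have h6 : i (Fin.last (k + 1)) ≤ j1 := Nat.lt_succ_iff.1 (i2 _)
      have h7 := i3 (Fin.last k)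
      rw [Fin.succ_last] at h7
      have h8 : G (i (Fin.last (k + 1)) + 1) - G (i (Fin.last (k + 1))) ≠ 0 := by
        intro h9
        have h7' : (G (i (Fin.last k).castSucc + 1) - G (i (Fin.last k).castSucc)) *
            (G (i (Fin.last (k + 1)) + 1) - G (i (Fin.last (k + 1)))) < 0 := h7
        rw [h9, mul_zero] at h7'
        exact lt_irrefl _ h7'
      rcases lt_or_gt_of_ne h8 with h9 | h9
      · exact alt_snoc i i1 (fun a => (i2 a).trans_le (by omega)) i3 (e := e) (by omega) h2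
          (mul_neg_of_neg_of_pos h9 h4)
      · have h10 : i (Fin.last (k + 1)) ≠ j1 := by
          intro h10
          rw [h10] at h9
          linarith
        exact alt_snoc i i1 (fun a => (i2 a).trans_le (by omega)) i3 (e := j1) (by omega) (by omega)
          (mul_neg_of_pos_of_neg h9 h3)

theorem sum_abs_le (k : ℕ) (K : ℕ) (G : ℕ → ℝ) (B : ℝ) (hB : ∀ j ≤ K, |G j| ≤ B)
    (hs : ¬ ∃ i : Fin (k + 2) → ℕ, StrictMono i ∧ (∀ a, i a < K) ∧
      ∀ a : Fin (k + 1), (G (i a.castSucc + 1) - G (i a.castSucc)) * (G (i a.succ + 1) - G (i a.succ)) < 0) :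
    ∑ j ∈ Finset.range K, |G (j + 1) - G j| ≤ 2 * B * (k + 1) :=
  main k K G B hB hs

end Pool.Agent.H50.RL
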