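import Pool.Agent.H50.RL.Apf
import Pool.Agent.H50.RL.Seq

/-!
[H50 RL GRID] Few sign changes of `d η` imply that the `L¹` norm of `d η` is `O(η)` on every unit interval.

`sc_mono`: restrict the `k+1` points to the first `k'+1` ones (`Fin.castLE`).
`sc_two`: let `x : Fin (2k+1) → ℝ` be the points in `[a, a+2]`. If `x_k ≤ a+1` use `x_0, .., x_k` (in `[a,a+1]`),
otherwise `x_k, .., x_2k` (in `[a+1,a+2]`).

`l1_unit`. Put `S = D.S`, `K = ⌈1/η⌉₊`, so `1 ≤ K η < 1 + η ≤ 2`. `∫_a^(a+1) |d| ≤ ∫_a^(a+Kη) |d| =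
∑_{j<K} ∫_{a+jη}^{a+(j+1)η} |d u| du = ∫_a^(a+η) ∑_{j<K} |d (s + jη)| ds`
(`intervalIntegral.sum_integral_adjacent_intervals`, substitution `u = s + jη`, everything is continuous: `d_cont`).
So it is enough that `∑_{j<K} |d (s + jη)| ≤ 4 (M+1) S exp(2Θ)` for `s ∈ [a, a+η]`.
Put `g v = exp(Θ v) r v`, `G j = g (s + jη - η)`. Then `G (j+1) - G j = g (s+jη) - g (s+jη-η) = exp(Θ(s+jη)) d (s+jη)`
(definition of `d`). For `j ≤ K`: `s + jη - η ≤ a + η + Kη - η ≤ a + 2`, so `|G j| ≤ exp(Θ(a+2)) S =: B` (`r_abs_le`).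
An alternation `i : Fin (2M+1+2) → ℕ` of the increments (see SEQ, `k = 2M+1`) would give, with the points
`x_b = s + i_b η ∈ [a, a+2]` (`i_b ≤ K-1`, `s + i_b η ≤ a + η + (K-1)η`), `SC (d η) a (a+2) (2M+2)` since
`exp(..) > 0` does not change signs, and `2M+2 = 2 (M+1)`; by `sc_two` `SC (d η) y (y+1) (M+1)` for `y = a` or `a+1`,
contradiction. So by `sum_abs_le` `∑ |G(j+1) - G j| ≤ 2 B (2M+2)`; and `|d (s+jη)| = exp(-Θ(s+jη)) |G(j+1)-G j| ≤
exp(-Θa) |G(j+1)-G j|` as `s+jη ≥ a`. Hence the sum is `≤ exp(-Θa) 2 exp(Θ(a+2)) S (2M+2) = 4 (M+1) S exp(2Θ)`.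
-/

set_option autoImplicit false

namespace Pool.Agent.H50.RL

open MeasureTheory Filter Topology

theorem sc_mono {F : ℝ → ℝ} {a b : ℝ} {k k' : ℕ} (hk : k' ≤ k) (h : SC F a b k) : SC F a b k' := by
  obtain ⟨x, hx, hab, hs⟩ := h
  refine ⟨fun i => x (Fin.castLE (by omega) i), ?_, fun i => hab _, fun i => ?_⟩
  · intro i j hij
    exact hx (by simpa using hij)
  · exact hs (Fin.castLE hk i)

theorem sc_two {F : ℝ → ℝ} {a : ℝ} {k : ℕ} (h : SC F a (a + 2) (2 * k)) :
    SC F a (a + 1) k ∨ SC F (a + 1) (a + 1 + 1) k := by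
  obtain ⟨x, hx, hab, hs⟩ := h
  rcases le_total (x ⟨k, by omega⟩) (a + 1) with hm | hm
  · left
    refine ⟨fun i => x ⟨i, by have := i.2; omega⟩, ?_, fun i => ⟨(hab _).1, ?_⟩, fun i => ?_⟩
    · intro i j hij
      exact hx (by
        rw [Fin.lt_def] at hij ⊢
        exact hij)
    · refine le_trans (hx.monotone ?_) hm
      rw [Fin.le_def]
      have := i.2
      show (i : ℕ) ≤ k
      omega
    · exact hs ⟨i, by have := i.2; omega⟩
  · right
    refine ⟨fun i => x ⟨k + i, by have := i.2; omega⟩, ?_, fun i => ⟨?_, ?_⟩, fun i => ?_⟩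
    · intro i j hij
      exact hx (by
        rw [Fin.lt_def] at hij ⊢
        show k + (i : ℕ) < k + (j : ℕ)
        omega)
    · refine hm.trans (hx.monotone ?_)
      rw [Fin.le_def]
      show k ≤ k + (i : ℕ)
      omega
    · have := (hab ⟨k + i, by have := i.2; omega⟩).2
      linarith
    · exact hs ⟨k + i, by have := i.2; omega⟩

private theorem pt_bd (D : LineData) (M : ℕ) (η : ℝ) (h0 : 0 < η) (h1 : η ≤ 1)
    (h : ∀ y : ℝ, ¬ SC (D.d η) y (y + 1) (M + 1)) (a : ℝ) (K : ℕ) (hK : (K : ℝ) * η ≤ 2) (s : ℝ)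
    (hs : a ≤ s ∧ s ≤ a + η) :
    ∑ j ∈ Finset.range K, |D.d η (s + j * η)| ≤ 4 * (M + 1) * D.S * Real.exp (2 * D.Θ) := by
  obtain ⟨G, hG⟩ : ∃ G : ℕ → ℝ, ∀ j, G j = Real.exp (D.Θ * (s + j * η - η)) * D.r (s + j * η - η) :=
    ⟨_, fun _ => rfl⟩
  have hΘ := D.Θpos
  have hS := S_nonneg D
  have hinc : ∀ j : ℕ, G (j + 1) - G j = Real.exp (D.Θ * (s + j * η)) * D.d η (s + j * η) := by
    intro j
    rw [hG, hG]
    unfold LineData.d
    have e1 : s + ((j + 1 : ℕ) : ℝ) * η - η = s + j * η := by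
      push_cast
      ring
    have e2 : Real.exp (D.Θ * (s + j * η - η)) = Real.exp (D.Θ * (s + j * η)) * Real.exp (-(D.Θ * η)) := by
      rw [← Real.exp_add]
      congr 1
      ring
    rw [e1, e2]
    ring
  have hB : ∀ j ≤ K, |G j| ≤ Real.exp (D.Θ * (a + 2)) * D.S := by
    intro j hj
    rw [hG, abs_mul, abs_of_pos (Real.exp_pos _)]
    have hj' : (j : ℝ) ≤ K := by exact_mod_cast hj
    have h2 : (j : ℝ) * η ≤ K * η := mul_le_mul_of_nonneg_right hj' h0.le
    refine mul_le_mul (Real.exp_le_exp.2 ?_) (r_abs_le D _) (abs_nonneg _) (Real.exp_pos _).le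
    refine mul_le_mul_of_nonneg_left ?_ hΘ.le
    linarith [hs.2]
  obtain ⟨k, hk⟩ : ∃ k : ℕ, k = 2 * M + 1 := ⟨_, rfl⟩
  have hno : ¬ ∃ i : Fin (k + 2) → ℕ, StrictMono i ∧ (∀ a, i a < K) ∧
      ∀ a : Fin (k + 1), (G (i a.castSucc + 1) - G (i a.castSucc)) * (G (i a.succ + 1) - G (i a.succ)) < 0 := by
    rintro ⟨i, hi1, hi2, hi3⟩
    have hSC : SC (D.d η) a (a + 2) (2 * (M + 1)) := by
      have e1 : 2 * (M + 1) = k + 1 := by omega
      rw [e1]
      refine ⟨fun b => s + (i b) * η, ?_, fun b => ⟨?_, ?_⟩, fun b => ?_⟩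
      · intro b c hbc
        have h2 : (i b : ℝ) < i c := by exact_mod_cast hi1 hbc
        have h3 := mul_lt_mul_of_pos_right h2 h0
        show s + (i b) * η < s + (i c) * η
        linarith
      · have h2 : (0 : ℝ) ≤ (i b : ℝ) * η := by positivity
        linarith [hs.1]
      · have h2 : ((i b : ℝ) + 1) ≤ K := by exact_mod_cast hi2 b
        have h3 := mul_le_mul_of_nonneg_right h2 h0.le
        have h4 : ((i b : ℝ) + 1) * η = (i b : ℝ) * η + η := by ring
        linarith [hs.2]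
      · have h2 := hi3 b
        rw [hinc, hinc] at h2
        have h3 : Real.exp (D.Θ * (s + (i b.castSucc) * η)) * D.d η (s + (i b.castSucc) * η) *
            (Real.exp (D.Θ * (s + (i b.succ) * η)) * D.d η (s + (i b.succ) * η)) =
            (Real.exp (D.Θ * (s + (i b.castSucc) * η)) * Real.exp (D.Θ * (s + (i b.succ) * η))) *
            (D.d η (s + (i b.castSucc) * η) * D.d η (s + (i b.succ) * η)) := by ring
        rw [h3] at h2
        by_contra h4
        push Not at h4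
        have h5 := mul_nonneg (mul_pos (Real.exp_pos (D.Θ * (s + (i b.castSucc) * η)))
          (Real.exp_pos (D.Θ * (s + (i b.succ) * η)))).le h4
        linarith
    rcases sc_two hSC with h2 | h2
    · exact h a h2
    · exact h (a + 1) h2
  have hsum := sum_abs_le k K G _ hB hno
  have hterm : ∀ j ∈ Finset.range K, |D.d η (s + j * η)| ≤
      Real.exp (-(D.Θ * a)) * |G (j + 1) - G j| := by
    intro j _
    rw [hinc, abs_mul, abs_of_pos (Real.exp_pos _), ← mul_assoc, ← Real.exp_add]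
    have h2 : (0 : ℝ) ≤ (j : ℝ) * η := by positivity
    have h3 : 1 ≤ Real.exp (-(D.Θ * a) + D.Θ * (s + j * η)) := by
      rw [Real.one_le_exp_iff]
      have h4 : D.Θ * a ≤ D.Θ * (s + j * η) := by
        refine mul_le_mul_of_nonneg_left ?_ hΘ.le
        linarith [hs.1]
      linarith
    have h5 := mul_le_mul_of_nonneg_right h3 (abs_nonneg (D.d η (s + j * η)))
    linarith
  refine (Finset.sum_le_sum hterm).trans ?_
  rw [← Finset.mul_sum]
  refine (mul_le_mul_of_nonneg_left hsum (Real.exp_pos _).le).trans (le_of_eq ?_)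
  have e2 : Real.exp (D.Θ * (a + 2)) = Real.exp (D.Θ * a) * Real.exp (2 * D.Θ) := by
    rw [← Real.exp_add]
    congr 1
    ring
  have e3 : Real.exp (-(D.Θ * a)) * Real.exp (D.Θ * a) = 1 := by
    rw [← Real.exp_add, neg_add_cancel, Real.exp_zero]
  rw [e2, hk]
  push_cast
  linear_combination (2 * Real.exp (2 * D.Θ) * D.S * (2 * (M : ℝ) + 1 + 1)) * e3

theorem l1_unit (D : LineData) (M : ℕ) (η : ℝ) (h0 : 0 < η) (h1 : η ≤ 1)
    (h : ∀ y : ℝ, ¬ SC (D.d η) y (y + 1) (M + 1)) (a : ℝ) :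
    ∫ u in a..(a + 1), |D.d η u| ≤ η * (4 * (M + 1) * D.S * Real.exp (2 * D.Θ)) := by
  obtain ⟨K, hKdef⟩ : ∃ K : ℕ, K = ⌈1 / η⌉₊ := ⟨_, rfl⟩
  have hcont : Continuous fun u => |D.d η u| := (d_cont D η).abs
  have hK1 : 1 ≤ (K : ℝ) * η := by
    have h2 : 1 / η ≤ (K : ℝ) := by
      rw [hKdef]
      exact Nat.le_ceil _
    rwa [div_le_iff₀ h0] at h2
  have hK2 : (K : ℝ) * η ≤ 2 := by
    have h2 : (K : ℝ) < 1 / η + 1 := by
      rw [hKdef]
      exact Nat.ceil_lt_add_one (by positivity)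
    have h3 := mul_lt_mul_of_pos_right h2 h0
    have h4 : (1 / η + 1) * η = 1 + η := by
      field_simp
    rw [h4] at h3
    linarith
  have s1 : ∫ u in a..(a + 1), |D.d η u| ≤ ∫ u in a..(a + K * η), |D.d η u| := by
    refine intervalIntegral.integral_mono_interval le_rfl (by linarith) (by linarith) ?_
      (hcont.intervalIntegrable _ _)
    exact Filter.Eventually.of_forall fun u => abs_nonneg _
  have s2 : ∫ u in a..(a + K * η), |D.d η u| =
      ∑ j ∈ Finset.range K, ∫ u in (a + (j : ℝ) * η)..(a + ((j + 1 : ℕ) : ℝ) * η), |D.d η u| := by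
    have h2 := intervalIntegral.sum_integral_adjacent_intervals (f := fun u => |D.d η u|)
      (μ := volume) (a := fun j : ℕ => a + (j : ℝ) * η) (n := K)
      (fun j _ => hcont.intervalIntegrable _ _)
    rw [h2]
    simp
  have s3 : ∀ j : ℕ, ∫ u in (a + (j : ℝ) * η)..(a + ((j + 1 : ℕ) : ℝ) * η), |D.d η u| =
      ∫ s in a..(a + η), |D.d η (s + j * η)| := by
    intro j
    rw [intervalIntegral.integral_comp_add_right (fun u => |D.d η u|) ((j : ℝ) * η)]
    congr 1
    push_cast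
    ring
  have hc2 : ∀ j : ℕ, Continuous fun s : ℝ => |D.d η (s + j * η)| := fun j =>
    hcont.comp (by fun_prop : Continuous fun s : ℝ => s + j * η)
  have s4 : ∫ u in a..(a + K * η), |D.d η u| =
      ∫ s in a..(a + η), ∑ j ∈ Finset.range K, |D.d η (s + j * η)| := by
    rw [s2, intervalIntegral.integral_finsetSum (fun j _ => (hc2 j).intervalIntegrable _ _)]
    exact Finset.sum_congr rfl fun j _ => s3 j
  have s5 : ∫ s in a..(a + η), ∑ j ∈ Finset.range K, |D.d η (s + j * η)| ≤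
      ∫ _ in a..(a + η), (4 * (M + 1) * D.S * Real.exp (2 * D.Θ)) := by
    refine intervalIntegral.integral_mono_on (by linarith) ?_ (by simp) ?_
    · exact (continuous_finsetSum _ fun j _ => hc2 j).intervalIntegrable _ _
    · intro s hs
      exact pt_bd D M η h0 h1 h a K hK2 s hs
  rw [intervalIntegral.integral_const, add_sub_cancel_left, smul_eq_mul] at s5
  rw [s4] at s1
  exact s1.trans s5

end Pool.Agent.H50.RL
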