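import Pool.Agent.H50.RL.Ef

/-!
[H50 RL IA] `ψ(exp y)` between smoothed sums over the zeros.

PROOF. Let `λ` be smooth, `λ = 0` on `u ≤ 3/10`, `λ = 1` on `u ≥ 6/10` (`Real.smoothTransition`; note `6/10 < log 2`), `S w = ∫_{v ≤ w} κ`
(smooth, `S' = κ`, `0 ≤ S ≤ 1`, `S = 0` for `w ≤ -1`, `S = 1` for `w ≥ 1`). `Ψ u = λ u · S((y-u)/h)`: smooth, support in `[3/10, y+h]`, `Ψ 0 = 0`. For `s ≠ 0`
integration by parts on `(0, ∞)`: `Lp Ψ s = -(1/s) ∫ Ψ'(u) e^{su} du`, `Ψ' = λ' S((y-u)/h) - λ κ((y-u)/h)/h`. On the support of `κ((y-u)/h)` one has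
`u ≥ y - h ≥ 19/10 > 6/10`, so `λ = 1`; substituting `u = y - h v`: `∫ κ((y-u)/h) h^{-1} e^{su} du = Wk κ y h s`. On the support of `λ'`, `u ≤ 6/10` and
`(y-u)/h ≥ 14 > 1`, so `S = 1`. Hence `Lp Ψ s = (Wk κ y h s - A s)/s` with `A s = ∫ λ'(u) e^{su} du`, independent of `y, h`.
`explicit` (real parts; `Ψ 0 = 0`): `Σ Λ(n) Ψ(log n) = Re[Wk 1 - A 1 - Σ mz (Wk ρ - A ρ)/ρ]`. `Σ mz ‖A ρ/ρ‖` converges: one more integration by parts,
`‖A ρ‖ ≤ C/‖ρ‖` uniformly for `Re ρ ≤ 1` (`|e^{ρu}| ≤ e` on `[0, 1]`), and `s_one` with `b = 2`. So the `Wk` series converges absolutely too (`Summable` of the sum), and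
`C = ‖A 1‖ + Σ mz ‖A ρ/ρ‖`. (`ρ ≠ 0` since `riemannZeta_zero ≠ 0`.)
Comparison with `ψ(exp y) = Σ_{n ≤ exp y} Λ(n)` (`Chebyshev.psi`): only `n ≥ 2` matter, `λ(log n) = 1`. If `κ = 0` on `v > 0`: `S w = 1` for `w ≥ 0`, so `Ψ(log n) = 1`
for `log n ≤ y` and the other terms are `≥ 0`. If `κ = 0` on `v < 0`: `S w = 0` for `w ≤ 0`, so `Ψ(log n) = 0` for `log n ≥ y`, and `Ψ ≤ 1`.
(Finite sums: `Ψ(log n) = 0` for `log n ≥ y + h`, `tsum_eq_sum`.)
-/

set_option autoImplicit false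

namespace Pool.Agent.H50.RL

open MeasureTheory Filter Topology

private noncomputable def lam (u : ℝ) : ℝ := Real.smoothTransition ((u - 3 / 10) / (3 / 10))

private theorem lam_smooth : ContDiff ℝ (⊤ : ℕ∞) lam := by
  have h1 : ContDiff ℝ (⊤ : ℕ∞) fun u : ℝ => (u - 3 / 10) / (3 / 10) := by fun_prop
  exact Real.smoothTransition.contDiff.comp h1

private theorem lam_zero {u : ℝ} (hu : u ≤ 3 / 10) : lam u = 0 := by
  refine Real.smoothTransition.zero_of_nonpos ?_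
  rw [div_le_iff₀ (by norm_num)]
  linarith

private theorem lam_one {u : ℝ} (hu : 6 / 10 ≤ u) : lam u = 1 := by
  refine Real.smoothTransition.one_of_one_le ?_
  rw [le_div_iff₀ (by norm_num)]
  linarith

private theorem lam_nonneg (u : ℝ) : 0 ≤ lam u := Real.smoothTransition.nonneg _

private theorem lam_le_one (u : ℝ) : lam u ≤ 1 := Real.smoothTransition.le_one _

private theorem dlam_smooth : ContDiff ℝ (⊤ : ℕ∞) (deriv lam) :=
  (contDiff_infty_iff_deriv.1 lam_smooth).2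

private theorem ddlam_smooth : ContDiff ℝ (⊤ : ℕ∞) (deriv (deriv lam)) :=
  (contDiff_infty_iff_deriv.1 dlam_smooth).2

private theorem dlam_zero {u : ℝ} (hu : u < 3 / 10 ∨ 6 / 10 < u) : deriv lam u = 0 := by
  rcases hu with hu | hu
  · have h1 : lam =ᶠ[𝓝 u] fun _ => 0 := by
      filter_upwards [Iio_mem_nhds hu] with v hv
      exact lam_zero hv.le
    rw [h1.deriv_eq]
    exact deriv_const u 0
  · have h1 : lam =ᶠ[𝓝 u] fun _ => 1 := by
      filter_upwards [Ioi_mem_nhds hu] with v hv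
      exact lam_one (le_of_lt hv)
    rw [h1.deriv_eq]
    exact deriv_const u 1

private theorem ddlam_zero {u : ℝ} (hu : u < 3 / 10 ∨ 6 / 10 < u) : deriv (deriv lam) u = 0 := by
  have h1 : deriv lam =ᶠ[𝓝 u] fun _ => 0 := by
    rcases hu with hu | hu
    · filter_upwards [Iio_mem_nhds hu] with v hv
      exact dlam_zero (Or.inl hv)
    · filter_upwards [Ioi_mem_nhds hu] with v hv
      exact dlam_zero (Or.inr hv)
  rw [h1.deriv_eq]
  exact deriv_const u 0

private theorem dlam_compact : HasCompactSupport (deriv lam) := by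
  refine HasCompactSupport.intro (isCompact_Icc : IsCompact (Set.Icc (3 / 10 : ℝ) (6 / 10)))
    fun u hu => ?_
  refine dlam_zero ?_
  rw [Set.mem_Icc, not_and_or, not_le, not_le] at hu
  exact hu

private theorem ddlam_compact : HasCompactSupport (deriv (deriv lam)) := by
  refine HasCompactSupport.intro (isCompact_Icc : IsCompact (Set.Icc (3 / 10 : ℝ) (6 / 10)))
    fun u hu => ?_
  refine ddlam_zero ?_
  rw [Set.mem_Icc, not_and_or, not_le, not_le] at hu
  exact hu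

/-- integrability against the exponential -/
private theorem int_exp {f : ℝ → ℝ} (hf : Continuous f) (hc : HasCompactSupport f) (g : ℝ → ℂ)
    (hg : Continuous g) : Integrable fun u : ℝ => (f u : ℂ) * g u := by
  have h1 : Continuous fun u : ℝ => (f u : ℂ) * g u :=
    (Complex.continuous_ofReal.comp hf).mul hg
  refine h1.integrable_of_hasCompactSupport ?_
  have h2 : HasCompactSupport fun u : ℝ => (f u : ℂ) := hc.comp_left Complex.ofReal_zero
  exact h2.mul_right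

private theorem exp_cont (s : ℂ) : Continuous fun u : ℝ => Complex.exp (s * u) := by fun_prop

/-- integration by parts -/
private theorem ibp {f : ℝ → ℝ} (hf : ContDiff ℝ 1 f) (hc : HasCompactSupport f)
    (hc' : HasCompactSupport (deriv f)) (s : ℂ) (hs : s ≠ 0) :
    ∫ u : ℝ, (f u : ℂ) * Complex.exp (s * u) =
      -(1 / s * ∫ u : ℝ, ((deriv f u : ℝ) : ℂ) * Complex.exp (s * u)) := by
  have hv : ∀ x : ℝ, HasDerivAt (fun u : ℝ => Complex.exp (s * u) / s) (Complex.exp (s * x)) x := by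
    intro x
    have h1 : HasDerivAt (fun u : ℝ => s * (u : ℂ)) s x := by
      have h2 := (Complex.ofRealCLM.hasDerivAt (x := x)).const_mul s
      rw [Complex.ofRealCLM_apply, Complex.ofReal_one, mul_one] at h2
      exact h2
    have h3 := (h1.cexp).div_const s
    rw [mul_div_assoc, div_self hs, mul_one] at h3
    exact h3
  have hu : ∀ x : ℝ, HasDerivAt (fun u : ℝ => (f u : ℂ)) ((deriv f x : ℝ) : ℂ) x := fun x =>
    ((hf.differentiable one_ne_zero) x).hasDerivAt.ofReal_comp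
  have hcd : Continuous (deriv f) := hf.continuous_deriv le_rfl
  have h1 := integral_mul_deriv_eq_deriv_mul_of_integrable (u := fun u : ℝ => (f u : ℂ))
    (v := fun u : ℝ => Complex.exp (s * u) / s) (u' := fun u : ℝ => ((deriv f u : ℝ) : ℂ))
    (v' := fun u : ℝ => Complex.exp (s * u)) (fun x _ => hu x) (fun x _ => hv x)
    (int_exp hf.continuous hc _ (exp_cont s))
    (int_exp hcd hc' _ ((exp_cont s).div_const s))
    (int_exp hf.continuous hc _ ((exp_cont s).div_const s))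
  rw [h1, ← integral_const_mul]
  congr 1
  refine integral_congr_ae (Eventually.of_forall fun u => ?_)
  show ((deriv f u : ℝ) : ℂ) * (Complex.exp (s * u) / s) =
    1 / s * (((deriv f u : ℝ) : ℂ) * Complex.exp (s * u))
  ring

/-- the contribution of the cut off -/
private noncomputable def AA (s : ℂ) : ℂ :=
  ∫ u : ℝ, ((deriv lam u : ℝ) : ℂ) * Complex.exp (s * u)

private theorem AA_bound : ∃ D : ℝ, 0 ≤ D ∧ ∀ s : ℂ, s ≠ 0 → s.re ≤ 1 → ‖AA s‖ ≤ D / ‖s‖ := by
  have hi : Integrable fun u : ℝ => |deriv (deriv lam) u| * Real.exp 1 :=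
    ((ddlam_smooth.continuous.integrable_of_hasCompactSupport ddlam_compact).abs).mul_const _
  refine ⟨∫ u : ℝ, |deriv (deriv lam) u| * Real.exp 1,
    integral_nonneg fun u => by positivity, fun s hs hre => ?_⟩
  have h1 := ibp (dlam_smooth.of_le (by exact_mod_cast le_top)) dlam_compact ddlam_compact s hs
  unfold AA
  rw [h1, norm_neg, norm_mul, norm_div, norm_one, one_div, inv_mul_eq_div]
  refine div_le_div_of_nonneg_right ?_ (norm_nonneg s)
  refine norm_integral_le_of_norm_le hi (Eventually.of_forall fun u => ?_)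
  rw [norm_mul, Complex.norm_real, Real.norm_eq_abs]
  by_cases hu : u < 3 / 10 ∨ 6 / 10 < u
  · rw [ddlam_zero hu, abs_zero, zero_mul, zero_mul]
  · rw [not_or, not_lt, not_lt] at hu
    refine mul_le_mul_of_nonneg_left ?_ (abs_nonneg _)
    rw [Complex.norm_exp, Real.exp_le_exp]
    have h2 : (s * (u : ℂ)).re = s.re * u := by
      rw [Complex.mul_re, Complex.ofReal_re, Complex.ofReal_im, mul_zero, sub_zero]
    rw [h2]
    nlinarith

section kernel

variable {κ : ℝ → ℝ}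

private noncomputable def SS (κ : ℝ → ℝ) (w : ℝ) : ℝ := ∫ v in (-1 : ℝ)..w, κ v

private theorem k_zero (hκ : Continuous κ) (hs : ∀ v, 1 < |v| → κ v = 0) {v : ℝ}
    (hv : v ≤ -1 ∨ 1 ≤ v) : κ v = 0 := by
  have hcl : IsClosed {v : ℝ | κ v = 0} := isClosed_eq hκ continuous_const
  rcases hv with hv | hv
  · have h1 : Set.Iic (-1 : ℝ) ⊆ {v | κ v = 0} := by
      rw [← closure_Iio]
      refine closure_minimal (fun w hw => hs w ?_) hcl
      have hw' : w < -1 := hw
      rw [abs_of_neg (by linarith)]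
      linarith
    exact h1 hv
  · have h1 : Set.Ici (1 : ℝ) ⊆ {v | κ v = 0} := by
      rw [← closure_Ioi]
      refine closure_minimal (fun w hw => hs w ?_) hcl
      have hw' : 1 < w := hw
      rw [abs_of_pos (by linarith)]
      exact hw'
    exact h1 hv

private theorem k_compact (hs : ∀ v, 1 < |v| → κ v = 0) : HasCompactSupport κ := by
  refine HasCompactSupport.intro (isCompact_Icc : IsCompact (Set.Icc (-1 : ℝ) 1)) fun u hu => ?_
  refine hs u ?_
  by_contra h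
  rw [not_lt, abs_le] at h
  exact hu h

private theorem SS_deriv (hκ : Continuous κ) (w : ℝ) : HasDerivAt (SS κ) (κ w) w :=
  intervalIntegral.integral_hasDerivAt_right (hκ.intervalIntegrable _ _)
    (hκ.stronglyMeasurableAtFilter _ _) hκ.continuousAt

private theorem SS_smooth (hκ : ContDiff ℝ (⊤ : ℕ∞) κ) : ContDiff ℝ (⊤ : ℕ∞) (SS κ) := by
  rw [contDiff_infty_iff_deriv]
  refine ⟨fun w => (SS_deriv hκ.continuous w).differentiableAt, ?_⟩
  have h1 : deriv (SS κ) = κ := funext fun w => (SS_deriv hκ.continuous w).deriv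
  rw [h1]
  exact hκ

private theorem SS_zero (hκ : Continuous κ) (hs : ∀ v, 1 < |v| → κ v = 0) {w : ℝ}
    (hw : ∀ v, v ≤ w → κ v = 0) : SS κ w = 0 := by
  unfold SS
  rw [intervalIntegral.integral_congr (g := fun _ => (0 : ℝ))]
  · exact intervalIntegral.integral_zero
  · intro v hv
    show κ v = 0
    rw [Set.mem_uIcc] at hv
    rcases hv with hv | hv
    · exact hw v hv.2
    · exact k_zero hκ hs (Or.inl hv.2)

private theorem SS_one (hκ : Continuous κ) (hs : ∀ v, 1 < |v| → κ v = 0) (h1 : ∫ v, κ v = 1)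
    {w : ℝ} (hw1 : -1 ≤ w) (hw : ∀ v, w < v → κ v = 0) : SS κ w = 1 := by
  unfold SS
  rw [intervalIntegral.integral_of_le hw1]
  refine Eq.trans ?_ h1
  refine setIntegral_eq_integral_of_forall_compl_eq_zero fun v hv => ?_
  rw [Set.mem_Ioc, not_and_or, not_lt, not_le] at hv
  rcases hv with hv | hv
  · exact k_zero hκ hs (Or.inl hv)
  · exact hw v hv

private theorem SS_nonneg (hκ : Continuous κ) (h0 : ∀ v, 0 ≤ κ v) (hs : ∀ v, 1 < |v| → κ v = 0)
    (w : ℝ) : 0 ≤ SS κ w := by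
  rcases le_or_gt w (-1) with hw | hw
  · rw [SS_zero hκ hs fun v hv => k_zero hκ hs (Or.inl (hv.trans hw))]
  · exact intervalIntegral.integral_nonneg hw.le fun v _ => h0 v

private theorem SS_le_one (hκ : Continuous κ) (h0 : ∀ v, 0 ≤ κ v) (hs : ∀ v, 1 < |v| → κ v = 0)
    (h1 : ∫ v, κ v = 1) (w : ℝ) : SS κ w ≤ 1 := by
  rcases le_or_gt w (-1) with hw | hw
  · rw [SS_zero hκ hs fun v hv => k_zero hκ hs (Or.inl (hv.trans hw))]
    exact zero_le_one
  · unfold SS
    rw [intervalIntegral.integral_of_le hw.le]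
    refine le_trans (setIntegral_le_integral
      (hκ.integrable_of_hasCompactSupport (k_compact hs)) (Eventually.of_forall h0)) h1.le

/-- the test function -/
private noncomputable def PP (κ : ℝ → ℝ) (y h u : ℝ) : ℝ := lam u * SS κ ((y - u) / h)

private theorem PP_smooth (hκ : ContDiff ℝ (⊤ : ℕ∞) κ) (y h : ℝ) :
    ContDiff ℝ (⊤ : ℕ∞) (PP κ y h) := by
  have h1 : ContDiff ℝ (⊤ : ℕ∞) fun u : ℝ => (y - u) / h := by fun_prop
  exact lam_smooth.mul ((SS_smooth hκ).comp h1)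

private theorem PP_zero {y h u : ℝ} (hu : u ≤ 3 / 10) : PP κ y h u = 0 := by
  unfold PP
  rw [lam_zero hu, zero_mul]

private theorem PP_compact (hκ : Continuous κ) (hs : ∀ v, 1 < |v| → κ v = 0) {y h : ℝ}
    (hh : 0 < h) : HasCompactSupport (PP κ y h) := by
  refine HasCompactSupport.intro (isCompact_Icc : IsCompact (Set.Icc (3 / 10 : ℝ) (y + h)))
    fun u hu => ?_
  rw [Set.mem_Icc, not_and_or, not_le, not_le] at hu
  rcases hu with hu | hu
  · exact PP_zero hu.le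
  · unfold PP
    rw [SS_zero hκ hs, mul_zero]
    intro v hv
    refine k_zero hκ hs (Or.inl (hv.trans ?_))
    rw [div_le_iff₀ hh]
    linarith

private theorem PP_deriv (hκ : Continuous κ) (hs : ∀ v, 1 < |v| → κ v = 0) (h1 : ∫ v, κ v = 1)
    {y h : ℝ} (hy : 2 ≤ y) (hh : 0 < h) (hh' : h ≤ 1 / 10) (u : ℝ) :
    deriv (PP κ y h) u = deriv lam u - κ ((y - u) / h) / h := by
  have ha : HasDerivAt (fun u : ℝ => (y - u) / h) (-1 / h) u :=
    ((hasDerivAt_id u).const_sub y).div_const h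
  have hb : HasDerivAt (fun u : ℝ => SS κ ((y - u) / h)) (κ ((y - u) / h) * (-1 / h)) u := by
    have hb' := (SS_deriv hκ ((y - u) / h)).comp u ha
    exact hb'
  have hl : HasDerivAt lam (deriv lam u) u :=
    ((contDiff_infty_iff_deriv.1 lam_smooth).1 u).hasDerivAt
  have hc : HasDerivAt (PP κ y h) (deriv lam u * SS κ ((y - u) / h) +
      lam u * (κ ((y - u) / h) * (-1 / h))) u := hl.mul hb
  have e1 : deriv lam u * SS κ ((y - u) / h) = deriv lam u := by
    by_cases hu : 6 / 10 < u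
    · rw [dlam_zero (Or.inr hu), zero_mul]
    · have h2 : 1 ≤ (y - u) / h := by
        rw [le_div_iff₀ hh]
        linarith
      rw [SS_one hκ hs h1 (by linarith) fun v hv => k_zero hκ hs (Or.inr (by linarith)), mul_one]
  have e2 : lam u * κ ((y - u) / h) = κ ((y - u) / h) := by
    by_cases hu : 6 / 10 ≤ u
    · rw [lam_one hu, one_mul]
    · have h2 : 1 ≤ (y - u) / h := by
        rw [le_div_iff₀ hh]
        linarith
      rw [k_zero hκ hs (Or.inr h2), mul_zero]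
  rw [hc.deriv, e1, ← mul_assoc, e2]
  ring

private theorem Lp_PP (hκ : ContDiff ℝ (⊤ : ℕ∞) κ) (hs : ∀ v, 1 < |v| → κ v = 0)
    (h1 : ∫ v, κ v = 1) {y h : ℝ} (hy : 2 ≤ y) (hh : 0 < h) (hh' : h ≤ 1 / 10) (s : ℂ)
    (hs0 : s ≠ 0) : Lp (PP κ y h) s = Wk κ y h s / s - AA s / s := by
  have hk := hκ.continuous
  have hcP := PP_compact hk hs (y := y) hh
  have e1 : Lp (PP κ y h) s = ∫ u : ℝ, (PP κ y h u : ℂ) * Complex.exp (s * u) := by
    unfold Lp
    refine setIntegral_eq_integral_of_forall_compl_eq_zero fun v hv => ?_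
    rw [Set.mem_Ioi, not_lt] at hv
    rw [PP_zero (by linarith), Complex.ofReal_zero, zero_mul]
  have hkh : Continuous fun u : ℝ => κ ((y - u) / h) / h := by fun_prop
  have hkc : HasCompactSupport fun u : ℝ => κ ((y - u) / h) / h := by
    refine HasCompactSupport.intro
      (isCompact_Icc : IsCompact (Set.Icc (y - h) (y + h))) fun u hu => ?_
    rw [Set.mem_Icc, not_and_or, not_le, not_le] at hu
    have h2 : (y - u) / h ≤ -1 ∨ 1 ≤ (y - u) / h := by
      rcases hu with hu | hu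
      · right
        rw [le_div_iff₀ hh]
        linarith
      · left
        rw [div_le_iff₀ hh]
        linarith
    rw [k_zero hk hs h2, zero_div]
  have hdP : deriv (PP κ y h) = fun u => deriv lam u - κ ((y - u) / h) / h :=
    funext fun u => PP_deriv hk hs h1 hy hh hh' u
  have hdc : HasCompactSupport (deriv (PP κ y h)) := hcP.deriv
  rw [e1, ibp ((PP_smooth hκ y h).of_le (by exact_mod_cast le_top)) hcP hdc s hs0, hdP]
  have e2 : ∫ u : ℝ, ((deriv lam u - κ ((y - u) / h) / h : ℝ) : ℂ) * Complex.exp (s * u) =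
      AA s - ∫ u : ℝ, ((κ ((y - u) / h) / h : ℝ) : ℂ) * Complex.exp (s * u) := by
    unfold AA
    rw [← integral_sub (int_exp dlam_smooth.continuous dlam_compact _ (exp_cont s))
      (int_exp hkh hkc _ (exp_cont s))]
    refine integral_congr_ae (Eventually.of_forall fun u => ?_)
    show ((deriv lam u - κ ((y - u) / h) / h : ℝ) : ℂ) * Complex.exp (s * u) =
      ((deriv lam u : ℝ) : ℂ) * Complex.exp (s * u) -
        ((κ ((y - u) / h) / h : ℝ) : ℂ) * Complex.exp (s * u)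
    rw [Complex.ofReal_sub]
    ring
  have e3 : ∫ u : ℝ, ((κ ((y - u) / h) / h : ℝ) : ℂ) * Complex.exp (s * u) = Wk κ y h s := by
    unfold Wk
    obtain ⟨G, hG⟩ : ∃ G : ℝ → ℂ, G = fun v => (κ v : ℂ) *
        Complex.exp (s * ((y - h * v : ℝ) : ℂ)) := ⟨_, rfl⟩
    have h2 : ∀ u : ℝ, ((κ ((y - u) / h) / h : ℝ) : ℂ) * Complex.exp (s * u) =
        (h : ℂ)⁻¹ * (fun x => G (x / h)) (y - u) := by
      intro u
      rw [hG]
      have h3 : y - h * ((y - u) / h) = u := by field_simp; ring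
      show ((κ ((y - u) / h) / h : ℝ) : ℂ) * Complex.exp (s * u) =
        (h : ℂ)⁻¹ * ((κ ((y - u) / h) : ℂ) *
          Complex.exp (s * ((y - h * ((y - u) / h) : ℝ) : ℂ)))
      rw [h3, Complex.ofReal_div]
      ring
    simp_rw [h2]
    rw [integral_const_mul, integral_sub_left_eq_self (fun x => G (x / h)) volume y,
      Measure.integral_comp_div G h, abs_of_pos hh, Complex.real_smul, ← mul_assoc,
      inv_mul_cancel₀ (Complex.ofReal_ne_zero.2 hh.ne'), one_mul, hG]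
  rw [e2, e3]
  ring

end kernel

theorem smooth_psi (κ : ℝ → ℝ) (hκ : ContDiff ℝ (⊤ : ℕ∞) κ) (h0 : ∀ v, 0 ≤ κ v) (hs : ∀ v, 1 < |v| → κ v = 0)
    (h1 : ∫ v, κ v = 1) :
    ∃ C : ℝ, ∀ y h : ℝ, 2 ≤ y → 0 < h → h ≤ 1 / 10 →
      (Summable fun ρ : ZZ => mz ρ * ‖Wk κ y h ρ / (ρ : ℂ)‖) ∧
      ((∀ v, 0 < v → κ v = 0) →
        Chebyshev.psi (Real.exp y) ≤
          (Wk κ y h 1 - ∑' ρ : ZZ, (mz ρ : ℂ) * (Wk κ y h ρ / (ρ : ℂ))).re + C) ∧
      ((∀ v, v < 0 → κ v = 0) →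
        (Wk κ y h 1 - ∑' ρ : ZZ, (mz ρ : ℂ) * (Wk κ y h ρ / (ρ : ℂ))).re - C ≤
          Chebyshev.psi (Real.exp y)) := by
  have hk := hκ.continuous
  obtain ⟨C0, hC⟩ := explicit
  obtain ⟨D, hD0, hD⟩ := AA_bound
  obtain ⟨c, hc, hcρ⟩ := zz_away
  have hρ0 : ∀ ρ : ZZ, 0 < ‖(ρ : ℂ)‖ := fun ρ => lt_of_lt_of_le hc (hcρ ρ)
  have hρn : ∀ ρ : ZZ, (ρ : ℂ) ≠ 0 := fun ρ => norm_pos_iff.1 (hρ0 ρ)
  have hmz : ∀ ρ : ZZ, 0 ≤ mz ρ := fun ρ => zero_le_one.trans (mz_one_le ρ)
  have hmn : ∀ (ρ : ZZ) (z : ℂ), ‖(mz ρ : ℂ) * z‖ = mz ρ * ‖z‖ := fun ρ z => by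
    rw [norm_mul, Complex.norm_real, Real.norm_of_nonneg (hmz ρ)]
  have hA : Summable fun ρ : ZZ => mz ρ * ‖AA ρ / (ρ : ℂ)‖ := by
    refine Summable.of_nonneg_of_le (fun ρ => mul_nonneg (hmz ρ) (norm_nonneg _)) (fun ρ => ?_)
      ((s_one 2 (by norm_num)).mul_left D)
    rw [Real.rpow_ofNat, norm_div]
    have h2 := hD ρ (hρn ρ) (zz_re_lt ρ).le
    have h3 : ‖AA ρ‖ / ‖(ρ : ℂ)‖ ≤ D / ‖(ρ : ℂ)‖ / ‖(ρ : ℂ)‖ :=
      div_le_div_of_nonneg_right h2 (norm_nonneg _)
    calc mz ρ * (‖AA ρ‖ / ‖(ρ : ℂ)‖) ≤ mz ρ * (D / ‖(ρ : ℂ)‖ / ‖(ρ : ℂ)‖) :=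
          mul_le_mul_of_nonneg_left h3 (hmz ρ)
      _ = D * (mz ρ / ‖(ρ : ℂ)‖ ^ 2) := by
          have := (hρ0 ρ).ne'
          field_simp
  have hA' : Summable fun ρ : ZZ => (mz ρ : ℂ) * (AA ρ / (ρ : ℂ)) :=
    Summable.of_norm (hA.congr fun ρ => (hmn ρ _).symm)
  refine ⟨‖AA 1‖ + ∑' ρ : ZZ, mz ρ * ‖AA ρ / (ρ : ℂ)‖, fun y h hy hh hh' => ?_⟩
  have hcP := PP_compact hk hs (y := y) hh
  obtain ⟨hS1, hS2⟩ := hC (PP κ y h)
    ((PP_smooth hκ y h).of_le (WithTop.coe_le_coe.2 (le_top : (4 : ℕ∞) ≤ ⊤))) hcP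
  have hP0 : PP κ y h 0 = 0 := PP_zero (by norm_num)
  have hL : ∀ ρ : ZZ, Lp (PP κ y h) ρ = Wk κ y h ρ / ρ - AA ρ / ρ := fun ρ =>
    Lp_PP hκ hs h1 hy hh hh' ρ (hρn ρ)
  have hL1 := Lp_PP hκ hs h1 hy hh hh' 1 one_ne_zero
  rw [div_one, div_one] at hL1
  simp only [hP0, Complex.ofReal_zero, zero_div, sub_zero, mul_zero, zero_add] at hS1 hS2
  have hW : Summable fun ρ : ZZ => mz ρ * ‖Wk κ y h ρ / (ρ : ℂ)‖ := by
    refine Summable.of_nonneg_of_le (fun ρ => mul_nonneg (hmz ρ) (norm_nonneg _)) (fun ρ => ?_)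
      (hS1.add hA)
    rw [← mul_add]
    refine mul_le_mul_of_nonneg_left ?_ (hmz ρ)
    have h2 : Wk κ y h ρ / (ρ : ℂ) = Lp (PP κ y h) ρ + AA ρ / ρ := by
      rw [hL ρ]
      ring
    rw [h2]
    exact norm_add_le _ _
  have hW' : Summable fun ρ : ZZ => (mz ρ : ℂ) * (Wk κ y h ρ / (ρ : ℂ)) :=
    Summable.of_norm (hW.congr fun ρ => (hmn ρ _).symm)
  have hT : ∑' ρ : ZZ, (mz ρ : ℂ) * Lp (PP κ y h) ρ =
      (∑' ρ : ZZ, (mz ρ : ℂ) * (Wk κ y h ρ / (ρ : ℂ))) - ∑' ρ : ZZ, (mz ρ : ℂ) * (AA ρ / (ρ : ℂ)) := by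
    rw [← hW'.tsum_sub hA']
    refine tsum_congr fun ρ => ?_
    rw [hL ρ]
    ring
  rw [hL1, hT] at hS2
  obtain ⟨T, hTd⟩ : ∃ T : ℂ, T = Wk κ y h 1 - ∑' ρ : ZZ, (mz ρ : ℂ) * (Wk κ y h ρ / (ρ : ℂ)) :=
    ⟨_, rfl⟩
  obtain ⟨E, hE⟩ : ∃ E : ℂ, E = AA 1 - ∑' ρ : ZZ, (mz ρ : ℂ) * (AA ρ / (ρ : ℂ)) := ⟨_, rfl⟩
  obtain ⟨Q, hQ⟩ : ∃ Q : ℝ, Q = ∑' n : ℕ, ArithmeticFunction.vonMangoldt n *
    PP κ y h (Real.log n) := ⟨_, rfl⟩
  have hQT : T.re = Q + E.re := by
    have h2 : T = (Q : ℂ) + E := by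
      rw [hQ, hS2, hTd, hE]
      ring
    rw [h2, Complex.add_re, Complex.ofReal_re]
  have hEb : |E.re| ≤ ‖AA 1‖ + ∑' ρ : ZZ, mz ρ * ‖AA ρ / (ρ : ℂ)‖ := by
    refine (Complex.abs_re_le_norm E).trans ?_
    rw [hE]
    refine (norm_sub_le _ _).trans (add_le_add_right ?_ _)
    have h2 := norm_tsum_le_tsum_norm (f := fun ρ : ZZ => (mz ρ : ℂ) * (AA ρ / (ρ : ℂ)))
      (hA.congr fun ρ => (hmn ρ _).symm)
    refine h2.trans (le_of_eq (tsum_congr fun ρ => hmn ρ _))
  have hΛ : ∀ n : ℕ, 0 ≤ ArithmeticFunction.vonMangoldt n := fun n =>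
    ArithmeticFunction.vonMangoldt_nonneg
  have hP1 : ∀ u, 0 ≤ PP κ y h u := fun u => mul_nonneg (lam_nonneg u) (SS_nonneg hk h0 hs _)
  have hP2 : ∀ u, PP κ y h u ≤ 1 := fun u =>
    mul_le_one₀ (lam_le_one u) (SS_nonneg hk h0 hs _) (SS_le_one hk h0 hs h1 _)
  have hfin : ∀ n : ℕ, n ∉ Finset.Ioc 0 ⌊Real.exp (y + h)⌋₊ →
      ArithmeticFunction.vonMangoldt n * PP κ y h (Real.log n) = 0 := by
    intro n hn
    rcases Nat.eq_zero_or_pos n with rfl | hn0
    · simp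
    · rw [Finset.mem_Ioc, not_and, not_le] at hn
      have h2 := hn hn0
      rw [Nat.floor_lt (Real.exp_pos _).le] at h2
      have hn0' : (0 : ℝ) < n := by exact_mod_cast hn0
      have h3 : y + h < Real.log n := (Real.lt_log_iff_exp_lt hn0').2 h2
      have h4 : PP κ y h (Real.log n) = 0 := by
        unfold PP
        rw [SS_zero hk hs, mul_zero]
        intro v hv
        refine k_zero hk hs (Or.inl (hv.trans ?_))
        rw [div_le_iff₀ hh]
        linarith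
      rw [h4, mul_zero]
  have hQs : Q = ∑ n ∈ Finset.Ioc 0 ⌊Real.exp (y + h)⌋₊, ArithmeticFunction.vonMangoldt n *
      PP κ y h (Real.log n) := by
    rw [hQ]
    exact tsum_eq_sum fun n hn => hfin n hn
  have hsub : Finset.Ioc 0 ⌊Real.exp y⌋₊ ⊆ Finset.Ioc 0 ⌊Real.exp (y + h)⌋₊ :=
    Finset.Ioc_subset_Ioc_right (Nat.floor_mono (Real.exp_le_exp.2 (by linarith)))
  refine ⟨hW, fun hκ0 => ?_, fun hκ0 => ?_⟩
  · rw [← hTd, hQT]
    have h2 : Chebyshev.psi (Real.exp y) ≤ Q := by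
      rw [hQs]
      unfold Chebyshev.psi
      refine le_trans (Finset.sum_le_sum fun n hn => ?_)
        (Finset.sum_le_sum_of_subset_of_nonneg hsub fun n _ _ => mul_nonneg (hΛ n) (hP1 _))
      rw [Finset.mem_Ioc] at hn
      rcases Nat.lt_or_ge n 2 with h3 | h3
      · have h4 : n = 1 := by omega
        rw [h4]
        simp
      · have hn0' : (0 : ℝ) < n := by exact_mod_cast hn.1
        have h4 : Real.log n ≤ y := by
          rw [Real.log_le_iff_le_exp hn0']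
          exact (Nat.le_floor_iff (Real.exp_pos _).le).1 hn.2
        have h5 : 6 / 10 ≤ Real.log n := by
          have h6 : Real.log 2 ≤ Real.log n :=
            Real.log_le_log (by norm_num) (by exact_mod_cast h3)
          have h7 := Real.log_two_gt_d9
          linarith
        have h6 : 0 ≤ (y - Real.log n) / h := div_nonneg (by linarith) hh.le
        have h8 : PP κ y h (Real.log n) = 1 := by
          unfold PP
          rw [lam_one h5, one_mul]
          exact SS_one hk hs h1 (by linarith) fun v hv => hκ0 v (by linarith)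
        rw [h8, mul_one]
    have h3 := neg_abs_le E.re
    linarith
  · rw [← hTd, hQT]
    have hk0 : ∀ v, v ≤ 0 → κ v = 0 := by
      intro v hv
      have h2 : Set.Iic (0 : ℝ) ⊆ {v | κ v = 0} := by
        rw [← closure_Iio]
        exact closure_minimal (fun w hw => hκ0 w hw) (isClosed_eq hk continuous_const)
      exact h2 hv
    have h2 : Q ≤ Chebyshev.psi (Real.exp y) := by
      have h3 : Q = ∑ n ∈ Finset.Ioc 0 ⌊Real.exp y⌋₊, ArithmeticFunction.vonMangoldt n *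
          PP κ y h (Real.log n) := by
        rw [hQs]
        symm
        refine Finset.sum_subset hsub fun n hn hn' => ?_
        rw [Finset.mem_Ioc] at hn
        rw [Finset.mem_Ioc, not_and, not_le] at hn'
        have h4 := hn' hn.1
        rw [Nat.floor_lt (Real.exp_pos _).le] at h4
        have hn0' : (0 : ℝ) < n := by exact_mod_cast hn.1
        have h5 : y < Real.log n := (Real.lt_log_iff_exp_lt hn0').2 h4
        have h6 : PP κ y h (Real.log n) = 0 := by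
          unfold PP
          rw [SS_zero hk hs, mul_zero]
          intro v hv
          refine hk0 v (hv.trans ?_)
          exact div_nonpos_of_nonpos_of_nonneg (by linarith) hh.le
        rw [h6, mul_zero]
      rw [h3]
      unfold Chebyshev.psi
      exact Finset.sum_le_sum fun n _ => mul_le_of_le_one_right (hΛ n) (hP2 _)
    have h3 := le_abs_self E.re
    linarith

end Pool.Agent.H50.RL
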