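import Pool.Agent.H50.RL.Lz
import Pool.Agent.H50.RL.S2

/-!
[H50 RL IB] The smoothed sum over the zeros, divided by `exp(Θ y)`, tends to the sum over the line `Re s = Θ`.

PROOF. Notation `h = exp(-b y)`, `W s = Wk κ y h s = e^{s y} G(s h)`, `G w = ∫ κ(v) e^{-w v} dv`. All for `y ≥ 1`, `h ≤ 1`.
(1) `W 1 - e^y = e^y (G(h) - 1)` and `‖G(h) - 1‖ = ‖∫ κ (e^{-hv} - 1)‖ ≤ C h`; `e^{-Θ y} e^y h = e^{(1 - Θ - b) y} → 0`.
(2) Choose `σ` with `1/2 < σ < Θ` and split the sum. (2a) `Re ρ ≥ σ`: the term is `e^{-Θy} mz ρ W ρ/ρ`, of norm `≤ e^{(Re ρ - Θ) y} (mz ρ/‖ρ‖) ∫|κ| e^{Re ρ h} ≤ C mz ρ/‖ρ‖`,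
summable by `s_two σ`; for fixed `ρ` the term tends to `0` if `Re ρ < Θ`, and if `Re ρ = Θ` it is `(mz/ρ) e^{iγy} G(ρ h)` with `G(ρ h) → G 0 = 1` (continuity), so the difference
with `(mz/ρ) e^{iγy}` tends to `0`: dominated convergence `tendsto_tsum_of_dominated_convergence`.
(2b) `Re ρ < σ` (the trivial zeros too): for `|v| ≤ 1`, `y - hv ≥ 0`, so `|e^{ρ(y-hv)}| ≤ e^{σ(y+1)}`; hence `‖W ρ‖ ≤ C e^{σ y}`; one integration by parts: `W ρ = (1/(ρ h)) ∫ κ'(v) e^{ρ(y - hv)} dv`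
so `‖W ρ‖ ≤ C e^{σ y}/(‖ρ‖ h)`. With `0 < ε ≤ 1` (interpolate `min(1, x^{-1}) ≤ x^{-ε}`): `‖W ρ‖ ≤ C e^{σ y} (‖ρ‖ h)^{-ε}`, so the sum is at most
`e^{-Θ y} C e^{σ y} h^{-ε} Σ mz/‖ρ‖^{1+ε} = C' e^{(σ - Θ + b ε) y} → 0` if `b ε < Θ - σ` (`s_one (1+ε)`).
Write the difference of the two `tsum`s as the `tsum` of `[Re ρ ≥ σ]`-part plus `[Re ρ < σ]`-part (`Summable.tsum_add`, both summable; note `b > 0`).
-/

set_option autoImplicit false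

namespace Pool.Agent.H50.RL

open MeasureTheory Filter Topology

private theorem nrm (f : ℝ → ℝ) (hf : Integrable f) (hs : ∀ v, 1 < |v| → f v = 0) (g : ℝ → ℂ) (E : ℝ)
    (hE : ∀ v, |v| ≤ 1 → ‖g v‖ ≤ E) : ‖∫ v, (f v : ℂ) * g v‖ ≤ E * ∫ v, |f v| := by
  rw [← integral_const_mul]
  refine norm_integral_le_of_norm_le (hf.abs.const_mul E) (Filter.Eventually.of_forall fun v => ?_)
  rw [norm_mul, Complex.norm_real, Real.norm_eq_abs, mul_comm]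
  rcases le_or_gt |v| 1 with h | h
  · exact mul_le_mul_of_nonneg_right (hE v h) (abs_nonneg _)
  · rw [hs v h, abs_zero, mul_zero, mul_zero]

private theorem cs {f : ℝ → ℝ} (hs : ∀ v, 1 < |v| → f v = 0) : HasCompactSupport f := by
  refine HasCompactSupport.intro (isCompact_Icc (a := (-1 : ℝ)) (b := 1)) fun v hv => hs v ?_
  by_contra h
  push Not at h
  exact hv (abs_le.1 h)

private theorem int_mul {f : ℝ → ℝ} (hf : Continuous f) (hs : ∀ v, 1 < |v| → f v = 0) {g : ℝ → ℂ}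
    (hg : Continuous g) : Integrable fun v => (f v : ℂ) * g v := by
  have h1 : Continuous fun v => (f v : ℂ) := Complex.continuous_ofReal.comp hf
  refine (h1.mul hg).integrable_of_hasCompactSupport ?_
  refine HasCompactSupport.intro (isCompact_Icc (a := (-1 : ℝ)) (b := 1)) fun v hv => ?_
  show (f v : ℂ) * g v = 0
  rw [hs v, Complex.ofReal_zero, zero_mul]
  by_contra h
  push Not at h
  exact hv (abs_le.1 h)

private theorem cexp_sub_one {w : ℂ} (hw : ‖w‖ ≤ 1) : ‖Complex.exp w - 1‖ ≤ 2 * ‖w‖ :=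
  Complex.norm_exp_sub_one_le hw

/-- `∫ κ(v) exp(-w v) dv` -/
private noncomputable def Gk (κ : ℝ → ℝ) (w : ℂ) : ℂ := ∫ v : ℝ, (κ v : ℂ) * Complex.exp (-(w * v))

private theorem wk_eq (κ : ℝ → ℝ) (y h : ℝ) (s : ℂ) : Wk κ y h s = Complex.exp (s * y) * Gk κ (s * h) := by
  unfold Wk Gk
  rw [← integral_const_mul]
  refine integral_congr_ae (Filter.Eventually.of_forall fun v => ?_)
  show (κ v : ℂ) * Complex.exp (s * ((y - h * v : ℝ) : ℂ)) = Complex.exp (s * y) * ((κ v : ℂ) * Complex.exp (-(s * h * v)))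
  have h1 : Complex.exp (s * ((y - h * v : ℝ) : ℂ)) = Complex.exp (s * y) * Complex.exp (-(s * h * v)) := by
    rw [← Complex.exp_add]
    congr 1
    push_cast
    ring
  rw [h1]
  ring

private theorem gk_sub (κ : ℝ → ℝ) (hκ : Continuous κ) (hs : ∀ v, 1 < |v| → κ v = 0) (h1 : ∫ v, κ v = 1) {w : ℂ}
    (hw : ‖w‖ ≤ 1) : ‖Gk κ w - 1‖ ≤ 2 * ‖w‖ * ∫ v, |κ v| := by
  have h2 : (1 : ℂ) = ∫ v : ℝ, (κ v : ℂ) * 1 := by
    simp only [mul_one]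
    rw [integral_complex_ofReal, h1, Complex.ofReal_one]
  have h3 : Gk κ w - 1 = ∫ v : ℝ, (κ v : ℂ) * (Complex.exp (-(w * v)) - 1) := by
    have h4 : Gk κ w - 1 = (∫ v : ℝ, (κ v : ℂ) * Complex.exp (-(w * v))) - ∫ v : ℝ, (κ v : ℂ) * 1 := by
      rw [← h2]
      rfl
    rw [h4, ← integral_sub (int_mul hκ hs (by fun_prop)) (int_mul hκ hs (by fun_prop))]
    refine integral_congr_ae (Filter.Eventually.of_forall fun v => ?_)
    show (κ v : ℂ) * Complex.exp (-(w * v)) - (κ v : ℂ) * 1 = (κ v : ℂ) * (Complex.exp (-(w * v)) - 1)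
    ring
  rw [h3]
  refine nrm κ (hκ.integrable_of_hasCompactSupport (cs hs)) hs _ _ fun v hv => ?_
  have h4 : ‖-(w * v)‖ ≤ ‖w‖ := by
    rw [norm_neg, norm_mul, Complex.norm_real, Real.norm_eq_abs]
    exact mul_le_of_le_one_right (norm_nonneg _) hv
  exact (cexp_sub_one (h4.trans hw)).trans (by linarith)

private theorem exp_nrm (s : ℂ) (y h v : ℝ) : ‖Complex.exp (s * ((y - h * v : ℝ) : ℂ))‖ = Real.exp (s.re * (y - h * v)) := by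
  rw [Complex.norm_exp]
  congr 1
  rw [Complex.mul_re, Complex.ofReal_re, Complex.ofReal_im, mul_zero, sub_zero]

/-- for `|v| ≤ 1` -/
private theorem exp_bd {s : ℂ} {y h v σ : ℝ} (hσ0 : 0 ≤ σ) (hσ : s.re ≤ σ) (hy : 1 ≤ y) (h0 : 0 ≤ h) (hh : h ≤ 1) (hv : |v| ≤ 1) :
    ‖Complex.exp (s * ((y - h * v : ℝ) : ℂ))‖ ≤ Real.exp (σ * (y + 1)) := by
  rw [exp_nrm, Real.exp_le_exp]
  have h1 : |h * v| ≤ 1 := by
    rw [abs_mul, abs_of_nonneg h0]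
    nlinarith [abs_nonneg v]
  have h2 := abs_le.1 h1
  have h3 : 0 ≤ y - h * v := by linarith
  calc s.re * (y - h * v) ≤ σ * (y - h * v) := mul_le_mul_of_nonneg_right hσ h3
    _ ≤ σ * (y + 1) := mul_le_mul_of_nonneg_left (by linarith) hσ0

private theorem ds (κ : ℝ → ℝ) (hs : ∀ v, 1 < |v| → κ v = 0) : ∀ v, 1 < |v| → deriv κ v = 0 := by
  intro v hv
  have h1 : κ =ᶠ[𝓝 v] fun _ => 0 := by
    have h2 : {v : ℝ | 1 < |v|} ∈ 𝓝 v := (isOpen_lt continuous_const continuous_abs).mem_nhds hv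
    filter_upwards [h2] with u hu
    exact hs u hu
  rw [h1.deriv_eq, deriv_const]

/-- one integration by parts -/
private theorem ibp (κ : ℝ → ℝ) (hκ : ContDiff ℝ (⊤ : ℕ∞) κ) (hs : ∀ v, 1 < |v| → κ v = 0) (y h : ℝ) (s : ℂ) :
    s * h * Wk κ y h s = ∫ v : ℝ, ((deriv κ v : ℝ) : ℂ) * Complex.exp (s * ((y - h * v : ℝ) : ℂ)) := by
  have hc : Continuous κ := hκ.continuous
  have hd : Differentiable ℝ κ := hκ.differentiable (by simp)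
  have hdc : Continuous (deriv κ) := hκ.continuous_deriv (by simp)
  have hu : ∀ v : ℝ, HasDerivAt (fun v : ℝ => (κ v : ℂ)) ((deriv κ v : ℝ) : ℂ) v := fun v =>
    (hd v).hasDerivAt.ofReal_comp
  have hv : ∀ v : ℝ, HasDerivAt (fun v : ℝ => Complex.exp (s * ((y - h * v : ℝ) : ℂ)))
      (-(s * h) * Complex.exp (s * ((y - h * v : ℝ) : ℂ))) v := by
    intro v
    have e1 : HasDerivAt (fun v : ℝ => y - h * v) (-h) v := by
      have e2 := ((hasDerivAt_id v).const_mul h).const_sub y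
      rw [mul_one] at e2
      exact e2
    have e3 : HasDerivAt (fun v : ℝ => ((y - h * v : ℝ) : ℂ)) ((-h : ℝ) : ℂ) v := e1.ofReal_comp
    have e4 := (e3.const_mul s).cexp
    refine e4.congr_deriv ?_
    push_cast
    ring
  have hexp : Continuous fun v : ℝ => Complex.exp (s * ((y - h * v : ℝ) : ℂ)) :=
    continuous_iff_continuousAt.2 fun v => (hv v).continuousAt
  have key := integral_mul_deriv_eq_deriv_mul_of_integrable (u := fun v : ℝ => (κ v : ℂ))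
    (v := fun v : ℝ => Complex.exp (s * ((y - h * v : ℝ) : ℂ))) (u' := fun v : ℝ => ((deriv κ v : ℝ) : ℂ))
    (v' := fun v : ℝ => -(s * h) * Complex.exp (s * ((y - h * v : ℝ) : ℂ))) (fun v _ => hu v) (fun v _ => hv v)
    (int_mul hc hs (continuous_const.mul hexp)) (int_mul hdc (ds κ hs) hexp) (int_mul hc hs hexp)
  have h2 : ∫ v : ℝ, (κ v : ℂ) * (-(s * h) * Complex.exp (s * ((y - h * v : ℝ) : ℂ))) = -(s * h * Wk κ y h s) := by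
    have h3 : ∫ v : ℝ, (κ v : ℂ) * (-(s * h) * Complex.exp (s * ((y - h * v : ℝ) : ℂ))) =
        ∫ v : ℝ, -(s * h) * ((κ v : ℂ) * Complex.exp (s * ((y - h * v : ℝ) : ℂ))) := by
      refine integral_congr_ae (Filter.Eventually.of_forall fun v => ?_)
      show (κ v : ℂ) * (-(s * h) * Complex.exp (s * ((y - h * v : ℝ) : ℂ))) =
        -(s * h) * ((κ v : ℂ) * Complex.exp (s * ((y - h * v : ℝ) : ℂ)))
      ring
    rw [h3, integral_const_mul, neg_mul]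
    rfl
  rw [h2] at key
  exact neg_injective key

private theorem mz0 (ρ : ZZ) : 0 ≤ mz ρ := zero_le_one.trans (mz_one_le ρ)

private theorem rpos (ρ : ZZ) : 0 < ‖(ρ : ℂ)‖ := by
  obtain ⟨c, hc, h⟩ := zz_away
  exact lt_of_lt_of_le hc (h ρ)

private theorem exp_tend {a : ℝ} (ha : a < 0) : Tendsto (fun y : ℝ => Real.exp (a * y)) atTop (𝓝 0) :=
  Real.tendsto_exp_atBot.comp (tendsto_id.const_mul_atTop_of_neg ha)

private theorem part1 (κ : ℝ → ℝ) (hκ : Continuous κ) (hs : ∀ v, 1 < |v| → κ v = 0) (h1 : ∫ v, κ v = 1)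
    (Θ : ℝ) (b : ℝ) (hb0 : 0 < b) (hb : 1 - Θ < b) :
    Tendsto (fun y : ℝ => ((Real.exp (-(Θ * y)) : ℝ) : ℂ) *
      (Wk κ y (Real.exp (-(b * y))) 1 - ((Real.exp y : ℝ) : ℂ))) atTop (𝓝 0) := by
  have hK : 0 ≤ ∫ v, |κ v| := integral_nonneg fun v => abs_nonneg _
  have h2 : Tendsto (fun y : ℝ => 2 * (∫ v, |κ v|) * Real.exp ((1 - Θ - b) * y)) atTop (𝓝 0) := by
    have := (exp_tend (a := 1 - Θ - b) (by linarith)).const_mul (2 * ∫ v, |κ v|)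
    rwa [mul_zero] at this
  refine squeeze_zero_norm' ?_ h2
  filter_upwards [eventually_ge_atTop (0 : ℝ)] with y hy
  have hh : Real.exp (-(b * y)) ≤ 1 := by
    rw [Real.exp_le_one_iff]
    nlinarith
  have hw : ‖(1 : ℂ) * (Real.exp (-(b * y)) : ℝ)‖ = Real.exp (-(b * y)) := by
    rw [one_mul, Complex.norm_real, Real.norm_of_nonneg (Real.exp_pos _).le]
  have h3 := gk_sub κ hκ hs h1 (w := (1 : ℂ) * (Real.exp (-(b * y)) : ℝ)) (by rw [hw]; exact hh)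
  rw [hw] at h3
  have h4 : Wk κ y (Real.exp (-(b * y))) 1 - ((Real.exp y : ℝ) : ℂ) =
      ((Real.exp y : ℝ) : ℂ) * (Gk κ ((1 : ℂ) * (Real.exp (-(b * y)) : ℝ)) - 1) := by
    rw [wk_eq, one_mul, mul_sub, mul_one, Complex.ofReal_exp y]
  rw [h4, norm_mul, norm_mul, Complex.norm_real, Complex.norm_real, Real.norm_of_nonneg (Real.exp_pos _).le,
    Real.norm_of_nonneg (Real.exp_pos _).le]
  have h5 : Real.exp ((1 - Θ - b) * y) = Real.exp (-(Θ * y)) * (Real.exp y * Real.exp (-(b * y))) := by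
    rw [← Real.exp_add, ← Real.exp_add]
    congr 1
    ring
  rw [h5]
  have h6 : Real.exp (-(Θ * y)) * (Real.exp y * ‖Gk κ ((1 : ℂ) * (Real.exp (-(b * y)) : ℝ)) - 1‖) ≤
      Real.exp (-(Θ * y)) * (Real.exp y * (2 * Real.exp (-(b * y)) * ∫ v, |κ v|)) :=
    mul_le_mul_of_nonneg_left (mul_le_mul_of_nonneg_left h3 (Real.exp_pos _).le) (Real.exp_pos _).le
  refine h6.trans (le_of_eq ?_)
  ring

/-- the difference of the terms -/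
private noncomputable def Dt (κ : ℝ → ℝ) (Θ b y : ℝ) (ρ : ZZ) : ℂ :=
  ((Real.exp (-(Θ * y)) : ℝ) : ℂ) * ((mz ρ : ℂ) * (Wk κ y (Real.exp (-(b * y))) ρ / (ρ : ℂ)))

/-- the terms of `rz` -/
private noncomputable def Rt (Θ y : ℝ) (ρ : ZZ) : ℂ :=
  if (ρ : ℂ).re = Θ then ((mz ρ : ℂ) / (ρ : ℂ)) * Complex.exp ((((ρ : ℂ).im * y : ℝ) : ℂ) * Complex.I) else 0

private theorem dt_norm (κ : ℝ → ℝ) (Θ b y : ℝ) (ρ : ZZ) :
    ‖Dt κ Θ b y ρ‖ = Real.exp (-(Θ * y)) * (mz ρ * (‖Wk κ y (Real.exp (-(b * y))) ρ‖ / ‖(ρ : ℂ)‖)) := by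
  unfold Dt
  rw [norm_mul, norm_mul, norm_div, Complex.norm_real, Complex.norm_real, Real.norm_of_nonneg (Real.exp_pos _).le,
    Real.norm_of_nonneg (mz0 ρ)]

private theorem rt_norm (Θ y : ℝ) (ρ : ZZ) : ‖Rt Θ y ρ‖ ≤ mz ρ / ‖(ρ : ℂ)‖ := by
  unfold Rt
  split_ifs
  · rw [norm_mul, norm_div, Complex.norm_real, Real.norm_of_nonneg (mz0 ρ), Complex.norm_exp_ofReal_mul_I, mul_one]
  · rw [norm_zero]
    exact div_nonneg (mz0 ρ) (norm_nonneg _)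

private theorem dt_bd (κ : ℝ → ℝ) (hκ : Continuous κ) (hs : ∀ v, 1 < |v| → κ v = 0) {Θ b y : ℝ} (hΘ : 0 ≤ Θ) (hΘ1 : Θ ≤ 1)
    (hb : 0 ≤ b) (hy : 1 ≤ y) (ρ : ZZ) (hρ : (ρ : ℂ).re ≤ Θ) :
    ‖Dt κ Θ b y ρ‖ ≤ Real.exp 1 * (∫ v, |κ v|) * (mz ρ / ‖(ρ : ℂ)‖) := by
  have hh : Real.exp (-(b * y)) ≤ 1 := by
    rw [Real.exp_le_one_iff]
    nlinarith
  have h1 : ‖Wk κ y (Real.exp (-(b * y))) ρ‖ ≤ Real.exp (Θ * (y + 1)) * ∫ v, |κ v| :=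
    nrm κ (hκ.integrable_of_hasCompactSupport (cs hs)) hs _ _ fun v hv =>
      exp_bd hΘ hρ hy (Real.exp_pos _).le hh hv
  have hK : 0 ≤ ∫ v, |κ v| := integral_nonneg fun v => abs_nonneg _
  have h2 : Real.exp (-(Θ * y)) * Real.exp (Θ * (y + 1)) ≤ Real.exp 1 := by
    rw [← Real.exp_add, Real.exp_le_exp]
    linarith
  rw [dt_norm]
  have hq : 0 ≤ mz ρ / ‖(ρ : ℂ)‖ := div_nonneg (mz0 ρ) (norm_nonneg _)
  calc Real.exp (-(Θ * y)) * (mz ρ * (‖Wk κ y (Real.exp (-(b * y))) ρ‖ / ‖(ρ : ℂ)‖))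
      = Real.exp (-(Θ * y)) * ‖Wk κ y (Real.exp (-(b * y))) ρ‖ * (mz ρ / ‖(ρ : ℂ)‖) := by ring
    _ ≤ Real.exp (-(Θ * y)) * (Real.exp (Θ * (y + 1)) * ∫ v, |κ v|) * (mz ρ / ‖(ρ : ℂ)‖) :=
      mul_le_mul_of_nonneg_right (mul_le_mul_of_nonneg_left h1 (Real.exp_pos _).le) hq
    _ = (Real.exp (-(Θ * y)) * Real.exp (Θ * (y + 1))) * (∫ v, |κ v|) * (mz ρ / ‖(ρ : ℂ)‖) := by ring
    _ ≤ Real.exp 1 * (∫ v, |κ v|) * (mz ρ / ‖(ρ : ℂ)‖) :=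
      mul_le_mul_of_nonneg_right (mul_le_mul_of_nonneg_right h2 hK) hq

/-- the limit of one term -/
private theorem dt_lim (κ : ℝ → ℝ) (hκ : Continuous κ) (hs : ∀ v, 1 < |v| → κ v = 0) (h1 : ∫ v, κ v = 1) {Θ b : ℝ}
    (hb : 0 < b) (ρ : ZZ) (hρ : (ρ : ℂ).re ≤ Θ) :
    Tendsto (fun y : ℝ => Dt κ Θ b y ρ - Rt Θ y ρ) atTop (𝓝 0) := by
  have hG : Tendsto (fun y : ℝ => ‖Gk κ ((ρ : ℂ) * (Real.exp (-(b * y)) : ℝ)) - 1‖) atTop (𝓝 0) := by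
    have h2 : Tendsto (fun y : ℝ => 2 * (‖(ρ : ℂ)‖ * Real.exp (-b * y)) * ∫ v, |κ v|) atTop (𝓝 0) := by
      have := (((exp_tend (a := -b) (by linarith)).const_mul ‖(ρ : ℂ)‖).const_mul 2).mul_const (∫ v, |κ v|)
      rwa [mul_zero, mul_zero, zero_mul] at this
    have h3 : ∀ᶠ y : ℝ in atTop, ‖(ρ : ℂ)‖ * Real.exp (-b * y) ≤ 1 := by
      have := (exp_tend (a := -b) (by linarith)).const_mul ‖(ρ : ℂ)‖
      rw [mul_zero] at this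
      exact this.eventually (eventually_le_nhds one_pos)
    refine squeeze_zero' (Filter.Eventually.of_forall fun y => norm_nonneg _) ?_ h2
    filter_upwards [h3] with y hy
    have hw : ‖(ρ : ℂ) * (Real.exp (-(b * y)) : ℝ)‖ = ‖(ρ : ℂ)‖ * Real.exp (-b * y) := by
      rw [norm_mul, Complex.norm_real, Real.norm_of_nonneg (Real.exp_pos _).le, neg_mul]
    have h4 := gk_sub κ hκ hs h1 (w := (ρ : ℂ) * (Real.exp (-(b * y)) : ℝ)) (by rw [hw]; exact hy)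
    rwa [hw] at h4
  have hD : ∀ y : ℝ, Dt κ Θ b y ρ = ((mz ρ : ℂ) / (ρ : ℂ)) * Complex.exp ((((ρ : ℂ).im * y : ℝ) : ℂ) * Complex.I) *
      (((Real.exp (((ρ : ℂ).re - Θ) * y) : ℝ) : ℂ) * Gk κ ((ρ : ℂ) * (Real.exp (-(b * y)) : ℝ))) := by
    intro y
    unfold Dt
    rw [wk_eq]
    have h2 : ((Real.exp (-(Θ * y)) : ℝ) : ℂ) * Complex.exp ((ρ : ℂ) * y) =
        Complex.exp ((((ρ : ℂ).im * y : ℝ) : ℂ) * Complex.I) * ((Real.exp (((ρ : ℂ).re - Θ) * y) : ℝ) : ℂ) := by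
      rw [Complex.ofReal_exp, Complex.ofReal_exp, ← Complex.exp_add, ← Complex.exp_add]
      congr 1
      have h3 := Complex.re_add_im (ρ : ℂ)
      push_cast
      linear_combination (-(y : ℂ)) * h3
    calc _ = ((mz ρ : ℂ) / (ρ : ℂ)) * (((Real.exp (-(Θ * y)) : ℝ) : ℂ) * Complex.exp ((ρ : ℂ) * y)) *
          Gk κ ((ρ : ℂ) * (Real.exp (-(b * y)) : ℝ)) := by ring
      _ = _ := by rw [h2]; ring
  rw [tendsto_zero_iff_norm_tendsto_zero]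
  have hq : 0 ≤ mz ρ / ‖(ρ : ℂ)‖ := div_nonneg (mz0 ρ) (norm_nonneg _)
  have hnc : ∀ y : ℝ, ‖((mz ρ : ℂ) / (ρ : ℂ)) * Complex.exp ((((ρ : ℂ).im * y : ℝ) : ℂ) * Complex.I)‖ =
      mz ρ / ‖(ρ : ℂ)‖ := by
    intro y
    rw [norm_mul, norm_div, Complex.norm_real, Real.norm_of_nonneg (mz0 ρ), Complex.norm_exp_ofReal_mul_I, mul_one]
  rcases hρ.lt_or_eq with hlt | heq
  · have h2 : Tendsto (fun y : ℝ => mz ρ / ‖(ρ : ℂ)‖ * (Real.exp (((ρ : ℂ).re - Θ) * y) *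
        (‖Gk κ ((ρ : ℂ) * (Real.exp (-(b * y)) : ℝ)) - 1‖ + 1))) atTop (𝓝 0) := by
      have := ((exp_tend (a := (ρ : ℂ).re - Θ) (by linarith)).mul (hG.add_const 1)).const_mul (mz ρ / ‖(ρ : ℂ)‖)
      rwa [zero_mul, mul_zero] at this
    refine squeeze_zero (fun y => norm_nonneg _) (fun y => ?_) h2
    have h3 : Rt Θ y ρ = 0 := by
      unfold Rt
      rw [if_neg hlt.ne]
    rw [h3, sub_zero, hD, norm_mul, hnc, norm_mul, Complex.norm_real, Real.norm_of_nonneg (Real.exp_pos _).le]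
    refine mul_le_mul_of_nonneg_left (mul_le_mul_of_nonneg_left ?_ (Real.exp_pos _).le) hq
    have h4 := norm_add_le (Gk κ ((ρ : ℂ) * (Real.exp (-(b * y)) : ℝ)) - 1) 1
    rwa [sub_add_cancel, norm_one] at h4
  · have h2 : Tendsto (fun y : ℝ => mz ρ / ‖(ρ : ℂ)‖ *
        ‖Gk κ ((ρ : ℂ) * (Real.exp (-(b * y)) : ℝ)) - 1‖) atTop (𝓝 0) := by
      have := hG.const_mul (mz ρ / ‖(ρ : ℂ)‖)
      rwa [mul_zero] at this
    refine squeeze_zero (fun y => norm_nonneg _) (fun y => le_of_eq ?_) h2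
    have h3 : Rt Θ y ρ = ((mz ρ : ℂ) / (ρ : ℂ)) * Complex.exp ((((ρ : ℂ).im * y : ℝ) : ℂ) * Complex.I) := by
      unfold Rt
      rw [if_pos heq]
    have h4 : ((Real.exp (((ρ : ℂ).re - Θ) * y) : ℝ) : ℂ) = 1 := by
      rw [heq, sub_self, zero_mul, Real.exp_zero, Complex.ofReal_one]
    have h5 : ‖Dt κ Θ b y ρ - Rt Θ y ρ‖ = ‖((mz ρ : ℂ) / (ρ : ℂ)) *
        Complex.exp ((((ρ : ℂ).im * y : ℝ) : ℂ) * Complex.I) *
          (Gk κ ((ρ : ℂ) * (Real.exp (-(b * y)) : ℝ)) - 1)‖ := by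
      rw [hD, h3, h4]
      congr 1
      ring
    rw [h5, norm_mul, hnc]

/-- the terms with real part at least `σ` -/
private noncomputable def At (κ : ℝ → ℝ) (Θ b σ y : ℝ) (ρ : ZZ) : ℂ :=
  if σ ≤ (ρ : ℂ).re then Dt κ Θ b y ρ - Rt Θ y ρ else 0

/-- the terms with real part less than `σ` -/
private noncomputable def Bt (κ : ℝ → ℝ) (Θ b σ y : ℝ) (ρ : ZZ) : ℂ :=
  if σ ≤ (ρ : ℂ).re then 0 else Dt κ Θ b y ρ

private theorem at_bd (κ : ℝ → ℝ) (hκ : Continuous κ) (hs : ∀ v, 1 < |v| → κ v = 0) {Θ b σ y : ℝ} (hΘ : 0 ≤ Θ) (hΘ1 : Θ ≤ 1)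
    (hmax : ∀ ρ : ZZ, (ρ : ℂ).re ≤ Θ) (hb : 0 ≤ b) (hy : 1 ≤ y) (ρ : ZZ) :
    ‖At κ Θ b σ y ρ‖ ≤ (Real.exp 1 * (∫ v, |κ v|) + 1) * (if σ ≤ (ρ : ℂ).re then mz ρ / ‖(ρ : ℂ)‖ else 0) := by
  unfold At
  split_ifs with h
  · refine (norm_sub_le _ _).trans ?_
    have h1 := dt_bd κ hκ hs hΘ hΘ1 hb hy ρ (hmax ρ)
    have h2 := rt_norm Θ y ρ
    linarith
  · rw [norm_zero, mul_zero]

private theorem bt_bd (κ : ℝ → ℝ) (hκ : ContDiff ℝ (⊤ : ℕ∞) κ) (hs : ∀ v, 1 < |v| → κ v = 0) {Θ b σ ε y : ℝ} (hσ : 0 ≤ σ)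
    (hb : 0 ≤ b) (hε : 0 < ε) (hε1 : ε ≤ 1) (hy : 1 ≤ y) (ρ : ZZ) :
    ‖Bt κ Θ b σ y ρ‖ ≤ ((∫ v, |κ v|) + ∫ v, |deriv κ v|) * Real.exp σ * Real.exp ((σ - Θ + b * ε) * y) *
      (mz ρ / ‖(ρ : ℂ)‖ ^ (1 + ε)) := by
  have hK : 0 ≤ ∫ v, |κ v| := integral_nonneg fun v => abs_nonneg _
  have hK' : 0 ≤ ∫ v, |deriv κ v| := integral_nonneg fun v => abs_nonneg _
  have hr := rpos ρ
  have hrp : 0 < ‖(ρ : ℂ)‖ ^ (1 + ε) := Real.rpow_pos_of_pos hr _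
  unfold Bt
  split_ifs with h
  · rw [norm_zero]
    have := mz0 ρ
    positivity
  push Not at h
  obtain ⟨h', hh'⟩ : ∃ h' : ℝ, h' = Real.exp (-(b * y)) := ⟨_, rfl⟩
  have h0 : 0 < h' := by rw [hh']; exact Real.exp_pos _
  have hh : h' ≤ 1 := by
    rw [hh', Real.exp_le_one_iff]
    nlinarith
  have hc : Continuous κ := hκ.continuous
  have hdc : Continuous (deriv κ) := hκ.continuous_deriv (by simp)
  have w1 : ‖Wk κ y h' ρ‖ ≤ Real.exp (σ * (y + 1)) * ∫ v, |κ v| :=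
    nrm κ (hc.integrable_of_hasCompactSupport (cs hs)) hs _ _ fun v hv => exp_bd hσ h.le hy h0.le hh hv
  have w2 : ‖(ρ : ℂ)‖ * h' * ‖Wk κ y h' ρ‖ ≤ Real.exp (σ * (y + 1)) * ∫ v, |deriv κ v| := by
    have h2 := ibp κ hκ hs y h' ρ
    have h3 : ‖(ρ : ℂ)‖ * h' * ‖Wk κ y h' ρ‖ = ‖(ρ : ℂ) * h' * Wk κ y h' ρ‖ := by
      rw [norm_mul, norm_mul, Complex.norm_real, Real.norm_of_nonneg h0.le]
    rw [h3, h2]
    exact nrm (deriv κ) (hdc.integrable_of_hasCompactSupport (cs (ds κ hs))) (ds κ hs) _ _ fun v hv =>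
      exp_bd hσ h.le hy h0.le hh hv
  have hx : 0 < ‖(ρ : ℂ)‖ * h' := by positivity
  have hE := Real.exp_pos (σ * (y + 1))
  have w3 : ‖Wk κ y h' ρ‖ ≤ Real.exp (σ * (y + 1)) * ((∫ v, |κ v|) + ∫ v, |deriv κ v|) *
      (‖(ρ : ℂ)‖ * h') ^ (-ε) := by
    rcases le_total (‖(ρ : ℂ)‖ * h') 1 with hle | hge
    · have h2 : 1 ≤ (‖(ρ : ℂ)‖ * h') ^ (-ε) := Real.one_le_rpow_of_pos_of_le_one_of_nonpos hx hle (by linarith)
      have h3 : Real.exp (σ * (y + 1)) * (∫ v, |κ v|) ≤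
          Real.exp (σ * (y + 1)) * ((∫ v, |κ v|) + ∫ v, |deriv κ v|) :=
        mul_le_mul_of_nonneg_left (by linarith) hE.le
      have h4 : 0 ≤ Real.exp (σ * (y + 1)) * ((∫ v, |κ v|) + ∫ v, |deriv κ v|) := by positivity
      refine w1.trans (h3.trans ?_)
      exact le_mul_of_one_le_right h4 h2
    · have h2 : (‖(ρ : ℂ)‖ * h')⁻¹ ≤ (‖(ρ : ℂ)‖ * h') ^ (-ε) := by
        rw [← Real.rpow_neg_one]
        exact Real.rpow_le_rpow_of_exponent_le hge (by linarith)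
      have h3 : ‖Wk κ y h' ρ‖ ≤ Real.exp (σ * (y + 1)) * (∫ v, |deriv κ v|) * (‖(ρ : ℂ)‖ * h')⁻¹ := by
        rw [← div_eq_mul_inv, le_div_iff₀ hx]
        linarith
      refine h3.trans ?_
      refine mul_le_mul (mul_le_mul_of_nonneg_left (by linarith) hE.le) h2 (by positivity) (by positivity)
  rw [dt_norm, ← hh']
  have e1 : (‖(ρ : ℂ)‖ * h') ^ (-ε) = ‖(ρ : ℂ)‖ ^ (-ε) * Real.exp (b * ε * y) := by
    rw [Real.mul_rpow hr.le h0.le, hh', ← Real.exp_mul]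
    congr 2
    ring
  have e2 : ‖(ρ : ℂ)‖ ^ (1 + ε) = ‖(ρ : ℂ)‖ * ‖(ρ : ℂ)‖ ^ ε := by
    rw [Real.rpow_add hr, Real.rpow_one]
  have e3 : ‖(ρ : ℂ)‖ ^ (-ε) = (‖(ρ : ℂ)‖ ^ ε)⁻¹ := Real.rpow_neg hr.le _
  have e4 : Real.exp (-(Θ * y)) * (Real.exp (σ * (y + 1)) * Real.exp (b * ε * y)) =
      Real.exp σ * Real.exp ((σ - Θ + b * ε) * y) := by
    rw [← Real.exp_add, ← Real.exp_add, ← Real.exp_add]
    congr 1
    ring
  have hrε : 0 < ‖(ρ : ℂ)‖ ^ ε := Real.rpow_pos_of_pos hr _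
  calc Real.exp (-(Θ * y)) * (mz ρ * (‖Wk κ y h' ρ‖ / ‖(ρ : ℂ)‖)) ≤
        Real.exp (-(Θ * y)) * (mz ρ * (Real.exp (σ * (y + 1)) * ((∫ v, |κ v|) + ∫ v, |deriv κ v|) *
          (‖(ρ : ℂ)‖ * h') ^ (-ε) / ‖(ρ : ℂ)‖)) := by
        refine mul_le_mul_of_nonneg_left (mul_le_mul_of_nonneg_left ?_ (mz0 ρ)) (Real.exp_pos _).le
        exact div_le_div_of_nonneg_right w3 hr.le
    _ = ((∫ v, |κ v|) + ∫ v, |deriv κ v|) * (Real.exp (-(Θ * y)) * (Real.exp (σ * (y + 1)) * Real.exp (b * ε * y))) *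
          (mz ρ / (‖(ρ : ℂ)‖ * ‖(ρ : ℂ)‖ ^ ε)) := by
        rw [e1, e3]
        field_simp
    _ = _ := by
        rw [e4, e2]
        ring

theorem w_lim (κ : ℝ → ℝ) (hκ : ContDiff ℝ (⊤ : ℕ∞) κ) (hs : ∀ v, 1 < |v| → κ v = 0) (h1 : ∫ v, κ v = 1)
    (Θ : ℝ) (hΘ : 1 / 2 < Θ) (hΘ1 : Θ < 1) (hmax : ∀ ρ : ZZ, (ρ : ℂ).re ≤ Θ) (b : ℝ) (hb : 1 - Θ < b) :
    Tendsto (fun y : ℝ => ((Real.exp (-(Θ * y)) : ℝ) : ℂ) *
      (Wk κ y (Real.exp (-(b * y))) 1 - ((Real.exp y : ℝ) : ℂ))) atTop (𝓝 0) ∧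
    Tendsto (fun y : ℝ => ((Real.exp (-(Θ * y)) : ℝ) : ℂ) *
      (∑' ρ : ZZ, (mz ρ : ℂ) * (Wk κ y (Real.exp (-(b * y))) ρ / (ρ : ℂ))) + rz Θ y) atTop (𝓝 0) := by
  have hb0 : 0 < b := by linarith
  have hc : Continuous κ := hκ.continuous
  refine ⟨part1 κ hc hs h1 Θ b hb0 hb, ?_⟩
  obtain ⟨σ, hσ1, hσ2⟩ : ∃ σ : ℝ, 1 / 2 < σ ∧ σ < Θ := exists_between hΘ
  obtain ⟨ε, hε0, hε1, hεb⟩ : ∃ ε : ℝ, 0 < ε ∧ ε ≤ 1 ∧ σ - Θ + b * ε < 0 := by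
    refine ⟨min 1 ((Θ - σ) / (2 * b)), lt_min one_pos (div_pos (by linarith) (by linarith)), min_le_left _ _, ?_⟩
    have h2 : b * min 1 ((Θ - σ) / (2 * b)) ≤ b * ((Θ - σ) / (2 * b)) :=
      mul_le_mul_of_nonneg_left (min_le_right _ _) hb0.le
    have h3 : b * ((Θ - σ) / (2 * b)) = (Θ - σ) / 2 := by
      field_simp
    linarith
  have hS2 := s_two σ hσ1
  have hS1 := s_one (1 + ε) (by linarith)
  have hA : Tendsto (fun y : ℝ => ∑' ρ : ZZ, At κ Θ b σ y ρ) atTop (𝓝 (∑' _ : ZZ, (0 : ℂ))) := by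
    refine tendsto_tsum_of_dominated_convergence (hS2.mul_left (Real.exp 1 * (∫ v, |κ v|) + 1)) ?_ ?_
    · intro ρ
      unfold At
      by_cases h : σ ≤ (ρ : ℂ).re
      · simp only [if_pos h]
        exact dt_lim κ hc hs h1 hb0 ρ (hmax ρ)
      · simp only [if_neg h]
        exact tendsto_const_nhds
    · filter_upwards [eventually_ge_atTop (1 : ℝ)] with y hy ρ
      exact at_bd κ hc hs (by linarith) hΘ1.le hmax hb0.le hy ρ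
  rw [tsum_zero] at hA
  have hB : Tendsto (fun y : ℝ => ∑' ρ : ZZ, Bt κ Θ b σ y ρ) atTop (𝓝 0) := by
    have h2 : Tendsto (fun y : ℝ => ((∫ v, |κ v|) + ∫ v, |deriv κ v|) * Real.exp σ *
        Real.exp ((σ - Θ + b * ε) * y) * ∑' ρ : ZZ, mz ρ / ‖(ρ : ℂ)‖ ^ (1 + ε)) atTop (𝓝 0) := by
      have := ((exp_tend hεb).const_mul (((∫ v, |κ v|) + ∫ v, |deriv κ v|) * Real.exp σ)).mul_const
        (∑' ρ : ZZ, mz ρ / ‖(ρ : ℂ)‖ ^ (1 + ε))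
      rwa [mul_zero, zero_mul] at this
    refine squeeze_zero_norm' ?_ h2
    filter_upwards [eventually_ge_atTop (1 : ℝ)] with y hy
    rw [← tsum_mul_left]
    exact tsum_of_norm_bounded (hS1.mul_left _).hasSum fun ρ =>
      bt_bd κ hκ hs (by linarith) hb0.le hε0 hε1 hy ρ
  have hAB := hA.add hB
  rw [add_zero] at hAB
  refine hAB.congr' ?_
  filter_upwards [eventually_ge_atTop (1 : ℝ)] with y hy
  have sA : Summable fun ρ : ZZ => At κ Θ b σ y ρ :=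
    Summable.of_norm_bounded (hS2.mul_left (Real.exp 1 * (∫ v, |κ v|) + 1)) fun ρ =>
      at_bd κ hc hs (by linarith) hΘ1.le hmax hb0.le hy ρ
  have sB : Summable fun ρ : ZZ => Bt κ Θ b σ y ρ :=
    Summable.of_norm_bounded (hS1.mul_left _) fun ρ => bt_bd κ hκ hs (by linarith) hb0.le hε0 hε1 hy ρ
  have sR : Summable fun ρ : ZZ => Rt Θ y ρ := by
    refine Summable.of_norm_bounded hS2 fun ρ => ?_
    by_cases h : σ ≤ (ρ : ℂ).re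
    · rw [if_pos h]
      exact rt_norm Θ y ρ
    · rw [if_neg h]
      have h2 : Rt Θ y ρ = 0 := by
        unfold Rt
        rw [if_neg]
        intro h3
        exact h (by rw [h3]; exact hσ2.le)
      rw [h2, norm_zero]
  have hsum : ∀ ρ : ZZ, At κ Θ b σ y ρ + Bt κ Θ b σ y ρ + Rt Θ y ρ = Dt κ Θ b y ρ := by
    intro ρ
    unfold At Bt
    by_cases h : σ ≤ (ρ : ℂ).re
    · rw [if_pos h, if_pos h]
      ring
    · rw [if_neg h, if_neg h]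
      have h2 : Rt Θ y ρ = 0 := by
        unfold Rt
        rw [if_neg]
        intro h3
        exact h (by rw [h3]; exact hσ2.le)
      rw [h2]
      ring
  have h2 : ((Real.exp (-(Θ * y)) : ℝ) : ℂ) *
      (∑' ρ : ZZ, (mz ρ : ℂ) * (Wk κ y (Real.exp (-(b * y))) ρ / (ρ : ℂ))) = ∑' ρ : ZZ, Dt κ Θ b y ρ := by
    rw [← tsum_mul_left]
    rfl
  have h3 : rz Θ y = -∑' ρ : ZZ, Rt Θ y ρ := rfl
  rw [h2, h3]
  have h4 : ∑' ρ : ZZ, Dt κ Θ b y ρ =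
      (∑' ρ : ZZ, At κ Θ b σ y ρ) + (∑' ρ : ZZ, Bt κ Θ b σ y ρ) + ∑' ρ : ZZ, Rt Θ y ρ := by
    rw [← sA.tsum_add sB, ← (sA.add sB).tsum_add sR]
    exact (tsum_congr hsum).symm
  rw [h4]
  ring

end Pool.Agent.H50.RL
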