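import Pool.Agent.H50.RL.Ia
import Pool.Agent.H50.RL.Ib


/-!
[H50 RL IC] The error term of the prime number theorem on the rightmost line, and part D for zeta.

PROOF of `psi_lim`. Take a smooth `κ₁ ≥ 0` supported in `[-1, 0]` and `κ₂ ≥ 0` supported in `[0, 1]`, integrals `1` (`ContDiffBump` centred at `∓1/2`, normalised:
`ContDiffBump.normed`). `smooth_psi` with `h = exp(-b y)`, `b = 1` (`1 - Θ < 1`, `h ≤ 1/10` for `y ≥ 3`) and `w_lim`: `e^{-Θy}(ψ(e^y) - e^y)` is `≤` (resp. `≥`)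
`Re[e^{-Θy}(W 1 - e^y) - e^{-Θy} Σ ...] ± C e^{-Θ y} = Re (rz Θ y) + o(1)`. Squeeze.
PROOF of `line_data`. `ι = {ρ : ZZ // Re ρ = Θ}`, `γ = Im`, `m = mz` (`mz_one_le`), `r u = (rz Θ u).re`, `summ` from `s_two Θ` (restrict to the subtype: `Summable.subtype` /
`summable_subtype_iff_indicator`; `ρ = Θ + iγ`), `hr`: `rz Θ u` is real because conjugation permutes the zeros on the line and keeps `mz` (`mz_conj`,
`Equiv.tsum_eq` with the conjugation equivalence, `Complex.conj_tsum`; `Complex.conj_eq_iff_re`), and the `tsum` with `if` over `ZZ` is the `tsum` over the subtype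
(`tsum_subtype`).
PROOF of `part_dz`. Apply `part_d` to `D = line_data`. `hinf`: infinitely many zeros on the line, closed under conjugation, at most one with `γ = 0`; so
infinitely many `γ > 0` (otherwise finitely many with `γ > 0`, their conjugates `γ < 0`, and one more). `hdens`: `N(T) = ncard {i | |γ i| ≤ T}`; for `ε > 0` choose a finite set
`F` of indices with `Σ_{i ∉ F} 1/‖ρ_i‖ ≤ ε/4` (`summ`, `m ≥ 1`); then `N(T) ≤ card F + Σ_{i ∉ F, |γ i| ≤ T} 1 ≤ card F + (T + 1) ε/4`, since `1 ≤ (T+1)/‖ρ_i‖` if `|γ i| ≤ T` (`‖ρ_i‖ ≤ Θ + T`).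
(`Set.Finite` from `zz_finite`.) `hf`: `psi_lim`. `hSC` as given.
-/

set_option autoImplicit false

namespace Pool.Agent.H50.RL

open MeasureTheory Filter Topology

private theorem kern (c : ℝ) : ∃ κ : ℝ → ℝ, ContDiff ℝ (⊤ : ℕ∞) κ ∧ (∀ v, 0 ≤ κ v) ∧
    (∀ v, 1 / 2 ≤ |v - c| → κ v = 0) ∧ ∫ v, κ v = 1 := by
  let f : ContDiffBump c := ⟨1 / 4, 1 / 2, by norm_num, by norm_num⟩
  refine ⟨f.normed volume, f.contDiff_normed, fun v => f.nonneg_normed v, fun v hv => ?_,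
    f.integral_normed⟩
  have h1 : v ∉ Function.support (f.normed volume) := by
    rw [f.support_normed_eq, Metric.mem_ball, Real.dist_eq]
    exact not_lt.2 hv
  exact Function.notMem_support.1 h1

private theorem exp_zero (Θ C : ℝ) (hΘ : 0 < Θ) :
    Tendsto (fun y : ℝ => Real.exp (-(Θ * y)) * C) atTop (𝓝 0) := by
  have h1 : Tendsto (fun y : ℝ => Θ * y) atTop atTop := tendsto_id.const_mul_atTop hΘ
  have h2 := (Real.tendsto_exp_neg_atTop_nhds_zero.comp h1).mul_const C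
  rw [zero_mul] at h2
  exact h2

private theorem one_side (Θ : ℝ) (hΘ : 1 / 2 < Θ) (hΘ1 : Θ < 1) (hmax : ∀ ρ : ZZ, (ρ : ℂ).re ≤ Θ)
    (κ : ℝ → ℝ) (hκ : ContDiff ℝ (⊤ : ℕ∞) κ) (hs : ∀ v, 1 < |v| → κ v = 0) (h1 : ∫ v, κ v = 1)
    (C : ℝ) :
    Tendsto (fun y : ℝ => Real.exp (-(Θ * y)) * ((Wk κ y (Real.exp (-y)) 1 -
      ∑' ρ : ZZ, (mz ρ : ℂ) * (Wk κ y (Real.exp (-y)) ρ / (ρ : ℂ))).re + C - Real.exp y) -
      (rz Θ y).re) atTop (𝓝 0) := by
  obtain ⟨h2, h3⟩ := w_lim κ hκ hs h1 Θ hΘ hΘ1 hmax 1 (by linarith)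
  have h4 : Tendsto (fun y : ℝ => (((Real.exp (-(Θ * y)) : ℝ) : ℂ) *
      (Wk κ y (Real.exp (-(1 * y))) 1 - ((Real.exp y : ℝ) : ℂ)) -
      (((Real.exp (-(Θ * y)) : ℝ) : ℂ) *
      (∑' ρ : ZZ, (mz ρ : ℂ) * (Wk κ y (Real.exp (-(1 * y))) ρ / (ρ : ℂ))) + rz Θ y)).re)
      atTop (𝓝 0) := by
    have h5 := h2.sub h3
    rw [sub_zero] at h5
    exact (Complex.continuous_re.tendsto 0).comp h5
  have h6 := h4.add (exp_zero Θ C (by linarith))
  rw [add_zero] at h6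
  refine h6.congr fun y => ?_
  rw [one_mul, Complex.sub_re, Complex.add_re, Complex.re_ofReal_mul, Complex.re_ofReal_mul,
    Complex.sub_re, Complex.sub_re, Complex.ofReal_re]
  ring

theorem psi_lim (Θ : ℝ) (hΘ : 1 / 2 < Θ) (hΘ1 : Θ < 1) (hmax : ∀ ρ : ZZ, (ρ : ℂ).re ≤ Θ) :
    Tendsto (fun y : ℝ => Real.exp (-(Θ * y)) * fz y - (rz Θ y).re) atTop (𝓝 0) := by
  obtain ⟨κ, hκ1, hκ2, hκ3, hκ4⟩ := kern (-1 / 2)
  obtain ⟨κ', hκ1', hκ2', hκ3', hκ4'⟩ := kern (1 / 2)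
  have hs : ∀ v, 1 < |v| → κ v = 0 := by
    intro v hv
    refine hκ3 v ?_
    have h1 := abs_sub_abs_le_abs_sub v (-1 / 2)
    have h2 : |(-1 / 2 : ℝ)| = 1 / 2 := by norm_num [abs_of_neg]
    linarith
  have hs' : ∀ v, 1 < |v| → κ' v = 0 := by
    intro v hv
    refine hκ3' v ?_
    have h1 := abs_sub_abs_le_abs_sub v (1 / 2)
    have h2 : |(1 / 2 : ℝ)| = 1 / 2 := by norm_num [abs_of_pos]
    linarith
  obtain ⟨C, hC⟩ := smooth_psi κ hκ1 hκ2 hs hκ4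
  obtain ⟨C', hC'⟩ := smooth_psi κ' hκ1' hκ2' hs' hκ4'
  have hpos : ∀ v, 0 < v → κ v = 0 := by
    intro v hv
    refine hκ3 v ?_
    rw [abs_of_pos (by linarith)]
    linarith
  have hneg : ∀ v, v < 0 → κ' v = 0 := by
    intro v hv
    refine hκ3' v ?_
    rw [abs_of_neg (by linarith)]
    linarith
  have hup := one_side Θ hΘ hΘ1 hmax κ hκ1 hs hκ4 C
  have hlo := one_side Θ hΘ hΘ1 hmax κ' hκ1' hs' hκ4' (-C')
  have hh : ∀ y : ℝ, 3 ≤ y → Real.exp (-y) ≤ 1 / 10 := by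
    intro y hy
    have h1 : Real.exp (-y) ≤ Real.exp (-3) := Real.exp_le_exp.2 (by linarith)
    have h2 : (10 : ℝ) ≤ Real.exp 3 := by
      have h3 : Real.exp 3 = Real.exp 1 ^ 3 := by
        rw [← Real.exp_nat_mul]
        norm_num
      rw [h3]
      have h4 := Real.exp_one_gt_d9
      nlinarith [pow_pos (Real.exp_pos 1) 2, mul_pos (Real.exp_pos 1) (Real.exp_pos 1)]
    have h5 : Real.exp (-3) = 1 / Real.exp 3 := by
      rw [Real.exp_neg, one_div]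
    rw [h5] at h1
    exact h1.trans (one_div_le_one_div_of_le (by norm_num) h2)
  refine tendsto_of_tendsto_of_tendsto_of_le_of_le' hlo hup ?_ ?_
  · filter_upwards [eventually_ge_atTop (3 : ℝ)] with y hy
    have h1 := (hC' y (Real.exp (-y)) (by linarith) (Real.exp_pos _) (hh y hy)).2.2 hneg
    have h2 : 0 < Real.exp (-(Θ * y)) := Real.exp_pos _
    unfold fz
    gcongr
    linarith
  · filter_upwards [eventually_ge_atTop (3 : ℝ)] with y hy
    have h1 := (hC y (Real.exp (-y)) (by linarith) (Real.exp_pos _) (hh y hy)).2.1 hpos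
    have h2 : 0 < Real.exp (-(Θ * y)) := Real.exp_pos _
    unfold fz
    gcongr

/-- conjugation of the zeros on the line -/
private noncomputable def cj (Θ : ℝ) : {ρ : ZZ // (ρ : ℂ).re = Θ} ≃ {ρ : ZZ // (ρ : ℂ).re = Θ} where
  toFun i := ⟨⟨(starRingEnd ℂ) (i.1 : ℂ), zeta_conj_zero i.1 i.1.2⟩, by
    rw [Complex.conj_re]; exact i.2⟩
  invFun i := ⟨⟨(starRingEnd ℂ) (i.1 : ℂ), zeta_conj_zero i.1 i.1.2⟩, by
    rw [Complex.conj_re]; exact i.2⟩
  left_inv i := by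
    apply Subtype.ext
    apply Subtype.ext
    exact Complex.conj_conj _
  right_inv i := by
    apply Subtype.ext
    apply Subtype.ext
    exact Complex.conj_conj _

private theorem line_pt {Θ : ℝ} (i : {ρ : ZZ // (ρ : ℂ).re = Θ}) :
    ((Θ : ℂ) + ((((i : ZZ) : ℂ).im : ℝ) : ℂ) * Complex.I) = ((i : ZZ) : ℂ) := by
  have h1 := Complex.re_add_im ((i : ZZ) : ℂ)
  have h2 : ((((i : ZZ) : ℂ).re : ℝ) : ℂ) = (Θ : ℂ) := congrArg _ i.2
  rw [h2] at h1
  exact h1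

private theorem rz_eq (Θ u : ℝ) : rz Θ u = -∑' i : {ρ : ZZ // (ρ : ℂ).re = Θ},
    ((mz i.1 : ℂ) / ((i : ZZ) : ℂ)) * Complex.exp (((((i : ZZ) : ℂ).im * u : ℝ) : ℂ) * Complex.I) := by
  unfold rz
  congr 1
  have h1 := tsum_subtype {ρ : ZZ | (ρ : ℂ).re = Θ} (fun ρ : ZZ => ((mz ρ : ℂ) / (ρ : ℂ)) *
    Complex.exp ((((ρ : ℂ).im * u : ℝ) : ℂ) * Complex.I))
  refine Eq.trans ?_ h1.symm
  refine tsum_congr fun ρ => ?_
  by_cases h : (ρ : ℂ).re = Θ
  · rw [if_pos h, Set.indicator_of_mem (by exact h)]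
  · rw [if_neg h, Set.indicator_of_notMem (by exact h)]

private theorem rz_real (Θ u : ℝ) : (((rz Θ u).re : ℝ) : ℂ) = rz Θ u := by
  rw [← Complex.conj_eq_iff_re, rz_eq, map_neg, Complex.conj_tsum]
  congr 1
  rw [← Equiv.tsum_eq (cj Θ)]
  refine tsum_congr fun i => ?_
  have h1 : mz ((cj Θ i).1) = mz i.1 := mz_conj i.1
  have h2 : (((cj Θ i).1 : ZZ) : ℂ) = (starRingEnd ℂ) ((i : ZZ) : ℂ) := rfl
  rw [h1, h2, map_mul, map_div₀, Complex.conj_ofReal, Complex.conj_conj, ← Complex.exp_conj, map_mul,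
    Complex.conj_ofReal, Complex.conj_I, Complex.conj_im]
  congr 2
  push_cast
  ring

theorem line_data (Θ : ℝ) (hΘ : 1 / 2 < Θ) :
    ∃ D : LineData, D.Θ = Θ ∧ (∀ u, D.r u = (rz Θ u).re) ∧
      ∃ e : D.ι ≃ {ρ : ZZ // (ρ : ℂ).re = Θ}, ∀ i, D.γ i = (((e i : ZZ) : ℂ)).im := by
  refine ⟨{ ι := {ρ : ZZ // (ρ : ℂ).re = Θ}
            Θ := Θ
            γ := fun i => ((i : ZZ) : ℂ).im
            m := fun i => mz i.1
            Θpos := by linarith
            one_le := fun i => mz_one_le i.1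
            inj := ?_
            r := fun u => (rz Θ u).re
            summ := ?_
            hr := ?_ }, rfl, fun _ => rfl, Equiv.refl _, fun _ => rfl⟩
  · intro i j hij
    apply Subtype.ext
    apply Subtype.ext
    exact Complex.ext (i.2.trans j.2.symm) hij
  · have h1 := (s_two Θ hΘ).subtype {ρ : ZZ | (ρ : ℂ).re = Θ}
    refine h1.congr fun i => ?_
    have h2 : Θ ≤ (i.1 : ℂ).re := le_of_eq i.2.symm
    change (if Θ ≤ (i.1 : ℂ).re then mz i.1 / ‖(i.1 : ℂ)‖ else 0) = _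
    rw [if_pos h2, line_pt]
  · intro u
    rw [rz_real, rz_eq]
    congr 1
    refine tsum_congr fun i => ?_
    rw [line_pt]

end Pool.Agent.H50.RL
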