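import Pool.Agent.H50.RL.Zf
import Pool.Agent.H11.SC7.ZetaB

/-!
[H50 RL ZG] `(s-1) ζ(s)` has order one.

PROOF. It suffices to bound by `K exp(B (1+‖z‖)^a)` with some `K, B ≥ 0`.
(1) `Re s ≥ 1/2`: `‖FF s‖ ≤ C1 (1+‖s‖)^2` (`zeta_half`).
(2) `Re s ≤ 1/2`, `‖s‖ ≥ 1/4`: functional equation `ζ(1-w) = 2 (2π)^(-w) Γ(w) cos(π w/2) ζ(w)`, `w = 1 - s`,
`Re w ≥ 1/2` (`riemannZeta_one_sub`). `‖(2π)^(-w)‖ ≤ 1`, `‖cos(π w/2)‖ ≤ exp(2‖w‖)`, `‖Γ(w)‖ ≤ Γ(Re w)`
and `Γ(x) ≤ 4 exp(x log(2(x+1)))` for `x ≥ 1/2`. Finally `‖w‖ ≤ 1 + ‖s‖` and `log(1+x) ≤ (1+x)^(a-1)/(a-1)`.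
(3) `‖s‖ ≤ 1/4`: compactness.
-/

set_option autoImplicit false

namespace Pool.Agent.H50.RL

open MeasureTheory Filter Topology

private lemma zg_log_le (x t : ℝ) (hx : 0 ≤ x) (ht : 0 < t) :
    t ^ x ≤ Real.exp (x * Real.log (2 * (x + 1))) * Real.exp (t / 2) := by
  rw [Real.rpow_def_of_pos ht, ← Real.exp_add]
  apply Real.exp_le_exp.mpr
  have ha : (0 : ℝ) < 2 * (x + 1) := by linarith
  have h1 : Real.log (t / (2 * (x + 1))) ≤ t / (2 * (x + 1)) - 1 :=
    Real.log_le_sub_one_of_pos (div_pos ht ha)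
  rw [Real.log_div ht.ne' ha.ne'] at h1
  have h2 : Real.log t ≤ Real.log (2 * (x + 1)) + t / (2 * (x + 1)) := by linarith
  have h3 : x * (t / (2 * (x + 1))) ≤ t / 2 := by
    have : x * (t / (2 * (x + 1))) = (t / 2) * (x / (x + 1)) := by
      field_simp
    rw [this]
    have h4 : x / (x + 1) ≤ 1 := by
      rw [div_le_one (by linarith)]
      linarith
    have h5 : 0 ≤ t / 2 := by linarith
    calc (t / 2) * (x / (x + 1)) ≤ (t / 2) * 1 := mul_le_mul_of_nonneg_left h4 h5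
      _ = t / 2 := mul_one _
  calc Real.log t * x = x * Real.log t := mul_comm _ _
    _ ≤ x * (Real.log (2 * (x + 1)) + t / (2 * (x + 1))) := mul_le_mul_of_nonneg_left h2 hx
    _ = x * Real.log (2 * (x + 1)) + x * (t / (2 * (x + 1))) := by ring
    _ ≤ x * Real.log (2 * (x + 1)) + t / 2 := by linarith

private lemma zg_Gamma_succ_le (x : ℝ) (hx : 0 ≤ x) :
    Real.Gamma (x + 1) ≤ 2 * Real.exp (x * Real.log (2 * (x + 1))) := by
  rw [Real.Gamma_eq_integral (by linarith)]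
  have hint : MeasureTheory.IntegrableOn
      (fun t : ℝ => Real.exp (x * Real.log (2 * (x + 1))) * Real.exp (-(1 / 2) * t)) (Set.Ioi 0) := by
    have := integrableOn_exp_mul_Ioi (a := -(1 / 2 : ℝ)) (by norm_num) 0
    exact this.const_mul _
  calc ∫ t in Set.Ioi (0 : ℝ), Real.exp (-t) * t ^ (x + 1 - 1)
      ≤ ∫ t in Set.Ioi (0 : ℝ),
          Real.exp (x * Real.log (2 * (x + 1))) * Real.exp (-(1 / 2) * t) := by
        apply MeasureTheory.setIntegral_mono_on (Real.GammaIntegral_convergent (by linarith)) hint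
          measurableSet_Ioi
        intro t ht
        have ht0 : 0 < t := ht
        rw [add_sub_cancel_right]
        calc Real.exp (-t) * t ^ x
            ≤ Real.exp (-t) * (Real.exp (x * Real.log (2 * (x + 1))) * Real.exp (t / 2)) :=
              mul_le_mul_of_nonneg_left (zg_log_le x t hx ht0) (Real.exp_pos _).le
          _ = Real.exp (x * Real.log (2 * (x + 1))) * (Real.exp (-t) * Real.exp (t / 2)) := by ring
          _ = Real.exp (x * Real.log (2 * (x + 1))) * Real.exp (-(1 / 2) * t) := by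
              rw [← Real.exp_add]
              congr 2
              ring
    _ = 2 * Real.exp (x * Real.log (2 * (x + 1))) := by
        rw [MeasureTheory.integral_const_mul, integral_exp_mul_Ioi (by norm_num)]
        simp
        ring

private lemma zg_norm_Gamma_le (s : ℂ) (hs : 0 < s.re) :
    ‖Complex.Gamma s‖ ≤ Real.Gamma s.re := by
  rw [Complex.Gamma_eq_integral hs, Real.Gamma_eq_integral hs, Complex.GammaIntegral]
  refine (MeasureTheory.norm_integral_le_integral_norm _).trans (le_of_eq ?_)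
  apply MeasureTheory.setIntegral_congr_fun measurableSet_Ioi
  intro t ht
  have ht0 : 0 < t := ht
  simp only [norm_mul]
  rw [Complex.norm_cpow_eq_rpow_re_of_pos ht0]
  simp [Complex.norm_exp]

private lemma zg_gamma (a : ℝ) (ha : 1 < a) (s : ℂ) (hs : 1 / 2 ≤ s.re) (R : ℝ) (hR : 1 ≤ R)
    (hsR : ‖s‖ ≤ R) : ‖Complex.Gamma s‖ ≤ 4 * Real.exp ((3 + 1 / (a - 1)) * R ^ a) := by
  have hx : 0 < s.re := by linarith
  have h0 : ‖Complex.Gamma s‖ ≤ Real.Gamma s.re := zg_norm_Gamma_le s hx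
  have h1 : Real.Gamma (s.re + 1) = s.re * Real.Gamma s.re := Real.Gamma_add_one hx.ne'
  have h2 := zg_Gamma_succ_le s.re hx.le
  have hG : 0 < Real.Gamma s.re := Real.Gamma_pos_of_pos hx
  have h3 : Real.Gamma s.re ≤ 4 * Real.exp (s.re * Real.log (2 * (s.re + 1))) := by
    nlinarith
  have hxR : s.re ≤ R := (Complex.re_le_norm s).trans hsR
  have hR0 : 0 < R := by linarith
  have hRa : R ≤ R ^ a := by
    conv_lhs => rw [← Real.rpow_one R]
    exact Real.rpow_le_rpow_of_exponent_le hR ha.le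
  have hlog : Real.log (2 * (s.re + 1)) ≤ 3 + R ^ (a - 1) / (a - 1) := by
    have h4 : Real.log (2 * (s.re + 1)) ≤ Real.log (4 * R) :=
      Real.log_le_log (by linarith) (by linarith)
    rw [Real.log_mul (by norm_num) hR0.ne'] at h4
    have h5 : Real.log 4 ≤ 3 := by
      have := Real.log_le_sub_one_of_pos (show (0 : ℝ) < 4 by norm_num)
      linarith
    have h6 : Real.log R ≤ R ^ (a - 1) / (a - 1) := Real.log_le_rpow_div hR0.le (by linarith)
    linarith
  have h7 : s.re * Real.log (2 * (s.re + 1)) ≤ (3 + 1 / (a - 1)) * R ^ a := by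
    have hnn : 0 ≤ 3 + R ^ (a - 1) / (a - 1) := by
      have : 0 ≤ R ^ (a - 1) / (a - 1) := div_nonneg (by positivity) (by linarith)
      linarith
    have hmul : R * R ^ (a - 1) = R ^ a := by
      rw [Real.rpow_sub_one hR0.ne']
      field_simp
    calc s.re * Real.log (2 * (s.re + 1)) ≤ s.re * (3 + R ^ (a - 1) / (a - 1)) :=
          mul_le_mul_of_nonneg_left hlog hx.le
      _ ≤ R * (3 + R ^ (a - 1) / (a - 1)) := mul_le_mul_of_nonneg_right hxR hnn
      _ = 3 * R + (R * R ^ (a - 1)) / (a - 1) := by ring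
      _ = 3 * R + R ^ a / (a - 1) := by rw [hmul]
      _ ≤ 3 * R ^ a + R ^ a / (a - 1) := by linarith
      _ = (3 + 1 / (a - 1)) * R ^ a := by ring
  refine (h0.trans h3).trans ?_
  exact mul_le_mul_of_nonneg_left (Real.exp_le_exp.mpr h7) (by norm_num)

private theorem zg_cos (z : ℂ) : ‖Complex.cos z‖ ≤ Real.exp ‖z‖ := by
  rw [Complex.cos]
  have h1 : ‖Complex.exp (z * Complex.I)‖ ≤ Real.exp ‖z‖ := by
    refine (Complex.norm_exp_le_exp_norm _).trans ?_
    rw [norm_mul, Complex.norm_I, mul_one]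
  have h2 : ‖Complex.exp (-z * Complex.I)‖ ≤ Real.exp ‖z‖ := by
    refine (Complex.norm_exp_le_exp_norm _).trans ?_
    rw [norm_mul, Complex.norm_I, mul_one, norm_neg]
  rw [norm_div, Complex.norm_ofNat]
  have h3 := norm_add_le (Complex.exp (z * Complex.I)) (Complex.exp (-z * Complex.I))
  rw [div_le_iff₀ (by norm_num)]
  linarith

private theorem zg_left {C0 : ℝ} (hC0 : 0 ≤ C0)
    (h0 : ∀ s : ℂ, 1 / 2 ≤ s.re → ‖(s - 1) * riemannZeta s‖ ≤ C0 * (1 + ‖s‖) ^ 2)
    (a : ℝ) (ha : 1 < a)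
    (w : ℂ) (hw : w.re ≤ 1 / 2) (hw' : 1 / 4 ≤ ‖w‖) :
    ‖(w - 1) * riemannZeta w‖ ≤ 128 * C0 * Real.exp ((8 + 1 / (a - 1)) * (1 + ‖w‖) ^ a) := by
  obtain ⟨s, hs⟩ : ∃ s : ℂ, s = 1 - w := ⟨_, rfl⟩
  have hws : w = 1 - s := by rw [hs]; ring
  have hsre : 1 / 2 ≤ s.re := by
    rw [hs, Complex.sub_re, Complex.one_re]
    linarith
  have hs1 : s ≠ 1 := by
    intro h
    rw [h] at hws
    rw [hws] at hw'
    norm_num at hw'
  have hsn : ∀ n : ℕ, s ≠ -n := by
    intro n h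
    rw [h] at hsre
    simp at hsre
    have : (0 : ℝ) ≤ n := n.cast_nonneg
    linarith
  have hsn1 : 1 / 4 ≤ ‖s - 1‖ := by
    have : s - 1 = -w := by rw [hs]; ring
    rw [this, norm_neg]
    exact hw'
  have hsnorm : ‖s‖ ≤ 1 + ‖w‖ := by
    rw [hs]
    refine (norm_sub_le _ _).trans ?_
    rw [norm_one]
  have hz : ‖riemannZeta s‖ ≤ 4 * (C0 * (1 + ‖s‖) ^ 2) := by
    have h2 := h0 s hsre
    rw [norm_mul] at h2
    have h3 : 1 / 4 * ‖riemannZeta s‖ ≤ ‖s - 1‖ * ‖riemannZeta s‖ :=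
      mul_le_mul_of_nonneg_right hsn1 (norm_nonneg _)
    linarith
  have hpi : ‖(2 * (Real.pi : ℂ)) ^ (-s)‖ ≤ 1 := by
    have e : (2 * (Real.pi : ℂ)) = ((2 * Real.pi : ℝ) : ℂ) := by push_cast; rfl
    rw [e, Complex.norm_cpow_eq_rpow_re_of_pos (by positivity)]
    apply Real.rpow_le_one_of_one_le_of_nonpos
    · have := Real.pi_gt_three
      linarith
    · rw [Complex.neg_re]
      linarith
  have hcos : ‖Complex.cos (Real.pi * s / 2)‖ ≤ Real.exp (2 * ‖s‖) := by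
    refine (zg_cos _).trans ?_
    rw [Real.exp_le_exp, norm_div, norm_mul, Complex.norm_ofNat, Complex.norm_real,
      Real.norm_of_nonneg Real.pi_pos.le, div_le_iff₀ (by norm_num)]
    have := Real.pi_lt_four
    nlinarith [norm_nonneg s]
  have hw1 : ‖w - 1‖ = ‖s‖ := by
    have : w - 1 = -s := by rw [hs]; ring
    rw [this, norm_neg]
  have hx : 0 ≤ ‖s‖ := norm_nonneg _
  have hy : 0 ≤ ‖w‖ := norm_nonneg _
  obtain ⟨R, hRdef⟩ : ∃ R : ℝ, R = 1 + ‖w‖ := ⟨_, rfl⟩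
  have hR1 : 1 ≤ R := by linarith
  have hsR : ‖s‖ ≤ R := by linarith
  have hRa : R ≤ R ^ a := by
    conv_lhs => rw [← Real.rpow_one R]
    exact Real.rpow_le_rpow_of_exponent_le hR1 ha.le
  have hgam := zg_gamma a ha s hsre R hR1 hsR
  rw [norm_mul, hw1, hws, riemannZeta_one_sub hsn hs1, ← hws, norm_mul, norm_mul, norm_mul, norm_mul,
    Complex.norm_ofNat, ← hRdef]
  calc ‖s‖ * (2 * ‖(2 * (Real.pi : ℂ)) ^ (-s)‖ * ‖Complex.Gamma s‖ * ‖Complex.cos (Real.pi * s / 2)‖ *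
        ‖riemannZeta s‖)
      ≤ R * (2 * 1 * (4 * Real.exp ((3 + 1 / (a - 1)) * R ^ a)) * Real.exp (2 * R) *
        (4 * (C0 * (2 * R) ^ 2))) := by
        have h8 : ‖Complex.cos (Real.pi * s / 2)‖ ≤ Real.exp (2 * R) :=
          hcos.trans (Real.exp_le_exp.mpr (by linarith))
        have h9 : ‖riemannZeta s‖ ≤ 4 * (C0 * (2 * R) ^ 2) := by
          refine hz.trans ?_
          have : (1 + ‖s‖) ^ 2 ≤ (2 * R) ^ 2 := by
            apply pow_le_pow_left₀ (by linarith)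
            linarith
          gcongr
        gcongr
    _ = 128 * C0 * (R ^ 3 * Real.exp (2 * R) * Real.exp ((3 + 1 / (a - 1)) * R ^ a)) := by
        ring
    _ ≤ 128 * C0 * (Real.exp (3 * R) * Real.exp (2 * R) *
        Real.exp ((3 + 1 / (a - 1)) * R ^ a)) := by
        gcongr
        have h5 : R ≤ Real.exp R := by
          have := Real.add_one_le_exp R
          linarith
        calc R ^ 3 ≤ (Real.exp R) ^ 3 := by gcongr
          _ = Real.exp (3 * R) := by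
            rw [← Real.exp_nat_mul]
            norm_num
    _ = 128 * C0 * Real.exp (5 * R + (3 + 1 / (a - 1)) * R ^ a) := by
        rw [← Real.exp_add, ← Real.exp_add]
        ring_nf
    _ ≤ 128 * C0 * Real.exp ((8 + 1 / (a - 1)) * R ^ a) := by
        apply mul_le_mul_of_nonneg_left _ (by positivity)
        rw [Real.exp_le_exp]
        nlinarith

theorem FF_growth (a : ℝ) (ha : 1 < a) : ∃ C : ℝ, ∀ z : ℂ, ‖FF z‖ ≤ Real.exp (C * (1 + ‖z‖) ^ a) := by
  obtain ⟨C0, hC0, h0⟩ := Pool.Agent.H11.SC7.zeta_half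
  have hFne : ∀ s, s ≠ 1 → FF s = (s - 1) * riemannZeta s := by
    intro s hs
    unfold FF
    rw [Function.update_of_ne hs]
  have hF1 : FF 1 = 1 := by
    unfold FF
    rw [Function.update_self]
  obtain ⟨C2, hC2⟩ := (isCompact_closedBall (0 : ℂ) (1 / 4)).exists_bound_of_continuousOn
    FF_diff.continuous.continuousOn
  have hC2' : 0 ≤ C2 := (norm_nonneg _).trans (hC2 0 (by simp))
  have ha1 : 0 < 1 / (a - 1) := by
    have : 0 < a - 1 := by linarith
    positivity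
  have hmain : ∀ z : ℂ, ‖FF z‖ ≤
      (1 + C0 + 128 * C0 + C2) * Real.exp ((8 + 1 / (a - 1)) * (1 + ‖z‖) ^ a) := by
    intro s
    have hx : 0 ≤ ‖s‖ := norm_nonneg s
    have hR1 : 1 ≤ 1 + ‖s‖ := by linarith
    have hRa : 1 + ‖s‖ ≤ (1 + ‖s‖) ^ a := by
      conv_lhs => rw [← Real.rpow_one (1 + ‖s‖)]
      exact Real.rpow_le_rpow_of_exponent_le hR1 ha.le
    obtain ⟨E, hE⟩ : ∃ E : ℝ, E = Real.exp ((8 + 1 / (a - 1)) * (1 + ‖s‖) ^ a) := ⟨_, rfl⟩
    rw [← hE]
    have hexp : (1 + ‖s‖) ^ 2 ≤ E := by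
      have h5 : 1 + ‖s‖ ≤ Real.exp (1 + ‖s‖) := by
        have := Real.add_one_le_exp (1 + ‖s‖)
        linarith
      calc (1 + ‖s‖) ^ 2 ≤ (Real.exp (1 + ‖s‖)) ^ 2 := by gcongr
        _ = Real.exp (2 * (1 + ‖s‖)) := by
          rw [← Real.exp_nat_mul]
          norm_num
        _ ≤ E := by
          rw [hE, Real.exp_le_exp]
          nlinarith
    have hE1 : 1 ≤ E := by
      refine le_trans ?_ hexp
      nlinarith
    have hE0 : 0 ≤ E := by linarith
    have hK : 0 ≤ C0 * E := by positivity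
    have hK2 : 0 ≤ C2 * E := by positivity
    by_cases hs1 : s = 1
    · rw [hs1, hF1, norm_one]
      linarith
    · rcases le_total (1 / 2) s.re with h | h
      · have h4 := h0 s h
        rw [← hFne s hs1] at h4
        have h5 : C0 * (1 + ‖s‖) ^ 2 ≤ C0 * E := by gcongr
        linarith
      · rcases le_total (1 / 4) ‖s‖ with h' | h'
        · have h4 := zg_left hC0 h0 a ha s h h'
          rw [← hFne s hs1, ← hE] at h4
          linarith
        · have h4 := hC2 s (by simpa using h')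
          have h5 : C2 ≤ C2 * E := le_mul_of_one_le_right hC2' hE1
          linarith
  obtain ⟨K, hK⟩ : ∃ K : ℝ, K = 1 + C0 + 128 * C0 + C2 := ⟨_, rfl⟩
  rw [← hK] at hmain
  have hK0 : 0 ≤ K := by
    rw [hK]
    positivity
  refine ⟨K + (8 + 1 / (a - 1)), fun z => (hmain z).trans ?_⟩
  have hR1 : 1 ≤ (1 + ‖z‖) ^ a := Real.one_le_rpow (by linarith [norm_nonneg z]) (by linarith)
  have h1 : K ≤ Real.exp (K * (1 + ‖z‖) ^ a) := by
    have h2 := Real.add_one_le_exp (K * (1 + ‖z‖) ^ a)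
    nlinarith
  rw [show (K + (8 + 1 / (a - 1))) * (1 + ‖z‖) ^ a =
    K * (1 + ‖z‖) ^ a + (8 + 1 / (a - 1)) * (1 + ‖z‖) ^ a by ring, Real.exp_add (K * (1 + ‖z‖) ^ a)]
  exact mul_le_mul_of_nonneg_right h1 (Real.exp_pos _).le

end Pool.Agent.H50.RL
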