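import Pool.Agent.H50.RL.Pf4
import Pool.Agent.H50.RL.Zg

/-!
[H50 RL LZ] `Σ m/|ρ|^b` converges for `b > 1`; partial fractions of `ζ'/ζ` on `Re s > 1`.

PROOF. `s_one`: `pf_summ FF` with `a = (1+b)/2` (`FF_growth`, `FF_diff`, `FF 0 = (-1)(-1/2) ≠ 0`), transported to `ZZ` by `FF_zero_iff`, `FF_order`
(the equivalence of subtypes `Equiv.subtypeEquivRight`).
`log_zeta`: on `Re s > 1`, `‖s - ρ‖ ≥ Re s - 1 > 0` and `1/(s-ρ) - 1/(2-ρ) = (2-s)/((s-ρ)(2-ρ))`, summable (compare with `mz ρ/‖ρ‖^2`; finitely many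
`ρ` with `‖ρ‖ ≤ 2‖s‖+4`). `H s = Σ' mz (1/(s-ρ) - 1/(2-ρ))` has derivative `-Σ' mz/(s-ρ)^2` on the half plane (`hasDerivAt_tsum_of_isPreconnected` or
`hasDerivAt_tsum` on small balls / locally uniformly convergent series of analytic functions,
`differentiableOn_tsum_of_summable_norm`, `hasSum_deriv_of_summable_norm`). `G = logDeriv FF` has the same derivative (`pf_main`, `a = 3/2`). So
`G - H` is constant on the convex open set `Re s > 1` (`IsOpen.is_const_of_deriv_eq_zero`, `IsPreconnected`): call it `-C0`. Now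
`FF_logDeriv`.
-/

set_option autoImplicit false

namespace Pool.Agent.H50.RL

open MeasureTheory Filter Topology

private theorem FF0 : FF 0 ≠ 0 := by
  intro h
  rw [FF_zero_iff, riemannZeta_zero] at h
  norm_num at h

/-- the zeros of `FF` are the zeros of `ζ` -/
private noncomputable def eqv : ZZ ≃ {z : ℂ // FF z = 0} :=
  Equiv.subtypeEquivRight fun z => (FF_zero_iff z).symm

private theorem eqv_coe (ρ : ZZ) : ((eqv ρ : {z : ℂ // FF z = 0}) : ℂ) = (ρ : ℂ) := rfl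

theorem s_one (b : ℝ) (hb : 1 < b) : Summable fun ρ : ZZ => mz ρ / ‖(ρ : ℂ)‖ ^ b := by
  obtain ⟨C, hC⟩ := FF_growth ((1 + b) / 2) (by linarith)
  have h1 := pf_summ FF FF_diff FF0 ((1 + b) / 2) C (by linarith) hC b (by linarith)
  rw [← eqv.summable_iff] at h1
  refine h1.congr fun ρ => ?_
  show (analyticOrderNatAt FF ((eqv ρ : {z : ℂ // FF z = 0}) : ℂ) : ℝ) / ‖((eqv ρ : {z : ℂ // FF z = 0}) : ℂ)‖ ^ b = _
  rw [eqv_coe, FF_order _ ρ.2]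
  rfl

private theorem dpos {s : ℂ} (hs : 1 < s.re) (ρ : ZZ) : s.re - 1 ≤ ‖s - (ρ : ℂ)‖ := by
  have h1 := Complex.re_le_norm (s - (ρ : ℂ))
  rw [Complex.sub_re] at h1
  have h2 := zz_re_lt ρ
  linarith

private theorem sne {s : ℂ} (hs : 1 < s.re) (ρ : ZZ) : s - (ρ : ℂ) ≠ 0 := by
  intro h
  have h1 := dpos hs ρ
  rw [h, norm_zero] at h1
  linarith

/-- the distance to a zero is comparable to the size of the zero -/
private theorem cmp {s : ℂ} {δ R : ℝ} (hδ : 0 < δ) (hs : 1 + δ ≤ s.re) (hR : ‖s‖ ≤ R) (ρ : ZZ) :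
    ‖(ρ : ℂ)‖ ≤ (1 + R / δ) * ‖s - (ρ : ℂ)‖ := by
  have h1 := dpos (s := s) (by linarith) ρ
  have h2 : ‖(ρ : ℂ)‖ ≤ ‖s‖ + ‖s - (ρ : ℂ)‖ := by
    have := norm_sub_le s (s - (ρ : ℂ))
    rwa [sub_sub_cancel] at this
  have h3 : ‖s‖ ≤ R / δ * ‖s - (ρ : ℂ)‖ := by
    have hR0 : 0 ≤ R := (norm_nonneg _).trans hR
    calc ‖s‖ ≤ R := hR
      _ = R / δ * δ := by field_simp
      _ ≤ R / δ * ‖s - (ρ : ℂ)‖ := mul_le_mul_of_nonneg_left (by linarith) (by positivity)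
  linarith

private theorem inv_le {s : ℂ} {δ R : ℝ} (hδ : 0 < δ) (hs : 1 + δ ≤ s.re) (hR : ‖s‖ ≤ R) (ρ : ZZ) :
    1 / ‖s - (ρ : ℂ)‖ ≤ (1 + R / δ) / ‖(ρ : ℂ)‖ := by
  obtain ⟨c, hc, hcρ⟩ := zz_away
  have h0 : 0 < ‖(ρ : ℂ)‖ := lt_of_lt_of_le hc (hcρ ρ)
  have h1 : 0 < ‖s - (ρ : ℂ)‖ := norm_pos_iff.2 (sne (by linarith) ρ)
  rw [div_le_div_iff₀ h1 h0, one_mul]
  exact cmp hδ hs hR ρ

private theorem mz0 (ρ : ZZ) : 0 ≤ mz ρ := zero_le_one.trans (mz_one_le ρ)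

private theorem s_two : Summable fun ρ : ZZ => mz ρ / ‖(ρ : ℂ)‖ ^ 2 := by
  have h := s_one 2 (by norm_num)
  refine h.congr fun ρ => ?_
  rw [show ((2 : ℝ)) = ((2 : ℕ) : ℝ) by norm_num, Real.rpow_natCast]

private theorem sm {s : ℂ} (hs : 1 < s.re) :
    Summable fun ρ : ZZ => mz ρ * ‖1 / (s - (ρ : ℂ)) - 1 / (2 - (ρ : ℂ))‖ := by
  obtain ⟨c1, hc1⟩ : ∃ c1, c1 = 1 + ‖s‖ / (s.re - 1) := ⟨_, rfl⟩
  obtain ⟨c2, hc2⟩ : ∃ c2 : ℝ, c2 = 1 + ‖(2 : ℂ)‖ / 1 := ⟨_, rfl⟩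
  have h20 : (1 : ℝ) < (2 : ℂ).re := by norm_num
  have hp1 : 0 ≤ c1 := by
    rw [hc1]
    have : 0 < s.re - 1 := by linarith
    positivity
  have hp2 : 0 ≤ c2 := by rw [hc2]; positivity
  refine Summable.of_nonneg_of_le (fun ρ => mul_nonneg (mz0 ρ) (norm_nonneg _)) ?_ (s_two.mul_left (‖2 - s‖ * c1 * c2))
  intro ρ
  have h1 : 1 / ‖s - (ρ : ℂ)‖ ≤ c1 / ‖(ρ : ℂ)‖ := by
    rw [hc1]
    exact inv_le (by linarith) (by linarith) le_rfl ρ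
  have h2 : 1 / ‖(2 : ℂ) - (ρ : ℂ)‖ ≤ c2 / ‖(ρ : ℂ)‖ := by
    rw [hc2]
    exact inv_le one_pos (by norm_num) le_rfl ρ
  have h3 : 1 / (s - (ρ : ℂ)) - 1 / (2 - (ρ : ℂ)) = (2 - s) * (1 / (s - (ρ : ℂ))) * (1 / (2 - (ρ : ℂ))) := by
    have := sne hs ρ
    have := sne h20 ρ
    field_simp
    ring
  have h4 : ‖1 / (s - (ρ : ℂ)) - 1 / (2 - (ρ : ℂ))‖ ≤ ‖2 - s‖ * (c1 / ‖(ρ : ℂ)‖) * (c2 / ‖(ρ : ℂ)‖) := by
    rw [h3, norm_mul, norm_mul, norm_div, norm_div, norm_one]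
    have h5 : 0 ≤ c1 / ‖(ρ : ℂ)‖ := div_nonneg hp1 (norm_nonneg _)
    gcongr
  calc mz ρ * ‖1 / (s - (ρ : ℂ)) - 1 / (2 - (ρ : ℂ))‖ ≤
        mz ρ * (‖2 - s‖ * (c1 / ‖(ρ : ℂ)‖) * (c2 / ‖(ρ : ℂ)‖)) := mul_le_mul_of_nonneg_left h4 (mz0 ρ)
    _ = ‖2 - s‖ * c1 * c2 * (mz ρ / ‖(ρ : ℂ)‖ ^ 2) := by
      obtain ⟨c, hc, hcρ⟩ := zz_away
      have h0 : ‖(ρ : ℂ)‖ ≠ 0 := (lt_of_lt_of_le hc (hcρ ρ)).ne'
      field_simp

/-- the series -/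
private noncomputable def HH (s : ℂ) : ℂ := ∑' ρ : ZZ, (mz ρ : ℂ) * (1 / (s - (ρ : ℂ)) - 1 / (2 - (ρ : ℂ)))

private theorem HH_deriv {s : ℂ} (hs : 1 < s.re) :
    HasDerivAt HH (∑' ρ : ZZ, (mz ρ : ℂ) * (-1 / (s - (ρ : ℂ)) ^ 2)) s := by
  obtain ⟨r, hr⟩ : ∃ r : ℝ, r = (s.re - 1) / 2 := ⟨_, rfl⟩
  have hr0 : 0 < r := by rw [hr]; linarith
  have hre : ∀ w ∈ Metric.ball s r, 1 + r ≤ w.re := by
    intro w hw
    rw [mem_ball_iff_norm] at hw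
    have h1 := (abs_le.1 (Complex.abs_re_le_norm (w - s))).1
    rw [Complex.sub_re] at h1
    linarith
  have hno : ∀ w ∈ Metric.ball s r, ‖w‖ ≤ ‖s‖ + r := by
    intro w hw
    rw [mem_ball_iff_norm] at hw
    have h1 := norm_add_le (w - s) s
    rw [sub_add_cancel] at h1
    linarith
  obtain ⟨c, hc⟩ : ∃ c : ℝ, c = 1 + (‖s‖ + r) / r := ⟨_, rfl⟩
  have hc0 : 0 ≤ c := by rw [hc]; positivity
  refine hasDerivAt_tsum_of_isPreconnected (g := fun (ρ : ZZ) (w : ℂ) => (mz ρ : ℂ) * (1 / (w - (ρ : ℂ)) - 1 / (2 - (ρ : ℂ))))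
    (g' := fun (ρ : ZZ) (w : ℂ) => (mz ρ : ℂ) * (-1 / (w - (ρ : ℂ)) ^ 2)) (t := Metric.ball s r) (y₀ := s)
    (s_two.mul_left (c ^ 2)) Metric.isOpen_ball (convex_ball s r).isPreconnected ?_ ?_ (Metric.mem_ball_self hr0) ?_
    (Metric.mem_ball_self hr0)
  · intro ρ w hw
    have h1 : w - (ρ : ℂ) ≠ 0 := sne (by linarith [hre w hw]) ρ
    have h2 : HasDerivAt (fun w : ℂ => w - (ρ : ℂ)) 1 w := (hasDerivAt_id w).sub_const _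
    have h3 : HasDerivAt (fun w : ℂ => 1 / (w - (ρ : ℂ))) (-1 / (w - (ρ : ℂ)) ^ 2) w := by
      have h4 := h2.inv h1
      simp only [one_div]
      exact h4
    exact (h3.sub_const _).const_mul _
  · intro ρ w hw
    obtain ⟨c', hc', hcρ⟩ := zz_away
    have h0 : ‖(ρ : ℂ)‖ ≠ 0 := (lt_of_lt_of_le hc' (hcρ ρ)).ne'
    have h1 : 1 / ‖w - (ρ : ℂ)‖ ≤ c / ‖(ρ : ℂ)‖ := by
      rw [hc]
      exact inv_le hr0 (hre w hw) (hno w hw) ρ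
    have h2 : ‖(mz ρ : ℂ) * (-1 / (w - (ρ : ℂ)) ^ 2)‖ = mz ρ * (1 / ‖w - (ρ : ℂ)‖) ^ 2 := by
      rw [norm_mul, Complex.norm_real, Real.norm_of_nonneg (mz0 ρ), norm_div, norm_neg, norm_one, norm_pow, one_div_pow]
    show ‖(mz ρ : ℂ) * (-1 / (w - (ρ : ℂ)) ^ 2)‖ ≤ _
    rw [h2]
    calc mz ρ * (1 / ‖w - (ρ : ℂ)‖) ^ 2 ≤ mz ρ * (c / ‖(ρ : ℂ)‖) ^ 2 :=
          mul_le_mul_of_nonneg_left (pow_le_pow_left₀ (by positivity) h1 2) (mz0 ρ)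
      _ = c ^ 2 * (mz ρ / ‖(ρ : ℂ)‖ ^ 2) := by field_simp
  · refine Summable.of_norm ?_
    refine (sm hs).congr fun ρ => ?_
    rw [norm_mul, Complex.norm_real, Real.norm_of_nonneg (mz0 ρ)]

private theorem GG_deriv {s : ℂ} (hs : 1 < s.re) :
    HasDerivAt (logDeriv FF) (∑' ρ : ZZ, (mz ρ : ℂ) * (-1 / (s - (ρ : ℂ)) ^ 2)) s := by
  have hne : FF s ≠ 0 := by
    intro h
    rw [FF_zero_iff] at h
    have := zz_re_lt ⟨s, h⟩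
    have h2 : s.re < 1 := this
    linarith
  obtain ⟨C, hC⟩ := FF_growth (3 / 2) (by norm_num)
  have h1 := pf_main FF FF_diff FF0 (3 / 2) C (by norm_num) (by norm_num) hC s hne
  have h2 : DifferentiableAt ℂ (logDeriv FF) s :=
    ((FF_diff.analyticAt s).deriv.differentiableAt).div (FF_diff s) hne
  have h3 := h2.hasDerivAt
  rw [h1, ← tsum_neg] at h3
  have h4 := eqv.tsum_eq fun ρ : {z : ℂ // FF z = 0} => -((analyticOrderNatAt FF ρ : ℂ) / (s - ρ) ^ 2)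
  rw [← h4] at h3
  have h5 : ∀ ρ : ZZ, -((analyticOrderNatAt FF ((eqv ρ : {z : ℂ // FF z = 0}) : ℂ) : ℂ) /
      (s - ((eqv ρ : {z : ℂ // FF z = 0}) : ℂ)) ^ 2) = (mz ρ : ℂ) * (-1 / (s - (ρ : ℂ)) ^ 2) := by
    intro ρ
    rw [eqv_coe, FF_order _ ρ.2]
    unfold mz
    push_cast
    ring
  rw [tsum_congr h5] at h3
  exact h3

theorem log_zeta : ∃ C0 : ℂ, ∀ s : ℂ, 1 < s.re →
    (Summable fun ρ : ZZ => mz ρ * ‖1 / (s - (ρ : ℂ)) - 1 / (2 - (ρ : ℂ))‖) ∧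
    -(deriv riemannZeta s / riemannZeta s) =
      1 / (s - 1) + C0 - ∑' ρ : ZZ, (mz ρ : ℂ) * (1 / (s - (ρ : ℂ)) - 1 / (2 - (ρ : ℂ))) := by
  obtain ⟨U, hU⟩ : ∃ U : Set ℂ, U = {s : ℂ | 1 < s.re} := ⟨_, rfl⟩
  have hUo : IsOpen U := by
    rw [hU]
    exact isOpen_lt continuous_const Complex.continuous_re
  have hUc : IsPreconnected U := by
    rw [hU]
    exact (convex_halfSpace_re_gt 1).isPreconnected
  have hd : ∀ s ∈ U, HasDerivAt (fun s => logDeriv FF s - HH s) 0 s := by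
    intro s hs
    rw [hU] at hs
    have h1 := (GG_deriv hs).sub (HH_deriv hs)
    rw [sub_self] at h1
    exact h1
  have hconst : ∀ s ∈ U, logDeriv FF s - HH s = logDeriv FF 2 - HH 2 := by
    intro s hs
    refine hUo.is_const_of_deriv_eq_zero hUc (fun s hs => (hd s hs).differentiableAt.differentiableWithinAt)
      (fun s hs => (hd s hs).deriv) hs ?_
    rw [hU]
    show (1 : ℝ) < (2 : ℂ).re
    norm_num
  refine ⟨-(logDeriv FF 2 - HH 2), fun s hs => ⟨sm hs, ?_⟩⟩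
  have h1 := hconst s (by rw [hU]; exact hs)
  rw [FF_logDeriv s hs] at h1
  rw [← h1]
  show _ = 1 / (s - 1) + -(1 / (s - 1) + deriv riemannZeta s / riemannZeta s - HH s) - HH s
  ring

end Pool.Agent.H50.RL
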