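import Mathlib

/-!
[H50 RL PF2] Borel-Caratheodory for the second derivative of a logarithm.

PROOF. `h` is differentiable and nonzero on the open ball `B(0, R)` (on the closed ball even), which is simply
connected: there is an analytic `g` on `B(0,R)` with `exp (g z) = h z` (Mathlib `Complex.HasPrimitives` /
`BranchLogRoot`: a primitive `g` of `h'/h`, normalised by `g 0 = log (h 0)`; then `h exp(-g)` has derivative zero).
Put `G z = g z - g 0`: `G 0 = 0`, `Re G z = log‖h z‖ - log‖h 0‖ ≤ B - log‖h 0‖ < A := B - log‖h 0‖ + 1`, `A ≥ 1 > 0`. Borel-Caratheodory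
(`Mathlib/Analysis/Complex/BorelCaratheodory.lean`) gives `‖G z‖ ≤ 2 A r/(R - r) ` for `‖z‖ ≤ r < R`; with `r = R/2`:
`‖G z‖ ≤ 2 A`. Cauchy's estimate for the second derivative of `G` on a ball of radius `R/8` about `z`, `‖z‖ ≤ R/4`
(`Complex.norm_iteratedDeriv_le_of_forall_mem_sphere_norm_le`, or `Complex.norm_deriv_le_of_forall_mem_sphere_norm_le`
twice, radius `R/16` each): `‖G'' z‖ ≤ K A/R^2`, and `G'' = deriv (logDeriv h)` near `z` (`logDeriv h = h'/h = G'` on the
open ball, an eventual equality near `z`, `Filter.EventuallyEq.deriv_eq`). `K = 1000` is plenty.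
-/

set_option autoImplicit false

namespace Pool.Agent.H50.RL

open MeasureTheory Filter Topology

/-- a branch of the logarithm of `h z / h 0` on a disc -/
private theorem ex_log {h : ℂ → ℂ} {R : ℝ} (hR : 0 < R) (hd : Differentiable ℂ h) (h0 : ∀ z, ‖z‖ ≤ R → h z ≠ 0) :
    ∃ g : ℂ → ℂ, g 0 = 0 ∧ (∀ z ∈ Metric.ball (0 : ℂ) R, HasDerivAt g (logDeriv h z) z) ∧
      ∀ z ∈ Metric.ball (0 : ℂ) R, h z = h 0 * Complex.exp (g z) := by
  have hb : ∀ z ∈ Metric.ball (0 : ℂ) R, h z ≠ 0 := fun z hz => h0 z (by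
    rw [mem_ball_zero_iff] at hz
    exact hz.le)
  have hdd : Differentiable ℂ (deriv h) := fun z => (hd.analyticAt z).deriv.differentiableAt
  have h1 : DifferentiableOn ℂ (logDeriv h) (Metric.ball (0 : ℂ) R) := by
    intro z hz
    exact ((hdd z).div (hd z) (hb z hz)).differentiableWithinAt
  obtain ⟨g, hg0, hg⟩ := h1.isExactOn_ball.with_val_at 0 0
  refine ⟨g, hg0, hg, fun z hz => ?_⟩
  have h2 : ∀ w ∈ Metric.ball (0 : ℂ) R, HasDerivAt (fun w => h w * Complex.exp (-g w)) 0 w := by
    intro w hw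
    have h3 := (hd w).hasDerivAt.mul (((hg w hw).neg).cexp)
    have e : deriv h w * Complex.exp (-g w) + h w * (Complex.exp (-g w) * -logDeriv h w) = 0 := by
      rw [logDeriv_apply]
      have := hb w hw
      field_simp
      ring
    have h4 : HasDerivAt (fun w => h w * Complex.exp (-g w))
        (deriv h w * Complex.exp (-g w) + h w * (Complex.exp (-g w) * -logDeriv h w)) w := h3
    rw [e] at h4
    exact h4
  have h3 : (fun w => h w * Complex.exp (-g w)) z = (fun w => h w * Complex.exp (-g w)) 0 := by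
    refine (convex_ball (0 : ℂ) R).is_const_of_fderivWithin_eq_zero (𝕜 := ℂ) (fun w hw => (h2 w hw).differentiableAt.differentiableWithinAt)
      (fun w hw => ?_) hz (Metric.mem_ball_self hR)
    rw [fderivWithin_of_isOpen Metric.isOpen_ball hw]
    have := (h2 w hw).hasFDerivAt.fderiv
    rw [this]
    ext
    simp
  simp only [hg0, neg_zero, Complex.exp_zero, mul_one] at h3
  rw [← h3, mul_assoc, ← Complex.exp_add, neg_add_cancel, Complex.exp_zero, mul_one]

theorem bc_two : ∃ K : ℝ, 0 < K ∧ ∀ (h : ℂ → ℂ) (R B : ℝ), 0 < R → Differentiable ℂ h →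
    (∀ z, ‖z‖ ≤ R → h z ≠ 0) → (∀ z, ‖z‖ ≤ R → ‖h z‖ ≤ Real.exp B) →
    ∀ z, ‖z‖ ≤ R / 4 → ‖deriv (logDeriv h) z‖ ≤ K * (B - Real.log ‖h 0‖ + 1) / R ^ 2 := by
  refine ⟨256, by norm_num, fun h R B hR hd h0 hB z hz => ?_⟩
  obtain ⟨g, hg0, hg, hgh⟩ := ex_log hR hd h0
  have hh0 : 0 < ‖h 0‖ := norm_pos_iff.2 (h0 0 (by rw [norm_zero]; exact hR.le))
  obtain ⟨A, hA⟩ : ∃ A, A = B - Real.log ‖h 0‖ + 1 := ⟨_, rfl⟩
  have hre : ∀ w ∈ Metric.ball (0 : ℂ) R, (g w).re ≤ B - Real.log ‖h 0‖ := by
    intro w hw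
    have h1 := hB w (by
      rw [mem_ball_zero_iff] at hw
      exact hw.le)
    rw [hgh w hw, norm_mul, Complex.norm_exp] at h1
    have h2 := Real.log_le_log (by positivity) h1
    rw [Real.log_exp, Real.log_mul hh0.ne' (Real.exp_ne_zero _), Real.log_exp] at h2
    linarith
  have hA1 : 1 ≤ A := by
    have h1 := hre 0 (Metric.mem_ball_self hR)
    rw [hg0, Complex.zero_re] at h1
    rw [hA]
    linarith
  have hgb : ∀ w : ℂ, ‖w‖ ≤ R / 2 → ‖g w‖ ≤ 2 * A := by
    intro w hw
    have hwR : w ∈ Metric.ball (0 : ℂ) R := by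
      rw [mem_ball_zero_iff]
      linarith
    have h1 := Complex.borelCaratheodory_zero (M := A) (f := g) (R := R) (z := w) (by linarith)
      (fun x hx => (hg x hx).differentiableAt.differentiableWithinAt) (fun x hx => by
        have := hre x hx
        show (g x).re ≤ A
        linarith) hR hwR hg0
    refine h1.trans ?_
    rw [div_le_iff₀ (by linarith)]
    nlinarith [norm_nonneg w]
  have h2 := Complex.norm_iteratedDeriv_le_of_forall_mem_sphere_norm_le (f := g) (c := z) (R := R / 8) (C := 2 * A) 2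
    (by positivity) (by
      refine DifferentiableOn.diffContOnCl fun w hw => ?_
      refine (hg w ?_).differentiableAt.differentiableWithinAt
      have h3 := Metric.closure_ball_subset_closedBall hw
      rw [mem_closedBall_iff_norm] at h3
      rw [mem_ball_zero_iff]
      have h4 : ‖w‖ ≤ ‖w - z‖ + ‖z‖ := by
        have := norm_add_le (w - z) z
        rwa [sub_add_cancel] at this
      linarith) (fun w hw => by
      rw [mem_sphere_iff_norm] at hw
      refine hgb w ?_
      have h4 : ‖w‖ ≤ ‖w - z‖ + ‖z‖ := by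
        have := norm_add_le (w - z) z
        rwa [sub_add_cancel] at this
      linarith)
  have h3 : iteratedDeriv 2 g z = deriv (logDeriv h) z := by
    rw [iteratedDeriv_succ, iteratedDeriv_one]
    refine Filter.EventuallyEq.deriv_eq ?_
    have hzR : z ∈ Metric.ball (0 : ℂ) R := by
      rw [mem_ball_zero_iff]
      linarith
    filter_upwards [Metric.isOpen_ball.mem_nhds hzR] with w hw
    exact (hg w hw).deriv
  rw [h3] at h2
  refine h2.trans (le_of_eq ?_)
  rw [← hA]
  have e : (Nat.factorial 2 : ℝ) = 2 := by norm_num [Nat.factorial]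
  rw [e]
  field_simp
  ring

end Pool.Agent.H50.RL
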