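import Pool.Agent.H50.RL.Pf1

/-!
[H50 RL PF3] The number of zeros of an entire function of order `≤ a` in a disc, and convergence of `Σ m/|ρ|^b`.

PROOF of `pf_count`. `pf_factor` with radius `R`: `f = P h`, `P z = ∏ (1 - z/ρ)^m`, `n = Σ_{ρ} m` (sum over ALL zeros in the
ball of radius `R`; the sum over `Z` in the statement is smaller). `h 0 = f 0`. For `‖z‖ = 4R`: `‖1 - z/ρ‖ ≥ 4R/‖ρ‖ - 1 ≥ 3`, so
`‖P z‖ ≥ 3^n` and `‖h z‖ ≤ exp(C (1+4R)^a)/3^n`; maximum principle on the ball of radius `4R`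
(`Complex.norm_le_of_forall_mem_frontier_norm_le`): `‖f 0‖ = ‖h 0‖ ≤ exp(C (1+4R)^a)/3^n`. Take logarithms:
`n log 3 ≤ |C| (1+4R)^a - log‖f 0‖ ≤ (|C| 5^a + |log‖f 0‖|) R^a` (`R ≥ 1`, `a > 0`).
PROOF of `pf_summ`. `f` has finitely many zeros in the unit ball, none of them `0`. For a finite set of zeros with
`2^j < ‖ρ‖ ≤ 2^(j+1)`: `Σ m/‖ρ‖^b ≤ 2^(-jb) C' 2^((j+1)a) = C' 2^a (2^(a-b))^j`, and `Σ_j` converges (geometric, `a < b`).
So all finite partial sums are bounded (`summable_of_sum_le`).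
PROOF of `pf_top`: for `R` large the finitely many zeros of norm `≤ R` are a `Finset` (`pf_factor`).
-/

set_option autoImplicit false

namespace Pool.Agent.H50.RL

open MeasureTheory Filter Topology

theorem pf_count (f : ℂ → ℂ) (hf : Differentiable ℂ f) (h0 : f 0 ≠ 0) (a C : ℝ) (ha : 0 < a)
    (hC : ∀ z, ‖f z‖ ≤ Real.exp (C * (1 + ‖z‖) ^ a)) :
    ∃ C' : ℝ, 0 < C' ∧ ∀ R : ℝ, 1 ≤ R → ∀ Z : Finset ℂ, (∀ z ∈ Z, f z = 0 ∧ ‖z‖ ≤ R) →
      ∑ z ∈ Z, (analyticOrderNatAt f z : ℝ) ≤ C' * R ^ a := by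
  refine ⟨|C| * 5 ^ a + |Real.log ‖f 0‖| + 1, by positivity, fun R hR Z hZ => ?_⟩
  obtain ⟨Z0, h, hZ0, hh, -, hfac⟩ := pf_factor f hf h0 R
  have hR0 : 0 < R := by linarith
  have hsub : Z ⊆ Z0 := fun z hz => (hZ0 z).2 (hZ z hz)
  have h1 : ∑ z ∈ Z, (analyticOrderNatAt f z : ℝ) ≤ ∑ z ∈ Z0, (analyticOrderNatAt f z : ℝ) :=
    Finset.sum_le_sum_of_subset_of_nonneg hsub fun _ _ _ => Nat.cast_nonneg _
  set n : ℕ := ∑ z ∈ Z0, analyticOrderNatAt f z with hn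
  have h2 : ∑ z ∈ Z0, (analyticOrderNatAt f z : ℝ) = (n : ℝ) := by
    rw [hn, Nat.cast_sum]
  have hh0 : f 0 = h 0 := by
    rw [hfac 0]
    simp
  have hf0 : 0 < ‖f 0‖ := norm_pos_iff.2 h0
  have hP : ∀ z : ℂ, ‖z‖ = 4 * R → (3 : ℝ) ^ n ≤ ‖∏ ρ ∈ Z0, (1 - z / ρ) ^ analyticOrderNatAt f ρ‖ := by
    intro z hz
    rw [norm_prod, hn, ← Finset.prod_pow_eq_pow_sum]
    refine Finset.prod_le_prod (fun _ _ => by positivity) fun ρ hρ => ?_
    obtain ⟨h3, h4⟩ := (hZ0 ρ).1 hρ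
    have h5 : ρ ≠ 0 := by
      rintro rfl
      exact h0 h3
    have h6 : 0 < ‖ρ‖ := norm_pos_iff.2 h5
    have h7 : (4 : ℝ) ≤ ‖z / ρ‖ := by
      rw [norm_div, hz, le_div_iff₀ h6]
      nlinarith
    have h8 : (3 : ℝ) ≤ ‖1 - z / ρ‖ := by
      have h9 : ‖z / ρ‖ - ‖(1 : ℂ)‖ ≤ ‖z / ρ - 1‖ := norm_sub_norm_le _ _
      rw [norm_one, norm_sub_rev] at h9
      linarith
    rw [norm_pow]
    exact pow_le_pow_left₀ (by norm_num) h8 _
  have h3n : (0 : ℝ) < 3 ^ n := by positivity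
  have hfr : ∀ z ∈ frontier (Metric.ball (0 : ℂ) (4 * R)),
      ‖h z‖ ≤ Real.exp (C * (1 + 4 * R) ^ a) / 3 ^ n := by
    intro z hz
    rw [frontier_ball _ (by positivity : (4 * R : ℝ) ≠ 0), mem_sphere_zero_iff_norm] at hz
    have h4 := hC z
    rw [hfac z, norm_mul, hz] at h4
    rw [le_div_iff₀ h3n]
    have h5 := mul_le_mul_of_nonneg_right (hP z hz) (norm_nonneg (h z))
    linarith
  have hmax : ‖h 0‖ ≤ Real.exp (C * (1 + 4 * R) ^ a) / 3 ^ n :=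
    Complex.norm_le_of_forall_mem_frontier_norm_le Metric.isBounded_ball hh.diffContOnCl hfr
      (subset_closure (Metric.mem_ball_self (by positivity)))
  rw [← hh0, le_div_iff₀ h3n] at hmax
  have hlog := Real.log_le_log (by positivity) hmax
  rw [Real.log_exp, Real.log_mul hf0.ne' h3n.ne', Real.log_pow] at hlog
  have hl3 : 1 ≤ Real.log 3 := by
    rw [Real.le_log_iff_exp_le (by norm_num)]
    have := Real.exp_one_lt_d9
    linarith
  have hRa : 1 ≤ R ^ a := Real.one_le_rpow hR ha.le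
  have h5 : (1 + 4 * R) ^ a ≤ 5 ^ a * R ^ a := by
    rw [← Real.mul_rpow (by norm_num) hR0.le]
    exact Real.rpow_le_rpow (by positivity) (by linarith) ha.le
  have h6 : C * (1 + 4 * R) ^ a ≤ |C| * (5 ^ a * R ^ a) :=
    (mul_le_mul_of_nonneg_right (le_abs_self C) (by positivity)).trans
      (mul_le_mul_of_nonneg_left h5 (abs_nonneg C))
  have h7 : -Real.log ‖f 0‖ ≤ |Real.log ‖f 0‖| * R ^ a := by
    calc -Real.log ‖f 0‖ ≤ |Real.log ‖f 0‖| := neg_le_abs _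
      _ = |Real.log ‖f 0‖| * 1 := (mul_one _).symm
      _ ≤ _ := mul_le_mul_of_nonneg_left hRa (abs_nonneg _)
  have h8 : (n : ℝ) ≤ n * Real.log 3 := le_mul_of_one_le_right (Nat.cast_nonneg _) hl3
  have h9 : (|C| * 5 ^ a + |Real.log ‖f 0‖| + 1) * R ^ a =
      |C| * (5 ^ a * R ^ a) + |Real.log ‖f 0‖| * R ^ a + R ^ a := by ring
  rw [h9]
  linarith

theorem pf_summ (f : ℂ → ℂ) (hf : Differentiable ℂ f) (h0 : f 0 ≠ 0) (a C : ℝ) (ha : 0 < a)
    (hC : ∀ z, ‖f z‖ ≤ Real.exp (C * (1 + ‖z‖) ^ a)) (b : ℝ) (hb : a < b) :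
    Summable fun ρ : {z : ℂ // f z = 0} => (analyticOrderNatAt f ρ : ℝ) / ‖(ρ : ℂ)‖ ^ b := by
  obtain ⟨C', hC', hcount⟩ := pf_count f hf h0 a C ha hC
  obtain ⟨Z1, -, hZ1, -⟩ := pf_factor f hf h0 1
  set F : ℂ → ℝ := fun z => (analyticOrderNatAt f z : ℝ) / ‖z‖ ^ b with hF
  have hF0 : ∀ z, 0 ≤ F z := fun z => by
    rw [hF]
    positivity
  set q : ℝ := 2 ^ a / 2 ^ b with hq
  have h2b : (0 : ℝ) < 2 ^ b := by positivity
  have h2a : (0 : ℝ) < 2 ^ a := by positivity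
  have hq0 : 0 ≤ q := by positivity
  have hq1 : q < 1 := by
    rw [hq, div_lt_one h2b]
    exact Real.rpow_lt_rpow_of_exponent_lt (by norm_num) hb
  have hj : ∀ z : ℂ, ∃ j : ℕ, 1 ≤ ‖z‖ → (2 : ℝ) ^ j ≤ ‖z‖ ∧ ‖z‖ < 2 ^ (j + 1) := by
    intro z
    by_cases hz : 1 ≤ ‖z‖
    · obtain ⟨j, hj⟩ := exists_nat_pow_near hz (one_lt_two : (1 : ℝ) < 2)
      exact ⟨j, fun _ => hj⟩
    · exact ⟨0, fun h => absurd h hz⟩
  choose j hj using hj
  refine summable_of_sum_le (c := ∑ z ∈ Z1, F z + C' * 2 ^ a * ∑' i : ℕ, q ^ i)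
    (fun ρ => hF0 ρ) fun u => ?_
  have h1 : ∑ ρ ∈ u, (analyticOrderNatAt f ρ : ℝ) / ‖(ρ : ℂ)‖ ^ b =
      ∑ z ∈ u.map (Function.Embedding.subtype _), F z := by
    rw [Finset.sum_map]
    rfl
  rw [h1]
  set U : Finset ℂ := u.map (Function.Embedding.subtype _) with hU
  have hUf : ∀ z ∈ U, f z = 0 := by
    intro z hz
    rw [hU, Finset.mem_map] at hz
    obtain ⟨ρ, -, rfl⟩ := hz
    exact ρ.2
  rw [← Finset.sum_filter_add_sum_filter_not U (fun z => ‖z‖ ≤ 1)]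
  refine add_le_add ?_ ?_
  · refine Finset.sum_le_sum_of_subset_of_nonneg (fun z hz => ?_) fun z _ _ => hF0 z
    rw [Finset.mem_filter] at hz
    exact (hZ1 z).2 ⟨hUf z hz.1, hz.2⟩
  · set V : Finset ℂ := U.filter (fun z => ¬ ‖z‖ ≤ 1) with hV
    have hVn : ∀ z ∈ V, f z = 0 ∧ 1 ≤ ‖z‖ := by
      intro z hz
      rw [hV, Finset.mem_filter] at hz
      exact ⟨hUf z hz.1, (not_le.1 hz.2).le⟩
    rw [← Finset.sum_fiberwise_of_maps_to (s := V) (t := V.image j) (g := j)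
      (fun z hz => Finset.mem_image_of_mem j hz)]
    have h3 : ∀ i ∈ V.image j, ∑ z ∈ V with j z = i, F z ≤ C' * 2 ^ a * q ^ i := by
      intro i _
      have h4 : ∑ z ∈ V with j z = i, F z ≤
          ∑ z ∈ V with j z = i, (analyticOrderNatAt f z : ℝ) / ((2 : ℝ) ^ i) ^ b := by
        refine Finset.sum_le_sum fun z hz => ?_
        rw [Finset.mem_filter] at hz
        have h5 := (hj z (hVn z hz.1).2).1
        rw [hz.2] at h5
        have h6 : ((2 : ℝ) ^ i) ^ b ≤ ‖z‖ ^ b := Real.rpow_le_rpow (by positivity) h5 (by linarith)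
        exact div_le_div_of_nonneg_left (Nat.cast_nonneg _) (by positivity) h6
      have h7 : ∑ z ∈ V with j z = i, (analyticOrderNatAt f z : ℝ) ≤ C' * ((2 : ℝ) ^ (i + 1)) ^ a := by
        refine hcount _ (one_le_pow₀ (by norm_num)) _ fun z hz => ?_
        rw [Finset.mem_filter] at hz
        have h8 := (hj z (hVn z hz.1).2).2
        rw [hz.2] at h8
        exact ⟨(hVn z hz.1).1, h8.le⟩
      refine h4.trans ?_
      rw [← Finset.sum_div, div_le_iff₀ (by positivity)]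
      refine h7.trans (le_of_eq ?_)
      have h9 : ((2 : ℝ) ^ i) ^ b = ((2 : ℝ) ^ b) ^ i := (Real.rpow_pow_comm (by norm_num) b i).symm
      have h10 : ((2 : ℝ) ^ (i + 1)) ^ a = ((2 : ℝ) ^ a) ^ (i + 1) :=
        (Real.rpow_pow_comm (by norm_num) a (i + 1)).symm
      rw [h9, h10, hq, div_pow, pow_succ]
      have h11 : ((2 : ℝ) ^ b) ^ i ≠ 0 := by positivity
      field_simp
    calc ∑ i ∈ V.image j, ∑ z ∈ V with j z = i, F z
        ≤ ∑ i ∈ V.image j, C' * 2 ^ a * q ^ i := Finset.sum_le_sum h3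
      _ = C' * 2 ^ a * ∑ i ∈ V.image j, q ^ i := by rw [Finset.mul_sum]
      _ ≤ _ := mul_le_mul_of_nonneg_left
          ((summable_geometric_of_lt_one hq0 hq1).sum_le_tsum _ fun _ _ => pow_nonneg hq0 _)
          (by positivity)

end Pool.Agent.H50.RL
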