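import Pool.Agent.H50.RL.Pf2
import Pool.Agent.H50.RL.Pf3

/-!
[H50 RL PF4] Partial fractions for the derivative of the logarithmic derivative (order `< 2`).

PROOF. Fix `z` with `f z ≠ 0`. For `R ≥ 4 (1 + ‖z‖)` take `Z`, `h` from `pf_factor f R`. (1) `logDeriv f = Σ_{ρ ∈ Z} m/(z - ρ) + logDeriv h` near `z`
(`logDeriv_mul`, `logDeriv_prod`, `logDeriv_fun_pow`; `1 - z/ρ = (ρ - z)/ρ` has logarithmic derivative `1/(z - ρ)`; the
points near `z` are not zeros of `f`), so `deriv (logDeriv f) z = - Σ_{ρ ∈ Z} m/(z-ρ)^2 + deriv (logDeriv h) z`.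
(2) On `‖w‖ = 4R`, `‖∏‖ ≥ 3^n ≥ 1`, so `‖h w‖ ≤ ‖f w‖ ≤ exp(|C| (1+4R)^a)`, hence the same on the ball of radius `4R ≥ R`
(maximum principle), `h ≠ 0` on the ball of radius `R`, `h 0 = f 0`. `bc_two` with radius `R`:
`‖deriv (logDeriv h) z‖ ≤ K (|C| (1+4R)^a - log‖f 0‖ + 1)/R^2 → 0` as `R → ∞` (`a < 2`).
(3) `Σ m/‖z - ρ‖^2` converges (`pf_summ` with `b = 2`: `‖z - ρ‖ ≥ ‖ρ‖/2` for `‖ρ‖ ≥ 2‖z‖`, finitely many others;
`Summable.of_norm_bounded_eventually` with `cofinite`), and the partial sums over `Z_R` (an increasing exhaustion) tend to the sum: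
`HasSum` along `R → ∞` (`Finset` of all zeros of norm `≤ R` tends to `atTop` in `Finset`, restricted to the subtype).
-/

set_option autoImplicit false

namespace Pool.Agent.H50.RL

open MeasureTheory Filter Topology

/-- the derivative of the logarithmic derivative after dividing out finitely many zeros -/
private theorem pf_step (f h : ℂ → ℂ) (Z : Finset ℂ) (m : ℂ → ℕ) (hf : Differentiable ℂ f)
    (hh : Differentiable ℂ h) (hZ0 : ∀ ρ ∈ Z, ρ ≠ 0) (hZf : ∀ ρ ∈ Z, f ρ = 0)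
    (hfac : ∀ z, f z = (∏ ρ ∈ Z, (1 - z / ρ) ^ m ρ) * h z) (z : ℂ) (hz : f z ≠ 0) :
    deriv (logDeriv f) z = -∑ ρ ∈ Z, (m ρ : ℂ) / (z - ρ) ^ 2 + deriv (logDeriv h) z := by
  have hU : ∀ᶠ w in 𝓝 z, f w ≠ 0 := hf.continuous.continuousAt.eventually_ne hz
  have hne : ∀ w, f w ≠ 0 → ∀ ρ ∈ Z, w - ρ ≠ 0 := by
    intro w hw ρ hρ h1
    rw [sub_eq_zero.1 h1] at hw
    exact hw (hZf ρ hρ)
  have key : logDeriv f =ᶠ[𝓝 z] fun w => ∑ ρ ∈ Z, (m ρ : ℂ) / (w - ρ) + logDeriv h w := by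
    filter_upwards [hU] with w hw
    have hfe : f = fun z => (∏ ρ ∈ Z, (1 - z / ρ) ^ m ρ) * h z := funext hfac
    have hw' := hw
    rw [hfac w] at hw'
    have hP := left_ne_zero_of_mul hw'
    have hhw := right_ne_zero_of_mul hw'
    have hd1 : ∀ ρ : ℂ, DifferentiableAt ℂ (fun z : ℂ => 1 - z / ρ) w := fun ρ => by fun_prop
    have hd2 : ∀ ρ ∈ Z, DifferentiableAt ℂ (fun z : ℂ => (1 - z / ρ) ^ m ρ) w := fun ρ _ => (hd1 ρ).fun_pow _
    have hd3 : DifferentiableAt ℂ (fun z : ℂ => ∏ ρ ∈ Z, (1 - z / ρ) ^ m ρ) w := by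
      have := DifferentiableAt.fun_finsetProd (u := Z) (f := fun ρ z => (1 - z / ρ) ^ m ρ) hd2
      exact this
    have h1 : logDeriv f w = logDeriv (fun z : ℂ => ∏ ρ ∈ Z, (1 - z / ρ) ^ m ρ) w + logDeriv h w := by
      conv_lhs => rw [hfe]
      exact logDeriv_mul w hP hhw hd3 hh.differentiableAt
    have h2 : logDeriv (fun z : ℂ => ∏ ρ ∈ Z, (1 - z / ρ) ^ m ρ) w =
        ∑ ρ ∈ Z, logDeriv (fun z : ℂ => (1 - z / ρ) ^ m ρ) w := by
      refine logDeriv_prod (f := fun ρ z => (1 - z / ρ) ^ m ρ) ?_ hd2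
      intro ρ hρ
      exact (Finset.prod_ne_zero_iff.1 hP) ρ hρ
    rw [h1, h2]
    congr 1
    refine Finset.sum_congr rfl fun ρ hρ => ?_
    rw [logDeriv_fun_pow (hd1 ρ)]
    have hρ0 := hZ0 ρ hρ
    have hwρ := hne w hw ρ hρ
    have h3 : deriv (fun z : ℂ => 1 - z / ρ) w = -(1 / ρ) := by
      rw [deriv_const_sub, deriv_div_const]
      simp
    rw [logDeriv_apply, h3]
    have h4 : (1 : ℂ) - w / ρ = -(w - ρ) / ρ := by
      field_simp
      ring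
    rw [h4]
    field_simp
  rw [key.deriv_eq]
  have hz' := hz
  rw [hfac z] at hz'
  have hhz := right_ne_zero_of_mul hz'
  have hdl : DifferentiableAt ℂ (logDeriv h) z := by
    have h1 : DifferentiableAt ℂ (deriv h) z := (hh.analyticAt z).deriv.differentiableAt
    exact h1.div hh.differentiableAt hhz
  have hs : HasDerivAt (fun w => ∑ ρ ∈ Z, (m ρ : ℂ) / (w - ρ)) (∑ ρ ∈ Z, -((m ρ : ℂ) / (z - ρ) ^ 2)) z := by
    refine HasDerivAt.fun_sum fun ρ hρ => ?_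
    have h1 : HasDerivAt (fun w : ℂ => w - ρ) 1 z := (hasDerivAt_id z).sub_const ρ
    have h2 := (hasDerivAt_const z (m ρ : ℂ)).fun_div h1 (hne z hz ρ hρ)
    refine h2.congr_deriv ?_
    ring
  rw [(hs.fun_add hdl.hasDerivAt).deriv, Finset.sum_neg_distrib]

/-- the bound for the cofactor -/
private theorem pf_bd (f h : ℂ → ℂ) (Z : Finset ℂ) (m : ℂ → ℕ) (hh : Differentiable ℂ h) (R a C : ℝ) (hR : 0 < R)
    (hZ0 : ∀ ρ ∈ Z, ρ ≠ 0) (hZR : ∀ ρ ∈ Z, ‖ρ‖ ≤ R)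
    (hfac : ∀ z, f z = (∏ ρ ∈ Z, (1 - z / ρ) ^ m ρ) * h z)
    (hC : ∀ z, ‖f z‖ ≤ Real.exp (C * (1 + ‖z‖) ^ a)) (w : ℂ) (hw : ‖w‖ ≤ R) :
    ‖h w‖ ≤ Real.exp (|C| * (1 + 4 * R) ^ a) := by
  have h4 : (4 * R) ≠ 0 := by positivity
  refine Complex.norm_le_of_forall_mem_frontier_norm_le (U := Metric.ball (0 : ℂ) (4 * R)) Metric.isBounded_ball
    hh.diffContOnCl ?_ ?_
  · intro z hz
    rw [frontier_ball (0 : ℂ) h4, mem_sphere_zero_iff_norm] at hz
    have hP : 1 ≤ ‖∏ ρ ∈ Z, (1 - z / ρ) ^ m ρ‖ := by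
      rw [norm_prod]
      refine Finset.prod_induction _ (fun x : ℝ => 1 ≤ x) (fun a b ha hb => one_le_mul_of_one_le_of_one_le ha hb)
        le_rfl ?_
      intro ρ hρ
      rw [norm_pow]
      refine one_le_pow₀ ?_
      have h5 : 0 < ‖ρ‖ := norm_pos_iff.2 (hZ0 ρ hρ)
      have h6 : 4 ≤ ‖z / ρ‖ := by
        rw [norm_div, hz, le_div_iff₀ h5]
        have := hZR ρ hρ
        linarith
      have h7 := norm_sub_norm_le (z / ρ) 1
      rw [norm_one, norm_sub_rev] at h7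
      linarith
    have h1 := hC z
    rw [hfac z, norm_mul, hz] at h1
    have h2 : ‖h z‖ ≤ Real.exp (C * (1 + 4 * R) ^ a) := by
      refine le_trans ?_ h1
      exact le_mul_of_one_le_left (norm_nonneg _) hP
    refine h2.trans (Real.exp_le_exp.2 ?_)
    refine mul_le_mul_of_nonneg_right (le_abs_self C) ?_
    positivity
  · rw [closure_ball (0 : ℂ) h4, mem_closedBall_zero_iff]
    linarith

theorem pf_main (f : ℂ → ℂ) (hf : Differentiable ℂ f) (h0 : f 0 ≠ 0) (a C : ℝ) (ha : 0 < a) (ha2 : a < 2)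
    (hC : ∀ z, ‖f z‖ ≤ Real.exp (C * (1 + ‖z‖) ^ a)) (z : ℂ) (hz : f z ≠ 0) :
    deriv (logDeriv f) z = -∑' ρ : {z : ℂ // f z = 0}, (analyticOrderNatAt f ρ : ℂ) / (z - ρ) ^ 2 := by
  classical
  obtain ⟨K, hK, hbc⟩ := bc_two
  obtain ⟨F, hF⟩ : ∃ F : {z : ℂ // f z = 0} → ℂ, F =
    fun ρ : {z : ℂ // f z = 0} => (analyticOrderNatAt f (ρ : ℂ) : ℂ) / (z - (ρ : ℂ)) ^ 2 := ⟨_, rfl⟩
  -- finite exhaustion
  have hfin : ∀ R : ℝ, {ρ : {z : ℂ // f z = 0} | ‖(ρ : ℂ)‖ ≤ R}.Finite := by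
    intro R
    obtain ⟨Z, h, hZ, -⟩ := pf_factor f hf h0 R
    refine Set.Finite.of_finite_image (f := fun ρ : {z : ℂ // f z = 0} => (ρ : ℂ)) (Z.finite_toSet.subset ?_)
      Subtype.val_injective.injOn
    rintro w ⟨ρ, hρ, rfl⟩
    exact (hZ ρ.1).2 ⟨ρ.2, hρ⟩
  have hsum : Summable F := by
    have h1 := (pf_summ f hf h0 a C ha hC 2 ha2).mul_left 4
    refine Summable.of_norm_bounded_eventually h1 ?_
    have h2 := (hfin (2 * ‖z‖)).eventually_cofinite_notMem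
    filter_upwards [h2] with ρ hρ
    replace hρ : 2 * ‖z‖ < ‖(ρ : ℂ)‖ := not_le.1 hρ
    have h3 : ‖(ρ : ℂ)‖ / 2 ≤ ‖z - ρ‖ := by
      have h4 := norm_sub_norm_le (ρ : ℂ) z
      rw [norm_sub_rev] at h4
      linarith
    have h5 : 0 < ‖(ρ : ℂ)‖ := lt_of_le_of_lt (by positivity) hρ
    rw [hF]
    simp only [norm_div, norm_pow, Complex.norm_natCast]
    rw [Real.rpow_two, mul_div_assoc', div_le_div_iff₀ (by
      have : 0 < ‖z - ρ‖ := lt_of_lt_of_le (by linarith) h3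
      positivity) (by positivity)]
    have h6 : ‖(ρ : ℂ)‖ ^ 2 ≤ 4 * ‖z - ρ‖ ^ 2 := by nlinarith
    have h7 : (0 : ℝ) ≤ (analyticOrderNatAt f ρ : ℝ) := by positivity
    nlinarith
  have hgoal : deriv (logDeriv f) z = -∑' ρ, F ρ := by
    rw [← sub_eq_zero, ← norm_eq_zero]
    refine le_antisymm (le_of_forall_pos_le_add fun ε hε => ?_) (norm_nonneg _)
    rw [zero_add]
    obtain ⟨s0, hs0⟩ := (Metric.tendsto_nhds.1 hsum.hasSum (ε / 2) (by linarith)).exists_forall_of_atTop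
    -- the bound tends to zero
    have hlim : Tendsto (fun R : ℝ => K * (|C| * (1 + 4 * R) ^ a - Real.log ‖f 0‖ + 1) / R ^ 2) atTop (𝓝 0) := by
      have h1 : Tendsto (fun R : ℝ => (1 + 4 * R) ^ a / R ^ 2) atTop (𝓝 0) := by
        have h2 : Tendsto (fun R : ℝ => (5 : ℝ) ^ a * R ^ (-(2 - a))) atTop (𝓝 0) := by
          have h3 := (tendsto_rpow_neg_atTop (y := 2 - a) (by linarith)).const_mul ((5 : ℝ) ^ a)
          rwa [mul_zero] at h3
        refine squeeze_zero' ?_ ?_ h2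
        · filter_upwards [eventually_ge_atTop (0 : ℝ)] with R hR
          positivity
        · filter_upwards [eventually_ge_atTop (1 : ℝ)] with R hR
          have hR0 : 0 < R := by linarith
          have h4 : (1 + 4 * R) ^ a ≤ (5 : ℝ) ^ a * R ^ a := by
            rw [← Real.mul_rpow (by norm_num) hR0.le]
            exact Real.rpow_le_rpow (by positivity) (by linarith) ha.le
          have h5 : R ^ (-(2 - a)) = R ^ a / R ^ 2 := by
            rw [neg_sub, Real.rpow_sub hR0, Real.rpow_two]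
          rw [h5, mul_div_assoc']
          exact div_le_div_of_nonneg_right h4 (by positivity)
      have h2 : Tendsto (fun R : ℝ => (R ^ 2)⁻¹) atTop (𝓝 0) :=
        tendsto_inv_atTop_zero.comp (tendsto_pow_atTop two_ne_zero)
      have h3 := (h1.const_mul (K * |C|)).add (h2.const_mul (K * (-Real.log ‖f 0‖ + 1)))
      rw [mul_zero, mul_zero, add_zero] at h3
      refine h3.congr fun R => ?_
      ring
    have hev : ∀ᶠ R : ℝ in atTop, K * (|C| * (1 + 4 * R) ^ a - Real.log ‖f 0‖ + 1) / R ^ 2 < ε / 2 :=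
      hlim.eventually (gt_mem_nhds (by linarith))
    have hev2 : ∀ᶠ R : ℝ in atTop, ∀ ρ ∈ s0, ‖((ρ : {z : ℂ // f z = 0}) : ℂ)‖ ≤ R := by
      rw [Filter.eventually_all_finset]
      intro ρ _
      exact eventually_ge_atTop _
    obtain ⟨R, hR1, hR2, hR3, hR4⟩ := (hev.and (hev2.and ((eventually_ge_atTop (4 * (1 + ‖z‖))).and
      (eventually_gt_atTop 0)))).exists
    obtain ⟨Z, h, hZ, hh, hne, hfac⟩ := pf_factor f hf h0 R
    have hZ0 : ∀ ρ ∈ Z, ρ ≠ 0 := by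
      intro ρ hρ h1
      rw [h1] at hρ
      exact h0 ((hZ 0).1 hρ).1
    have hZf : ∀ ρ ∈ Z, f ρ = 0 := fun ρ hρ => ((hZ ρ).1 hρ).1
    have hst := pf_step f h Z (analyticOrderNatAt f) hf hh hZ0 hZf hfac z hz
    have hh0 : h 0 = f 0 := by
      rw [hfac 0]
      simp
    have hB := hbc h R (|C| * (1 + 4 * R) ^ a) hR4 hh hne
      (pf_bd f h Z _ hh R a C hR4 hZ0 (fun ρ hρ => ((hZ ρ).1 hρ).2) hfac hC) z (by linarith)
    rw [hh0] at hB
    have hsub : s0 ⊆ Z.subtype (fun z => f z = 0) := by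
      intro ρ hρ
      rw [Finset.mem_subtype]
      exact (hZ ρ.1).2 ⟨ρ.2, hR2 ρ hρ⟩
    have hd := hs0 _ hsub
    have hse : ∑ ρ ∈ Z.subtype (fun z => f z = 0), F ρ = ∑ ρ ∈ Z, (analyticOrderNatAt f ρ : ℂ) / (z - ρ) ^ 2 := by
      rw [hF]
      exact Finset.sum_subtype_of_mem (fun ρ : ℂ => (analyticOrderNatAt f ρ : ℂ) / (z - ρ) ^ 2) hZf
    rw [hse, dist_eq_norm] at hd
    rw [hst]
    have h5 : -∑ ρ ∈ Z, (analyticOrderNatAt f ρ : ℂ) / (z - ρ) ^ 2 + deriv (logDeriv h) z - -∑' ρ, F ρ =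
        deriv (logDeriv h) z - (∑ ρ ∈ Z, (analyticOrderNatAt f ρ : ℂ) / (z - ρ) ^ 2 - ∑' ρ, F ρ) := by ring
    rw [h5]
    refine (norm_sub_le _ _).trans ?_
    linarith
  rw [hgoal, hF]

end Pool.Agent.H50.RL
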