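import Pool.Agent.H50.RL.Uniq

/-!
[H50 RL SING] F. and M. Riesz / Szegő for singular measures: if `σ` is a finite measure on the circle, singular to Haar
measure, and `f ∈ L²(σ)` has `∫ fourier k f dσ = 0` for all `k ≥ N`, then `f = 0` `σ`-almost everywhere.

PROOF in the Hilbert space `H = Lp ℂ 2 σ`. Write `e k` for the class of `fourier k` (continuous, bounded), and for
`N ∈ ℤ` let `K N` be the closure of the span of the `e k`, `k ≤ N` (`Submodule.topologicalClosure`).
Multiplication by `fourier j` is a linear isometry `V j` of `H` onto `H` with inverse `V (-j)` (`|fourier j| = 1`;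
construct it with `MemLp` of the product, or only prove what is needed) and maps `K N` onto `K (N + j)`.
(1) `e 0 ∈ K (-1)`. Let `F` be the orthogonal projection of `e 0` to `K (-1)` and `u = e 0 - F`, `u ⟂ K (-1)`. For
`k ≤ -1`: `V k (e 0) = e k ∈ K (-1)` and `V k F ∈ K (-1 + k) ⊆ K (-1)`, so `V k u ∈ K (-1)` and `⟪u, V k u⟫ = 0`, i.e.
`∫ fourier k |u|² dσ = 0` for all `k ≤ -1`. So the finite measure `τ = σ.withDensity (‖u‖²)` (`ENNReal.ofReal`, finite
as `u ∈ L²`) satisfies `uniq_neg`: `τ = τ(univ) • haar`. But `τ ≪ σ` is singular to Haar measure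
(`MutuallySingular.mono_ac` ..), so `τ(univ) • haar` is singular to `haar`, hence `τ(univ) = 0`
(`Measure.MutuallySingular.self_iff`, haar ≠ 0). So `∫ ‖u‖² dσ = 0`, `u = 0`, `e 0 = F ∈ K (-1)`.
(2) Hence `e k = V k (e 0) ∈ K (k - 1)` for all `k`, so `K k ⊆ K (k-1)`, so all `K N` are equal and contain all `e k`.
The span of all `e k` is dense in `H`: trigonometric polynomials are uniformly dense in `C(Ci,ℂ)`
(`span_fourier_closure_eq_top`) and continuous functions are dense in `L²(σ)` (`ContinuousMap.toLp_denseRange`; `σ` is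
a finite Borel measure on a compact metric space, so regular). So `K N = ⊤` for all `N`.
(3) `∫ fourier k f dσ = ⟪e (-k), f⟫` (inner product conjugate linear in the first variable, `fourier (-k)` is the
conjugate of `fourier k`), so `f ⟂ e j` for all `j ≤ -N`, `f ⟂ K (-N) = ⊤`, `f = 0`.
-/

set_option autoImplicit false

namespace Pool.Agent.H50.RL

open MeasureTheory Filter Topology

section SingAux

variable (σ : Measure Ci) [IsFiniteMeasure σ]

/-- the class of `fourier k` -/
private noncomputable def ee (k : ℤ) : Lp ℂ 2 σ := ContinuousMap.toLp (E := ℂ) 2 σ ℂ (fourier k)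

private theorem ee_coe (k : ℤ) : (ee σ k : Ci → ℂ) =ᵐ[σ] fun x => (fourier k x : ℂ) :=
  ContinuousMap.coeFn_toLp σ (fourier k)

private theorem norm_fourier (k : ℤ) (x : Ci) : ‖(fourier k x : ℂ)‖ = 1 := by
  rw [fourier_apply]; exact Circle.norm_coe _

private theorem memV (k : ℤ) (f : Ci → ℂ) (hf : MemLp f 2 σ) : MemLp (fun x => (fourier k x : ℂ) * f x) 2 σ := by
  refine hf.of_le_mul (c := 1) ?_ ?_
  · exact (ContinuousMap.continuous (fourier k)).aestronglyMeasurable.mul hf.1
  · refine Eventually.of_forall fun x => ?_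
    rw [norm_mul, norm_fourier]

/-- multiplication by `fourier k`, as a linear map -/
private noncomputable def Vl (k : ℤ) : Lp ℂ 2 σ →ₗ[ℂ] Lp ℂ 2 σ where
  toFun f := (memV σ k f (Lp.memLp f)).toLp _
  map_add' f g := by
    rw [← MemLp.toLp_add]
    refine (MemLp.toLp_eq_toLp_iff _ _).2 ?_
    filter_upwards [Lp.coeFn_add f g] with x hx
    simp only [hx, Pi.add_apply]
    ring
  map_smul' c f := by
    rw [RingHom.id_apply, ← MemLp.toLp_const_smul]
    refine (MemLp.toLp_eq_toLp_iff _ _).2 ?_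
    filter_upwards [Lp.coeFn_smul c f] with x hx
    simp only [hx, Pi.smul_apply, smul_eq_mul]
    ring

private noncomputable def V (k : ℤ) : Lp ℂ 2 σ →L[ℂ] Lp ℂ 2 σ :=
  (Vl σ k).mkContinuous 1 (by
    intro f
    rw [one_mul]
    show ‖(memV σ k f (Lp.memLp f)).toLp _‖ ≤ ‖f‖
    refine Lp.norm_le_norm_of_ae_le ?_
    filter_upwards [(memV σ k f (Lp.memLp f)).coeFn_toLp] with x hx
    rw [hx, norm_mul, norm_fourier, one_mul])

private theorem V_coe (k : ℤ) (f : Lp ℂ 2 σ) : (V σ k f : Ci → ℂ) =ᵐ[σ] fun x => (fourier k x : ℂ) * f x :=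
  (memV σ k f (Lp.memLp f)).coeFn_toLp

private theorem V_ee (k j : ℤ) : V σ k (ee σ j) = ee σ (k + j) := by
  refine Lp.ext ?_
  filter_upwards [V_coe σ k (ee σ j), ee_coe σ j, ee_coe σ (k + j)] with x h1 h2 h3
  rw [h1, h2, h3, fourier_add]

/-- the closed span of the `e k`, `k ≤ N` -/
private noncomputable def KK (N : ℤ) : Submodule ℂ (Lp ℂ 2 σ) :=
  (Submodule.span ℂ (ee σ '' {k | k ≤ N})).topologicalClosure

private theorem ee_mem (N k : ℤ) (h : k ≤ N) : ee σ k ∈ KK σ N :=
  Submodule.le_topologicalClosure _ (Submodule.subset_span ⟨k, h, rfl⟩)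

private theorem KK_le (N : ℤ) (S : Submodule ℂ (Lp ℂ 2 σ)) (hS : IsClosed (S : Set (Lp ℂ 2 σ)))
    (h : ∀ k ≤ N, ee σ k ∈ S) : KK σ N ≤ S := by
  refine Submodule.topologicalClosure_minimal _ ?_ hS
  rw [Submodule.span_le]
  rintro _ ⟨k, hk, rfl⟩
  exact h k hk

private theorem KK_closed (N : ℤ) : IsClosed (KK σ N : Set (Lp ℂ 2 σ)) :=
  Submodule.isClosed_topologicalClosure _

private theorem KK_mono (N M : ℤ) (h : N ≤ M) : KK σ N ≤ KK σ M :=
  KK_le σ N _ (KK_closed σ M) fun k hk => ee_mem σ M k (hk.trans h)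

private theorem V_mem (N k : ℤ) (f : Lp ℂ 2 σ) (hf : f ∈ KK σ N) : V σ k f ∈ KK σ (k + N) := by
  have h : KK σ N ≤ (KK σ (k + N)).comap (V σ k : Lp ℂ 2 σ →ₗ[ℂ] Lp ℂ 2 σ) := by
    refine KK_le σ N _ ?_ ?_
    · exact (KK_closed σ (k + N)).preimage (V σ k).continuous
    · intro j hj
      show V σ k (ee σ j) ∈ KK σ (k + N)
      rw [V_ee]
      exact ee_mem σ _ _ (by omega)
  exact h hf

/-- step (1) -/
private theorem e0_mem (hs : σ.MutuallySingular (AddCircle.haarAddCircle : Measure Ci)) : ee σ 0 ∈ KK σ (-1) := by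
  haveI : CompleteSpace (KK σ (-1)) := (KK_closed σ (-1)).completeSpace_coe
  obtain ⟨F, hF, u, hu, he⟩ := (KK σ (-1)).exists_add_mem_mem_orthogonal (ee σ 0)
  have horth : ∀ k : ℤ, k ≤ -1 → ∫ x, (fourier k x : ℂ) * ((‖(u : Ci → ℂ) x‖ ^ 2 : ℝ) : ℂ) ∂σ = 0 := by
    intro k hk
    have hVu : V σ k u ∈ KK σ (-1) := by
      have h1 : u = ee σ 0 - F := by rw [he]; abel
      rw [h1, map_sub, V_ee, add_zero]
      refine Submodule.sub_mem _ (ee_mem σ _ _ hk) (KK_mono σ _ _ ?_ (V_mem σ (-1) k F hF))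
      omega
    have h2 : inner ℂ u (V σ k u) = 0 := by
      have := (Submodule.mem_orthogonal' _ _).1 hu (V σ k u) hVu
      exact this
    rw [L2.inner_def] at h2
    rw [← h2]
    refine integral_congr_ae ?_
    filter_upwards [V_coe σ k u] with x hx
    rw [hx]
    simp only [RCLike.inner_apply]
    rw [mul_assoc, ← Complex.normSq_eq_norm_sq, Complex.mul_conj]
  set d : Ci → NNReal := fun x => ‖(u : Ci → ℂ) x‖₊ ^ 2 with hd
  have hmu : StronglyMeasurable (u : Ci → ℂ) := Lp.stronglyMeasurable u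
  have hdm : Measurable d := (hmu.measurable.nnnorm).pow_const 2
  set τ : Measure Ci := σ.withDensity fun x => (d x : ENNReal) with hτ
  have hfin : ∫⁻ x, (d x : ENNReal) ∂σ ≠ ⊤ := by
    have h3 : Integrable (fun x => ‖(u : Ci → ℂ) x‖ ^ 2) σ := (Lp.memLp u).integrable_norm_pow (by norm_num)
    have h4 := h3.2
    rw [hasFiniteIntegral_iff_ofReal (Eventually.of_forall fun x => by positivity)] at h4
    refine ne_of_lt (lt_of_le_of_lt (le_of_eq ?_) h4)
    refine lintegral_congr fun x => ?_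
    rw [hd, ENNReal.ofReal_pow (norm_nonneg _), ofReal_norm, enorm_eq_nnnorm]
    push_cast
    rfl
  haveI : IsFiniteMeasure τ := isFiniteMeasure_withDensity hfin
  have hτ0 : ∀ k : ℤ, k ≤ -1 → ∫ x, (fourier k x : ℂ) ∂τ = 0 := by
    intro k hk
    rw [hτ, integral_withDensity_eq_integral_smul hdm, ← horth k hk]
    refine integral_congr_ae (Eventually.of_forall fun x => ?_)
    simp only [hd, NNReal.smul_def, Complex.real_smul]
    push_cast
    ring
  have h5 := uniq_neg τ hτ0
  have hac : τ ≪ σ := withDensity_absolutelyContinuous _ _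
  have hsing : τ.MutuallySingular (AddCircle.haarAddCircle : Measure Ci) := hs.mono_ac hac Measure.AbsolutelyContinuous.rfl
  have hac2 : τ ≪ (AddCircle.haarAddCircle : Measure Ci) := by
    rw [h5]; exact Measure.smul_absolutelyContinuous
  have hτz : τ = 0 := (Measure.MutuallySingular.self_iff τ).1 (hsing.mono_ac Measure.AbsolutelyContinuous.rfl hac2)
  have hu0 : u = 0 := by
    have h6 := withDensity_eq_zero (hdm.coe_nnreal_ennreal.aemeasurable) hτz
    refine Lp.ext ?_
    filter_upwards [h6, Lp.coeFn_zero ℂ 2 σ] with x hx hx0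
    rw [hx0]
    have : (d x : ENNReal) = 0 := hx
    have : d x = 0 := by exact_mod_cast this
    simpa [hd] using this
  rw [he, hu0, add_zero]
  exact hF

private theorem all_mem (hs : σ.MutuallySingular (AddCircle.haarAddCircle : Measure Ci)) (N k : ℤ) : ee σ k ∈ KK σ N := by
  have h1 : ∀ k : ℤ, ee σ k ∈ KK σ (k - 1) := by
    intro k
    have := V_mem σ (-1) k _ (e0_mem σ hs)
    rw [V_ee, add_zero] at this
    exact this
  have h2 : ∀ n : ℕ, KK σ (N + n) ≤ KK σ N := by
    intro n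
    induction n with
    | zero => simp
    | succ n ih =>
      refine le_trans (KK_le σ _ _ (KK_closed σ (N + n)) ?_) ih
      intro j hj
      rcases Int.lt_or_eq_of_le hj with h | h
      · exact ee_mem σ _ _ (by push_cast at h; omega)
      · have := h1 j
        rw [h] at this ⊢
        have h7 : N + ((n + 1 : ℕ) : ℤ) - 1 = N + n := by push_cast; ring
        rwa [h7] at this
  rcases le_or_gt k N with h | h
  · exact ee_mem σ _ _ h
  · refine h2 (k - N).toNat (ee_mem σ _ _ ?_)
    have := Int.toNat_of_nonneg (by omega : 0 ≤ k - N)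
    omega

end SingAux

theorem sing (σ : Measure Ci) [IsFiniteMeasure σ] (hs : σ.MutuallySingular (AddCircle.haarAddCircle : Measure Ci))
    (f : Ci → ℂ) (hf : MemLp f 2 σ) (N : ℤ) (h : ∀ k : ℤ, N ≤ k → ∫ x, (fourier k x : ℂ) * f x ∂σ = 0) :
    f =ᵐ[σ] 0 := by
  set g : Lp ℂ 2 σ := hf.toLp f with hg
  have hgc : (g : Ci → ℂ) =ᵐ[σ] f := hf.coeFn_toLp
  have h1 : ∀ j : ℤ, j ≤ -N → inner ℂ (ee σ j) g = 0 := by
    intro j hj
    rw [L2.inner_def, ← h (-j) (by omega)]
    refine integral_congr_ae ?_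
    filter_upwards [hgc, ee_coe σ j] with x h2 h3
    rw [h2, h3, fourier_neg]
    simp only [RCLike.inner_apply]
    ring
  have h2 : KK σ (-N) ≤ (ℂ ∙ g)ᗮ := by
    refine KK_le σ _ _ (Submodule.isClosed_orthogonal _) ?_
    intro j hj
    rw [Submodule.mem_orthogonal_singleton_iff_inner_left]
    exact h1 j hj
  have h3 : (Submodule.span ℂ (Set.range (ee σ))).topologicalClosure = ⊤ := by
    have h4 := (ContinuousMap.toLp_denseRange ℂ σ ℂ (p := 2) (by norm_num)).topologicalClosure_map_submodule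
      (span_fourier_closure_eq_top (T := 2 * Real.pi))
    rw [Submodule.map_span] at h4
    rw [← h4]
    congr 2
    ext x
    simp [ee, Set.mem_image, Set.mem_range]
  have h4 : g ∈ (ℂ ∙ g)ᗮ := by
    have h5 : (Submodule.span ℂ (Set.range (ee σ))).topologicalClosure ≤ (ℂ ∙ g)ᗮ := by
      refine Submodule.topologicalClosure_minimal _ ?_ (Submodule.isClosed_orthogonal _)
      rw [Submodule.span_le]
      rintro _ ⟨k, rfl⟩
      exact h2 (all_mem σ hs (-N) k)
    rw [h3] at h5
    exact h5 trivial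
  have h5 : g = 0 := by
    rw [Submodule.mem_orthogonal_singleton_iff_inner_left] at h4
    exact inner_self_eq_zero.1 h4
  filter_upwards [hgc, Lp.coeFn_zero ℂ 2 σ] with x hx hx0
  rw [← hx, h5, hx0]

end Pool.Agent.H50.RL
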