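import Pool.Agent.H50.RL.Defs

/-!
[H50 RL UNIQ] Finite measures on the circle are determined by their Fourier coefficients; Riemann-Lebesgue.

`uniq`: the real and complex trigonometric polynomials are dense in `C(Ci, ℂ)` (`span_fourier_closure_eq_top`), both
sides are continuous linear functionals of `f ∈ C(Ci, ℂ)` which agree on the `fourier k`, so `∫ f dμ = ∫ f dν` for all
continuous `f`, in particular for real valued ones, and `MeasureTheory.ext_of_forall_integral_eq_of_IsFiniteMeasure`.
`haar_int`: orthogonality, `∫ fourier k dHaar = 0` for `k ≠ 0` (Mathlib: `fourierCoeff`, orthonormality of `fourierLp`,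
or translation invariance: translating by `x0` with `fourier k x0 ≠ 1` multiplies the integral by it).
`haar_of_zero`: apply `uniq` to `μ` and `μ(univ) • haar`: coefficients `0` agree since Haar is a probability measure,
the other ones are all `0`.
`rl`: for trigonometric polynomials `g` the integral is `0` outside of a finite set of `k`; they are dense in
`L¹(haar)` (continuous functions are dense in `L¹`, and `span_fourier_closure_eq_top`; or `fourierLp` in `L²` and
`L²` is dense in `L¹`), and `‖∫ fourier k * g‖ ≤ ∫ ‖g‖`. (Mathlib may have it: `tendsto_fourierCoeff..`, or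
`Real.zero_at_infty_fourier` on the line after passing to an interval of length `2π`.)
`uniq_neg`: if `∫ fourier k dμ = 0` for all `k ≤ -1` then also for all `k ≥ 1` (`μ` is a positive, so real, measure:
`fourier (-k) x = conj (fourier k x)` and `integral_conj`), so `μ` is a multiple of Haar.
-/

set_option autoImplicit false

namespace Pool.Agent.H50.RL

open MeasureTheory Filter Topology

/-- the integral as a continuous functional -/
private noncomputable def intL (μ : Measure Ci) [IsFiniteMeasure μ] : C(Ci, ℂ) →L[ℂ] ℂ :=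
  LinearMap.mkContinuous
    { toFun := fun f => ∫ x, f x ∂μ
      map_add' := fun f g => by
        simp only [ContinuousMap.add_apply]
        exact integral_add ((BoundedContinuousFunction.mkOfCompact f).integrable μ)
          ((BoundedContinuousFunction.mkOfCompact g).integrable μ)
      map_smul' := fun c f => by
        simp only [ContinuousMap.smul_apply, RingHom.id_apply]
        exact integral_smul c _ } (μ.real Set.univ) fun f => by
    have h1 : ‖∫ x, f x ∂μ‖ ≤ ‖f‖ * μ.real Set.univ :=
      norm_integral_le_of_norm_le_const (Filter.Eventually.of_forall fun x => f.norm_coe_le_norm x)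
    exact h1.trans_eq (mul_comm _ _)

private theorem intL_apply (μ : Measure Ci) [IsFiniteMeasure μ] (f : C(Ci, ℂ)) : intL μ f = ∫ x, f x ∂μ := rfl

theorem uniq (μ ν : Measure Ci) [IsFiniteMeasure μ] [IsFiniteMeasure ν]
    (h : ∀ k : ℤ, ∫ x, (fourier k x : ℂ) ∂μ = ∫ x, (fourier k x : ℂ) ∂ν) : μ = ν := by
  have h1 : intL μ = intL ν := by
    refine ContinuousLinearMap.ext_on (s := Set.range (fourier (T := 2 * Real.pi)))
      (Submodule.dense_iff_topologicalClosure_eq_top.2 span_fourier_closure_eq_top) ?_
    rintro _ ⟨k, rfl⟩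
    exact h k
  refine ext_of_forall_integral_eq_of_IsFiniteMeasure fun f => ?_
  have h2 := congrArg (fun L : C(Ci, ℂ) →L[ℂ] ℂ => L ⟨fun x => ((f x : ℝ) : ℂ), by fun_prop⟩) h1
  simp only [intL_apply, ContinuousMap.coe_mk] at h2
  rw [integral_complex_ofReal, integral_complex_ofReal] at h2
  exact_mod_cast h2

theorem haar_int (k : ℤ) (hk : k ≠ 0) : ∫ x : Ci, (fourier k x : ℂ) ∂AddCircle.haarAddCircle = 0 :=
  integral_eq_zero_of_add_right_eq_neg (μ := AddCircle.haarAddCircle)
    (fourier_add_half_inv_index hk (by positivity))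

theorem uniq_neg (μ : Measure Ci) [IsFiniteMeasure μ] (h : ∀ k : ℤ, k ≤ -1 → ∫ x, (fourier k x : ℂ) ∂μ = 0) :
    μ = (μ Set.univ) • (AddCircle.haarAddCircle : Measure Ci) := by
  have : IsFiniteMeasure ((μ Set.univ) • (AddCircle.haarAddCircle : Measure Ci)) :=
    Measure.smul_finite _ (measure_ne_top μ _)
  refine uniq _ _ fun k => ?_
  rw [integral_smul_measure]
  rcases lt_trichotomy k 0 with h1 | h1 | h1
  · rw [h k (by omega), haar_int k h1.ne, smul_zero]
  · subst h1
    simp only [fourier_zero, integral_const]
    simp [Measure.real]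
  · rw [haar_int k h1.ne', smul_zero]
    have h2 : ∀ x : Ci, (fourier k x : ℂ) = (starRingEnd ℂ) (fourier (-k) x : ℂ) := fun x => by
      rw [fourier_neg, Complex.conj_conj]
    simp_rw [h2]
    rw [integral_conj, h (-k) (by omega), map_zero]

private theorem int_mul (k : ℤ) {g : Ci → ℂ} (hg : Integrable g (AddCircle.haarAddCircle : Measure Ci)) :
    Integrable (fun x => (fourier k x : ℂ) * g x) (AddCircle.haarAddCircle : Measure Ci) := by
  refine hg.norm.mono' ((fourier k).continuous.aestronglyMeasurable.mul hg.1) (Filter.Eventually.of_forall fun x => ?_)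
  rw [norm_mul]
  have : ‖(fourier k x : ℂ)‖ = 1 := Circle.norm_coe _
  rw [this, one_mul]

private theorem int_c (p : C(Ci, ℂ)) : Integrable p (AddCircle.haarAddCircle : Measure Ci) :=
  (BoundedContinuousFunction.mkOfCompact p).integrable _

private theorem rl_poly (p : C(Ci, ℂ)) (hp : p ∈ Submodule.span ℂ (Set.range (fourier (T := 2 * Real.pi)))) :
    Tendsto (fun k : ℤ => ∫ x, (fourier k x : ℂ) * p x ∂AddCircle.haarAddCircle) cofinite (𝓝 0) := by
  induction hp using Submodule.span_induction with
  | mem p hp =>
    obtain ⟨n, rfl⟩ := hp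
    refine tendsto_const_nhds.congr' ?_
    filter_upwards [(Set.finite_singleton (-n)).compl_mem_cofinite] with k hk
    have hk' : k + n ≠ 0 := fun h => hk (by simp; omega)
    have h1 := haar_int (k + n) hk'
    rw [← h1]
    refine integral_congr_ae (Filter.Eventually.of_forall fun x => ?_)
    exact fourier_add
  | zero =>
    simp
  | add p q _ _ hp hq =>
    have h1 := hp.add hq
    rw [add_zero] at h1
    refine h1.congr fun k => ?_
    rw [← integral_add (int_mul k (int_c p)) (int_mul k (int_c q))]
    refine integral_congr_ae (Filter.Eventually.of_forall fun x => ?_)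
    simp only [ContinuousMap.add_apply]
    ring
  | smul c p _ hp =>
    have h1 := hp.const_mul c
    rw [mul_zero] at h1
    refine h1.congr fun k => ?_
    rw [← integral_const_mul]
    refine integral_congr_ae (Filter.Eventually.of_forall fun x => ?_)
    simp only [ContinuousMap.smul_apply, smul_eq_mul]
    ring

theorem rl (g : Ci → ℂ) (hg : Integrable g AddCircle.haarAddCircle) :
    Tendsto (fun k : ℤ => ∫ x, (fourier k x : ℂ) * g x ∂AddCircle.haarAddCircle) cofinite (𝓝 0) := by
  rw [Metric.tendsto_nhds]
  intro ε hε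
  obtain ⟨f, hf, hfi⟩ := hg.exists_boundedContinuous_integral_sub_le (ε := ε / 4) (by positivity)
  have hd : Dense (Submodule.span ℂ (Set.range (fourier (T := 2 * Real.pi))) : Set C(Ci, ℂ)) :=
    Submodule.dense_iff_topologicalClosure_eq_top.2 span_fourier_closure_eq_top
  obtain ⟨p, hp, hfp⟩ := hd.exists_dist_lt f.toContinuousMap (show 0 < ε / 4 by positivity)
  have h1 := rl_poly p hp
  rw [Metric.tendsto_nhds] at h1
  filter_upwards [h1 (ε / 4) (by positivity)] with k hk
  rw [dist_zero_right] at hk ⊢
  have e : ∫ x, (fourier k x : ℂ) * g x ∂AddCircle.haarAddCircle =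
      ∫ x, (fourier k x : ℂ) * (g x - f x) ∂AddCircle.haarAddCircle +
        (∫ x, (fourier k x : ℂ) * (f x - p x) ∂AddCircle.haarAddCircle +
          ∫ x, (fourier k x : ℂ) * p x ∂AddCircle.haarAddCircle) := by
    have i1 : Integrable (fun x => (fourier k x : ℂ) * (g x - f x)) (AddCircle.haarAddCircle : Measure Ci) :=
      int_mul k (hg.sub hfi)
    have i2 : Integrable (fun x => (fourier k x : ℂ) * (f x - p x)) (AddCircle.haarAddCircle : Measure Ci) :=
      int_mul k (hfi.sub (int_c p))
    have i3 : Integrable (fun x => (fourier k x : ℂ) * p x) (AddCircle.haarAddCircle : Measure Ci) :=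
      int_mul k (int_c p)
    have h6 := integral_add i2 i3
    have h7 := integral_add i1 (i2.add i3)
    simp only [Pi.add_apply] at h7
    rw [← h6, ← h7]
    refine integral_congr_ae (Filter.Eventually.of_forall fun x => ?_)
    simp only
    ring
  have hn : ∀ u : Ci → ℂ, ‖∫ x, (fourier k x : ℂ) * u x ∂AddCircle.haarAddCircle‖ ≤
      ∫ x, ‖u x‖ ∂(AddCircle.haarAddCircle : Measure Ci) := by
    intro u
    refine (norm_integral_le_integral_norm _).trans_eq ?_
    refine integral_congr_ae (Filter.Eventually.of_forall fun x => ?_)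
    have : ‖(fourier k x : ℂ)‖ = 1 := Circle.norm_coe _
    simp only [norm_mul, this, one_mul]
  have h2 := (hn (fun x => g x - f x)).trans hf
  have h3 : ‖∫ x, (fourier k x : ℂ) * (f x - p x) ∂AddCircle.haarAddCircle‖ ≤ ε / 4 := by
    refine (hn (fun x => f x - p x)).trans ?_
    have h4 : ∀ x, ‖f x - p x‖ ≤ ε / 4 := fun x => by
      have h5 := ContinuousMap.dist_apply_le_dist (f := f.toContinuousMap) (g := p) x
      rw [dist_eq_norm] at h5
      exact h5.trans hfp.le
    have h5 : ∫ x, ‖f x - p x‖ ∂(AddCircle.haarAddCircle : Measure Ci) ≤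
        ∫ _, ε / 4 ∂(AddCircle.haarAddCircle : Measure Ci) :=
      integral_mono (hfi.sub (int_c p)).norm (integrable_const _) h4
    refine h5.trans_eq ?_
    simp
  rw [e]
  have h8 := norm_add_le (∫ x, (fourier k x : ℂ) * (g x - f x) ∂AddCircle.haarAddCircle)
    (∫ x, (fourier k x : ℂ) * (f x - p x) ∂AddCircle.haarAddCircle +
          ∫ x, (fourier k x : ℂ) * p x ∂AddCircle.haarAddCircle)
  have h9 := norm_add_le (∫ x, (fourier k x : ℂ) * (f x - p x) ∂AddCircle.haarAddCircle)
    (∫ x, (fourier k x : ℂ) * p x ∂AddCircle.haarAddCircle)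
  linarith

end Pool.Agent.H50.RL
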