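import Pool.Agent.H50.RL.Defs

/-!
# RIGHTMOST LINE (MP_1650a8_nt): definitions around zeta

`ZZ`: ALL zeros of `riemannZeta` (the trivial ones too; `riemannZeta 1 ≠ 0` in Mathlib), `mz` the multiplicity,
`FF s = (s-1) ζ(s)` (entire), `Lp Ψ z = ∫_0^∞ Ψ(v) exp(z v) dv`, `Lf k z = ∫ k(u) exp(z u) du`,
`fz u = ψ(exp u) - exp u`, `Tz` the (negative of the) contribution of the zeros with real part `≤ 0`.
-/

set_option autoImplicit false

namespace Pool.Agent.H50.RL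

open MeasureTheory Filter Topology

/-- all zeros of `ζ` (trivial ones too) -/
abbrev ZZ : Type := {ρ : ℂ // riemannZeta ρ = 0}

/-- the multiplicity of a zero -/
noncomputable def mz (ρ : ZZ) : ℝ := (analyticOrderNatAt riemannZeta (ρ : ℂ) : ℝ)

/-- `(s-1) ζ(s)`, an entire function -/
noncomputable def FF : ℂ → ℂ := Function.update (fun s => (s - 1) * riemannZeta s) 1 1

/-- `∫_0^∞ Ψ(v) exp(z v) dv` -/
noncomputable def Lp (Ψ : ℝ → ℝ) (z : ℂ) : ℂ :=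
  ∫ v in Set.Ioi (0 : ℝ), (Ψ v : ℂ) * Complex.exp (z * v)

/-- `∫ k(u) exp(z u) du` -/
noncomputable def Lf (k : ℝ → ℝ) (z : ℂ) : ℂ :=
  ∫ u : ℝ, (k u : ℂ) * Complex.exp (z * u)

/-- `ψ(exp u) - exp u` -/
noncomputable def fz (u : ℝ) : ℝ := Chebyshev.psi (Real.exp u) - Real.exp u

/-- minus the contribution of the zeros with real part `≤ 0` -/
noncomputable def Tz (u : ℝ) : ℝ :=
  -∑' ρ : ZZ, if (ρ : ℂ).re ≤ 0 then mz ρ / ‖(ρ : ℂ)‖ * Real.exp ((ρ : ℂ).re * u) else 0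

/-- the difference, with the correction by `Tz` -/
noncomputable def ez (η u : ℝ) : ℝ := fz u - fz (u - η) + (Tz u - Tz (u - η))

/-- minus the sum over the zeros on the line `Re s = Θ` -/
noncomputable def rz (Θ u : ℝ) : ℂ :=
  -∑' ρ : ZZ, if (ρ : ℂ).re = Θ then ((mz ρ : ℂ) / (ρ : ℂ)) *
    Complex.exp ((((ρ : ℂ).im * u : ℝ) : ℂ) * Complex.I) else 0

/-- `∫ κ(v) exp(s (y - h v)) dv` -/
noncomputable def Wk (κ : ℝ → ℝ) (y h : ℝ) (s : ℂ) : ℂ :=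
  ∫ v : ℝ, (κ v : ℂ) * Complex.exp (s * ((y - h * v : ℝ) : ℂ))

/-- `∫ Ψ(u) exp((2 + i t) u) du` -/
noncomputable def Ft (Ψ : ℝ → ℝ) (t : ℝ) : ℂ :=
  ∫ u : ℝ, (Ψ u : ℂ) * Complex.exp ((2 + (t : ℂ) * Complex.I) * u)

end Pool.Agent.H50.RL
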