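import Pool.Agent.H50.RL.Zdefs

/-!
[H50 RL ZF] Basic facts on `FF s = (s-1) ζ(s)` and on the zeros of zeta.

PROOF. `FF_diff`: off `1` clear (`differentiableAt_riemannZeta`); at `1`: `riemannZeta_residue_one` gives
`(s-1) ζ(s) → 1`, so `FF` is continuous at `1` and differentiable near it:
`Complex.differentiableOn_compl_singleton_and_continuousAt_iff` (removable singularity). `FF_zero_iff`: at `s = 1`, `FF 1 = 1 ≠ 0` and
`riemannZeta 1 ≠ 0` (`riemannZeta_one_ne_zero` or `riemannZeta_ne_zero_of_one_le_re`). `FF_order`: near `ρ ≠ 1` `FF = (s-1) ζ`,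
`analyticOrderAt_mul` and the first factor does not vanish at `ρ` (order `0`). `FF_logDeriv`: near `s`, `Re s > 1`,
`logDeriv FF = 1/(s-1) + ζ'/ζ`. `zeta_right`: `riemannZeta_ne_zero_of_one_le_re`. `zeta_left`: functional equation
(`riemannZeta_one_sub`, or the completed zeta function): if `Re ρ ≤ 0`, `ρ ≠ 0`
(`riemannZeta_zero = -1/2`), put `s = 1 - ρ`, `Re s ≥ 1`: `ζ(ρ) = 2 (2π)^(-s) Γ(s) cos(π s/2) ζ(s)` (for `s ≠ 1`, i.e. `ρ ≠ 0`, and `s ≠ -n`),
`Γ(s) ≠ 0`, `ζ(s) ≠ 0`, so `cos(π s/2) = 0`, `s` is an odd integer `≥ 3` (`s = 1` is `ρ = 0`), `ρ = 1 - s = -2(n+1)`.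
`zeta_sym`: for `0 < Re ρ < 1` the same formula with `s = ρ`. `mz_conj`: `riemannZeta_conj` and the order of
`conj ∘ f ∘ conj` (use the factorisation `f = (s-ρ)^n g` near `ρ`, conjugated). `mz_one_le`: the order is finite (the zeros are isolated,
`Mathlib/NumberTheory/LSeries/ZetaZeros.lean`) and positive. `zz_away`: the zeros are a closed discrete set, `0` is not a zero, so
there is `c > 0` with `c ≤ ‖ρ‖`.
-/

set_option autoImplicit false

namespace Pool.Agent.H50.RL

open MeasureTheory Filter Topology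

theorem FF_diff : Differentiable ℂ FF := by
  rw [← differentiableOn_univ]
  rw [← Complex.differentiableOn_compl_singleton_and_continuousAt_iff (c := (1 : ℂ)) univ_mem]
  constructor
  · intro s hs
    have hs1 : s ≠ 1 := by
      simpa using hs
    apply DifferentiableAt.differentiableWithinAt
    have h1 : DifferentiableAt ℂ (fun s : ℂ => (s - 1) * riemannZeta s) s :=
      (differentiableAt_id.sub_const 1).mul (differentiableAt_riemannZeta hs1)
    refine h1.congr_of_eventuallyEq ?_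
    filter_upwards [isOpen_ne.mem_nhds hs1] with z hz
    rw [FF, Function.update_of_ne hz]
  · rw [FF, continuousAt_update_same]
    exact riemannZeta_residue_one

private theorem FF_apply {s : ℂ} (hs : s ≠ 1) : FF s = (s - 1) * riemannZeta s := by
  rw [FF, Function.update_of_ne hs]

private theorem FF_eventually {s : ℂ} (hs : s ≠ 1) :
    FF =ᶠ[𝓝 s] (fun z => z - 1) * riemannZeta := by
  filter_upwards [isOpen_ne.mem_nhds hs] with z hz
  exact FF_apply hz

private theorem ne_one_of_zero {s : ℂ} (h : riemannZeta s = 0) : s ≠ 1 := by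
  rintro rfl
  exact riemannZeta_one_ne_zero h

private theorem zeta_an {s : ℂ} (hs : s ≠ 1) : AnalyticAt ℂ riemannZeta s :=
  analyticOn_riemannZeta s hs

theorem FF_zero_iff (s : ℂ) : FF s = 0 ↔ riemannZeta s = 0 := by
  by_cases hs : s = 1
  · rw [hs]
    have h1 : FF 1 = 1 := by rw [FF, Function.update_self]
    rw [h1]
    exact ⟨fun h => absurd h one_ne_zero, fun h => absurd h riemannZeta_one_ne_zero⟩
  · rw [FF_apply hs, mul_eq_zero, or_iff_right (sub_ne_zero.2 hs)]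

theorem FF_order (ρ : ℂ) (h : riemannZeta ρ = 0) :
    analyticOrderNatAt FF ρ = analyticOrderNatAt riemannZeta ρ := by
  have h1 := ne_one_of_zero h
  have h2 : AnalyticAt ℂ (fun z : ℂ => z - 1) ρ := analyticAt_id.sub analyticAt_const
  have h3 : analyticOrderAt (fun z : ℂ => z - 1) ρ = 0 :=
    h2.analyticOrderAt_eq_zero.2 (sub_ne_zero.2 h1)
  unfold analyticOrderNatAt
  rw [analyticOrderAt_congr (FF_eventually h1), analyticOrderAt_mul h2 (zeta_an h1), h3, zero_add]

theorem FF_logDeriv (s : ℂ) (hs : 1 < s.re) :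
    logDeriv FF s = 1 / (s - 1) + deriv riemannZeta s / riemannZeta s := by
  have h1 : s ≠ 1 := by
    rintro rfl
    rw [Complex.one_re] at hs
    exact lt_irrefl _ hs
  have h2 : logDeriv FF s = logDeriv (fun z => (z - 1) * riemannZeta z) s :=
    (logDeriv_congr_nhds (FF_eventually h1)).self_of_nhds
  have h3 : DifferentiableAt ℂ (fun z : ℂ => z - 1) s := differentiableAt_id.sub_const 1
  have h5 := logDeriv_mul (f := fun z : ℂ => z - 1) (g := riemannZeta) s (sub_ne_zero.2 h1)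
    (riemannZeta_ne_zero_of_one_le_re hs.le) h3 (differentiableAt_riemannZeta h1)
  rw [h2, h5, logDeriv_apply, logDeriv_apply]
  have h4 : deriv (fun z : ℂ => z - 1) s = 1 := by
    rw [deriv_sub_const]
    exact deriv_id s
  rw [h4]

theorem zz_re_lt (ρ : ZZ) : (ρ : ℂ).re < 1 := by
  by_contra h
  exact riemannZeta_ne_zero_of_one_le_re (not_lt.1 h) ρ.2

theorem zeta_left (ρ : ℂ) (h : riemannZeta ρ = 0) (hre : ρ.re ≤ 0) : ∃ n : ℕ, ρ = -2 * ((n : ℂ) + 1) := by
  obtain ⟨s, hs⟩ : ∃ s : ℂ, s = 1 - ρ := ⟨_, rfl⟩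
  have hρ : ρ = 1 - s := by rw [hs]; ring
  have hsre : 1 ≤ s.re := by
    rw [hs, Complex.sub_re, Complex.one_re]
    linarith
  have hs1 : s ≠ 1 := by
    intro h1
    rw [hρ, h1, sub_self, riemannZeta_zero] at h
    norm_num at h
  have hsn : ∀ n : ℕ, s ≠ -n := by
    intro n h1
    rw [h1] at hsre
    simp at hsre
    have : (0 : ℝ) ≤ n := n.cast_nonneg
    linarith
  have hG : Complex.Gamma s ≠ 0 := Complex.Gamma_ne_zero_of_re_pos (by linarith)
  have hz : riemannZeta s ≠ 0 := riemannZeta_ne_zero_of_one_le_re hsre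
  have hp : (2 * (Real.pi : ℂ)) ^ (-s) ≠ 0 := by
    rw [Complex.cpow_ne_zero_iff]
    left
    exact mul_ne_zero two_ne_zero (Complex.ofReal_ne_zero.2 Real.pi_ne_zero)
  rw [hρ, riemannZeta_one_sub hsn hs1] at h
  have hc : Complex.cos (Real.pi * s / 2) = 0 := by
    rcases mul_eq_zero.1 h with h1 | h1
    · rcases mul_eq_zero.1 h1 with h2 | h2
      · rcases mul_eq_zero.1 h2 with h3 | h3
        · rcases mul_eq_zero.1 h3 with h4 | h4
          · exact absurd h4 two_ne_zero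
          · exact absurd h4 hp
        · exact absurd h3 hG
      · exact h2
    · exact absurd h1 hz
  obtain ⟨k, hk⟩ := Complex.cos_eq_zero_iff.1 hc
  have hpi : (Real.pi : ℂ) ≠ 0 := Complex.ofReal_ne_zero.2 Real.pi_ne_zero
  have hs2 : s = 2 * (k : ℂ) + 1 := by
    have h1 : (Real.pi : ℂ) * s = Real.pi * (2 * (k : ℂ) + 1) := by
      linear_combination 2 * hk
    exact mul_left_cancel₀ hpi h1
  have hk0 : 0 < k := by
    have h1 : (0 : ℤ) ≤ k := by
      rw [hs2] at hsre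
      simp at hsre
      exact_mod_cast hsre
    rcases h1.lt_or_eq with h2 | h2
    · exact h2
    · exfalso
      apply hs1
      rw [hs2, ← h2]
      simp
  obtain ⟨n, hn⟩ := Int.eq_ofNat_of_zero_le (show (0 : ℤ) ≤ k - 1 by omega)
  refine ⟨n, ?_⟩
  have hkn : (k : ℂ) = (n : ℂ) + 1 := by
    have h1 : k = (n : ℤ) + 1 := by omega
    rw [h1]
    push_cast
    ring
  rw [hρ, hs2, hkn]
  ring

theorem zeta_sym (ρ : ℂ) (h : riemannZeta ρ = 0) (hre : 0 < ρ.re) : riemannZeta (1 - ρ) = 0 := by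
  have hsn : ∀ n : ℕ, ρ ≠ -n := by
    intro n h1
    rw [h1] at hre
    simp at hre
    have : (0 : ℝ) ≤ n := n.cast_nonneg
    linarith
  rw [riemannZeta_one_sub hsn (ne_one_of_zero h), h, mul_zero]

theorem zeta_conj_zero (ρ : ℂ) (h : riemannZeta ρ = 0) : riemannZeta ((starRingEnd ℂ) ρ) = 0 := by
  rw [riemannZeta_conj, h, map_zero]

private theorem zeta_order_ne_top {s : ℂ} (hs : s ≠ 1) : analyticOrderAt riemannZeta s ≠ ⊤ := by
  have h2 : (2 : ℂ) ≠ 1 := by norm_num
  refine analyticOn_riemannZeta.analyticOrderAt_ne_top_of_isPreconnected (x := 2)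
    (isConnected_compl_singleton_of_one_lt_rank (by simp) 1).isPreconnected h2 hs ?_
  rw [(zeta_an h2).analyticOrderAt_eq_zero.2
    (riemannZeta_ne_zero_of_one_le_re (by norm_num))]
  exact ENat.zero_ne_top

private theorem an_conj {g : ℂ → ℂ} {s : ℂ} (hg : AnalyticAt ℂ g s) :
    AnalyticAt ℂ ((starRingEnd ℂ) ∘ g ∘ (starRingEnd ℂ)) ((starRingEnd ℂ) s) := by
  rw [Complex.analyticAt_iff_eventually_differentiableAt] at hg ⊢
  have h1 : Tendsto (starRingEnd ℂ) (𝓝 ((starRingEnd ℂ) s)) (𝓝 s) := by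
    have h2 := (Complex.continuous_conj.tendsto ((starRingEnd ℂ) s))
    rwa [Complex.conj_conj] at h2
  filter_upwards [h1.eventually hg] with z hz
  have h3 := hz.conj_conj
  rwa [Complex.conj_conj] at h3

theorem mz_conj (ρ : ZZ) : mz ⟨(starRingEnd ℂ) (ρ : ℂ), zeta_conj_zero ρ ρ.2⟩ = mz ρ := by
  obtain ⟨s, hs⟩ := ρ
  show (analyticOrderNatAt riemannZeta ((starRingEnd ℂ) s) : ℝ) =
    (analyticOrderNatAt riemannZeta s : ℝ)
  rw [Nat.cast_inj]
  have h1 := ne_one_of_zero hs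
  have h2 := ne_one_of_zero (zeta_conj_zero s hs)
  obtain ⟨g, hg1, hg2, hg3⟩ := ((zeta_an h1).analyticOrderNatAt_eq_iff (zeta_order_ne_top h1)).1
    (rfl : analyticOrderNatAt riemannZeta s = analyticOrderNatAt riemannZeta s)
  refine ((zeta_an h2).analyticOrderNatAt_eq_iff (zeta_order_ne_top h2)).2
    ⟨(starRingEnd ℂ) ∘ g ∘ (starRingEnd ℂ), an_conj hg1, ?_, ?_⟩
  · intro h3
    apply hg2
    have h4 : (starRingEnd ℂ) (g ((starRingEnd ℂ) ((starRingEnd ℂ) s))) = 0 := h3
    rw [Complex.conj_conj, map_eq_zero] at h4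
    exact h4
  · have h5 : Tendsto (starRingEnd ℂ) (𝓝 ((starRingEnd ℂ) s)) (𝓝 s) := by
      have h2 := (Complex.continuous_conj.tendsto ((starRingEnd ℂ) s))
      rwa [Complex.conj_conj] at h2
    filter_upwards [h5.eventually hg3] with z hz
    have h6 : riemannZeta z = (starRingEnd ℂ) (riemannZeta ((starRingEnd ℂ) z)) := by
      rw [riemannZeta_conj, Complex.conj_conj]
    rw [h6, hz, smul_eq_mul, map_mul, map_pow, map_sub, Complex.conj_conj]
    rfl

theorem mz_one_le (ρ : ZZ) : 1 ≤ mz ρ := by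
  obtain ⟨s, hs⟩ := ρ
  show (1 : ℝ) ≤ (analyticOrderNatAt riemannZeta s : ℝ)
  have h1 := ne_one_of_zero hs
  have h2 : analyticOrderAt riemannZeta s ≠ 0 := (zeta_an h1).analyticOrderAt_ne_zero.2 hs
  have h3 := Nat.cast_analyticOrderNatAt (zeta_order_ne_top h1)
  have h4 : analyticOrderNatAt riemannZeta s ≠ 0 := by
    intro h5
    rw [h5] at h3
    exact h2 h3.symm
  exact_mod_cast Nat.one_le_iff_ne_zero.2 h4

theorem zz_away : ∃ c : ℝ, 0 < c ∧ ∀ ρ : ZZ, c ≤ ‖(ρ : ℂ)‖ := by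
  have h1 : (0 : ℂ) ∈ riemannZetaZerosᶜ := by
    intro h
    have h2 : riemannZeta 0 = 0 := h
    rw [riemannZeta_zero] at h2
    norm_num at h2
  obtain ⟨c, hc, hc'⟩ := Metric.isOpen_iff.1 isClosed_riemannZetaZeros.isOpen_compl 0 h1
  refine ⟨c, hc, fun ρ => ?_⟩
  by_contra h
  have h2 : (ρ : ℂ) ∈ Metric.ball (0 : ℂ) c := by
    rw [mem_ball_zero_iff]
    exact not_le.1 h
  exact hc' h2 ρ.2

theorem zz_finite (R : ℝ) : {ρ : ZZ | ‖(ρ : ℂ)‖ ≤ R}.Finite := by
  have h1 := (isCompact_closedBall (0 : ℂ) R).inter_riemannZetaZeros_finite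
  have h2 := h1.preimage (f := fun ρ : ZZ => (ρ : ℂ)) Subtype.val_injective.injOn
  refine h2.subset fun ρ hρ => ?_
  exact ⟨mem_closedBall_zero_iff.2 hρ, ρ.2⟩

end Pool.Agent.H50.RL
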